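import Pool.Agent.Work.MP_bd3ec3_nt.SG.Stmts

/-!
# Curves with small discriminant
-/

set_option autoImplicit false

namespace Pool.Agent.Work.MP_bd3ec3_nt.SG

open Pool.Agent.Work.MP_bd3ec3_nt.SP

namespace IDC

/-- The integers in an interval. -/
theorem cI (a b : ℝ) (h : a ≤ b + 1) : ((Finset.Icc ⌈a⌉ ⌊b⌋).card : ℝ) ≤ b - a + 1 := by
  rw [Int.card_Icc]
  rcases le_total 0 (⌊b⌋ + 1 - ⌈a⌉) with h0 | h0
  · have h1 : (((⌊b⌋ + 1 - ⌈a⌉).toNat : ℕ) : ℤ) = ⌊b⌋ + 1 - ⌈a⌉ := Int.toNat_of_nonneg h0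
    have h2 : (((⌊b⌋ + 1 - ⌈a⌉).toNat : ℕ) : ℝ) = ⌊b⌋ + 1 - ⌈a⌉ := by exact_mod_cast h1
    rw [h2]
    have h3 := Int.floor_le b
    have h4 := Int.le_ceil a
    linarith
  · rw [Int.toNat_of_nonpos h0, Nat.cast_zero]
    linarith

/-- The telescoping sum. -/
theorem tele (m : ℕ) (hm : 1 ≤ m) (M : ℕ) :
    ∑ n ∈ Finset.Ioc m M, 1 / ((n : ℝ) * √(n : ℝ)) ≤ 2 / √(m : ℝ) := by
  have hmp : (0 : ℝ) < m := by exact_mod_cast hm
  rcases le_total M m with h | h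
  · rw [Finset.Ioc_eq_empty_of_le h, Finset.sum_empty]
    positivity
  · have key : ∑ n ∈ Finset.Ioc m M, 1 / ((n : ℝ) * √(n : ℝ)) ≤
        2 / √(m : ℝ) - 2 / √(M : ℝ) := by
      induction M, h using Nat.le_induction with
      | base =>
        rw [Finset.Ioc_self, Finset.sum_empty, sub_self]
      | succ M hM ih =>
        rw [Finset.sum_Ioc_succ_top hM]
        have hM0 : (0 : ℝ) < M := lt_of_lt_of_le hmp (by exact_mod_cast hM)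
        have hp : 0 < √(M : ℝ) := Real.sqrt_pos.mpr hM0
        have hq : 0 < √((M + 1 : ℕ) : ℝ) := Real.sqrt_pos.mpr (by positivity)
        have hpp : √(M : ℝ) ^ 2 = M := Real.sq_sqrt hM0.le
        have hqq : √((M + 1 : ℕ) : ℝ) ^ 2 = (M + 1 : ℕ) := Real.sq_sqrt (by positivity)
        have hle : √(M : ℝ) ≤ √((M + 1 : ℕ) : ℝ) := Real.sqrt_le_sqrt (by
          push_cast
          linarith)
        have h1 : (((M + 1 : ℕ) : ℝ)) = (M : ℝ) + 1 := by push_cast; ring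
        generalize √((M + 1 : ℕ) : ℝ) = q at *
        generalize √(M : ℝ) = p at *
        have h2 : (q - p) * (q + p) = 1 := by
          have : q ^ 2 - p ^ 2 = 1 := by rw [hqq, hpp, h1]; ring
          linarith [this, (by ring : (q - p) * (q + p) = q ^ 2 - p ^ 2)]
        have h3 : 0 ≤ q - p := by linarith
        have h4 : p * (q + p) ≤ 2 * q ^ 2 := by nlinarith
        have h5 : p ≤ (q - p) * (2 * q ^ 2) := by
          have h6 : p = (q - p) * (p * (q + p)) := by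
            linear_combination (-p) * h2
          have h7 := mul_le_mul_of_nonneg_left h4 h3
          linarith
        have h8 : 1 / (q ^ 2 * q) ≤ 2 / p - 2 / q := by
          rw [div_sub_div _ _ hp.ne' hq.ne', div_le_div_iff₀ (by positivity) (by positivity)]
          have h9 : p * q ≤ (q - p) * (2 * q ^ 2) * q := mul_le_mul_of_nonneg_right h5 hq.le
          nlinarith
        rw [hqq] at h8
        linarith
    have : 0 ≤ 2 / √(M : ℝ) := by positivity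
    linarith

/-- The lower and the upper end. -/
noncomputable def lo (z : ℝ) (n : ℕ) : ℝ := √((4 * (n : ℝ) ^ 3 - z ^ 6) / 27)

/-- The upper end. -/
noncomputable def up (z : ℝ) (n : ℕ) : ℝ := √((4 * (n : ℝ) ^ 3 + z ^ 6) / 27)

/-- The length of the interval. -/
theorem gap (z : ℝ) (n : ℕ) (hz : 1 ≤ z) (hn : z ^ 2 < n) :
    0 ≤ up z n - lo z n ∧ up z n - lo z n ≤ z ^ 6 / 9 * (1 / ((n : ℝ) * √(n : ℝ))) := by
  have hn0 : (0 : ℝ) < n := lt_trans (by positivity) hn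
  have hs : √(n : ℝ) ^ 2 = n := Real.sq_sqrt hn0.le
  have hs0 : 0 < √(n : ℝ) := Real.sqrt_pos.mpr hn0
  have hz6 : z ^ 6 < (n : ℝ) ^ 3 := by
    have h1 : (z ^ 2) ^ 3 < (n : ℝ) ^ 3 := pow_lt_pow_left₀ hn (by positivity) (by norm_num)
    calc z ^ 6 = (z ^ 2) ^ 3 := by ring
      _ < _ := h1
  have hzp : 0 < z ^ 6 := by positivity
  have hlo : (lo z n) ^ 2 = (4 * (n : ℝ) ^ 3 - z ^ 6) / 27 := Real.sq_sqrt (by linarith)
  have hup : (up z n) ^ 2 = (4 * (n : ℝ) ^ 3 + z ^ 6) / 27 := Real.sq_sqrt (by positivity)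
  have hle : lo z n ≤ up z n := Real.sqrt_le_sqrt (by linarith)
  have hρ : (n : ℝ) * √(n : ℝ) / 3 ≤ lo z n := by
    apply Real.le_sqrt_of_sq_le
    have : ((n : ℝ) * √(n : ℝ) / 3) ^ 2 = (n : ℝ) ^ 3 / 9 := by
      calc ((n : ℝ) * √(n : ℝ) / 3) ^ 2 = (n : ℝ) ^ 2 * √(n : ℝ) ^ 2 / 9 := by ring
        _ = (n : ℝ) ^ 3 / 9 := by rw [hs]; ring
    rw [this]
    linarith
  refine ⟨by linarith, ?_⟩
  have hr : 0 < (n : ℝ) * √(n : ℝ) := mul_pos hn0 hs0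
  have h1 : (up z n - lo z n) * (up z n + lo z n) = 2 * z ^ 6 / 27 := by
    have : (up z n - lo z n) * (up z n + lo z n) = (up z n) ^ 2 - (lo z n) ^ 2 := by ring
    rw [this, hup, hlo]
    ring
  have h2 : (up z n - lo z n) * (2 * ((n : ℝ) * √(n : ℝ) / 3)) ≤ 2 * z ^ 6 / 27 := by
    rw [← h1]
    exact mul_le_mul_of_nonneg_left (by linarith) (by linarith)
  rw [mul_one_div, le_div_iff₀ hr]
  linarith

/-- The fibre over `A = -n`. -/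
noncomputable def fib (z : ℝ) (n : ℕ) : Finset (ℤ × ℤ) :=
  (Finset.Icc ⌈lo z n⌉ ⌊up z n⌋ ∪ Finset.Icc ⌈-(up z n)⌉ ⌊-(lo z n)⌋).image
    fun B => (-(n : ℤ), B)

theorem fib_card (z : ℝ) (n : ℕ) (hz : 1 ≤ z) (hn : z ^ 2 < n) :
    ((fib z n).card : ℝ) ≤ 2 * (z ^ 6 / 9 * (1 / ((n : ℝ) * √(n : ℝ)))) + 2 := by
  obtain ⟨h1, h2⟩ := gap z n hz hn
  have h3 := cI (lo z n) (up z n) (by linarith)
  have h4 := cI (-(up z n)) (-(lo z n)) (by linarith)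
  have h5 : ((fib z n).card : ℝ) ≤ ((Finset.Icc ⌈lo z n⌉ ⌊up z n⌋).card : ℝ) +
      ((Finset.Icc ⌈-(up z n)⌉ ⌊-(lo z n)⌋).card : ℝ) := by
    exact_mod_cast Finset.card_image_le.trans (Finset.card_union_le _ _)
  linarith

/-- The covering set. -/
noncomputable def cov (z K : ℝ) : Finset (ℤ × ℤ) :=
  (Finset.Icc ⌈-(z ^ 2)⌉ ⌊z ^ 2⌋ ×ˢ Finset.Icc ⌈-(z ^ 3 / 2)⌉ ⌊z ^ 3 / 2⌋) ∪
    (Finset.Ioc ⌊z ^ 2⌋₊ ⌊K⌋₊).biUnion (fib z)

theorem cov_card (z K : ℝ) (hz : 1 ≤ z) (hK : 0 ≤ K) (hKz : K ≤ z ^ 5) :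
    ((cov z K).card : ℝ) ≤ 9 * z ^ 5 := by
  have hz0 : 0 < z := by linarith
  have h1 : ((cov z K).card : ℝ) ≤
      ((Finset.Icc ⌈-(z ^ 2)⌉ ⌊z ^ 2⌋).card : ℝ) * ((Finset.Icc ⌈-(z ^ 3 / 2)⌉ ⌊z ^ 3 / 2⌋).card : ℝ) +
      ∑ n ∈ Finset.Ioc ⌊z ^ 2⌋₊ ⌊K⌋₊, ((fib z n).card : ℝ) := by
    have h2 : (cov z K).card ≤ (Finset.Icc ⌈-(z ^ 2)⌉ ⌊z ^ 2⌋).card *
        (Finset.Icc ⌈-(z ^ 3 / 2)⌉ ⌊z ^ 3 / 2⌋).card +
        ∑ n ∈ Finset.Ioc ⌊z ^ 2⌋₊ ⌊K⌋₊, (fib z n).card := by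
      refine (Finset.card_union_le _ _).trans ?_
      rw [Finset.card_product]
      exact Nat.add_le_add_left Finset.card_biUnion_le _
    exact_mod_cast h2
  have hz2 : 1 ≤ z ^ 2 := one_le_pow₀ hz
  have hz3 : 1 ≤ z ^ 3 := one_le_pow₀ hz
  have h2 : ((Finset.Icc ⌈-(z ^ 2)⌉ ⌊z ^ 2⌋).card : ℝ) ≤ 3 * z ^ 2 := by
    have := cI (-(z ^ 2)) (z ^ 2) (by linarith)
    linarith
  have h3 : ((Finset.Icc ⌈-(z ^ 3 / 2)⌉ ⌊z ^ 3 / 2⌋).card : ℝ) ≤ 2 * z ^ 3 := by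
    have := cI (-(z ^ 3 / 2)) (z ^ 3 / 2) (by linarith)
    linarith
  have h4 : ((Finset.Icc ⌈-(z ^ 2)⌉ ⌊z ^ 2⌋).card : ℝ) *
      ((Finset.Icc ⌈-(z ^ 3 / 2)⌉ ⌊z ^ 3 / 2⌋).card : ℝ) ≤ 6 * z ^ 5 := by
    calc _ ≤ (3 * z ^ 2) * (2 * z ^ 3) := mul_le_mul h2 h3 (Nat.cast_nonneg _) (by positivity)
      _ = 6 * z ^ 5 := by ring
  have hm1 : 1 ≤ ⌊z ^ 2⌋₊ := Nat.one_le_floor_iff _ |>.mpr hz2
  have h5 : ∑ n ∈ Finset.Ioc ⌊z ^ 2⌋₊ ⌊K⌋₊, ((fib z n).card : ℝ) ≤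
      ∑ n ∈ Finset.Ioc ⌊z ^ 2⌋₊ ⌊K⌋₊, (2 * (z ^ 6 / 9 * (1 / ((n : ℝ) * √(n : ℝ)))) + 2) := by
    apply Finset.sum_le_sum
    intro n hn
    rw [Finset.mem_Ioc] at hn
    exact fib_card z n hz ((Nat.floor_lt (by positivity)).mp hn.1)
  rw [Finset.sum_add_distrib, ← Finset.mul_sum, ← Finset.mul_sum, Finset.sum_const,
    nsmul_eq_mul, Nat.card_Ioc] at h5
  have h6 := tele ⌊z ^ 2⌋₊ hm1 ⌊K⌋₊
  have h7 : z / 2 ≤ √((⌊z ^ 2⌋₊ : ℕ) : ℝ) := by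
    apply Real.le_sqrt_of_sq_le
    have h8 := Nat.lt_floor_add_one (z ^ 2)
    have h9 : (1 : ℝ) ≤ (⌊z ^ 2⌋₊ : ℕ) := by exact_mod_cast hm1
    have h10 : (z / 2) ^ 2 = z ^ 2 / 4 := by ring
    rw [h10]
    linarith
  have h8 : 2 / √((⌊z ^ 2⌋₊ : ℕ) : ℝ) ≤ 4 / z := by
    calc 2 / √((⌊z ^ 2⌋₊ : ℕ) : ℝ) ≤ 2 / (z / 2) :=
          div_le_div_of_nonneg_left (by norm_num) (by positivity) h7
      _ = 4 / z := by field_simp; norm_num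
  have h9 : z ^ 6 / 9 * ∑ n ∈ Finset.Ioc ⌊z ^ 2⌋₊ ⌊K⌋₊, 1 / ((n : ℝ) * √(n : ℝ)) ≤
      4 / 9 * z ^ 5 := by
    calc _ ≤ z ^ 6 / 9 * (4 / z) := mul_le_mul_of_nonneg_left (h6.trans h8) (by positivity)
      _ = 4 / 9 * z ^ 5 := by field_simp
  have h10 : (((⌊K⌋₊ - ⌊z ^ 2⌋₊ : ℕ)) : ℝ) ≤ z ^ 5 := by
    have h11 : ⌊K⌋₊ - ⌊z ^ 2⌋₊ ≤ ⌊K⌋₊ := Nat.sub_le _ _
    have h12 : (((⌊K⌋₊ - ⌊z ^ 2⌋₊ : ℕ)) : ℝ) ≤ (⌊K⌋₊ : ℝ) := by exact_mod_cast h11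
    have h13 := Nat.floor_le hK
    linarith
  have h11 : 0 < z ^ 5 := by positivity
  linarith

/-- The set is covered. -/
theorem cov_mem (z K : ℝ) (hz : 1 ≤ z) (A B : ℤ) (hA : |(A : ℝ)| ≤ K)
    (h : |4 * (A : ℝ) ^ 3 + 27 * (B : ℝ) ^ 2| ≤ z ^ 6) : (A, B) ∈ cov z K := by
  rw [abs_le] at h
  obtain ⟨hl, hu⟩ := h
  unfold cov
  rw [Finset.mem_union]
  have hz0 : 0 < z := by linarith
  by_cases ht : |(A : ℝ)| ≤ z ^ 2
  · left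
    have h1 : |(A : ℝ)| ^ 3 ≤ (z ^ 2) ^ 3 := pow_le_pow_left₀ (abs_nonneg _) ht 3
    have h2 : -((A : ℝ) ^ 3) ≤ |(A : ℝ)| ^ 3 := by
      rw [← abs_pow]
      exact neg_le_abs _
    have h3 : (z ^ 2) ^ 3 = z ^ 6 := by ring
    have h4 : (B : ℝ) ^ 2 ≤ (z ^ 3 / 2) ^ 2 := by
      have h5 : (z ^ 3 / 2) ^ 2 = z ^ 6 / 4 := by ring
      have h6 : 0 < z ^ 6 := by positivity
      rw [h5]
      linarith
    have h5 : |(B : ℝ)| ≤ z ^ 3 / 2 := abs_le_of_sq_le_sq h4 (by positivity)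
    rw [abs_le] at ht h5
    rw [Finset.mem_product, Finset.mem_Icc, Finset.mem_Icc]
    exact ⟨⟨Int.ceil_le.mpr ht.1, Int.le_floor.mpr ht.2⟩,
      ⟨Int.ceil_le.mpr h5.1, Int.le_floor.mpr h5.2⟩⟩
  · right
    push Not at ht
    have hneg : A < 0 := by
      by_contra hc
      push Not at hc
      have hc' : (0 : ℝ) ≤ A := by exact_mod_cast hc
      rw [abs_of_nonneg hc'] at ht
      have h1 : (z ^ 2) ^ 3 < (A : ℝ) ^ 3 := pow_lt_pow_left₀ ht (by positivity) (by norm_num)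
      have h2 : (z ^ 2) ^ 3 = z ^ 6 := by ring
      have h3 : 0 ≤ (B : ℝ) ^ 2 := sq_nonneg _
      have h4 : 0 < z ^ 6 := by positivity
      linarith
    obtain ⟨n, hn⟩ : ∃ n : ℕ, A = -(n : ℤ) := ⟨(-A).toNat, by omega⟩
    subst hn
    have hcast : (((-(n : ℤ) : ℤ)) : ℝ) = -(n : ℝ) := by push_cast; ring
    rw [hcast] at ht hA hl hu
    rw [abs_neg, Nat.abs_cast] at ht hA
    rw [Finset.mem_biUnion]
    refine ⟨n, ?_, ?_⟩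
    · rw [Finset.mem_Ioc]
      exact ⟨(Nat.floor_lt (by positivity)).mpr ht, Nat.le_floor hA⟩
    · unfold fib
      rw [Finset.mem_image]
      refine ⟨B, ?_, rfl⟩
      have h1 : (4 * (n : ℝ) ^ 3 - z ^ 6) / 27 ≤ (B : ℝ) ^ 2 := by
        have : (-(n : ℝ)) ^ 3 = -((n : ℝ) ^ 3) := by ring
        rw [this] at hl
        linarith
      have h2 : (B : ℝ) ^ 2 ≤ (4 * (n : ℝ) ^ 3 + z ^ 6) / 27 := by
        have : (-(n : ℝ)) ^ 3 = -((n : ℝ) ^ 3) := by ring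
        rw [this] at hu
        linarith
      have h3 : lo z n ≤ |(B : ℝ)| := by
        rw [← Real.sqrt_sq_eq_abs]
        exact Real.sqrt_le_sqrt h1
      have h4 : |(B : ℝ)| ≤ up z n := by
        rw [← Real.sqrt_sq_eq_abs]
        exact Real.sqrt_le_sqrt h2
      rw [Finset.mem_union, Finset.mem_Icc, Finset.mem_Icc]
      rcases le_total 0 (B : ℝ) with h0 | h0
      · left
        rw [abs_of_nonneg h0] at h3 h4
        exact ⟨Int.ceil_le.mpr h3, Int.le_floor.mpr h4⟩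
      · right
        rw [abs_of_nonpos h0] at h3 h4
        exact ⟨Int.ceil_le.mpr (by linarith), Int.le_floor.mpr (by linarith)⟩

end IDC

open IDC in
theorem pg_DC : S_DC := by
  intro θ h0 h1
  refine ⟨9, by norm_num, ?_⟩
  intro X hX
  have hX0 : 0 < X := by linarith
  let z : ℝ := X ^ (1 - θ / 6)
  have hz : 1 ≤ z := Real.one_le_rpow hX (by linarith)
  have hz6 : z ^ 6 = X ^ (6 - θ) := by
    rw [← Real.rpow_natCast, ← Real.rpow_mul hX0.le]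
    congr 1
    push_cast
    ring
  have hz5 : z ^ 5 = X ^ (5 - 5 * θ / 6) := by
    rw [← Real.rpow_natCast, ← Real.rpow_mul hX0.le]
    congr 1
    push_cast
    ring
  have hK : X ^ 2 ≤ z ^ 5 := by
    rw [hz5, ← Real.rpow_natCast]
    apply Real.rpow_le_rpow_of_exponent_le hX
    push_cast
    linarith
  have hsub : {p : ℤ × ℤ | |(p.1 : ℝ)| ≤ X ^ 2 ∧ |(p.2 : ℝ)| ≤ X ^ 3 ∧
      |4 * (p.1 : ℝ) ^ 3 + 27 * (p.2 : ℝ) ^ 2| ≤ X ^ (6 - θ)} ⊆ (cov z (X ^ 2) : Set (ℤ × ℤ)) := by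
    rintro ⟨A, B⟩ ⟨h2, _, h4⟩
    rw [← hz6] at h4
    exact cov_mem z (X ^ 2) hz A B h2 h4
  have h2 := Set.ncard_le_ncard hsub (Finset.finite_toSet _)
  rw [Set.ncard_coe_finset] at h2
  have h3 := cov_card z (X ^ 2) hz (by positivity) hK
  rw [← hz5]
  exact le_trans (by exact_mod_cast h2) h3

end Pool.Agent.Work.MP_bd3ec3_nt.SG
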