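import Pool.Agent.Work.MP_bd3ec3_nt.SG.Stmts

/-! Item DG of block SG (helper87): small values of a quartic form and of its Hessian. -/

set_option autoImplicit false

namespace Pool.Agent.Work.MP_bd3ec3_nt.SG

open Pool.Agent.Work.MP_bd3ec3_nt.SP

namespace IDG

/-- The polynomial `Q`. -/
def qq (f : BQ ℝ) : ℝ :=
  -27 * f.b ^ 2 * f.e ^ 2 + 18 * f.b * f.c * f.d * f.e - 4 * f.b * f.d ^ 3 - 4 * f.c ^ 3 * f.e +
    f.c ^ 2 * f.d ^ 2

/-- The polynomial `P₁`. -/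
def p1 (f : BQ ℝ) : ℝ :=
  27 * (256 * f.a ^ 2 * f.e ^ 3 - 192 * f.a * f.b * f.d * f.e ^ 2 - 128 * f.a * f.c ^ 2 * f.e ^ 2 +
    144 * f.a * f.c * f.d ^ 2 * f.e - 27 * f.a * f.d ^ 4 + 144 * f.b ^ 2 * f.c * f.e ^ 2 -
    6 * f.b ^ 2 * f.d ^ 2 * f.e - 80 * f.b * f.c ^ 2 * f.d * f.e + 18 * f.b * f.c * f.d ^ 3 +
    16 * f.c ^ 4 * f.e - 4 * f.c ^ 3 * f.d ^ 2) + 72 * f.c * qq f

/-- The polynomial `P₂`. -/
def p2 (f : BQ ℝ) : ℝ := -9 * qq f

theorem key (f : BQ ℝ) : 4 * f.I ^ 3 - f.J ^ 2 =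
    f.a * p1 f + (8 * f.a * f.c - 3 * f.b ^ 2) * p2 f := by
  simp only [BQ.I, BQ.J, p1, p2, qq]
  ring

/-- scaling -/
def sc (K : ℝ) (f : BQ ℝ) : BQ ℝ := ⟨K * f.a, K * f.b, K * f.c, K * f.d, K * f.e⟩

theorem sc_act (K : ℝ) (f : BQ ℝ) (p q r s : ℝ) :
    (sc K f).act p q r s = sc K (f.act p q r s) := by
  ext <;> simp only [sc, BQ.act] <;> ring

theorem p1_sc (K : ℝ) (f : BQ ℝ) : p1 (sc K f) = K ^ 5 * p1 f := by
  simp only [sc, p1, qq]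
  ring

theorem p2_sc (K : ℝ) (f : BQ ℝ) : p2 (sc K f) = K ^ 4 * p2 f := by
  simp only [sc, p2, qq]
  ring

/-- the family of all rotated forms -/
def fam (v : Fin 9 → ℝ) : BQ ℝ := BQ.act ⟨v 0, v 1, v 2, v 3, v 4⟩ (v 5) (v 6) (v 7) (v 8)

theorem bound : ∃ C : ℝ, 0 < C ∧ ∀ v : Fin 9 → ℝ, (∀ i, |v i| ≤ 1) →
    |p1 (fam v)| ≤ C ∧ |p2 (fam v)| ≤ C := by
  have hc : IsCompact (Set.Icc (fun _ : Fin 9 => (-1 : ℝ)) (fun _ => 1)) := isCompact_Icc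
  have h1 : Continuous fun v : Fin 9 → ℝ => p1 (fam v) := by
    unfold p1 qq fam BQ.act
    fun_prop
  have h2 : Continuous fun v : Fin 9 → ℝ => p2 (fam v) := by
    unfold p2 qq fam BQ.act
    fun_prop
  obtain ⟨C1, hC1⟩ := hc.exists_bound_of_continuousOn h1.continuousOn
  obtain ⟨C2, hC2⟩ := hc.exists_bound_of_continuousOn h2.continuousOn
  refine ⟨|C1| + |C2| + 1, by positivity, fun v hv => ?_⟩
  have hm : v ∈ Set.Icc (fun _ : Fin 9 => (-1 : ℝ)) (fun _ => 1) :=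
    ⟨fun i => (abs_le.mp (hv i)).1, fun i => (abs_le.mp (hv i)).2⟩
  have e1 := hC1 v hm
  have e2 := hC2 v hm
  rw [Real.norm_eq_abs] at e1 e2
  have a1 := le_abs_self C1
  have a2 := le_abs_self C2
  have b1 := abs_nonneg C1
  have b2 := abs_nonneg C2
  constructor <;> linarith

theorem div_abs {K x : ℝ} (hK : 0 < K) (h : |x| ≤ K) : |x / K| ≤ 1 := by
  rw [abs_div, abs_of_pos hK, div_le_one hK]
  exact h

end IDG

/-- Item DG. -/
theorem pg_DG : S_DG := by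
  obtain ⟨C, hC, hb⟩ := IDG.bound
  refine ⟨C, hC, fun K f hK hf x z => ?_⟩
  obtain ⟨ha, hb', hc, hd, he⟩ := hf
  by_cases h0 : x ^ 2 + z ^ 2 = 0
  · rw [h0]
    have : 0 ≤ C * K ^ 4 * (K * |f.ev x z| + |f.Hs x z|) := by positivity
    simpa using this
  have hpos : 0 < x ^ 2 + z ^ 2 := lt_of_le_of_ne (by positivity) (Ne.symm h0)
  set ρ : ℝ := √(x ^ 2 + z ^ 2) with hρ
  have hρ0 : 0 < ρ := Real.sqrt_pos.mpr hpos
  have hρ2 : ρ ^ 2 = x ^ 2 + z ^ 2 := Real.sq_sqrt hpos.le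
  obtain ⟨p, hp⟩ : ∃ p, p = x / ρ := ⟨_, rfl⟩
  obtain ⟨r, hr⟩ : ∃ r, r = z / ρ := ⟨_, rfl⟩
  have hx : x = ρ * p := by rw [hp]; field_simp
  have hz : z = ρ * r := by rw [hr]; field_simp
  have hpr : p ^ 2 + r ^ 2 = 1 := by
    have h1 : ρ ^ 2 * (p ^ 2 + r ^ 2) = ρ ^ 2 * 1 := by
      rw [mul_one]
      conv_rhs => rw [hρ2, hx, hz]
      ring
    exact mul_left_cancel₀ (by positivity) h1
  have hp1 : |p| ≤ 1 := abs_le_one_iff_mul_self_le_one.mpr (by nlinarith [sq_nonneg r])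
  have hr1 : |r| ≤ 1 := abs_le_one_iff_mul_self_le_one.mpr (by nlinarith [sq_nonneg p])
  have hdet : p * p - (-r) * r = 1 := by linarith
  -- the normalised form
  obtain ⟨g, hg⟩ : ∃ g : BQ ℝ, g = ⟨f.a / K, f.b / K, f.c / K, f.d / K, f.e / K⟩ := ⟨_, rfl⟩
  have hfg : f = IDG.sc K g := by
    rw [hg]
    ext <;> simp only [IDG.sc] <;> field_simp
  have hv := hb ![f.a / K, f.b / K, f.c / K, f.d / K, f.e / K, p, -r, r, p] (by
    intro i
    fin_cases i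
    · exact IDG.div_abs hK ha
    · exact IDG.div_abs hK hb'
    · exact IDG.div_abs hK hc
    · exact IDG.div_abs hK hd
    · exact IDG.div_abs hK he
    · exact hp1
    · show |-r| ≤ 1
      rw [abs_neg]
      exact hr1
    · exact hr1
    · exact hp1)
  have hfam : IDG.fam ![f.a / K, f.b / K, f.c / K, f.d / K, f.e / K, p, -r, r, p] =
      g.act p (-r) r p := by
    rw [hg]
    rfl
  rw [hfam] at hv
  set F : BQ ℝ := f.act p (-r) r p with hF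
  have hFg : F = IDG.sc K (g.act p (-r) r p) := by
    rw [hF, hfg, IDG.sc_act]
  have hI : F.I = f.I := by
    rw [hF, BQ.I_act, hdet]
    ring
  have hJ : F.J = f.J := by
    rw [hF, BQ.J_act, hdet]
    ring
  have hFa : f.ev x z = ρ ^ 4 * F.a := by
    rw [hF, hx, hz]
    simp only [BQ.ev, BQ.act]
    ring
  have hFh : f.Hs x z = ρ ^ 4 * (8 * F.a * F.c - 3 * F.b ^ 2) := by
    have h1 := BQ.Hs_act f p (-r) r p 1 0
    rw [hdet] at h1
    have h2 : F.Hs 1 0 = 8 * F.a * F.c - 3 * F.b ^ 2 := by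
      simp only [BQ.Hs]
      ring
    rw [← h2, hF, h1, hx, hz]
    simp only [BQ.Hs]
    ring
  have hk := IDG.key F
  rw [hI, hJ] at hk
  have h1 : |IDG.p1 F| ≤ C * K ^ 5 := by
    rw [hFg, IDG.p1_sc, abs_mul, abs_of_pos (by positivity)]
    have := mul_le_mul_of_nonneg_left hv.1 (by positivity : 0 ≤ K ^ 5)
    linarith
  have h2 : |IDG.p2 F| ≤ C * K ^ 4 := by
    rw [hFg, IDG.p2_sc, abs_mul, abs_of_pos (by positivity)]
    have := mul_le_mul_of_nonneg_left hv.2 (by positivity : 0 ≤ K ^ 4)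
    linarith
  have h3 : |4 * f.I ^ 3 - f.J ^ 2| ≤
      |F.a| * (C * K ^ 5) + |8 * F.a * F.c - 3 * F.b ^ 2| * (C * K ^ 4) := by
    rw [hk]
    refine (abs_add_le _ _).trans ?_
    rw [abs_mul, abs_mul]
    exact add_le_add (mul_le_mul_of_nonneg_left h1 (abs_nonneg _))
      (mul_le_mul_of_nonneg_left h2 (abs_nonneg _))
  have h4 : (x ^ 2 + z ^ 2) ^ 2 = ρ ^ 4 := by
    rw [← hρ2]
    ring
  rw [h4, hFa, hFh, abs_mul, abs_mul, abs_of_pos (by positivity : 0 < ρ ^ 4)]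
  have h5 := mul_le_mul_of_nonneg_right h3 (by positivity : 0 ≤ ρ ^ 4)
  refine h5.trans (le_of_eq ?_)
  ring

end Pool.Agent.Work.MP_bd3ec3_nt.SG
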