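import Pool.Agent.Work.MP_bd3ec3_nt.SG.StmtsT

/-! MP_bd3ec3_nt, block SG, item DQ (helper57): halving a point of `y² = x³ + A x + B`. -/

set_option autoImplicit false

namespace Pool.Agent.Work.MP_bd3ec3_nt.SG

open Pool.Agent.Work.MP_bd3ec3_nt.SP

namespace IDQ

theorem isXY_some (A B : ℤ) (x' y' x y : ℚ) (h : (W A B).toAffine.Nonsingular x' y')
    (hx : IsXY A B (WeierstrassCurve.Affine.Point.some x' y' h) x y) : x' = x := hx.1

theorem isXY_zero' (A B : ℤ) (x y : ℚ) (hx : IsXY A B (0 : (W A B).toAffine.Point) x y) :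
    False := hx

theorem alg (A B z y x : ℚ) (hy : y ≠ 0) (h : y ^ 2 = z ^ 3 + A * z + B)
    (hx : ((3 * z ^ 2 + A) / (y + y)) ^ 2 - z - z = x) :
    x * (4 * (z ^ 3 + A * z + B)) = z ^ 4 - 2 * A * z ^ 2 - 8 * B * z + A ^ 2 := by
  have h2 : ((3 * z ^ 2 + A) / (y + y)) ^ 2 * (4 * y ^ 2) = (3 * z ^ 2 + A) ^ 2 := by
    field_simp
    ring
  have h3 : x * (4 * y ^ 2) = (3 * z ^ 2 + A) ^ 2 - 2 * z * (4 * y ^ 2) := by
    rw [← hx]
    linear_combination h2
  rw [h] at h3
  linear_combination h3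

end IDQ

theorem pg_DQ : S_DQ := by
  intro A B P Q x y hPQ hP
  rcases Q with _ | ⟨z, w, hQ⟩
  · exfalso
    apply IDQ.isXY_zero' A B x y
    rw [hPQ] at hP
    have h0 : (WeierstrassCurve.Affine.Point.zero + WeierstrassCurve.Affine.Point.zero :
        (W A B).toAffine.Point) = 0 := by
      change (0 : (W A B).toAffine.Point) + 0 = 0
      exact add_zero 0
    rw [h0] at hP
    exact hP
  · have heq : w ^ 2 = z ^ 3 + (A : ℚ) * z + (B : ℚ) := by
      have h1 := hQ.1
      rw [WeierstrassCurve.Affine.equation_iff] at h1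
      simpa [W] using h1
    by_cases hy : w = (W A B).toAffine.negY z w
    · exfalso
      apply IDQ.isXY_zero' A B x y
      rw [hPQ, WeierstrassCurve.Affine.Point.add_self_of_Y_eq hy] at hP
      exact hP
    · rw [hPQ, WeierstrassCurve.Affine.Point.add_self_of_Y_ne hy] at hP
      have h2 := IDQ.isXY_some A B _ _ x y _ hP
      rw [WeierstrassCurve.Affine.slope_of_Y_ne rfl hy] at h2
      have hw0 : w ≠ 0 := by
        intro h0
        apply hy
        simp [W, WeierstrassCurve.Affine.negY, h0]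
      have hne : z ^ 3 + (A : ℚ) * z + (B : ℚ) ≠ 0 := by
        rw [← heq]
        exact pow_ne_zero 2 hw0
      refine ⟨z, w, ⟨rfl, rfl⟩, heq, hne, IDQ.alg (A : ℚ) (B : ℚ) z w x hw0 heq ?_⟩
      simpa [W, WeierstrassCurve.Affine.negY, WeierstrassCurve.Affine.addX] using h2

end Pool.Agent.Work.MP_bd3ec3_nt.SG
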