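import Pool.Agent.Work.MP_bd3ec3_nt.SG.Stmts

set_option autoImplicit false

namespace Pool.Agent.Work.MP_bd3ec3_nt.SG

open Pool.Agent.Work.MP_bd3ec3_nt.SP

namespace IFC

open Polynomial

/-- the dehomogenised polynomial -/
noncomputable def PP (f : BQ ℝ) : ℝ[X] :=
  C f.a * X ^ 4 + C f.b * X ^ 3 + C f.c * X ^ 2 + C f.d * X + C f.e

theorem eval_PP (f : BQ ℝ) (t : ℝ) : (PP f).eval t = f.ev t 1 := by
  simp [PP, BQ.ev]

theorem natDegree_PP_le (f : BQ ℝ) : (PP f).natDegree ≤ 4 := by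
  unfold PP
  compute_degree

theorem coeff_PP (f : BQ ℝ) : (PP f).coeff 4 = f.a := by
  unfold PP
  simp

theorem natDegree_PP (f : BQ ℝ) (ha : 0 < f.a) : (PP f).natDegree = 4 := by
  refine le_antisymm (natDegree_PP_le f) ?_
  refine le_natDegree_of_ne_zero ?_
  rw [coeff_PP]
  exact ha.ne'

end IFC

open IFC Polynomial in
theorem pg_FC : S_FC := by
  intro f ha hf
  have hdeg : (PP f).degree ≠ 0 := by
    intro h
    have := natDegree_eq_of_degree_eq_some (n := 0) h
    rw [natDegree_PP f ha] at this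
    omega
  obtain ⟨z, hz⟩ := IsAlgClosed.exists_aeval_eq_zero ℂ (PP f) hdeg
  have him : z.im ≠ 0 := by
    intro h0
    have hz' : z = ((z.re : ℝ) : ℂ) := Complex.ext (by simp) (by simp [h0])
    rw [hz', ← Complex.coe_algebraMap, aeval_algebraMap_apply] at hz
    have h1 : aeval z.re (PP f) = 0 := by
      have h2 : ((aeval z.re (PP f) : ℝ) : ℂ) = 0 := hz
      exact_mod_cast h2
    rw [coe_aeval_eq_eval, eval_PP] at h1
    exact hf z.re 1 (fun h => one_ne_zero h.2) h1
  obtain ⟨Q, hQ⟩ := quadratic_dvd_of_aeval_eq_zero_im_ne_zero (PP f) hz him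
  have hmon : (X ^ 2 - C (2 * z.re) * X + C (‖z‖ ^ 2) : ℝ[X]).Monic := by
    monicity!
  have hdq : (X ^ 2 - C (2 * z.re) * X + C (‖z‖ ^ 2) : ℝ[X]).natDegree = 2 := by
    compute_degree!
  have hQ0 : Q ≠ 0 := by
    rintro rfl
    rw [mul_zero] at hQ
    have := natDegree_PP f ha
    rw [hQ, natDegree_zero] at this
    omega
  have hdQ : Q.natDegree = 2 := by
    have h1 := hmon.natDegree_mul' hQ0
    rw [← hQ, natDegree_PP f ha, hdq] at h1
    omega
  have hQe : ∀ t : ℝ, Q.eval t = Q.coeff 2 * t ^ 2 + Q.coeff 1 * t + Q.coeff 0 := by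
    intro t
    rw [eval_eq_sum_range, hdQ]
    simp [Finset.sum_range_succ]
    ring
  have hev : ∀ t : ℝ, f.ev t 1 =
      (t ^ 2 - 2 * z.re * t + ‖z‖ ^ 2) * (Q.coeff 2 * t ^ 2 + Q.coeff 1 * t + Q.coeff 0) := by
    intro t
    rw [← eval_PP, hQ, eval_mul, hQe]
    simp
  set n : ℝ := ‖z‖ ^ 2 with hn
  set A := Q.coeff 2
  set B := Q.coeff 1
  set D := Q.coeff 0
  have h0 := hev 0
  have h1 := hev 1
  have h2 := hev (-1)
  have h3 := hev 2
  have h4 := hev (-2)
  simp only [BQ.ev] at h0 h1 h2 h3 h4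
  have ea : f.a = 1 * A := by linarith
  have eb : f.b = 1 * B + (-2 * z.re) * A := by linarith
  have ec : f.c = 1 * D + (-2 * z.re) * B + n * A := by linarith
  have ed : f.d = (-2 * z.re) * D + n * B := by linarith
  have ee : f.e = n * D := by linarith
  have hA : 0 < A := by linarith
  have hnz : n = z.re ^ 2 + z.im ^ 2 := by
    rw [hn, ← Complex.normSq_eq_norm_sq, Complex.normSq_apply]
    ring
  refine ⟨1, -2 * z.re, n, A, B, D, one_pos, hA, ?_, ?_, ?_⟩
  · have : 0 < z.im ^ 2 := by positivity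
    rw [hnz]
    nlinarith
  · by_contra hcon
    have hd : 0 ≤ B ^ 2 - 4 * A * D := by linarith [not_lt.1 hcon]
    obtain ⟨t, ht⟩ := exists_quadratic_eq_zero (a := A) (b := B) (c := D) hA.ne'
      ⟨Real.sqrt (B ^ 2 - 4 * A * D), by rw [discrim, Real.mul_self_sqrt hd]⟩
    refine hf t 1 (fun h => one_ne_zero h.2) ?_
    rw [hev t]
    have : A * t ^ 2 + B * t + D = 0 := by rw [← ht]; ring
    rw [this, mul_zero]
  · ext
    · exact ea
    · exact eb
    · exact ec
    · exact ed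
    · exact ee

end Pool.Agent.Work.MP_bd3ec3_nt.SG
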