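import Pool.Agent.Work.MP_bd3ec3_nt.SG.Stmts

/-!
# MP_bd3ec3_nt, block SG, item HC: forms with a given value at a point
-/

set_option autoImplicit false

namespace Pool.Agent.Work.MP_bd3ec3_nt.SG

open Pool.Agent.Work.MP_bd3ec3_nt.SP

namespace IHC

theorem card_box (T : ℝ) (hT : 0 ≤ T) : ((Finset.Icc (-⌊T⌋) ⌊T⌋).card : ℝ) ≤ 1 + 2 * T := by
  have h0 : 0 ≤ ⌊T⌋ := Int.floor_nonneg.2 hT
  have h1 : ((Finset.Icc (-⌊T⌋) ⌊T⌋).card : ℤ) = 2 * ⌊T⌋ + 1 := by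
    rw [Int.card_Icc, Int.toNat_of_nonneg (by omega)]
    ring
  have h2 : ((Finset.Icc (-⌊T⌋) ⌊T⌋).card : ℝ) = 2 * (⌊T⌋ : ℝ) + 1 := by exact_mod_cast h1
  have h3 : (⌊T⌋ : ℝ) ≤ T := Int.floor_le T
  rw [h2]
  linarith

theorem mem_box (T : ℝ) (c : ℤ) (h : |(c : ℝ)| ≤ T) : c ∈ Finset.Icc (-⌊T⌋) ⌊T⌋ := by
  rw [abs_le] at h
  rw [Finset.mem_Icc]
  have h1 : c ≤ ⌊T⌋ := Int.le_floor.2 h.2
  have h2 : -c ≤ ⌊T⌋ := by
    rw [Int.le_floor]
    push_cast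
    linarith
  omega

/-- the form with the cubic factor `c`, added to `f` -/
def shift (f : BQ ℤ) (x z : ℤ) (c : ℤ × ℤ × ℤ × ℤ) : BQ ℤ :=
  ⟨f.a + z * c.1, f.b + (z * c.2.1 - x * c.1), f.c + (z * c.2.2.1 - x * c.2.1),
    f.d + (z * c.2.2.2 - x * c.2.2.1), f.e + -(x * c.2.2.2)⟩

theorem diff_le {a b M : ℝ} (ha : |a| ≤ M) (hb : |b| ≤ M) : |a - b| ≤ 2 * M := by
  calc |a - b| ≤ |a| + |b| := abs_sub _ _
    _ ≤ 2 * M := by linarith

end IHC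

open IHC in
theorem pg_HC : S_HC := by
  intro hLC hRB K ω r x z n hK hω hxz hr
  have hr0 : 0 < r := by
    rw [hr, lt_max_iff]
    by_cases hx : x = 0
    · right
      have hz : z ≠ 0 := by
        rintro rfl
        rw [hx] at hxz
        exact not_isCoprime_zero_zero hxz
      have : (0 : ℝ) < |(z : ℝ)| := abs_pos.2 (by exact_mod_cast hz)
      positivity
    · left
      have : (0 : ℝ) < |(x : ℝ)| := abs_pos.2 (by exact_mod_cast hx)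
      positivity
  set S : Set (BQ ℤ) := {f : BQ ℤ | Bw K ω (toR f) ∧ f.ev x z = n} with hS
  rcases S.eq_empty_or_nonempty with hE | ⟨f₀, hf₀⟩
  · rw [hE]
    refine ⟨Set.finite_empty, ?_⟩
    rw [Set.ncard_empty]
    push_cast
    positivity
  set T0 := 8 * K * ω ^ 3 / r with hT0
  set T1 := 8 * K * ω / r with hT1
  set T2 := 8 * K / (ω * r) with hT2
  set T3 := 8 * K / (ω ^ 3 * r) with hT3
  have p0 : 0 ≤ T0 := by positivity
  have p1 : 0 ≤ T1 := by positivity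
  have p2 : 0 ≤ T2 := by positivity
  have p3 : 0 ≤ T3 := by positivity
  let B : Finset (ℤ × ℤ × ℤ × ℤ) := (Finset.Icc (-⌊T0⌋) ⌊T0⌋) ×ˢ ((Finset.Icc (-⌊T1⌋) ⌊T1⌋) ×ˢ
    ((Finset.Icc (-⌊T2⌋) ⌊T2⌋) ×ˢ (Finset.Icc (-⌊T3⌋) ⌊T3⌋)))
  have hsub : S ⊆ (shift f₀ x z) '' (B : Set (ℤ × ℤ × ℤ × ℤ)) := by
    intro f hf
    obtain ⟨⟨a1, a2, a3, a4, a5⟩, hv⟩ := hf
    obtain ⟨⟨b1, b2, b3, b4, b5⟩, hv₀⟩ := hf₀
    simp only [toR] at a1 a2 a3 a4 a5 b1 b2 b3 b4 b5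
    obtain ⟨c0, c1, c2, c3, hc⟩ := hLC ⟨f.a - f₀.a, f.b - f₀.b, f.c - f₀.c, f.d - f₀.d, f.e - f₀.e⟩ x z hxz (by
      have : (BQ.mk (f.a - f₀.a) (f.b - f₀.b) (f.c - f₀.c) (f.d - f₀.d) (f.e - f₀.e)).ev x z =
          f.ev x z - f₀.ev x z := by
        simp only [BQ.ev]
        ring
      rw [this, hv, hv₀, sub_self])
    have e1 : f.a - f₀.a = z * c0 := congrArg BQ.a hc
    have e2 : f.b - f₀.b = z * c1 - x * c0 := congrArg BQ.b hc
    have e3 : f.c - f₀.c = z * c2 - x * c1 := congrArg BQ.c hc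
    have e4 : f.d - f₀.d = z * c3 - x * c2 := congrArg BQ.d hc
    have e5 : f.e - f₀.e = -(x * c3) := congrArg BQ.e hc
    have r1 : ((z : ℝ)) * c0 = (f.a : ℝ) - f₀.a := by exact_mod_cast e1.symm
    have r2 : ((z : ℝ)) * c1 - x * c0 = (f.b : ℝ) - f₀.b := by exact_mod_cast e2.symm
    have r3 : ((z : ℝ)) * c2 - x * c1 = (f.c : ℝ) - f₀.c := by exact_mod_cast e3.symm
    have r4 : ((z : ℝ)) * c3 - x * c2 = (f.d : ℝ) - f₀.d := by exact_mod_cast e4.symm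
    have r5 : -((x : ℝ) * c3) = (f.e : ℝ) - f₀.e := by exact_mod_cast e5.symm
    have s1 : |(z : ℝ) / ω * (c0 / ω ^ 3)| ≤ 2 * K := by
      have h : (z : ℝ) / ω * (c0 / ω ^ 3) = ((f.a : ℝ) - f₀.a) / ω ^ 4 := by
        rw [← r1]; field_simp
      rw [h, abs_div, abs_of_pos (show (0 : ℝ) < ω ^ 4 by positivity), div_le_iff₀ (by positivity)]
      have := diff_le a1 b1
      linarith
    have s2 : |(z : ℝ) / ω * (c1 / ω) - (x : ℝ) * ω * (c0 / ω ^ 3)| ≤ 2 * K := by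
      have h : (z : ℝ) / ω * (c1 / ω) - (x : ℝ) * ω * (c0 / ω ^ 3) = ((f.b : ℝ) - f₀.b) / ω ^ 2 := by
        rw [← r2]; field_simp
      rw [h, abs_div, abs_of_pos (show (0 : ℝ) < ω ^ 2 by positivity), div_le_iff₀ (by positivity)]
      have := diff_le a2 b2
      linarith
    have s3 : |(z : ℝ) / ω * (c2 * ω) - (x : ℝ) * ω * (c1 / ω)| ≤ 2 * K := by
      have h : (z : ℝ) / ω * (c2 * ω) - (x : ℝ) * ω * (c1 / ω) = (f.c : ℝ) - f₀.c := by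
        rw [← r3]; field_simp
      rw [h]
      exact diff_le a3 b3
    have s4 : |(z : ℝ) / ω * (c3 * ω ^ 3) - (x : ℝ) * ω * (c2 * ω)| ≤ 2 * K := by
      have h : (z : ℝ) / ω * (c3 * ω ^ 3) - (x : ℝ) * ω * (c2 * ω) = ((f.d : ℝ) - f₀.d) * ω ^ 2 := by
        rw [← r4]; field_simp
      rw [h, abs_mul, abs_of_pos (show (0 : ℝ) < ω ^ 2 by positivity)]
      have h1 := diff_le a4 b4
      calc |(f.d : ℝ) - f₀.d| * ω ^ 2 ≤ 2 * (K / ω ^ 2) * ω ^ 2 :=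
            mul_le_mul_of_nonneg_right h1 (by positivity)
        _ = 2 * K := by field_simp
    have s5 : |(x : ℝ) * ω * (c3 * ω ^ 3)| ≤ 2 * K := by
      have h : (x : ℝ) * ω * (c3 * ω ^ 3) = -(((f.e : ℝ) - f₀.e) * ω ^ 4) := by
        rw [← r5]; ring
      rw [h, abs_neg, abs_mul, abs_of_pos (show (0 : ℝ) < ω ^ 4 by positivity)]
      have h1 := diff_le a5 b5
      calc |(f.e : ℝ) - f₀.e| * ω ^ 4 ≤ 2 * (K / ω ^ 4) * ω ^ 4 :=
            mul_le_mul_of_nonneg_right h1 (by positivity)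
        _ = 2 * K := by field_simp
    have hmax : max |(x : ℝ) * ω| |(z : ℝ) / ω| = r := by
      rw [hr, abs_mul, abs_div, abs_of_pos hω]
    obtain ⟨t0, t1, t2, t3⟩ := hRB (2 * K) r ((x : ℝ) * ω) ((z : ℝ) / ω) (c0 / ω ^ 3) (c1 / ω) (c2 * ω)
      (c3 * ω ^ 3) hr0 hmax s1 s2 s3 s4 s5
    have u0 : |(c0 : ℝ)| ≤ T0 := by
      rw [abs_div, abs_of_pos (show (0 : ℝ) < ω ^ 3 by positivity), div_le_iff₀ (by positivity)] at t0
      calc |(c0 : ℝ)| ≤ 4 * (2 * K) / r * ω ^ 3 := t0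
        _ = T0 := by rw [hT0]; ring
    have u1 : |(c1 : ℝ)| ≤ T1 := by
      rw [abs_div, abs_of_pos hω, div_le_iff₀ hω] at t1
      calc |(c1 : ℝ)| ≤ 4 * (2 * K) / r * ω := t1
        _ = T1 := by rw [hT1]; ring
    have u2 : |(c2 : ℝ)| ≤ T2 := by
      rw [abs_mul, abs_of_pos hω] at t2
      have h1 : |(c2 : ℝ)| ≤ 4 * (2 * K) / r / ω := by rw [le_div_iff₀ hω]; exact t2
      calc |(c2 : ℝ)| ≤ 4 * (2 * K) / r / ω := h1
        _ = T2 := by rw [hT2]; field_simp; ring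
    have u3 : |(c3 : ℝ)| ≤ T3 := by
      rw [abs_mul, abs_of_pos (show (0 : ℝ) < ω ^ 3 by positivity)] at t3
      have h1 : |(c3 : ℝ)| ≤ 4 * (2 * K) / r / ω ^ 3 := by rw [le_div_iff₀ (by positivity)]; exact t3
      calc |(c3 : ℝ)| ≤ 4 * (2 * K) / r / ω ^ 3 := h1
        _ = T3 := by rw [hT3]; field_simp; ring
    refine ⟨(c0, c1, c2, c3), ?_, ?_⟩
    · rw [Finset.mem_coe, Finset.mem_product, Finset.mem_product, Finset.mem_product]
      exact ⟨mem_box _ _ u0, mem_box _ _ u1, mem_box _ _ u2, mem_box _ _ u3⟩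
    · apply BQ.ext
      · change f₀.a + z * c0 = f.a
        linarith
      · change f₀.b + (z * c1 - x * c0) = f.b
        linarith
      · change f₀.c + (z * c2 - x * c1) = f.c
        linarith
      · change f₀.d + (z * c3 - x * c2) = f.d
        linarith
      · change f₀.e + -(x * c3) = f.e
        linarith
  have hfin : ((shift f₀ x z) '' (B : Set (ℤ × ℤ × ℤ × ℤ))).Finite := B.finite_toSet.image _
  refine ⟨hfin.subset hsub, ?_⟩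
  have h1 : S.ncard ≤ B.card := by
    calc S.ncard ≤ ((shift f₀ x z) '' (B : Set (ℤ × ℤ × ℤ × ℤ))).ncard := Set.ncard_le_ncard hsub hfin
      _ ≤ (B : Set (ℤ × ℤ × ℤ × ℤ)).ncard := Set.ncard_image_le B.finite_toSet
      _ = B.card := Set.ncard_coe_finset B
  have h2 : (B.card : ℝ) = ((Finset.Icc (-⌊T0⌋) ⌊T0⌋).card : ℝ) * (((Finset.Icc (-⌊T1⌋) ⌊T1⌋).card : ℝ) *
      (((Finset.Icc (-⌊T2⌋) ⌊T2⌋).card : ℝ) * ((Finset.Icc (-⌊T3⌋) ⌊T3⌋).card : ℝ))) := by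
    simp only [B, Finset.card_product]
    push_cast
    ring
  have g0 := card_box T0 p0
  have g1 := card_box T1 p1
  have g2 := card_box T2 p2
  have g3 := card_box T3 p3
  calc (S.ncard : ℝ) ≤ (B.card : ℝ) := by exact_mod_cast h1
    _ ≤ (1 + 2 * T0) * ((1 + 2 * T1) * ((1 + 2 * T2) * (1 + 2 * T3))) := by
        rw [h2]
        gcongr
    _ = (1 + 16 * K * ω ^ 3 / r) * (1 + 16 * K * ω / r) * (1 + 16 * K / (ω * r)) *
        (1 + 16 * K / (ω ^ 3 * r)) := by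
        rw [hT0, hT1, hT2, hT3]
        ring

end Pool.Agent.Work.MP_bd3ec3_nt.SG
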