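import Pool.Agent.Work.MP_bd3ec3_nt.SG.Stmts

/-!
Block SG, item IJ: the invariants of the quartic of a point.
-/

set_option autoImplicit false

namespace Pool.Agent.Work.MP_bd3ec3_nt.SG

open Pool.Agent.Work.MP_bd3ec3_nt.SP

theorem pg_IJ : S_IJ := by
  intro A B a e s α β γ h1 h2 h3
  refine ⟨?_, ?_, ?_⟩
  · simp only [BQ.I]
    linear_combination 12 * h2
  · simp only [BQ.J]
    linear_combination (-432 * α) * h2 - 27 * h3
  · simp only [BQ.Hs]
    linear_combination 48 * h1

end Pool.Agent.Work.MP_bd3ec3_nt.SG
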