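import Pool.Agent.Work.MP_bd3ec3_nt.SG.StmtsK

/-!
# MP_bd3ec3_nt, block SG, item K2: the number of the curves with a small point outside `2 E(ℚ)`, every exponent below 1 (adapted from item N2)
-/

set_option autoImplicit false

namespace Pool.Agent.Work.MP_bd3ec3_nt.SG

open Pool.Agent.Work.MP_bd3ec3_nt.SP Filter Topology

namespace IK2

/-- The box of the coefficients. -/
def Box (X : ℝ) : Set (ℤ × ℤ) := {p | |(p.1 : ℝ)| ≤ X ^ 2 ∧ |(p.2 : ℝ)| ≤ X ^ 3}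

theorem box_finite (X : ℝ) : (Box X).Finite := by
  apply Set.Finite.subset ((Set.finite_Icc (-⌊X ^ 2⌋) ⌊X ^ 2⌋).prod (Set.finite_Icc (-⌊X ^ 3⌋) ⌊X ^ 3⌋))
  rintro ⟨a, b⟩ ⟨h1, h2⟩
  simp only at h1 h2
  rw [abs_le] at h1 h2
  simp only [Set.mem_prod, Set.mem_Icc]
  refine ⟨⟨?_, Int.le_floor.2 h1.2⟩, ⟨?_, Int.le_floor.2 h2.2⟩⟩
  · have h : (-a : ℤ) ≤ ⌊X ^ 2⌋ := Int.le_floor.2 (by push_cast; linarith [h1.1])
    omega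
  · have h : (-b : ℤ) ≤ ⌊X ^ 3⌋ := Int.le_floor.2 (by push_cast; linarith [h2.1])
    omega

theorem box_mono (X Y : ℝ) (h0 : 0 ≤ X) (h : X ≤ Y) : Box X ⊆ Box Y := by
  rintro p ⟨h1, h2⟩
  exact ⟨h1.trans (pow_le_pow_left₀ h0 h 2), h2.trans (pow_le_pow_left₀ h0 h 3)⟩

theorem log_bd (ε X : ℝ) (hε : 0 < ε) (hX : 1 ≤ X) : 1 + Real.log X ≤ (1 + 1 / ε) * X ^ ε := by
  have h1 : Real.log X ≤ X ^ ε / ε := Real.log_le_rpow_div (by linarith) hε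
  have h2 : 1 ≤ X ^ ε := Real.one_le_rpow hX hε.le
  have h3 : (1 + 1 / ε) * X ^ ε = X ^ ε + X ^ ε / ε := by ring
  linarith

theorem ht_box (X H : ℝ) (hX : 0 ≤ X) (hXH : X ^ 6 = H) (A B : ℤ) (h : ht A B ≤ H) :
    |(A : ℝ)| ≤ X ^ 2 ∧ |(B : ℝ)| ≤ X ^ 3 := by
  unfold ht at h
  have h1 := (le_max_left _ _).trans h
  have h2 := (le_max_right _ _).trans h
  have hA3 : |(A : ℝ)| ^ 3 ≤ (X ^ 2) ^ 3 := by
    have e : |4 * (A : ℝ) ^ 3| = 4 * |(A : ℝ)| ^ 3 := by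
      rw [abs_mul, abs_pow]; norm_num
    have e' : (X ^ 2) ^ 3 = X ^ 6 := by ring
    have p : 0 ≤ |(A : ℝ)| ^ 3 := by positivity
    rw [e', hXH]
    linarith
  have hB2 : |(B : ℝ)| ^ 2 ≤ (X ^ 3) ^ 2 := by
    have e : |27 * (B : ℝ) ^ 2| = 27 * |(B : ℝ)| ^ 2 := by
      rw [abs_mul, abs_pow]; norm_num
    have e' : (X ^ 3) ^ 2 = X ^ 6 := by ring
    have p : 0 ≤ |(B : ℝ)| ^ 2 := by positivity
    rw [e', hXH]
    linarith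
  exact ⟨le_of_pow_le_pow_left₀ (by norm_num) (by positivity) hA3,
    le_of_pow_le_pow_left₀ (by norm_num) (by positivity) hB2⟩

theorem Fe_sub_box (X M : ℝ) (e : ℕ) : Fe X M e ⊆ Box X := by
  rintro p ⟨a, -, -, h1, h2, -⟩
  exact ⟨h1, h2⟩

theorem Fe_mono (X M M' : ℝ) (e : ℕ) (h : M ≤ M') : Fe X M e ⊆ Fe X M' e := by
  rintro p ⟨a, h0, h1, h2⟩
  exact ⟨a, h0, h1.trans h, h2⟩

theorem ncard_union3 (S D Z G : Set (ℤ × ℤ)) (hD : D.Finite) (hZ : Z.Finite) (hG : G.Finite)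
    (h : S ⊆ D ∪ Z ∪ G) : (S.ncard : ℝ) ≤ D.ncard + Z.ncard + G.ncard := by
  have h1 : S.ncard ≤ (D ∪ Z ∪ G).ncard := Set.ncard_le_ncard h ((hD.union hZ).union hG)
  have h2 : (D ∪ Z ∪ G).ncard ≤ (D ∪ Z).ncard + G.ncard := Set.ncard_union_le _ _
  have h3 : (D ∪ Z).ncard ≤ D.ncard + Z.ncard := Set.ncard_union_le _ _
  have h5 : S.ncard ≤ D.ncard + Z.ncard + G.ncard := by omega
  exact_mod_cast h5

theorem tm (X μ L : ℝ) (hX : 1 ≤ X) (hμ : 0 < μ) (hL : L = 1 + 1 / μ) (i : ℕ) (e : ℝ)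
    (he : e + i * μ ≤ 19 / 4 - μ) : (1 + Real.log X) ^ i * X ^ e ≤ L ^ i * X ^ (19 / 4 - μ) := by
  have hX0 : 0 < X := by linarith
  have hlog := log_bd μ X hμ hX
  rw [← hL] at hlog
  have hlog0 : 0 ≤ Real.log X := Real.log_nonneg hX
  have hL0 : 0 < L := by rw [hL]; positivity
  have e1 : (1 + Real.log X) ^ i ≤ (L * X ^ μ) ^ i := pow_le_pow_left₀ (by linarith) hlog i
  have e2 : (X ^ μ) ^ i * X ^ e = X ^ (e + i * μ) := by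
    rw [← Real.rpow_natCast, ← Real.rpow_mul hX0.le, ← Real.rpow_add hX0]
    congr 1
    ring
  calc (1 + Real.log X) ^ i * X ^ e ≤ (L * X ^ μ) ^ i * X ^ e := by gcongr
    _ = L ^ i * ((X ^ μ) ^ i * X ^ e) := by rw [mul_pow]; ring
    _ = L ^ i * X ^ (e + i * μ) := by rw [e2]
    _ ≤ L ^ i * X ^ (19 / 4 - μ) := by
      have := Real.rpow_le_rpow_of_exponent_le hX he
      gcongr

theorem numeric (X δ μ c C₁ C₂ C₃ n₁ n₂ n₃ : ℝ) (hX : 1 ≤ X) (hδ : 0 < δ) (hδ1 : δ ≤ 6 / 5)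
    (hμ : μ = δ / 200) (hc : 0 < c) (hC₁ : 0 < C₁) (hC₂ : 0 < C₂) (hC₃ : 0 < C₃)
    (h₁ : n₁ ≤ C₁ * X ^ (5 - 5 * ((2 : ℝ) / 5) / 6))
    (h₂ : n₂ ≤ C₂ * X ^ ((37 : ℝ) / 8))
    (h₃ : n₃ ≤ C₃ * (1 + Real.log X) * (X ^ (5 - 2 * (1 / 8 + μ)) +
      X ^ (5 / 2 - δ / 2) * (c * X ^ (11 / 10 - δ / 4)) ^ 2 +
      X ^ (5 / 2 - δ / 2) * X * (c * X ^ (11 / 10 - δ / 4)) * X ^ (1 / 8 + μ) +
      X ^ (5 / 2 - δ / 2) * X ^ 2 * X ^ (2 * (1 / 8 + μ)) * (1 + Real.log X) ^ 2 +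
      X ^ ((7 : ℝ) / 2) * (c * X ^ (11 / 10 - δ / 4)) * X ^ (1 / 8 + μ) +
      X ^ ((9 : ℝ) / 2) * (1 + Real.log X) ^ 2)) :
    n₁ + n₂ + n₃ ≤ (C₁ + C₂ + C₃ * ((1 + 1 / μ) + c ^ 2 * (1 + 1 / μ) + c * (1 + 1 / μ) +
      (1 + 1 / μ) ^ 3 + c * (1 + 1 / μ) + (1 + 1 / μ) ^ 3)) * X ^ (19 / 4 - μ) := by
  have hX0 : 0 < X := by linarith
  have hμ0 : 0 < μ := by rw [hμ]; positivity
  have hδμ : δ = 200 * μ := by rw [hμ]; ring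
  have hμ1 : μ ≤ 3 / 500 := by rw [hμ]; linarith
  obtain ⟨L, hL⟩ : ∃ L : ℝ, L = 1 + 1 / μ := ⟨_, rfl⟩
  rw [← hL]
  have hL0 : 0 < L := by rw [hL]; positivity
  set W := X ^ (19 / 4 - μ) with hW
  have hW0 : 0 < W := by positivity
  have hlog0 : 0 ≤ Real.log X := Real.log_nonneg hX
  set l := 1 + Real.log X with hl
  have hl0 : 0 < l := by linarith
  have hX1 : X = X ^ (1 : ℝ) := (Real.rpow_one X).symm
  have hX2 : X ^ 2 = X ^ (2 : ℝ) := by rw [← Real.rpow_natCast]; norm_num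
  have a₁ : X ^ (5 - 5 * ((2 : ℝ) / 5) / 6) ≤ W :=
    Real.rpow_le_rpow_of_exponent_le hX (by linarith)
  have a₂ : X ^ ((37 : ℝ) / 8) ≤ W := Real.rpow_le_rpow_of_exponent_le hX (by linarith)
  have b₁ : l * X ^ (5 - 2 * (1 / 8 + μ)) ≤ L * W := by
    have h := tm X μ L hX hμ0 hL 1 (5 - 2 * (1 / 8 + μ)) (by push_cast; linarith)
    rw [pow_one, pow_one] at h
    exact h
  have b₂ : l * (X ^ (5 / 2 - δ / 2) * (c * X ^ (11 / 10 - δ / 4)) ^ 2) ≤ c ^ 2 * L * W := by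
    have h := tm X μ L hX hμ0 hL 1 (47 / 10 - δ) (by push_cast; linarith)
    rw [pow_one, pow_one] at h
    have e : X ^ (5 / 2 - δ / 2) * (X ^ (11 / 10 - δ / 4)) ^ 2 = X ^ (47 / 10 - δ) := by
      rw [← Real.rpow_natCast, ← Real.rpow_mul hX0.le, ← Real.rpow_add hX0]
      congr 1
      push_cast
      ring
    calc l * (X ^ (5 / 2 - δ / 2) * (c * X ^ (11 / 10 - δ / 4)) ^ 2)
        = c ^ 2 * (l * (X ^ (5 / 2 - δ / 2) * (X ^ (11 / 10 - δ / 4)) ^ 2)) := by ring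
      _ = c ^ 2 * (l * X ^ (47 / 10 - δ)) := by rw [e]
      _ ≤ c ^ 2 * (L * W) := mul_le_mul_of_nonneg_left h (by positivity)
      _ = c ^ 2 * L * W := by ring
  have b₃ : l * (X ^ (5 / 2 - δ / 2) * X * (c * X ^ (11 / 10 - δ / 4)) * X ^ (1 / 8 + μ)) ≤
      c * L * W := by
    have h := tm X μ L hX hμ0 hL 1 (189 / 40 - 3 * δ / 4 + μ) (by push_cast; linarith)
    rw [pow_one, pow_one] at h
    have e : X ^ (5 / 2 - δ / 2) * X ^ (1 : ℝ) * X ^ (11 / 10 - δ / 4) * X ^ (1 / 8 + μ) =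
        X ^ (189 / 40 - 3 * δ / 4 + μ) := by
      rw [← Real.rpow_add hX0, ← Real.rpow_add hX0, ← Real.rpow_add hX0]
      congr 1
      ring
    rw [Real.rpow_one] at e
    calc l * (X ^ (5 / 2 - δ / 2) * X * (c * X ^ (11 / 10 - δ / 4)) * X ^ (1 / 8 + μ))
        = c * (l * (X ^ (5 / 2 - δ / 2) * X * X ^ (11 / 10 - δ / 4) * X ^ (1 / 8 + μ))) := by ring
      _ = c * (l * X ^ (189 / 40 - 3 * δ / 4 + μ)) := by rw [e]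
      _ ≤ c * (L * W) := mul_le_mul_of_nonneg_left h hc.le
      _ = c * L * W := by ring
  have b₄ : l * (X ^ (5 / 2 - δ / 2) * X ^ 2 * X ^ (2 * (1 / 8 + μ)) * l ^ 2) ≤ L ^ 3 * W := by
    have h := tm X μ L hX hμ0 hL 3 (19 / 4 - δ / 2 + 2 * μ) (by push_cast; linarith)
    have e : X ^ (5 / 2 - δ / 2) * X ^ (2 : ℝ) * X ^ (2 * (1 / 8 + μ)) =
        X ^ (19 / 4 - δ / 2 + 2 * μ) := by
      rw [← Real.rpow_add hX0, ← Real.rpow_add hX0]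
      congr 1
      ring
    rw [← hX2] at e
    calc l * (X ^ (5 / 2 - δ / 2) * X ^ 2 * X ^ (2 * (1 / 8 + μ)) * l ^ 2)
        = l ^ 3 * (X ^ (5 / 2 - δ / 2) * X ^ 2 * X ^ (2 * (1 / 8 + μ))) := by ring
      _ = l ^ 3 * X ^ (19 / 4 - δ / 2 + 2 * μ) := by rw [e]
      _ ≤ L ^ 3 * W := h
  have b₅ : l * (X ^ ((7 : ℝ) / 2) * (c * X ^ (11 / 10 - δ / 4)) * X ^ (1 / 8 + μ)) ≤
      c * L * W := by
    have h := tm X μ L hX hμ0 hL 1 (189 / 40 - δ / 4 + μ) (by push_cast; linarith)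
    rw [pow_one, pow_one] at h
    have e : X ^ ((7 : ℝ) / 2) * X ^ (11 / 10 - δ / 4) * X ^ (1 / 8 + μ) =
        X ^ (189 / 40 - δ / 4 + μ) := by
      rw [← Real.rpow_add hX0, ← Real.rpow_add hX0]
      congr 1
      ring
    calc l * (X ^ ((7 : ℝ) / 2) * (c * X ^ (11 / 10 - δ / 4)) * X ^ (1 / 8 + μ))
        = c * (l * (X ^ ((7 : ℝ) / 2) * X ^ (11 / 10 - δ / 4) * X ^ (1 / 8 + μ))) := by ring
      _ = c * (l * X ^ (189 / 40 - δ / 4 + μ)) := by rw [e]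
      _ ≤ c * (L * W) := mul_le_mul_of_nonneg_left h hc.le
      _ = c * L * W := by ring
  have b₆ : l * (X ^ ((9 : ℝ) / 2) * l ^ 2) ≤ L ^ 3 * W := by
    have h := tm X μ L hX hμ0 hL 3 ((9 : ℝ) / 2) (by push_cast; linarith)
    calc l * (X ^ ((9 : ℝ) / 2) * l ^ 2) = l ^ 3 * X ^ ((9 : ℝ) / 2) := by ring
      _ ≤ L ^ 3 * W := h
  have c₃ : n₃ ≤ C₃ * (L * W + c ^ 2 * L * W + c * L * W + L ^ 3 * W + c * L * W + L ^ 3 * W) := by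
    refine h₃.trans ?_
    have h4 := mul_le_mul_of_nonneg_left (add_le_add (add_le_add (add_le_add (add_le_add
      (add_le_add b₁ b₂) b₃) b₄) b₅) b₆) hC₃.le
    rw [← mul_add, ← mul_add, ← mul_add, ← mul_add, ← mul_add, ← mul_assoc] at h4
    exact h4
  have c₁ : n₁ ≤ C₁ * W := h₁.trans (mul_le_mul_of_nonneg_left a₁ hC₁.le)
  have c₂ : n₂ ≤ C₂ * W := h₂.trans (mul_le_mul_of_nonneg_left a₂ hC₂.le)
  have e : (C₁ + C₂ + C₃ * (L + c ^ 2 * L + c * L + L ^ 3 + c * L + L ^ 3)) * W =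
      C₁ * W + C₂ * W + C₃ * (L * W + c ^ 2 * L * W + c * L * W + L ^ 3 * W + c * L * W + L ^ 3 * W) := by
    ring
  rw [e]
  linarith

end IK2

open IK2 in
theorem pg_K2 : S_K2 := by
  rintro ⟨C, hC1, hAlt⟩ hCV hDC hZ0 κ hκ
  obtain ⟨κ₀, hk1, hk2, hk3⟩ : ∃ κ₀ : ℝ, κ ≤ κ₀ ∧ 4 / 5 ≤ κ₀ ∧ κ₀ < 1 :=
    ⟨max κ (4 / 5), le_max_left _ _, le_max_right _ _, max_lt hκ (by norm_num)⟩
  obtain ⟨δ, hδ⟩ : ∃ δ : ℝ, δ = 6 - 6 * κ₀ := ⟨_, rfl⟩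
  have hδ0 : 0 < δ := by linarith
  have hδ1 : δ ≤ 6 / 5 := by linarith
  obtain ⟨μ, hμ⟩ : ∃ μ : ℝ, μ = δ / 200 := ⟨_, rfl⟩
  have hμ0 : 0 < μ := by rw [hμ]; positivity
  have hμ1 : μ ≤ 3 / 500 := by rw [hμ]; linarith
  obtain ⟨C₁, hC₁, hD⟩ := hDC (2 / 5) (by norm_num) (by norm_num)
  obtain ⟨C₂, hC₂, hZ⟩ := hZ0 C hC1
  obtain ⟨C₃, hC₃, hG⟩ := hCV C hC1
  have hCp : 0 < C := by linarith
  have hC4 : 1 ≤ C ^ ((1 : ℝ) / 4) := Real.one_le_rpow hC1 (by norm_num)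
  obtain ⟨X₀, hX₀⟩ : ∃ X₀ : ℝ, X₀ = (4 * C ^ ((1 : ℝ) / 4)) ^ (40 : ℝ) := ⟨_, rfl⟩
  have hX₀0 : 0 < X₀ := by rw [hX₀]; positivity
  have hX₀C : C ≤ X₀ := by
    have h1 : (C ^ ((1 : ℝ) / 4)) ^ (4 : ℝ) = C := by
      rw [← Real.rpow_mul hCp.le]; norm_num
    calc C = (C ^ ((1 : ℝ) / 4)) ^ (4 : ℝ) := h1.symm
      _ ≤ (4 * C ^ ((1 : ℝ) / 4)) ^ (4 : ℝ) := Real.rpow_le_rpow (by positivity) (by linarith) (by norm_num)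
      _ ≤ (4 * C ^ ((1 : ℝ) / 4)) ^ (40 : ℝ) :=
          Real.rpow_le_rpow_of_exponent_le (by linarith) (by norm_num)
      _ = X₀ := hX₀.symm
  refine ⟨μ / 6, by positivity,
    (C₁ + C₂ + C₃ * ((1 + 1 / μ) + (C ^ ((1 : ℝ) / 4)) ^ 2 * (1 + 1 / μ) + C ^ ((1 : ℝ) / 4) * (1 + 1 / μ) +
      (1 + 1 / μ) ^ 3 + C ^ ((1 : ℝ) / 4) * (1 + 1 / μ) + (1 + 1 / μ) ^ 3)) +
      ((Box X₀).ncard : ℝ), by positivity, ?_⟩
  intro H hH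
  have hH0 : 0 < H := by linarith
  obtain ⟨X, hX⟩ : ∃ X : ℝ, X = H ^ ((1 : ℝ) / 6) := ⟨_, rfl⟩
  have hX1 : 1 ≤ X := by rw [hX]; exact Real.one_le_rpow hH (by norm_num)
  have hX0 : 0 < X := by linarith
  have hXH : X ^ 6 = H := by
    rw [hX, ← Real.rpow_natCast, ← Real.rpow_mul hH0.le]; norm_num
  have hpow : ∀ t : ℝ, H ^ t = X ^ (6 * t) := by
    intro t
    rw [hX, ← Real.rpow_mul hH0.le]
    congr 1
    ring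
  have hfin : H ^ ((19 : ℝ) / 24 - μ / 6) = X ^ (19 / 4 - μ) := by
    rw [hpow]
    congr 1
    ring
  rw [hfin]
  set S : Set (ℤ × ℤ) := {p : ℤ × ℤ | 4 * p.1 ^ 3 + 27 * p.2 ^ 2 ≠ 0 ∧ ht p.1 p.2 ≤ H ∧ Sg κ H p.1 p.2} with hS
  have hSbox : S ⊆ Box X := by
    rintro p ⟨-, h, -⟩
    exact ht_box X H hX0.le hXH p.1 p.2 h
  have hW1 : 1 ≤ X ^ (19 / 4 - μ) := Real.one_le_rpow hX1 (by linarith)
  have hbig0 : 0 ≤ C₁ + C₂ + C₃ * ((1 + 1 / μ) + (C ^ ((1 : ℝ) / 4)) ^ 2 * (1 + 1 / μ) + C ^ ((1 : ℝ) / 4) * (1 + 1 / μ) +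
      (1 + 1 / μ) ^ 3 + C ^ ((1 : ℝ) / 4) * (1 + 1 / μ) + (1 + 1 / μ) ^ 3) := by
    positivity
  rcases le_total X X₀ with hc | hc
  · -- small X
    have h1 : S.ncard ≤ (Box X₀).ncard :=
      Set.ncard_le_ncard (hSbox.trans (box_mono X X₀ hX0.le hc)) (box_finite X₀)
    have h2 : (S.ncard : ℝ) ≤ ((Box X₀).ncard : ℝ) := by exact_mod_cast h1
    have h3 : (0 : ℝ) ≤ ((Box X₀).ncard : ℝ) := Nat.cast_nonneg _
    calc (S.ncard : ℝ) ≤ ((Box X₀).ncard : ℝ) * 1 := by linarith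
      _ ≤ ((C₁ + C₂ + C₃ * ((1 + 1 / μ) + (C ^ ((1 : ℝ) / 4)) ^ 2 * (1 + 1 / μ) + C ^ ((1 : ℝ) / 4) * (1 + 1 / μ) +
      (1 + 1 / μ) ^ 3 + C ^ ((1 : ℝ) / 4) * (1 + 1 / μ) + (1 + 1 / μ) ^ 3)) +
            ((Box X₀).ncard : ℝ)) * X ^ (19 / 4 - μ) := by
          apply mul_le_mul _ hW1 (by norm_num) (by positivity)
          linarith
  · -- large X
    have hR : (C * H ^ κ₀ * X ^ ((2 : ℝ) / 5 - 2)) ^ ((1 : ℝ) / 4) =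
        C ^ ((1 : ℝ) / 4) * X ^ (11 / 10 - δ / 4) := by
      have e : C * H ^ κ₀ * X ^ ((2 : ℝ) / 5 - 2) = C * X ^ (22 / 5 - δ) := by
        rw [mul_assoc, hpow, ← Real.rpow_add hX0]
        congr 2
        rw [hδ]
        ring
      rw [e, Real.mul_rpow hCp.le (by positivity), ← Real.rpow_mul hX0.le]
      congr 2
      ring
    have hE : √(H ^ κ₀ / X) = X ^ (5 / 2 - δ / 2) := by
      have e : H ^ κ₀ / X = X ^ (5 - δ) := by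
        rw [hpow, div_eq_iff hX0.ne', ← Real.rpow_add_one hX0.ne']
        congr 1
        rw [hδ]
        ring
      rw [e, Real.sqrt_eq_rpow, ← Real.rpow_mul hX0.le]
      congr 1
      ring
    have hR1 : 1 ≤ C ^ ((1 : ℝ) / 4) * X ^ (11 / 10 - δ / 4) := by
      have : 1 ≤ X ^ (11 / 10 - δ / 4) := Real.one_le_rpow hX1 (by linarith)
      nlinarith
    have hE1 : 1 ≤ X ^ (5 / 2 - δ / 2) := Real.one_le_rpow hX1 (by linarith)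
    have hR2 : 4 * (C ^ ((1 : ℝ) / 4) * X ^ (11 / 10 - δ / 4)) ≤ X ^ 2 := by
      have h1 : 4 * C ^ ((1 : ℝ) / 4) ≤ X ^ ((1 : ℝ) / 40) := by
        have h2 : X₀ ^ ((1 : ℝ) / 40) = 4 * C ^ ((1 : ℝ) / 4) := by
          rw [hX₀, ← Real.rpow_mul (by positivity)]
          norm_num
        rw [← h2]
        exact Real.rpow_le_rpow hX₀0.le hc (by norm_num)
      calc 4 * (C ^ ((1 : ℝ) / 4) * X ^ (11 / 10 - δ / 4))
          = (4 * C ^ ((1 : ℝ) / 4)) * X ^ (11 / 10 - δ / 4) := by ring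
        _ ≤ X ^ ((1 : ℝ) / 40) * X ^ (11 / 10 - δ / 4) := mul_le_mul_of_nonneg_right h1 (by positivity)
        _ = X ^ ((1 : ℝ) / 40 + (11 / 10 - δ / 4)) := (Real.rpow_add hX0 _ _).symm
        _ ≤ X ^ (2 : ℝ) := Real.rpow_le_rpow_of_exponent_le hX1 (by linarith)
        _ = X ^ 2 := by rw [← Real.rpow_natCast]; norm_num
    obtain ⟨hGf, hGn⟩ := hG X (C ^ ((1 : ℝ) / 4) * X ^ (11 / 10 - δ / 4)) (X ^ (5 / 2 - δ / 2)) (1 / 8 + μ) hX1 hR1 hR2 hE1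
      (by positivity)
    have hDf : {p : ℤ × ℤ | |(p.1 : ℝ)| ≤ X ^ 2 ∧ |(p.2 : ℝ)| ≤ X ^ 3 ∧
        |4 * (p.1 : ℝ) ^ 3 + 27 * (p.2 : ℝ) ^ 2| ≤ X ^ (6 - (2 : ℝ) / 5)}.Finite :=
      (box_finite X).subset (fun p h => ⟨h.1, h.2.1⟩)
    have hZf : {p : ℤ × ℤ | ∃ e : ℕ, 0 < e ∧ (e : ℝ) ≤ C * √X ∧ p ∈ Fe X (X ^ ((15 : ℝ) / 4)) e}.Finite :=
      (box_finite X).subset (fun p ⟨e, _, _, h⟩ => Fe_sub_box _ _ _ h)
    have hCX : C * X ^ 2 ≤ X ^ ((15 : ℝ) / 4) := by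
      calc C * X ^ 2 ≤ X * X ^ 2 := by
            apply mul_le_mul_of_nonneg_right (hX₀C.trans hc) (by positivity)
        _ = X ^ (3 : ℝ) := by
            rw [show (3 : ℝ) = ((3 : ℕ) : ℝ) by norm_num, Real.rpow_natCast]; ring
        _ ≤ X ^ ((15 : ℝ) / 4) := Real.rpow_le_rpow_of_exponent_le hX1 (by norm_num)
    have hsub : S ⊆ {p : ℤ × ℤ | |(p.1 : ℝ)| ≤ X ^ 2 ∧ |(p.2 : ℝ)| ≤ X ^ 3 ∧
        |4 * (p.1 : ℝ) ^ 3 + 27 * (p.2 : ℝ) ^ 2| ≤ X ^ (6 - (2 : ℝ) / 5)} ∪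
        {p : ℤ × ℤ | ∃ e : ℕ, 0 < e ∧ (e : ℝ) ≤ C * √X ∧ p ∈ Fe X (X ^ ((15 : ℝ) / 4)) e} ∪
        {p : ℤ × ℤ | ∃ ω : ℝ, X ^ (-(1 / 4) : ℝ) / C ≤ ω ∧ ω ≤ 2 ∧
          p ∈ PX C X ω (C ^ ((1 : ℝ) / 4) * X ^ (11 / 10 - δ / 4)) (X ^ (5 / 2 - δ / 2))} := by
      rintro ⟨A, B⟩ hp
      obtain ⟨hA, hB⟩ := hSbox hp
      obtain ⟨-, -, P, x, y, hPxy, hP2, hnum, hden⟩ := hp
      simp only at hA hB hPxy hP2
      by_cases hdisc : |4 * (A : ℝ) ^ 3 + 27 * (B : ℝ) ^ 2| ≤ X ^ (6 - (2 : ℝ) / 5)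
      · exact Or.inl (Or.inl ⟨hA, hB, hdisc⟩)
      · push Not at hdisc
        have hHκ : H ^ κ ≤ H ^ κ₀ := Real.rpow_le_rpow_of_exponent_le hH hk1
        have hden' : (x.den : ℝ) * X ≤ H ^ κ₀ := by
          rw [hX]
          exact hden.trans hHκ
        rcases hAlt X (H ^ κ₀) (2 / 5) A B P x y hX1 (by norm_num) hA hB hdisc hPxy hP2
          (hnum.trans hHκ) hden' with ⟨e, he0, he1, he2⟩ | ⟨ω, hω1, hω2, hf⟩
        · exact Or.inl (Or.inr ⟨e, he0, he1, Fe_mono X _ _ e hCX he2⟩)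
        · refine Or.inr ⟨ω, hω1, hω2, ?_⟩
          rw [hR, hE] at hf
          exact hf
    have hn := ncard_union3 S _ _ _ hDf hZf hGf hsub
    have hnum := numeric X δ μ (C ^ ((1 : ℝ) / 4)) C₁ C₂ C₃ _ _ _ hX1 hδ0 hδ1 hμ (by positivity) hC₁ hC₂ hC₃
      (hD X hX1) (hZ X hX1) hGn
    have h3 : (0 : ℝ) ≤ ((Box X₀).ncard : ℝ) * X ^ (19 / 4 - μ) := by positivity
    rw [add_mul]
    linarith

end Pool.Agent.Work.MP_bd3ec3_nt.SG
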