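import Pool.Agent.Work.MP_bd3ec3_nt.SG.StmtsK

/-!
# MP_bd3ec3_nt, block SG, item KC: the cusp
-/

set_option autoImplicit false

namespace Pool.Agent.Work.MP_bd3ec3_nt.SG

open Pool.Agent.Work.MP_bd3ec3_nt.SP

namespace IKC

theorem small {K y v : ℝ} (hy0 : 0 ≤ y) (hy1 : y ≤ 1) (hv : |v| ≤ K) (i : ℕ) : |y ^ i * v| ≤ K := by
  rw [abs_mul, abs_of_nonneg (pow_nonneg hy0 i)]
  calc y ^ i * |v| ≤ 1 * |v| := mul_le_mul_of_nonneg_right (pow_le_one₀ hy0 hy1) (abs_nonneg v)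
    _ ≤ K := by rw [one_mul]; exact hv

theorem scale {K ω a b c d e k : ℝ} (hω : 0 < ω) (hk : 0 ≤ k) (hk1 : k * ω ^ 2 ≤ 1)
    (ha : |a| ≤ K * ω ^ 4) (hb : |b| ≤ K * ω ^ 2) (hc : |c| ≤ K) (hd : |d| ≤ K / ω ^ 2)
    (he : |e| ≤ K / ω ^ 4) :
    |b + 4 * k * a| ≤ 10 * K * ω ^ 2 ∧ |c + 3 * k * b + 6 * k ^ 2 * a| ≤ 10 * K ∧
      |d + 2 * k * c + 3 * k ^ 2 * b + 4 * k ^ 3 * a| ≤ 10 * K / ω ^ 2 ∧
      |e + k * d + k ^ 2 * c + k ^ 3 * b + k ^ 4 * a| ≤ 10 * K / ω ^ 4 := by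
  have hw2 : 0 < ω ^ 2 := by positivity
  have hw4 : 0 < ω ^ 4 := by positivity
  obtain ⟨a', ha'⟩ : ∃ a', a' = a / ω ^ 4 := ⟨_, rfl⟩
  obtain ⟨b', hb'⟩ : ∃ b', b' = b / ω ^ 2 := ⟨_, rfl⟩
  obtain ⟨d', hd'⟩ : ∃ d', d' = d * ω ^ 2 := ⟨_, rfl⟩
  obtain ⟨e', he'⟩ : ∃ e', e' = e * ω ^ 4 := ⟨_, rfl⟩
  obtain ⟨y, hy⟩ : ∃ y, y = k * ω ^ 2 := ⟨_, rfl⟩
  have hy0 : 0 ≤ y := by rw [hy]; positivity
  have hy1 : y ≤ 1 := by rw [hy]; exact hk1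
  have h1 : |a'| ≤ K := by
    rw [ha', abs_div, abs_of_pos hw4, div_le_iff₀ hw4]
    exact ha
  have h2 : |b'| ≤ K := by
    rw [hb', abs_div, abs_of_pos hw2, div_le_iff₀ hw2]
    exact hb
  have h3 : |d'| ≤ K := by
    rw [hd', abs_mul, abs_of_pos hw2, ← le_div_iff₀ hw2]
    exact hd
  have h4 : |e'| ≤ K := by
    rw [he', abs_mul, abs_of_pos hw4, ← le_div_iff₀ hw4]
    exact he
  have ea : a = a' * ω ^ 4 := by rw [ha']; field_simp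
  have eb : b = b' * ω ^ 2 := by rw [hb']; field_simp
  have ed : d = d' / ω ^ 2 := by rw [hd']; field_simp
  have ee : e = e' / ω ^ 4 := by rw [he']; field_simp
  have ek : k = y / ω ^ 2 := by rw [hy]; field_simp
  have t1 := fun i => small hy0 hy1 h1 i
  have t2 := fun i => small hy0 hy1 h2 i
  have t3 := fun i => small hy0 hy1 h3 i
  have tc := fun i => small hy0 hy1 hc i
  refine ⟨?_, ?_, ?_, ?_⟩
  · have e1 : b + 4 * k * a = (b' + 4 * (y ^ 1 * a')) * ω ^ 2 := by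
      rw [ea, eb, ek]; field_simp
    rw [e1, abs_mul, abs_of_pos hw2]
    refine mul_le_mul_of_nonneg_right ?_ hw2.le
    have := abs_le.mp (t1 1)
    have := abs_le.mp h2
    rw [abs_le]
    constructor <;> linarith
  · have e1 : c + 3 * k * b + 6 * k ^ 2 * a = c + 3 * (y ^ 1 * b') + 6 * (y ^ 2 * a') := by
      rw [ea, eb, ek]; field_simp
    rw [e1]
    have := abs_le.mp (t1 2)
    have := abs_le.mp (t2 1)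
    have := abs_le.mp hc
    rw [abs_le]
    constructor <;> linarith
  · have e1 : d + 2 * k * c + 3 * k ^ 2 * b + 4 * k ^ 3 * a =
        (d' + 2 * (y ^ 1 * c) + 3 * (y ^ 2 * b') + 4 * (y ^ 3 * a')) / ω ^ 2 := by
      rw [ea, eb, ed, ek]; field_simp
    rw [e1, abs_div, abs_of_pos hw2]
    refine div_le_div_of_nonneg_right ?_ hw2.le
    have := abs_le.mp (t1 3)
    have := abs_le.mp (t2 2)
    have := abs_le.mp (tc 1)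
    have := abs_le.mp h3
    rw [abs_le]
    constructor <;> linarith
  · have e1 : e + k * d + k ^ 2 * c + k ^ 3 * b + k ^ 4 * a =
        (e' + y ^ 1 * d' + y ^ 2 * c + y ^ 3 * b' + y ^ 4 * a') / ω ^ 4 := by
      rw [ea, eb, ed, ee, ek]; field_simp
    rw [e1, abs_div, abs_of_pos hw4]
    refine div_le_div_of_nonneg_right ?_ hw4.le
    have := abs_le.mp (t1 4)
    have := abs_le.mp (t2 3)
    have := abs_le.mp (tc 2)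
    have := abs_le.mp (t3 1)
    have := abs_le.mp h4
    rw [abs_le]
    constructor <;> linarith

theorem memI {x : ℤ} {b : ℝ} (h : |(x : ℝ)| ≤ b) :
    x ∈ Finset.Icc (-((⌊b⌋₊ : ℕ) : ℤ)) ((⌊b⌋₊ : ℕ) : ℤ) := by
  have h1 : ((x.natAbs : ℕ) : ℝ) ≤ b := by
    rw [Nat.cast_natAbs, Int.cast_abs]
    exact h
  have h2 : x.natAbs ≤ ⌊b⌋₊ := Nat.le_floor h1
  rw [Finset.mem_Icc]
  omega

theorem cardI {b : ℝ} (h : 1 / 2 ≤ b) :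
    ((Finset.Icc (-((⌊b⌋₊ : ℕ) : ℤ)) ((⌊b⌋₊ : ℕ) : ℤ)).card : ℝ) ≤ 4 * b := by
  have h1 : (Finset.Icc (-((⌊b⌋₊ : ℕ) : ℤ)) ((⌊b⌋₊ : ℕ) : ℤ)).card = 2 * ⌊b⌋₊ + 1 := by
    rw [Int.card_Icc]
    omega
  rw [h1]
  push_cast
  have h2 : ((⌊b⌋₊ : ℕ) : ℝ) ≤ b := Nat.floor_le (by linarith)
  linarith

/-- The forms in a box. -/
theorem box {b1 b2 b3 b4 b5 : ℝ} (h1 : 1 / 2 ≤ b1) (h2 : 1 / 2 ≤ b2) (h3 : 1 / 2 ≤ b3)
    (h4 : 1 / 2 ≤ b4) (h5 : 1 / 2 ≤ b5) :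
    {f : BQ ℤ | |(f.a : ℝ)| ≤ b1 ∧ |(f.b : ℝ)| ≤ b2 ∧ |(f.c : ℝ)| ≤ b3 ∧ |(f.d : ℝ)| ≤ b4 ∧
      |(f.e : ℝ)| ≤ b5}.Finite ∧
    (({f : BQ ℤ | |(f.a : ℝ)| ≤ b1 ∧ |(f.b : ℝ)| ≤ b2 ∧ |(f.c : ℝ)| ≤ b3 ∧ |(f.d : ℝ)| ≤ b4 ∧
      |(f.e : ℝ)| ≤ b5}.ncard : ℕ) : ℝ) ≤ (4 * b1) * ((4 * b2) * ((4 * b3) * ((4 * b4) * (4 * b5)))) := by
  obtain ⟨P, hP⟩ : ∃ P : Finset (ℤ × ℤ × ℤ × ℤ × ℤ),
      P = (Finset.Icc (-((⌊b1⌋₊ : ℕ) : ℤ)) ((⌊b1⌋₊ : ℕ) : ℤ)) ×ˢ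
      ((Finset.Icc (-((⌊b2⌋₊ : ℕ) : ℤ)) ((⌊b2⌋₊ : ℕ) : ℤ)) ×ˢ
      ((Finset.Icc (-((⌊b3⌋₊ : ℕ) : ℤ)) ((⌊b3⌋₊ : ℕ) : ℤ)) ×ˢ
      ((Finset.Icc (-((⌊b4⌋₊ : ℕ) : ℤ)) ((⌊b4⌋₊ : ℕ) : ℤ)) ×ˢ
      (Finset.Icc (-((⌊b5⌋₊ : ℕ) : ℤ)) ((⌊b5⌋₊ : ℕ) : ℤ))))) := ⟨_, rfl⟩
  obtain ⟨g, hg⟩ : ∃ g : BQ ℤ → ℤ × ℤ × ℤ × ℤ × ℤ, g = fun f => (f.a, f.b, f.c, f.d, f.e) := ⟨_, rfl⟩
  have hmap : ∀ f ∈ {f : BQ ℤ | |(f.a : ℝ)| ≤ b1 ∧ |(f.b : ℝ)| ≤ b2 ∧ |(f.c : ℝ)| ≤ b3 ∧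
      |(f.d : ℝ)| ≤ b4 ∧ |(f.e : ℝ)| ≤ b5}, g f ∈ (P : Set (ℤ × ℤ × ℤ × ℤ × ℤ)) := by
    intro f hf
    obtain ⟨e1, e2, e3, e4, e5⟩ := hf
    rw [hg, hP, Finset.mem_coe]
    simp only [Finset.mem_product]
    exact ⟨memI e1, memI e2, memI e3, memI e4, memI e5⟩
  have hinj : Set.InjOn g {f : BQ ℤ | |(f.a : ℝ)| ≤ b1 ∧ |(f.b : ℝ)| ≤ b2 ∧ |(f.c : ℝ)| ≤ b3 ∧
      |(f.d : ℝ)| ≤ b4 ∧ |(f.e : ℝ)| ≤ b5} := by
    intro f _ f' _ h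
    rw [hg] at h
    simp only [Prod.mk.injEq] at h
    obtain ⟨e1, e2, e3, e4, e5⟩ := h
    exact BQ.ext e1 e2 e3 e4 e5
  refine ⟨Set.Finite.of_injOn hmap hinj P.finite_toSet, ?_⟩
  have hle := Set.ncard_le_ncard_of_injOn g hmap hinj P.finite_toSet
  rw [Set.ncard_coe_finset] at hle
  have hcard : (P.card : ℝ) ≤ (4 * b1) * ((4 * b2) * ((4 * b3) * ((4 * b4) * (4 * b5)))) := by
    rw [hP, Finset.card_product, Finset.card_product, Finset.card_product, Finset.card_product]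
    push_cast
    have n1 := cardI h1
    have n2 := cardI h2
    have n3 := cardI h3
    have n4 := cardI h4
    have n5 := cardI h5
    have p45 := mul_le_mul n4 n5 (Nat.cast_nonneg _) (by linarith)
    have p345 := mul_le_mul n3 p45 (by positivity) (by linarith)
    have p2345 := mul_le_mul n2 p345 (by positivity) (by linarith)
    exact mul_le_mul n1 p2345 (by positivity) (by linarith)
  exact le_trans (by exact_mod_cast hle) hcard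

end IKC

open IKC in
theorem pg_KC : S_KC := by
  intro C hC
  have hC0 : 0 < C := by linarith
  refine ⟨(40 * C) ^ 5, by positivity, ?_⟩
  intro X ω hX hω hω2
  have hX0 : 0 < X := by linarith
  obtain ⟨S, hS⟩ : ∃ S : Set (ℤ × ℤ), S = {p : ℤ × ℤ | ∃ f : BQ ℤ, f.I = -48 * p.1 ∧
    f.J = -1728 * p.2 ∧ f.a ≠ 0 ∧ Bw (C * X) ω (toR f)} := ⟨_, rfl⟩
  rw [← hS]
  by_cases hne : S = ∅
  · rw [hne]
    refine ⟨Set.finite_empty, ?_⟩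
    rw [Set.ncard_empty]
    push_cast
    positivity
  have hne' : S.Nonempty := Set.nonempty_iff_ne_empty.mpr hne
  have hKX : 1 ≤ C * X * ω ^ 4 := by
    obtain ⟨p, hp⟩ := hne'
    rw [hS] at hp
    obtain ⟨f, _, _, ha, hB⟩ := hp
    have h1 : (1 : ℝ) ≤ |(f.a : ℝ)| := by
      have h2 : (1 : ℤ) ≤ |f.a| := Int.one_le_abs ha
      have h3 : ((1 : ℤ) : ℝ) ≤ ((|f.a| : ℤ) : ℝ) := by exact_mod_cast h2
      rw [Int.cast_abs] at h3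
      simpa using h3
    exact h1.trans hB.1
  obtain ⟨K, hK⟩ : ∃ K : ℝ, K = C * X := ⟨_, rfl⟩
  have hK1 : 1 ≤ K := by rw [hK]; nlinarith
  rw [← hK] at hKX
  have hw2 : 0 < ω ^ 2 := by positivity
  have hw4 : 0 < ω ^ 4 := by positivity
  have hw24 : ω ^ 2 ≤ 4 := by nlinarith
  have hw44 : ω ^ 4 ≤ 16 := by nlinarith
  have q1 : 1 / 2 ≤ 10 * K * ω ^ 4 := by linarith
  have q2 : 1 / 2 ≤ 10 * K * ω ^ 2 := by
    have h1 : K * ω ^ 4 = (K * ω ^ 2) * ω ^ 2 := by ring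
    have h2 : (K * ω ^ 2) * ω ^ 2 ≤ (K * ω ^ 2) * 4 := mul_le_mul_of_nonneg_left hw24 (by positivity)
    linarith
  have q3 : 1 / 2 ≤ 10 * K := by linarith
  have q4 : 1 / 2 ≤ 10 * K / ω ^ 2 := by
    rw [le_div_iff₀ hw2]
    linarith
  have q5 : 1 / 2 ≤ 10 * K / ω ^ 4 := by
    rw [le_div_iff₀ hw4]
    linarith
  obtain ⟨hfin, hcard⟩ := box q1 q2 q3 q4 q5
  obtain ⟨Bx, hBx⟩ : ∃ Bx : Set (BQ ℤ), Bx = {f : BQ ℤ | |(f.a : ℝ)| ≤ 10 * K * ω ^ 4 ∧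
    |(f.b : ℝ)| ≤ 10 * K * ω ^ 2 ∧ |(f.c : ℝ)| ≤ 10 * K ∧ |(f.d : ℝ)| ≤ 10 * K / ω ^ 2 ∧
    |(f.e : ℝ)| ≤ 10 * K / ω ^ 4} := ⟨_, rfl⟩
  rw [← hBx] at hfin hcard
  have hprod5 : (4 * (10 * K * ω ^ 4)) * ((4 * (10 * K * ω ^ 2)) * ((4 * (10 * K)) *
      ((4 * (10 * K / ω ^ 2)) * (4 * (10 * K / ω ^ 4))))) = (40 * K) ^ 5 := by
    field_simp
    ring
  rw [hprod5] at hcard
  have hch : ∀ p : ℤ × ℤ, ∃ t : BQ ℤ, p ∈ S →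
      (t.I = -48 * p.1 ∧ t.J = -1728 * p.2 ∧ t.a ≠ 0 ∧ Bw K ω (toR t)) := by
    intro p
    by_cases hp : p ∈ S
    · have hp' := hp
      rw [hS] at hp'
      obtain ⟨f, h⟩ := hp'
      rw [← hK] at h
      exact ⟨f, fun _ => h⟩
    · exact ⟨⟨0, 0, 0, 0, 0⟩, fun h => absurd h hp⟩
  choose t ht using hch
  obtain ⟨Φ, hΦ⟩ : ∃ Φ : (ℤ × ℤ) × ℕ → BQ ℤ, Φ = fun q => (t q.1).act 1 (q.2 : ℤ) 0 1 := ⟨_, rfl⟩
  have key : ∀ (p : ℤ × ℤ) (k : ℕ), p ∈ S → (k : ℝ) * ω ^ 2 ≤ 1 → Φ (p, k) ∈ Bx := by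
    intro p k hp hk
    obtain ⟨b1, b2, b3, b4, b5⟩ := (ht p hp).2.2.2
    simp only [toR] at b1 b2 b3 b4 b5
    have hk0 : (0 : ℝ) ≤ (k : ℝ) := Nat.cast_nonneg k
    obtain ⟨s1, s2, s3, s4⟩ := scale hω hk0 hk b1 b2 b3 b4 b5
    rw [hΦ, hBx]
    show _ ∧ _ ∧ _ ∧ _ ∧ _
    simp only
    refine ⟨?_, ?_, ?_, ?_, ?_⟩
    · have e1 : ((((t p).act 1 (k : ℤ) 0 1).a : ℤ) : ℝ) = ((t p).a : ℝ) := by
        simp only [BQ.act]; push_cast; ring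
      rw [e1]
      have : 0 ≤ K * ω ^ 4 := by positivity
      linarith
    · have e1 : ((((t p).act 1 (k : ℤ) 0 1).b : ℤ) : ℝ) = ((t p).b : ℝ) + 4 * k * (t p).a := by
        simp only [BQ.act]; push_cast; ring
      rw [e1]
      exact s1
    · have e1 : ((((t p).act 1 (k : ℤ) 0 1).c : ℤ) : ℝ) =
          ((t p).c : ℝ) + 3 * k * (t p).b + 6 * k ^ 2 * (t p).a := by
        simp only [BQ.act]; push_cast; ring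
      rw [e1]
      exact s2
    · have e1 : ((((t p).act 1 (k : ℤ) 0 1).d : ℤ) : ℝ) =
          ((t p).d : ℝ) + 2 * k * (t p).c + 3 * k ^ 2 * (t p).b + 4 * k ^ 3 * (t p).a := by
        simp only [BQ.act]; push_cast; ring
      rw [e1]
      exact s3
    · have e1 : ((((t p).act 1 (k : ℤ) 0 1).e : ℤ) : ℝ) =
          ((t p).e : ℝ) + k * (t p).d + k ^ 2 * (t p).c + k ^ 3 * (t p).b + k ^ 4 * (t p).a := by
        simp only [BQ.act]; push_cast; ring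
      rw [e1]
      exact s4
  have inj : ∀ (p p' : ℤ × ℤ) (k k' : ℕ), p ∈ S → p' ∈ S → Φ (p, k) = Φ (p', k') →
      p = p' ∧ k = k' := by
    intro p p' k k' hp hp' h2
    rw [hΦ] at h2
    simp only at h2
    have hI := congrArg BQ.I h2
    have hJ := congrArg BQ.J h2
    rw [BQ.I_act, BQ.I_act] at hI
    rw [BQ.J_act, BQ.J_act] at hJ
    have e1 : ∀ j : ℤ, (1 * 1 - j * 0 : ℤ) = 1 := fun j => by ring
    rw [e1, e1, one_pow, one_mul, one_mul, (ht p hp).1, (ht p' hp').1] at hI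
    rw [e1, e1, one_pow, one_mul, one_mul, (ht p hp).2.1, (ht p' hp').2.1] at hJ
    have hpp : p = p' := by
      refine Prod.ext ?_ ?_
      · omega
      · omega
    refine ⟨hpp, ?_⟩
    subst hpp
    have hb := congrArg BQ.b h2
    simp only [BQ.act] at hb
    have ha := (ht p hp).2.2.1
    have h3 : (t p).a * ((k : ℤ) - (k' : ℤ)) = 0 := by linarith
    rcases mul_eq_zero.mp h3 with h4 | h4
    · exact absurd h4 ha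
    · omega
  have hPfin : S.Finite := by
    refine Set.Finite.of_injOn (f := fun p => Φ (p, 0)) (t := Bx) ?_ ?_ hfin
    · intro p hp
      exact key p 0 hp (by norm_num)
    · intro p hp p' hp' h
      exact (inj p p' 0 0 hp hp' h).1
  refine ⟨hPfin, ?_⟩
  obtain ⟨N, hN⟩ : ∃ N : ℕ, N = ⌊1 / ω ^ 2⌋₊ := ⟨_, rfl⟩
  have hNle : (N : ℝ) * ω ^ 2 ≤ 1 := by
    have h2 : (N : ℝ) ≤ 1 / ω ^ 2 := by rw [hN]; exact Nat.floor_le (by positivity)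
    rwa [le_div_iff₀ (by positivity)] at h2
  have hNgt : 1 ≤ ((N : ℝ) + 1) * ω ^ 2 := by
    have h2 : 1 / ω ^ 2 < (N : ℝ) + 1 := by rw [hN]; exact Nat.lt_floor_add_one _
    rw [div_lt_iff₀ (by positivity)] at h2
    exact h2.le
  have hprod : (S ×ˢ (Set.Iic N : Set ℕ)).ncard ≤ Bx.ncard := by
    refine Set.ncard_le_ncard_of_injOn Φ ?_ ?_ hfin
    · rintro ⟨p, k⟩ ⟨hp, hk⟩
      refine key p k hp ?_
      have hk' : k ≤ N := hk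
      have : (k : ℝ) ≤ (N : ℝ) := by exact_mod_cast hk'
      nlinarith [sq_nonneg ω]
    · rintro ⟨p, k⟩ ⟨hp, _⟩ ⟨p', k'⟩ ⟨hp', _⟩ h
      obtain ⟨h2, h3⟩ := inj p p' k k' hp hp' h
      rw [h2, h3]
  have hIic : (Set.Iic N : Set ℕ).ncard = N + 1 := by
    rw [← Finset.coe_Iic, Set.ncard_coe_finset, Nat.card_Iic]
  rw [Set.ncard_prod, hIic] at hprod
  have hprodR : ((S.ncard : ℕ) : ℝ) * ((N : ℝ) + 1) ≤ ((Bx.ncard : ℕ) : ℝ) := by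
    exact_mod_cast hprod
  have hPn : (0 : ℝ) ≤ ((S.ncard : ℕ) : ℝ) := Nat.cast_nonneg _
  calc ((S.ncard : ℕ) : ℝ) = ((S.ncard : ℕ) : ℝ) * 1 := (mul_one _).symm
    _ ≤ ((S.ncard : ℕ) : ℝ) * (((N : ℝ) + 1) * ω ^ 2) := mul_le_mul_of_nonneg_left hNgt hPn
    _ = ω ^ 2 * (((S.ncard : ℕ) : ℝ) * ((N : ℝ) + 1)) := by ring
    _ ≤ ω ^ 2 * ((Bx.ncard : ℕ) : ℝ) := mul_le_mul_of_nonneg_left hprodR hw2.le
    _ ≤ ω ^ 2 * (40 * K) ^ 5 := mul_le_mul_of_nonneg_left hcard hw2.le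
    _ = (40 * C) ^ 5 * X ^ 5 * ω ^ 2 := by rw [hK]; ring

end Pool.Agent.Work.MP_bd3ec3_nt.SG
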