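import Pool.Agent.Work.MP_bd3ec3_nt.SG.StmtsV

/-!
# MP_bd3ec3_nt, block SG, item CY: the translates
-/

set_option autoImplicit false

namespace Pool.Agent.Work.MP_bd3ec3_nt.SG

open Pool.Agent.Work.MP_bd3ec3_nt.SP

namespace ICY

theorem small {K y v : ℝ} (hy0 : 0 ≤ y) (hy1 : y ≤ 1) (hv : |v| ≤ K) (i : ℕ) : |y ^ i * v| ≤ K := by
  rw [abs_mul, abs_of_nonneg (pow_nonneg hy0 i)]
  calc y ^ i * |v| ≤ 1 * |v| := mul_le_mul_of_nonneg_right (pow_le_one₀ hy0 hy1) (abs_nonneg v)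
    _ ≤ K := by rw [one_mul]; exact hv

theorem scale {K ω a b c d e k : ℝ} (hK : 0 ≤ K) (hω : 0 < ω) (hk : 0 ≤ k) (hk1 : k * ω ^ 2 ≤ 1)
    (ha : |a| ≤ K * ω ^ 4) (hb : |b| ≤ K * ω ^ 2) (hc : |c| ≤ K) (hd : |d| ≤ K / ω ^ 2)
    (he : |e| ≤ K / ω ^ 4) :
    |b + 4 * k * a| ≤ 10 * K * ω ^ 2 ∧ |c + 3 * k * b + 6 * k ^ 2 * a| ≤ 10 * K ∧
      |d + 2 * k * c + 3 * k ^ 2 * b + 4 * k ^ 3 * a| ≤ 10 * K / ω ^ 2 ∧
      |e + k * d + k ^ 2 * c + k ^ 3 * b + k ^ 4 * a| ≤ 10 * K / ω ^ 4 := by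
  have hw2 : 0 < ω ^ 2 := by positivity
  have hw4 : 0 < ω ^ 4 := by positivity
  obtain ⟨a', ha'⟩ : ∃ a', a' = a / ω ^ 4 := ⟨_, rfl⟩
  obtain ⟨b', hb'⟩ : ∃ b', b' = b / ω ^ 2 := ⟨_, rfl⟩
  obtain ⟨d', hd'⟩ : ∃ d', d' = d * ω ^ 2 := ⟨_, rfl⟩
  obtain ⟨e', he'⟩ : ∃ e', e' = e * ω ^ 4 := ⟨_, rfl⟩
  obtain ⟨y, hy⟩ : ∃ y, y = k * ω ^ 2 := ⟨_, rfl⟩
  have hy0 : 0 ≤ y := by rw [hy]; positivity
  have hy1 : y ≤ 1 := by rw [hy]; exact hk1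
  have h1 : |a'| ≤ K := by
    rw [ha', abs_div, abs_of_pos hw4, div_le_iff₀ hw4]
    exact ha
  have h2 : |b'| ≤ K := by
    rw [hb', abs_div, abs_of_pos hw2, div_le_iff₀ hw2]
    exact hb
  have h3 : |d'| ≤ K := by
    rw [hd', abs_mul, abs_of_pos hw2, ← le_div_iff₀ hw2]
    exact hd
  have h4 : |e'| ≤ K := by
    rw [he', abs_mul, abs_of_pos hw4, ← le_div_iff₀ hw4]
    exact he
  have ea : a = a' * ω ^ 4 := by rw [ha']; field_simp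
  have eb : b = b' * ω ^ 2 := by rw [hb']; field_simp
  have ed : d = d' / ω ^ 2 := by rw [hd']; field_simp
  have ee : e = e' / ω ^ 4 := by rw [he']; field_simp
  have ek : k = y / ω ^ 2 := by rw [hy]; field_simp
  have t1 := fun i => small hy0 hy1 h1 i
  have t2 := fun i => small hy0 hy1 h2 i
  have t3 := fun i => small hy0 hy1 h3 i
  have tc := fun i => small hy0 hy1 hc i
  refine ⟨?_, ?_, ?_, ?_⟩
  · have e1 : b + 4 * k * a = (b' + 4 * (y ^ 1 * a')) * ω ^ 2 := by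
      rw [ea, eb, ek]; field_simp
    rw [e1, abs_mul, abs_of_pos hw2]
    refine mul_le_mul_of_nonneg_right ?_ hw2.le
    have := abs_le.mp (t1 1)
    have := abs_le.mp h2
    rw [abs_le]
    constructor <;> linarith
  · have e1 : c + 3 * k * b + 6 * k ^ 2 * a = c + 3 * (y ^ 1 * b') + 6 * (y ^ 2 * a') := by
      rw [ea, eb, ek]; field_simp
    rw [e1]
    have := abs_le.mp (t1 2)
    have := abs_le.mp (t2 1)
    have := abs_le.mp hc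
    rw [abs_le]
    constructor <;> linarith
  · have e1 : d + 2 * k * c + 3 * k ^ 2 * b + 4 * k ^ 3 * a =
        (d' + 2 * (y ^ 1 * c) + 3 * (y ^ 2 * b') + 4 * (y ^ 3 * a')) / ω ^ 2 := by
      rw [ea, eb, ed, ek]; field_simp
    rw [e1, abs_div, abs_of_pos hw2]
    refine div_le_div_of_nonneg_right ?_ hw2.le
    have := abs_le.mp (t1 3)
    have := abs_le.mp (t2 2)
    have := abs_le.mp (tc 1)
    have := abs_le.mp h3
    rw [abs_le]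
    constructor <;> linarith
  · have e1 : e + k * d + k ^ 2 * c + k ^ 3 * b + k ^ 4 * a =
        (e' + y ^ 1 * d' + y ^ 2 * c + y ^ 3 * b' + y ^ 4 * a') / ω ^ 4 := by
      rw [ea, eb, ed, ee, ek]; field_simp
    rw [e1, abs_div, abs_of_pos hw4]
    refine div_le_div_of_nonneg_right ?_ hw4.le
    have := abs_le.mp (t1 4)
    have := abs_le.mp (t2 3)
    have := abs_le.mp (tc 2)
    have := abs_le.mp (t3 1)
    have := abs_le.mp h4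
    rw [abs_le]
    constructor <;> linarith

theorem transl {C X ω R E : ℝ} {f : BQ ℤ} {x z : ℤ} (h : (f, x, z) ∈ GX C X ω R E)
    (hCX : 0 ≤ C * X) (hω : 0 < ω) (k : ℕ) (hk : (k : ℝ) * ω ^ 2 ≤ 1) :
    (f.act 1 (k : ℤ) 0 1, x - (k : ℤ) * z, z) ∈ GX (10 * C) X ω (2 * R) E := by
  obtain ⟨hB, hz, hco, ⟨e, he0, heE, hev⟩, hR⟩ := h
  simp only at hB hz hco hev hR
  obtain ⟨b1, b2, b3, b4, b5⟩ := hB
  simp only [toR] at b1 b2 b3 b4 b5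
  have hk0 : (0 : ℝ) ≤ (k : ℝ) := Nat.cast_nonneg k
  obtain ⟨s1, s2, s3, s4⟩ := scale hCX hω hk0 hk b1 b2 b3 b4 b5
  refine ⟨⟨?_, ?_, ?_, ?_, ?_⟩, hz, ?_, ⟨e, he0, heE, ?_⟩, ?_⟩
  · have e1 : (toR (f.act 1 (k : ℤ) 0 1)).a = (f.a : ℝ) := by
      simp only [toR, BQ.act]; push_cast; ring
    rw [e1]
    have : 0 ≤ C * X * ω ^ 4 := by positivity
    nlinarith
  · have e1 : (toR (f.act 1 (k : ℤ) 0 1)).b = (f.b : ℝ) + 4 * k * f.a := by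
      simp only [toR, BQ.act]; push_cast; ring
    rw [e1]
    calc _ ≤ _ := s1
      _ = _ := by ring
  · have e1 : (toR (f.act 1 (k : ℤ) 0 1)).c = (f.c : ℝ) + 3 * k * f.b + 6 * k ^ 2 * f.a := by
      simp only [toR, BQ.act]; push_cast; ring
    rw [e1]
    calc _ ≤ _ := s2
      _ = _ := by ring
  · have e1 : (toR (f.act 1 (k : ℤ) 0 1)).d = (f.d : ℝ) + 2 * k * f.c + 3 * k ^ 2 * f.b +
        4 * k ^ 3 * f.a := by
      simp only [toR, BQ.act]; push_cast; ring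
    rw [e1]
    calc _ ≤ _ := s3
      _ = _ := by ring
  · have e1 : (toR (f.act 1 (k : ℤ) 0 1)).e = (f.e : ℝ) + k * f.d + k ^ 2 * f.c + k ^ 3 * f.b +
        k ^ 4 * f.a := by
      simp only [toR, BQ.act]; push_cast; ring
    rw [e1]
    calc _ ≤ _ := s4
      _ = _ := by ring
  · show IsCoprime (x - (k : ℤ) * z) z
    have h1 : IsCoprime (x + z * (-(k : ℤ))) z := IsCoprime.add_mul_left_left hco _
    have e1 : x - (k : ℤ) * z = x + z * (-(k : ℤ)) := by ring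
    rw [e1]
    exact h1
  · show (f.act 1 (k : ℤ) 0 1).ev (x - (k : ℤ) * z) z = e ^ 2
    rw [BQ.ev_act, ← hev]
    congr 1 <;> ring
  · show (((x - (k : ℤ) * z : ℤ) : ℝ) * ω) ^ 2 + ((z : ℝ) / ω) ^ 2 ≤ (2 * R) ^ 2
    obtain ⟨u, hu⟩ : ∃ u, u = (x : ℝ) * ω := ⟨_, rfl⟩
    obtain ⟨v, hv⟩ : ∃ v, v = (z : ℝ) / ω := ⟨_, rfl⟩
    obtain ⟨y, hy⟩ : ∃ y, y = (k : ℝ) * ω ^ 2 := ⟨_, rfl⟩
    have hy0 : 0 ≤ y := by rw [hy]; positivity
    have e1 : ((x - (k : ℤ) * z : ℤ) : ℝ) * ω = u - y * v := by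
      rw [hu, hv, hy]; push_cast; field_simp
    rw [e1, ← hv]
    rw [← hu, ← hv] at hR
    rw [← hy] at hk
    have h1 : (y * v) ^ 2 ≤ v ^ 2 := by
      rw [mul_pow]
      have : y ^ 2 ≤ 1 := pow_le_one₀ hy0 hk
      nlinarith [sq_nonneg v]
    nlinarith [sq_nonneg (u + y * v)]

end ICY

open ICY in
theorem pg_CY : S_CY := by
  intro hCX C hC
  obtain ⟨C1, hC1, h1⟩ := hCX (10 * C) (by linarith)
  refine ⟨C1 * (C ^ 2 + 2 * C + 4), by positivity, ?_⟩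
  intro X ω R E hX hω hω2 hR hRX hE
  have hX0 : 0 < X := by linarith
  have hC0 : 0 < C := by linarith
  have hu : 0 < X ^ (-(1 / 4) : ℝ) := Real.rpow_pos_of_pos hX0 _
  have hω0 : 0 < ω := lt_of_lt_of_le (by positivity) hω
  have hω' : X ^ (-(1 / 4) : ℝ) / (10 * C) ≤ ω := by
    refine le_trans ?_ hω
    exact div_le_div_of_nonneg_left hu.le hC0 (by linarith)
  obtain ⟨hfin, hcard⟩ := h1 X ω (2 * R) E hX hω' hω2 (by linarith) hRX hE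
  have hCXnn : 0 ≤ C * X := by positivity
  have hch : ∀ p : ℤ × ℤ, ∃ t : BQ ℤ × ℤ × ℤ, p ∈ PX C X ω R E →
      (t.1.I = -48 * p.1 ∧ t.1.J = -1728 * p.2 ∧ t.1.a ≠ 0 ∧ t ∈ GX C X ω R E) := by
    intro p
    by_cases hp : p ∈ PX C X ω R E
    · obtain ⟨f, x, z, h⟩ := hp
      exact ⟨(f, x, z), fun _ => h⟩
    · exact ⟨(⟨0, 0, 0, 0, 0⟩, 0, 0), fun h => absurd h hp⟩
  choose t ht using hch
  obtain ⟨Φ, hΦ⟩ : ∃ Φ : (ℤ × ℤ) × ℕ → BQ ℤ × ℤ × ℤ, Φ = fun q =>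
      ((t q.1).1.act 1 (q.2 : ℤ) 0 1, (t q.1).2.1 - (q.2 : ℤ) * (t q.1).2.2, (t q.1).2.2) := ⟨_, rfl⟩
  have key : ∀ (p : ℤ × ℤ) (k : ℕ), p ∈ PX C X ω R E → (k : ℝ) * ω ^ 2 ≤ 1 →
      Φ (p, k) ∈ GX (10 * C) X ω (2 * R) E := by
    intro p k hp hk
    rw [hΦ]
    exact transl (ht p hp).2.2.2 hCXnn hω0 k hk
  have inj : ∀ (p p' : ℤ × ℤ) (k k' : ℕ), p ∈ PX C X ω R E → p' ∈ PX C X ω R E →
      Φ (p, k) = Φ (p', k') → p = p' ∧ k = k' := by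
    intro p p' k k' hp hp' h
    rw [hΦ] at h
    have h2 := congrArg Prod.fst h
    simp only at h2
    have hI := congrArg BQ.I h2
    have hJ := congrArg BQ.J h2
    rw [BQ.I_act, BQ.I_act] at hI
    rw [BQ.J_act, BQ.J_act] at hJ
    have e1 : ∀ j : ℤ, (1 * 1 - j * 0 : ℤ) = 1 := fun j => by ring
    rw [e1, e1, one_pow, one_mul, one_mul, (ht p hp).1, (ht p' hp').1] at hI
    rw [e1, e1, one_pow, one_mul, one_mul, (ht p hp).2.1, (ht p' hp').2.1] at hJ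
    have hpp : p = p' := by
      refine Prod.ext ?_ ?_
      · omega
      · omega
    refine ⟨hpp, ?_⟩
    subst hpp
    have hb := congrArg BQ.b h2
    simp only [BQ.act] at hb
    have ha := (ht p hp).2.2.1
    have h3 : (t p).1.a * ((k : ℤ) - (k' : ℤ)) = 0 := by linarith
    rcases mul_eq_zero.mp h3 with h4 | h4
    · exact absurd h4 ha
    · omega
  have hPfin : (PX C X ω R E).Finite := by
    refine Set.Finite.of_injOn (f := fun p => Φ (p, 0)) (t := GX (10 * C) X ω (2 * R) E) ?_ ?_ hfin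
    · intro p hp
      exact key p 0 hp (by norm_num)
    · intro p hp p' hp' h
      exact (inj p p' 0 0 hp hp' h).1
  refine ⟨hPfin, ?_⟩
  obtain ⟨K, hK⟩ : ∃ K : ℕ, K = ⌊1 / ω ^ 2⌋₊ := ⟨_, rfl⟩
  have hKle : (K : ℝ) * ω ^ 2 ≤ 1 := by
    have h2 : (K : ℝ) ≤ 1 / ω ^ 2 := by rw [hK]; exact Nat.floor_le (by positivity)
    rwa [le_div_iff₀ (by positivity)] at h2
  have hKgt : 1 ≤ ((K : ℝ) + 1) * ω ^ 2 := by
    have h2 : 1 / ω ^ 2 < (K : ℝ) + 1 := by rw [hK]; exact Nat.lt_floor_add_one _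
    rw [div_lt_iff₀ (by positivity)] at h2
    exact h2.le
  have hprod : (PX C X ω R E ×ˢ (Set.Iic K : Set ℕ)).ncard ≤ (GX (10 * C) X ω (2 * R) E).ncard := by
    refine Set.ncard_le_ncard_of_injOn Φ ?_ ?_ hfin
    · rintro ⟨p, k⟩ ⟨hp, hk⟩
      refine key p k hp ?_
      have hk' : k ≤ K := hk
      have : (k : ℝ) ≤ (K : ℝ) := by exact_mod_cast hk'
      nlinarith [sq_nonneg ω]
    · rintro ⟨p, k⟩ ⟨hp, _⟩ ⟨p', k'⟩ ⟨hp', _⟩ h
      obtain ⟨h2, h3⟩ := inj p p' k k' hp hp' h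
      rw [h2, h3]
  have hIic : (Set.Iic K : Set ℕ).ncard = K + 1 := by
    rw [← Finset.coe_Iic, Set.ncard_coe_finset, Nat.card_Iic]
  rw [Set.ncard_prod, hIic] at hprod
  have hprodR : ((PX C X ω R E).ncard : ℝ) * ((K : ℝ) + 1) ≤ ((GX (10 * C) X ω (2 * R) E).ncard : ℝ) := by
    exact_mod_cast hprod
  have hPn : (0 : ℝ) ≤ ((PX C X ω R E).ncard : ℝ) := Nat.cast_nonneg _
  have hPle : ((PX C X ω R E).ncard : ℝ) ≤ ω ^ 2 * ((GX (10 * C) X ω (2 * R) E).ncard : ℝ) := by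
    have hw2 : 0 < ω ^ 2 := by positivity
    calc ((PX C X ω R E).ncard : ℝ) = ((PX C X ω R E).ncard : ℝ) * 1 := (mul_one _).symm
      _ ≤ ((PX C X ω R E).ncard : ℝ) * (((K : ℝ) + 1) * ω ^ 2) := mul_le_mul_of_nonneg_left hKgt hPn
      _ = ω ^ 2 * (((PX C X ω R E).ncard : ℝ) * ((K : ℝ) + 1)) := by ring
      _ ≤ _ := mul_le_mul_of_nonneg_left hprodR hw2.le
  refine hPle.trans ((mul_le_mul_of_nonneg_left hcard (by positivity)).trans ?_)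
  -- numbers
  obtain ⟨w, hw⟩ : ∃ w : ℝ, w = X ^ ((1 : ℝ) / 4) := ⟨_, rfl⟩
  have hw0 : 0 < w := by rw [hw]; exact Real.rpow_pos_of_pos hX0 _
  have hXneg : X ^ (-(1 / 4) : ℝ) = w⁻¹ := by rw [hw, ← Real.rpow_neg hX0.le]
  have hωinv : 1 / ω ≤ C * w := by
    rw [hXneg] at hω
    rw [div_le_iff₀ hω0]
    have h2 : w⁻¹ ≤ ω * C := by rwa [div_le_iff₀ hC0] at hω
    have h3 : w⁻¹ * w ≤ ω * C * w := mul_le_mul_of_nonneg_right h2 hw0.le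
    rw [inv_mul_cancel₀ hw0.ne'] at h3
    linarith
  have hωinv0 : 0 < 1 / ω := by positivity
  have h52 : X ^ ((5 : ℝ) / 2) = X ^ 2 * w ^ 2 := by
    rw [hw, ← Real.rpow_natCast (X ^ ((1 : ℝ) / 4)) 2, ← Real.rpow_mul hX0.le, ← Real.rpow_natCast X 2,
      ← Real.rpow_add hX0]
    congr 1
    norm_num
  have h154 : X ^ ((15 : ℝ) / 4) = X ^ ((7 : ℝ) / 2) * w := by
    rw [hw, ← Real.rpow_add hX0]
    congr 1
    norm_num
  rw [h52, h154]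
  obtain ⟨A, hA⟩ : ∃ A : ℝ, A = X ^ ((7 : ℝ) / 2) := ⟨_, rfl⟩
  obtain ⟨B, hB⟩ : ∃ B : ℝ, B = X ^ ((9 : ℝ) / 2) := ⟨_, rfl⟩
  obtain ⟨L, hL⟩ : ∃ L : ℝ, L = (1 + Real.log X) ^ 2 := ⟨_, rfl⟩
  have hA0 : 0 ≤ A := by rw [hA]; exact Real.rpow_nonneg hX0.le _
  have hB0 : 0 ≤ B := by rw [hB]; exact Real.rpow_nonneg hX0.le _
  have hL0 : 0 ≤ L := by rw [hL]; exact sq_nonneg _
  rw [← hA, ← hB, ← hL]
  have hsplit : ω ^ 2 * (C1 * (E * X ^ 2 / ω ^ 4 * L + A * (2 * R) / ω ^ 3 + B * L)) =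
      C1 * (E * X ^ 2 * L * (1 / ω) ^ 2 + 2 * (A * R) * (1 / ω) + ω ^ 2 * (B * L)) := by
    field_simp
  rw [hsplit, mul_assoc C1]
  refine mul_le_mul_of_nonneg_left ?_ hC1.le
  have g1 : E * X ^ 2 * L * (1 / ω) ^ 2 ≤ C ^ 2 * (E * (X ^ 2 * w ^ 2) * L) := by
    have h2 : (1 / ω) ^ 2 ≤ (C * w) ^ 2 := pow_le_pow_left₀ hωinv0.le hωinv 2
    have h3 : 0 ≤ E * X ^ 2 * L := by positivity
    calc E * X ^ 2 * L * (1 / ω) ^ 2 ≤ E * X ^ 2 * L * (C * w) ^ 2 := mul_le_mul_of_nonneg_left h2 h3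
      _ = C ^ 2 * (E * (X ^ 2 * w ^ 2) * L) := by ring
  have g2 : 2 * (A * R) * (1 / ω) ≤ 2 * C * (A * w * R) := by
    have h3 : 0 ≤ 2 * (A * R) := by positivity
    calc 2 * (A * R) * (1 / ω) ≤ 2 * (A * R) * (C * w) := mul_le_mul_of_nonneg_left hωinv h3
      _ = 2 * C * (A * w * R) := by ring
  have g3 : ω ^ 2 * (B * L) ≤ 4 * (B * L) := by
    refine mul_le_mul_of_nonneg_right ?_ (by positivity)
    nlinarith
  have n1 : 0 ≤ E * (X ^ 2 * w ^ 2) * L := by positivity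
  have n2 : 0 ≤ A * w * R := by positivity
  have n3 : 0 ≤ B * L := by positivity
  have hCC : 0 ≤ C ^ 2 := sq_nonneg C
  nlinarith [mul_nonneg hC0.le n1, mul_nonneg hC0.le n3, mul_nonneg hCC n2, mul_nonneg hCC n3]

end Pool.Agent.Work.MP_bd3ec3_nt.SG
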