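import Pool.Agent.Work.MP_bd3ec3_nt.SG.StmtsK
import Pool.Agent.Work.MP_bd3ec3_nt.SG.I_CY

/-!
# MP_bd3ec3_nt, block SG, item KY: the translates, keeping the powers of `ω`
-/

set_option autoImplicit false

namespace Pool.Agent.Work.MP_bd3ec3_nt.SG

open Pool.Agent.Work.MP_bd3ec3_nt.SP

open ICY in
theorem pg_KY : S_KY := by
  intro hCX C hC
  obtain ⟨C1, hC1, h1⟩ := hCX (10 * C) (by linarith)
  refine ⟨C1 * 16, by positivity, ?_⟩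
  intro X ω R E hX hω hω2 hR hRX hE
  have hX0 : 0 < X := by linarith
  have hC0 : 0 < C := by linarith
  have hu : 0 < X ^ (-(1 / 4) : ℝ) := Real.rpow_pos_of_pos hX0 _
  have hω0 : 0 < ω := lt_of_lt_of_le (by positivity) hω
  have hω' : X ^ (-(1 / 4) : ℝ) / (10 * C) ≤ ω := by
    refine le_trans ?_ hω
    exact div_le_div_of_nonneg_left hu.le hC0 (by linarith)
  obtain ⟨hfin, hcard⟩ := h1 X ω (2 * R) E hX hω' hω2 (by linarith) hRX hE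
  have hCXnn : 0 ≤ C * X := by positivity
  have hch : ∀ p : ℤ × ℤ, ∃ t : BQ ℤ × ℤ × ℤ, p ∈ PX C X ω R E →
      (t.1.I = -48 * p.1 ∧ t.1.J = -1728 * p.2 ∧ t.1.a ≠ 0 ∧ t ∈ GX C X ω R E) := by
    intro p
    by_cases hp : p ∈ PX C X ω R E
    · obtain ⟨f, x, z, h⟩ := hp
      exact ⟨(f, x, z), fun _ => h⟩
    · exact ⟨(⟨0, 0, 0, 0, 0⟩, 0, 0), fun h => absurd h hp⟩
  choose t ht using hch
  obtain ⟨Φ, hΦ⟩ : ∃ Φ : (ℤ × ℤ) × ℕ → BQ ℤ × ℤ × ℤ, Φ = fun q =>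
      ((t q.1).1.act 1 (q.2 : ℤ) 0 1, (t q.1).2.1 - (q.2 : ℤ) * (t q.1).2.2, (t q.1).2.2) := ⟨_, rfl⟩
  have key : ∀ (p : ℤ × ℤ) (k : ℕ), p ∈ PX C X ω R E → (k : ℝ) * ω ^ 2 ≤ 1 →
      Φ (p, k) ∈ GX (10 * C) X ω (2 * R) E := by
    intro p k hp hk
    rw [hΦ]
    exact transl (ht p hp).2.2.2 hCXnn hω0 k hk
  have inj : ∀ (p p' : ℤ × ℤ) (k k' : ℕ), p ∈ PX C X ω R E → p' ∈ PX C X ω R E →
      Φ (p, k) = Φ (p', k') → p = p' ∧ k = k' := by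
    intro p p' k k' hp hp' h
    rw [hΦ] at h
    have h2 := congrArg Prod.fst h
    simp only at h2
    have hI := congrArg BQ.I h2
    have hJ := congrArg BQ.J h2
    rw [BQ.I_act, BQ.I_act] at hI
    rw [BQ.J_act, BQ.J_act] at hJ
    have e1 : ∀ j : ℤ, (1 * 1 - j * 0 : ℤ) = 1 := fun j => by ring
    rw [e1, e1, one_pow, one_mul, one_mul, (ht p hp).1, (ht p' hp').1] at hI
    rw [e1, e1, one_pow, one_mul, one_mul, (ht p hp).2.1, (ht p' hp').2.1] at hJ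
    have hpp : p = p' := by
      refine Prod.ext ?_ ?_
      · omega
      · omega
    refine ⟨hpp, ?_⟩
    subst hpp
    have hb := congrArg BQ.b h2
    simp only [BQ.act] at hb
    have ha := (ht p hp).2.2.1
    have h3 : (t p).1.a * ((k : ℤ) - (k' : ℤ)) = 0 := by linarith
    rcases mul_eq_zero.mp h3 with h4 | h4
    · exact absurd h4 ha
    · omega
  have hPfin : (PX C X ω R E).Finite := by
    refine Set.Finite.of_injOn (f := fun p => Φ (p, 0)) (t := GX (10 * C) X ω (2 * R) E) ?_ ?_ hfin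
    · intro p hp
      exact key p 0 hp (by norm_num)
    · intro p hp p' hp' h
      exact (inj p p' 0 0 hp hp' h).1
  refine ⟨hPfin, ?_⟩
  obtain ⟨K, hK⟩ : ∃ K : ℕ, K = ⌊1 / ω ^ 2⌋₊ := ⟨_, rfl⟩
  have hKle : (K : ℝ) * ω ^ 2 ≤ 1 := by
    have h2 : (K : ℝ) ≤ 1 / ω ^ 2 := by rw [hK]; exact Nat.floor_le (by positivity)
    rwa [le_div_iff₀ (by positivity)] at h2
  have hKgt : 1 ≤ ((K : ℝ) + 1) * ω ^ 2 := by
    have h2 : 1 / ω ^ 2 < (K : ℝ) + 1 := by rw [hK]; exact Nat.lt_floor_add_one _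
    rw [div_lt_iff₀ (by positivity)] at h2
    exact h2.le
  have hprod : (PX C X ω R E ×ˢ (Set.Iic K : Set ℕ)).ncard ≤ (GX (10 * C) X ω (2 * R) E).ncard := by
    refine Set.ncard_le_ncard_of_injOn Φ ?_ ?_ hfin
    · rintro ⟨p, k⟩ ⟨hp, hk⟩
      refine key p k hp ?_
      have hk' : k ≤ K := hk
      have : (k : ℝ) ≤ (K : ℝ) := by exact_mod_cast hk'
      nlinarith [sq_nonneg ω]
    · rintro ⟨p, k⟩ ⟨hp, _⟩ ⟨p', k'⟩ ⟨hp', _⟩ h
      obtain ⟨h2, h3⟩ := inj p p' k k' hp hp' h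
      rw [h2, h3]
  have hIic : (Set.Iic K : Set ℕ).ncard = K + 1 := by
    rw [← Finset.coe_Iic, Set.ncard_coe_finset, Nat.card_Iic]
  rw [Set.ncard_prod, hIic] at hprod
  have hprodR : ((PX C X ω R E).ncard : ℝ) * ((K : ℝ) + 1) ≤ ((GX (10 * C) X ω (2 * R) E).ncard : ℝ) := by
    exact_mod_cast hprod
  have hPn : (0 : ℝ) ≤ ((PX C X ω R E).ncard : ℝ) := Nat.cast_nonneg _
  have hPle : ((PX C X ω R E).ncard : ℝ) ≤ ω ^ 2 * ((GX (10 * C) X ω (2 * R) E).ncard : ℝ) := by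
    have hw2 : 0 < ω ^ 2 := by positivity
    calc ((PX C X ω R E).ncard : ℝ) = ((PX C X ω R E).ncard : ℝ) * 1 := (mul_one _).symm
      _ ≤ ((PX C X ω R E).ncard : ℝ) * (((K : ℝ) + 1) * ω ^ 2) := mul_le_mul_of_nonneg_left hKgt hPn
      _ = ω ^ 2 * (((PX C X ω R E).ncard : ℝ) * ((K : ℝ) + 1)) := by ring
      _ ≤ _ := mul_le_mul_of_nonneg_left hprodR hw2.le
  refine hPle.trans ((mul_le_mul_of_nonneg_left hcard (by positivity)).trans ?_)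
  -- numbers
  obtain ⟨A, hA⟩ : ∃ A : ℝ, A = X ^ ((7 : ℝ) / 2) := ⟨_, rfl⟩
  obtain ⟨B, hB⟩ : ∃ B : ℝ, B = X ^ ((9 : ℝ) / 2) := ⟨_, rfl⟩
  obtain ⟨L, hL⟩ : ∃ L : ℝ, L = (1 + Real.log X) ^ 2 := ⟨_, rfl⟩
  have hA0 : 0 ≤ A := by rw [hA]; exact Real.rpow_nonneg hX0.le _
  have hB0 : 0 ≤ B := by rw [hB]; exact Real.rpow_nonneg hX0.le _
  have hL0 : 0 ≤ L := by rw [hL]; exact sq_nonneg _
  rw [← hA, ← hB, ← hL]
  have hsplit : ω ^ 2 * (C1 * (E * (2 * R) ^ 2 + E * X * (2 * R) / ω ^ 3 + E * X ^ 2 / ω ^ 4 * L +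
      A * (2 * R) / ω ^ 3 + B * L)) =
      C1 * (4 * ω ^ 2 * (E * R ^ 2) + 2 * (E * X * R / ω) + E * X ^ 2 / ω ^ 2 * L +
        2 * (A * R / ω) + ω ^ 2 * (B * L)) := by
    field_simp
    ring
  rw [hsplit, mul_assoc C1]
  refine mul_le_mul_of_nonneg_left ?_ hC1.le
  have hw4 : ω ^ 2 ≤ 4 := by nlinarith
  have n0 : 0 ≤ E * R ^ 2 := by positivity
  have n1 : 0 ≤ E * X * R / ω := by positivity
  have n2 : 0 ≤ E * X ^ 2 / ω ^ 2 * L := by positivity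
  have n3 : 0 ≤ A * R / ω := by positivity
  have n4 : 0 ≤ B * L := by positivity
  have g0 : ω ^ 2 * (E * R ^ 2) ≤ 4 * (E * R ^ 2) := mul_le_mul_of_nonneg_right hw4 n0
  have g4 : ω ^ 2 * (B * L) ≤ 4 * (B * L) := mul_le_mul_of_nonneg_right hw4 n4
  linarith

end Pool.Agent.Work.MP_bd3ec3_nt.SG
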