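import Pool.Agent.Work.MP_bd3ec3_nt.SG.Stmts

/-!
# MP_bd3ec3_nt, block SG, item LR: reduction of the lattice
-/

set_option autoImplicit false

namespace Pool.Agent.Work.MP_bd3ec3_nt.SG

open Pool.Agent.Work.MP_bd3ec3_nt.SP

namespace ILR

/-- The squared length of a lattice vector. -/
def nn (p q r s : ℝ) (x z : ℤ) : ℝ := (s * x - q * z) ^ 2 + (p * z - r * x) ^ 2

theorem nn_nonneg (p q r s : ℝ) (x z : ℤ) : 0 ≤ nn p q r s x z :=
  add_nonneg (sq_nonneg _) (sq_nonneg _)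

theorem nn_pos {p q r s : ℝ} (h : p * s - q * r = 1) {x z : ℤ} (hxz : ¬ (x = 0 ∧ z = 0)) :
    0 < nn p q r s x z := by
  rcases (nn_nonneg p q r s x z).lt_or_eq with h1 | h1
  · exact h1
  · exfalso
    have h2 : s * x - q * z = 0 := by
      have := sq_nonneg (p * (z : ℝ) - r * x)
      have h3 : (s * (x : ℝ) - q * z) ^ 2 ≤ 0 := by
        unfold nn at h1
        linarith
      exact pow_eq_zero_iff (two_ne_zero) |>.1 (le_antisymm h3 (sq_nonneg _))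
    have h3 : p * z - r * x = 0 := by
      have := sq_nonneg (s * (x : ℝ) - q * z)
      have h3 : (p * (z : ℝ) - r * x) ^ 2 ≤ 0 := by
        unfold nn at h1
        linarith
      exact pow_eq_zero_iff (two_ne_zero) |>.1 (le_antisymm h3 (sq_nonneg _))
    apply hxz
    constructor
    · have h4 : (x : ℝ) = 0 := by linear_combination p * h2 + q * h3 - x * h
      exact_mod_cast h4
    · have h4 : (z : ℝ) = 0 := by linear_combination r * h2 + s * h3 - z * h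
      exact_mod_cast h4

theorem abs_bound {u N : ℝ} (h : u ^ 2 ≤ N) : |u| ≤ N + 1 := by
  have h1 : |u| ^ 2 = u ^ 2 := sq_abs u
  nlinarith [sq_nonneg (|u| - 1 / 2)]

theorem exists_min {p q r s : ℝ} (h : p * s - q * r = 1) : ∃ x z : ℤ, ¬ (x = 0 ∧ z = 0) ∧
    ∀ x' z' : ℤ, ¬ (x' = 0 ∧ z' = 0) → nn p q r s x z ≤ nn p q r s x' z' := by
  obtain ⟨N0, hN0⟩ : ∃ N0 : ℝ, N0 = nn p q r s 1 0 := ⟨_, rfl⟩
  have hN0n : 0 ≤ N0 := by rw [hN0]; exact nn_nonneg _ _ _ _ _ _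
  obtain ⟨S, hS⟩ : ∃ S : Set (ℤ × ℤ), S =
      {v | ¬ (v.1 = 0 ∧ v.2 = 0) ∧ nn p q r s v.1 v.2 ≤ N0} := ⟨_, rfl⟩
  have hne : S.Nonempty := by
    refine ⟨(1, 0), ?_⟩
    rw [hS]
    refine ⟨by simp, ?_⟩
    rw [hN0]
  obtain ⟨B, hB⟩ := exists_int_gt ((|p| + |q| + |r| + |s|) * (N0 + 1))
  have hfin : S.Finite := by
    refine ((Set.finite_Icc (-B) B).prod (Set.finite_Icc (-B) B)).subset ?_
    rintro ⟨x, z⟩ hv
    rw [hS] at hv
    obtain ⟨_, hv2⟩ := hv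
    have hv3 : (s * (x : ℝ) - q * z) ^ 2 + (p * z - r * x) ^ 2 ≤ N0 := hv2
    have hu : |s * (x : ℝ) - q * z| ≤ N0 + 1 :=
      abs_bound (by nlinarith [sq_nonneg (p * (z : ℝ) - r * x)])
    have hw : |p * (z : ℝ) - r * x| ≤ N0 + 1 :=
      abs_bound (by nlinarith [sq_nonneg (s * (x : ℝ) - q * z)])
    have hx : (x : ℝ) = p * (s * x - q * z) + q * (p * z - r * x) := by
      linear_combination (-(x : ℝ)) * h
    have hz : (z : ℝ) = r * (s * x - q * z) + s * (p * z - r * x) := by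
      linear_combination (-(z : ℝ)) * h
    have key : ∀ (c d u w : ℝ), |u| ≤ N0 + 1 → |w| ≤ N0 + 1 →
        |c * u + d * w| ≤ (|c| + |d|) * (N0 + 1) := by
      intro c d u w h1 h2
      calc |c * u + d * w| ≤ |c * u| + |d * w| := abs_add_le _ _
        _ = |c| * |u| + |d| * |w| := by rw [abs_mul, abs_mul]
        _ ≤ |c| * (N0 + 1) + |d| * (N0 + 1) :=
          add_le_add (mul_le_mul_of_nonneg_left h1 (abs_nonneg c))
            (mul_le_mul_of_nonneg_left h2 (abs_nonneg d))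
        _ = (|c| + |d|) * (N0 + 1) := by ring
    have e1 : (|p| + |q|) * (N0 + 1) ≤ (|p| + |q| + |r| + |s|) * (N0 + 1) :=
      mul_le_mul_of_nonneg_right (by linarith [abs_nonneg r, abs_nonneg s]) (by linarith)
    have e2 : (|r| + |s|) * (N0 + 1) ≤ (|p| + |q| + |r| + |s|) * (N0 + 1) :=
      mul_le_mul_of_nonneg_right (by linarith [abs_nonneg p, abs_nonneg q]) (by linarith)
    have hxB : |(x : ℝ)| ≤ B := by
      rw [hx]
      linarith [key p q _ _ hu hw]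
    have hzB : |(z : ℝ)| ≤ B := by
      rw [hz]
      linarith [key r s _ _ hu hw]
    rw [abs_le] at hxB hzB
    refine ⟨⟨?_, ?_⟩, ?_, ?_⟩
    · exact_mod_cast hxB.1
    · exact_mod_cast hxB.2
    · exact_mod_cast hzB.1
    · exact_mod_cast hzB.2
  obtain ⟨⟨x, z⟩, hv, hmin⟩ := Set.exists_min_image S (fun v => nn p q r s v.1 v.2) hfin hne
  rw [hS] at hv
  refine ⟨x, z, hv.1, fun x' z' h' => ?_⟩
  by_cases hc : nn p q r s x' z' ≤ N0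
  · exact hmin (x', z') (by rw [hS]; exact ⟨h', hc⟩)
  · have h1 : nn p q r s x z ≤ N0 := hv.2
    linarith

theorem coprime_of_min {p q r s : ℝ} (h : p * s - q * r = 1) {x z : ℤ} (hne : ¬ (x = 0 ∧ z = 0))
    (hmin : ∀ x' z' : ℤ, ¬ (x' = 0 ∧ z' = 0) → nn p q r s x z ≤ nn p q r s x' z') :
    ∃ y w : ℤ, x * w - y * z = 1 := by
  obtain ⟨x', hx'⟩ : (Int.gcd x z : ℤ) ∣ x := Int.gcd_dvd_left ..
  obtain ⟨z', hz'⟩ : (Int.gcd x z : ℤ) ∣ z := Int.gcd_dvd_right ..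
  have hd0 : Int.gcd x z ≠ 0 := by
    intro h0
    exact hne (Int.gcd_eq_zero_iff.1 h0)
  have hone : Int.gcd x z = 1 := by
    obtain ⟨d, hd⟩ : ∃ d, d = Int.gcd x z := ⟨_, rfl⟩
    rw [← hd] at hx' hz' hd0 ⊢
    have hne' : ¬ (x' = 0 ∧ z' = 0) := by
      rintro ⟨h1, h2⟩
      exact hne ⟨by rw [hx', h1, mul_zero], by rw [hz', h2, mul_zero]⟩
    have h1 := hmin x' z' hne'
    have h2 := nn_pos h hne'
    have h3 : nn p q r s x z = (d : ℝ) ^ 2 * nn p q r s x' z' := by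
      rw [hx', hz']
      unfold nn
      push_cast
      ring
    by_contra hcon
    have h4 : 2 ≤ d := by omega
    have h5 : (2 : ℝ) ≤ d := by exact_mod_cast h4
    have h6 : (4 : ℝ) ≤ (d : ℝ) ^ 2 := by nlinarith
    nlinarith
  obtain ⟨a, b, hab⟩ := Int.isCoprime_iff_gcd_eq_one.2 hone
  exact ⟨-b, a, by linarith⟩

/-- The reduced basis. -/
theorem reduced {p q r s : ℝ} (h : p * s - q * r = 1) : ∃ x y z w : ℤ, x * w - y * z = 1 ∧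
    0 < nn p q r s x z ∧ nn p q r s x z ≤ 2 ∧ nn p q r s x z * nn p q r s y w ≤ 4 := by
  obtain ⟨x, z, hne, hmin⟩ := exists_min h
  obtain ⟨y0, w0, h0⟩ := coprime_of_min h hne hmin
  obtain ⟨P, hP⟩ : ∃ P, P = nn p q r s x z := ⟨_, rfl⟩
  have hP0 : 0 < P := by rw [hP]; exact nn_pos h hne
  obtain ⟨D, hD⟩ : ∃ D : ℝ, D = (s * x - q * z) * (s * y0 - q * w0) +
    (p * z - r * x) * (p * w0 - r * y0) := ⟨_, rfl⟩
  obtain ⟨k, hk⟩ : ∃ k : ℤ, k = round (D / P) := ⟨_, rfl⟩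
  have hdet : x * (w0 - k * z) - (y0 - k * x) * z = 1 := by linarith
  have hyw : ¬ (y0 - k * x = 0 ∧ w0 - k * z = 0) := by
    rintro ⟨h1, h2⟩
    rw [h1, h2] at hdet
    simp at hdet
  refine ⟨x, y0 - k * x, z, w0 - k * z, hdet, ?_⟩
  obtain ⟨Q, hQ⟩ : ∃ Q, Q = nn p q r s (y0 - k * x) (w0 - k * z) := ⟨_, rfl⟩
  have hPQ : P ≤ Q := by rw [hP, hQ]; exact hmin _ _ hyw
  obtain ⟨E, hE⟩ : ∃ E : ℝ, E = D - k * P := ⟨_, rfl⟩
  have hE2 : |E| ≤ P / 2 := by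
    have h1 := abs_sub_round (D / P)
    rw [← hk] at h1
    have h2 : E = (D / P - k) * P := by
      rw [hE]
      field_simp
    rw [h2, abs_mul, abs_of_pos hP0]
    have h3 := mul_le_mul_of_nonneg_right h1 hP0.le
    linarith
  have hdetR : (x : ℝ) * w0 - y0 * z = 1 := by exact_mod_cast h0
  have hid : P * Q = 1 + E ^ 2 := by
    have h1 : P * Q = ((p * s - q * r) * ((x : ℝ) * w0 - y0 * z)) ^ 2 + E ^ 2 := by
      rw [hE, hD, hQ, hP]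
      unfold nn
      push_cast
      ring
    rw [h1, h, hdetR]
    ring
  have hE3 : E ^ 2 ≤ P ^ 2 / 4 := by
    have h1 : |E| ^ 2 = E ^ 2 := sq_abs E
    nlinarith [abs_nonneg E]
  have hPP : P ^ 2 ≤ P * Q := by nlinarith
  have h43 : P * Q ≤ 4 / 3 := by linarith
  have hP2 : P ≤ 2 := by nlinarith
  rw [← hP, ← hQ]
  exact ⟨hP0, hP2, by linarith⟩

theorem mon {α β γ δ ω τ : ℝ} (hα : |α| ≤ ω) (hγ : |γ| ≤ ω) (hβ : |β| ≤ τ) (hδ : |δ| ≤ τ)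
    (i j k l m n : ℕ) (hm : i + j = m) (hn : k + l = n) :
    |α ^ i * γ ^ j * β ^ k * δ ^ l| ≤ ω ^ m * τ ^ n := by
  rw [abs_mul, abs_mul, abs_mul, abs_pow, abs_pow, abs_pow, abs_pow, ← hm, ← hn, pow_add, pow_add,
    ← mul_assoc]
  have hω : 0 ≤ ω := (abs_nonneg _).trans hα
  have hτ : 0 ≤ τ := (abs_nonneg _).trans hβ
  have h1 := pow_le_pow_left₀ (abs_nonneg α) hα i
  have h2 := pow_le_pow_left₀ (abs_nonneg γ) hγ j
  have h3 := pow_le_pow_left₀ (abs_nonneg β) hβ k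
  have h4 := pow_le_pow_left₀ (abs_nonneg δ) hδ l
  have p1 : 0 ≤ |α| ^ i := by positivity
  have p2 : 0 ≤ |γ| ^ j := by positivity
  have p3 : 0 ≤ |β| ^ k := by positivity
  have p4 : 0 ≤ |δ| ^ l := by positivity
  have q1 : 0 ≤ ω ^ i := by positivity
  have q2 : 0 ≤ ω ^ j := by positivity
  have q3 : 0 ≤ τ ^ k := by positivity
  exact mul_le_mul (mul_le_mul (mul_le_mul h1 h2 p2 q1) h3 p3 (mul_nonneg q1 q2)) h4 p4
    (mul_nonneg (mul_nonneg q1 q2) q3)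

theorem five {K M a b c d e u1 u2 u3 u4 u5 n1 n2 n3 n4 n5 : ℝ} (ha : |a| ≤ K) (hb : |b| ≤ K)
    (hc : |c| ≤ K) (hd : |d| ≤ K) (he : |e| ≤ K) (h1 : |u1| ≤ n1 * M) (h2 : |u2| ≤ n2 * M)
    (h3 : |u3| ≤ n3 * M) (h4 : |u4| ≤ n4 * M) (h5 : |u5| ≤ n5 * M) :
    |a * u1 + b * u2 + c * u3 + d * u4 + e * u5| ≤ (n1 + n2 + n3 + n4 + n5) * (K * M) := by
  have hK : 0 ≤ K := (abs_nonneg a).trans ha
  have key : ∀ c u n : ℝ, |c| ≤ K → |u| ≤ n * M → |c * u| ≤ n * (K * M) := by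
    intro c u n hc hu
    rw [abs_mul]
    calc |c| * |u| ≤ K * (n * M) := mul_le_mul hc hu (abs_nonneg _) hK
      _ = n * (K * M) := by ring
  have e1 := abs_le.1 (key _ _ _ ha h1)
  have e2 := abs_le.1 (key _ _ _ hb h2)
  have e3 := abs_le.1 (key _ _ _ hc h3)
  have e4 := abs_le.1 (key _ _ _ hd h4)
  have e5 := abs_le.1 (key _ _ _ he h5)
  rw [abs_le]
  constructor
  · linarith [e1.1, e2.1, e3.1, e4.1, e5.1]
  · linarith [e1.2, e2.2, e3.2, e4.2, e5.2]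

theorem coeffs {K ω τ α β γ δ : ℝ} (F : BQ ℝ) (hF : Bd K F) (hα : |α| ≤ ω) (hγ : |γ| ≤ ω)
    (hβ : |β| ≤ τ) (hδ : |δ| ≤ τ) :
    |(F.act α β γ δ).a| ≤ 5 * (K * (ω ^ 4)) ∧ |(F.act α β γ δ).b| ≤ 20 * (K * (ω ^ 3 * τ)) ∧
    |(F.act α β γ δ).c| ≤ 30 * (K * (ω ^ 2 * τ ^ 2)) ∧
    |(F.act α β γ δ).d| ≤ 20 * (K * (ω * τ ^ 3)) ∧ |(F.act α β γ δ).e| ≤ 5 * (K * (τ ^ 4)) := by
  obtain ⟨ha, hb, hc, hd, he⟩ := hF
  have M : ∀ i j k l m n : ℕ, i + j = m → k + l = n →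
      -(ω ^ m * τ ^ n) ≤ α ^ i * γ ^ j * β ^ k * δ ^ l ∧
        α ^ i * γ ^ j * β ^ k * δ ^ l ≤ ω ^ m * τ ^ n := fun i j k l m n hm hn =>
    abs_le.1 (mon hα hγ hβ hδ i j k l m n hm hn)
  refine ⟨?_, ?_, ?_, ?_, ?_⟩
  · have h1 := M 4 0 0 0 4 0 rfl rfl
    have h2 := M 3 1 0 0 4 0 rfl rfl
    have h3 := M 2 2 0 0 4 0 rfl rfl
    have h4 := M 1 3 0 0 4 0 rfl rfl
    have h5 := M 0 4 0 0 4 0 rfl rfl
    have e : (F.act α β γ δ).a = F.a * α ^ 4 + F.b * (α ^ 3 * γ) + F.c * (α ^ 2 * γ ^ 2) +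
        F.d * (α * γ ^ 3) + F.e * γ ^ 4 := by
      simp only [BQ.act]
      ring
    rw [e]
    have key := five (M := ω ^ 4) (n1 := 1) (n2 := 1) (n3 := 1) (n4 := 1) (n5 := 1) ha hb hc hd he
      (u1 := α ^ 4) (u2 := α ^ 3 * γ) (u3 := α ^ 2 * γ ^ 2) (u4 := α * γ ^ 3) (u5 := γ ^ 4)
      (abs_le.2 ⟨by linarith [h1.1], by linarith [h1.2]⟩)
      (abs_le.2 ⟨by linarith [h2.1], by linarith [h2.2]⟩)
      (abs_le.2 ⟨by linarith [h3.1], by linarith [h3.2]⟩)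
      (abs_le.2 ⟨by linarith [h4.1], by linarith [h4.2]⟩)
      (abs_le.2 ⟨by linarith [h5.1], by linarith [h5.2]⟩)
    linarith
  · have h1 := M 3 0 1 0 3 1 rfl rfl
    have h2 := M 2 1 1 0 3 1 rfl rfl
    have h2' := M 3 0 0 1 3 1 rfl rfl
    have h3 := M 1 2 1 0 3 1 rfl rfl
    have h3' := M 2 1 0 1 3 1 rfl rfl
    have h4 := M 0 3 1 0 3 1 rfl rfl
    have h4' := M 1 2 0 1 3 1 rfl rfl
    have h5 := M 0 3 0 1 3 1 rfl rfl
    have e : (F.act α β γ δ).b = F.a * (4 * (α ^ 3 * β)) +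
        F.b * (3 * (α ^ 2 * γ * β) + α ^ 3 * δ) +
        F.c * (2 * (α * γ ^ 2 * β) + 2 * (α ^ 2 * γ * δ)) +
        F.d * (γ ^ 3 * β + 3 * (α * γ ^ 2 * δ)) + F.e * (4 * (γ ^ 3 * δ)) := by
      simp only [BQ.act]
      ring
    rw [e]
    have key := five (M := ω ^ 3 * τ) (n1 := 4) (n2 := 4) (n3 := 4) (n4 := 4) (n5 := 4)
      ha hb hc hd he (u1 := 4 * (α ^ 3 * β)) (u2 := 3 * (α ^ 2 * γ * β) + α ^ 3 * δ)
      (u3 := 2 * (α * γ ^ 2 * β) + 2 * (α ^ 2 * γ * δ))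
      (u4 := γ ^ 3 * β + 3 * (α * γ ^ 2 * δ)) (u5 := 4 * (γ ^ 3 * δ))
      (abs_le.2 ⟨by linarith [h1.1], by linarith [h1.2]⟩)
      (abs_le.2 ⟨by linarith [h2.1, h2'.1], by linarith [h2.2, h2'.2]⟩)
      (abs_le.2 ⟨by linarith [h3.1, h3'.1], by linarith [h3.2, h3'.2]⟩)
      (abs_le.2 ⟨by linarith [h4.1, h4'.1], by linarith [h4.2, h4'.2]⟩)
      (abs_le.2 ⟨by linarith [h5.1], by linarith [h5.2]⟩)
    linarith
  · have h1 := M 2 0 2 0 2 2 rfl rfl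
    have h2 := M 1 1 2 0 2 2 rfl rfl
    have h2' := M 2 0 1 1 2 2 rfl rfl
    have h3 := M 0 2 2 0 2 2 rfl rfl
    have h3' := M 1 1 1 1 2 2 rfl rfl
    have h3'' := M 2 0 0 2 2 2 rfl rfl
    have h4 := M 0 2 1 1 2 2 rfl rfl
    have h4' := M 1 1 0 2 2 2 rfl rfl
    have h5 := M 0 2 0 2 2 2 rfl rfl
    have e : (F.act α β γ δ).c = F.a * (6 * (α ^ 2 * β ^ 2)) +
        F.b * (3 * (α * γ * β ^ 2) + 3 * (α ^ 2 * β * δ)) +
        F.c * (γ ^ 2 * β ^ 2 + 4 * (α * γ * β * δ) + α ^ 2 * δ ^ 2) +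
        F.d * (3 * (γ ^ 2 * β * δ) + 3 * (α * γ * δ ^ 2)) + F.e * (6 * (γ ^ 2 * δ ^ 2)) := by
      simp only [BQ.act]
      ring
    rw [e]
    have key := five (M := ω ^ 2 * τ ^ 2) (n1 := 6) (n2 := 6) (n3 := 6) (n4 := 6) (n5 := 6)
      ha hb hc hd he (u1 := 6 * (α ^ 2 * β ^ 2))
      (u2 := 3 * (α * γ * β ^ 2) + 3 * (α ^ 2 * β * δ))
      (u3 := γ ^ 2 * β ^ 2 + 4 * (α * γ * β * δ) + α ^ 2 * δ ^ 2)
      (u4 := 3 * (γ ^ 2 * β * δ) + 3 * (α * γ * δ ^ 2)) (u5 := 6 * (γ ^ 2 * δ ^ 2))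
      (abs_le.2 ⟨by linarith [h1.1], by linarith [h1.2]⟩)
      (abs_le.2 ⟨by linarith [h2.1, h2'.1], by linarith [h2.2, h2'.2]⟩)
      (abs_le.2 ⟨by linarith [h3.1, h3'.1, h3''.1], by linarith [h3.2, h3'.2, h3''.2]⟩)
      (abs_le.2 ⟨by linarith [h4.1, h4'.1], by linarith [h4.2, h4'.2]⟩)
      (abs_le.2 ⟨by linarith [h5.1], by linarith [h5.2]⟩)
    linarith
  · have h1 := M 1 0 3 0 1 3 rfl rfl
    have h2 := M 0 1 3 0 1 3 rfl rfl
    have h2' := M 1 0 2 1 1 3 rfl rfl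
    have h3 := M 0 1 2 1 1 3 rfl rfl
    have h3' := M 1 0 1 2 1 3 rfl rfl
    have h4 := M 0 1 1 2 1 3 rfl rfl
    have h4' := M 1 0 0 3 1 3 rfl rfl
    have h5 := M 0 1 0 3 1 3 rfl rfl
    have e : (F.act α β γ δ).d = F.a * (4 * (α * β ^ 3)) +
        F.b * (γ * β ^ 3 + 3 * (α * β ^ 2 * δ)) +
        F.c * (2 * (γ * β ^ 2 * δ) + 2 * (α * β * δ ^ 2)) +
        F.d * (3 * (γ * β * δ ^ 2) + α * δ ^ 3) + F.e * (4 * (γ * δ ^ 3)) := by
      simp only [BQ.act]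
      ring
    rw [e]
    have key := five (M := ω * τ ^ 3) (n1 := 4) (n2 := 4) (n3 := 4) (n4 := 4) (n5 := 4)
      ha hb hc hd he (u1 := 4 * (α * β ^ 3)) (u2 := γ * β ^ 3 + 3 * (α * β ^ 2 * δ))
      (u3 := 2 * (γ * β ^ 2 * δ) + 2 * (α * β * δ ^ 2))
      (u4 := 3 * (γ * β * δ ^ 2) + α * δ ^ 3) (u5 := 4 * (γ * δ ^ 3))
      (abs_le.2 ⟨by linarith [h1.1], by linarith [h1.2]⟩)
      (abs_le.2 ⟨by linarith [h2.1, h2'.1], by linarith [h2.2, h2'.2]⟩)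
      (abs_le.2 ⟨by linarith [h3.1, h3'.1], by linarith [h3.2, h3'.2]⟩)
      (abs_le.2 ⟨by linarith [h4.1, h4'.1], by linarith [h4.2, h4'.2]⟩)
      (abs_le.2 ⟨by linarith [h5.1], by linarith [h5.2]⟩)
    linarith
  · have h1 := M 0 0 4 0 0 4 rfl rfl
    have h2 := M 0 0 3 1 0 4 rfl rfl
    have h3 := M 0 0 2 2 0 4 rfl rfl
    have h4 := M 0 0 1 3 0 4 rfl rfl
    have h5 := M 0 0 0 4 0 4 rfl rfl
    have e : (F.act α β γ δ).e = F.a * β ^ 4 + F.b * (β ^ 3 * δ) + F.c * (β ^ 2 * δ ^ 2) +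
        F.d * (β * δ ^ 3) + F.e * δ ^ 4 := by
      simp only [BQ.act]
      ring
    rw [e]
    have key := five (M := τ ^ 4) (n1 := 1) (n2 := 1) (n3 := 1) (n4 := 1) (n5 := 1) ha hb hc hd he
      (u1 := β ^ 4) (u2 := β ^ 3 * δ) (u3 := β ^ 2 * δ ^ 2) (u4 := β * δ ^ 3) (u5 := δ ^ 4)
      (abs_le.2 ⟨by linarith [h1.1], by linarith [h1.2]⟩)
      (abs_le.2 ⟨by linarith [h2.1], by linarith [h2.2]⟩)
      (abs_le.2 ⟨by linarith [h3.1], by linarith [h3.2]⟩)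
      (abs_le.2 ⟨by linarith [h4.1], by linarith [h4.2]⟩)
      (abs_le.2 ⟨by linarith [h5.1], by linarith [h5.2]⟩)
    linarith

end ILR

theorem pg_LR : S_LR := by
  intro K f p q r s hK hdet hBd
  obtain ⟨x, y, z, w, hxw, hP0, hP2, hPQ⟩ := ILR.reduced hdet
  refine ⟨x, y, z, w, hxw, ?_⟩
  obtain ⟨P, hP⟩ : ∃ P, P = ILR.nn p q r s x z := ⟨_, rfl⟩
  obtain ⟨Q, hQ⟩ : ∃ Q, Q = ILR.nn p q r s y w := ⟨_, rfl⟩
  rw [← hP] at hP0 hP2 hPQ
  rw [← hQ] at hPQ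
  obtain ⟨ω, hω⟩ : ∃ ω, ω = √P := ⟨_, rfl⟩
  have hω0 : 0 < ω := by rw [hω]; exact Real.sqrt_pos.2 hP0
  have hωsq : ω ^ 2 = P := by rw [hω]; exact Real.sq_sqrt hP0.le
  have hω2 : ω ≤ 2 := by
    by_contra hcon
    push Not at hcon
    nlinarith
  refine ⟨ω, hω0, hω2, ?_⟩
  have hact : f.act x y z w = (f.act p q r s).act (s * x - q * z) (s * y - q * w)
      (p * z - r * x) (p * w - r * y) := by
    rw [BQ.act_act]
    have e1 : p * (s * (x : ℝ) - q * z) + q * (p * z - r * x) = x := by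
      linear_combination (x : ℝ) * hdet
    have e2 : p * (s * (y : ℝ) - q * w) + q * (p * w - r * y) = y := by
      linear_combination (y : ℝ) * hdet
    have e3 : r * (s * (x : ℝ) - q * z) + s * (p * z - r * x) = z := by
      linear_combination (z : ℝ) * hdet
    have e4 : r * (s * (y : ℝ) - q * w) + s * (p * w - r * y) = w := by
      linear_combination (w : ℝ) * hdet
    rw [e1, e2, e3, e4]
  have hPe : P = (s * (x : ℝ) - q * z) ^ 2 + (p * z - r * x) ^ 2 := hP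
  have hQe : Q = (s * (y : ℝ) - q * w) ^ 2 + (p * w - r * y) ^ 2 := hQ
  have hα : |s * (x : ℝ) - q * z| ≤ ω := by
    apply abs_le_of_sq_le_sq _ hω0.le
    rw [hωsq, hPe]
    linarith [sq_nonneg (p * (z : ℝ) - r * x)]
  have hγ : |p * (z : ℝ) - r * x| ≤ ω := by
    apply abs_le_of_sq_le_sq _ hω0.le
    rw [hωsq, hPe]
    linarith [sq_nonneg (s * (x : ℝ) - q * z)]
  have hQ4 : Q ≤ (2 / ω) ^ 2 := by
    rw [div_pow, hωsq, le_div_iff₀ hP0]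
    linarith
  have hτ0 : 0 ≤ 2 / ω := by positivity
  have hβ : |s * (y : ℝ) - q * w| ≤ 2 / ω := by
    apply abs_le_of_sq_le_sq _ hτ0
    linarith [sq_nonneg (p * (w : ℝ) - r * y)]
  have hδ : |p * (w : ℝ) - r * y| ≤ 2 / ω := by
    apply abs_le_of_sq_le_sq _ hτ0
    linarith [sq_nonneg (s * (y : ℝ) - q * w)]
  obtain ⟨ha, hb, hc, hd, he⟩ := ILR.coeffs (f.act p q r s) hBd hα hγ hβ hδ
  rw [← hact] at ha hb hc hd he
  have hωne : ω ≠ 0 := hω0.ne'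
  refine ⟨?_, ?_, ?_, ?_, ?_⟩
  · refine ha.trans ?_
    have h1 : 0 ≤ K * ω ^ 4 := by positivity
    linarith
  · refine hb.trans ?_
    have h1 : 20 * (K * (ω ^ 3 * (2 / ω))) = 40 * (K * ω ^ 2) := by
      field_simp
      ring
    have h2 : 0 ≤ K * ω ^ 2 := by positivity
    rw [h1]
    linarith
  · refine hc.trans ?_
    have h1 : 30 * (K * (ω ^ 2 * (2 / ω) ^ 2)) = 120 * K := by
      field_simp
      ring
    rw [h1]
    linarith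
  · refine hd.trans ?_
    have h1 : 20 * (K * (ω * (2 / ω) ^ 3)) = 160 * (K / ω ^ 2) := by
      field_simp
      ring
    have h2 : 0 ≤ K / ω ^ 2 := by positivity
    have h3 : 1000 * K / ω ^ 2 = 1000 * (K / ω ^ 2) := by ring
    rw [h1, h3]
    linarith
  · refine he.trans ?_
    have h1 : 5 * (K * (2 / ω) ^ 4) = 80 * (K / ω ^ 4) := by
      field_simp
      ring
    have h2 : 0 ≤ K / ω ^ 4 := by positivity
    have h3 : 1000 * K / ω ^ 4 = 1000 * (K / ω ^ 4) := by ring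
    rw [h1, h3]
    linarith

end Pool.Agent.Work.MP_bd3ec3_nt.SG
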