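import Pool.Agent.Work.MP_bd3ec3_nt.SG.StmtsV

set_option autoImplicit false

namespace Pool.Agent.Work.MP_bd3ec3_nt.SG

open Pool.Agent.Work.MP_bd3ec3_nt.SP

namespace IN1

theorem eqn (A B : ℤ) (P : (W A B).toAffine.Point) (x y : ℚ) (h : IsXY A B P x y) :
    y ^ 2 = x ^ 3 + A * x + B := by
  rcases P with _ | ⟨x', y', hP⟩
  · exact absurd h (by simp [IsXY])
  · obtain ⟨h1, h2⟩ : x' = x ∧ y' = y := h
    subst h1; subst h2
    have h3 := (WeierstrassCurve.Affine.equation_iff x' y').mp hP.1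
    simp only [W] at h3
    linear_combination h3

theorem toR_act (f : BQ ℤ) (p q r s : ℤ) : toR (f.act p q r s) = (toR f).act p q r s := by
  ext <;> simp [toR, BQ.act]

theorem toR_I (f : BQ ℤ) : (toR f).I = (f.I : ℝ) := by
  simp [toR, BQ.I]

theorem toR_J (f : BQ ℤ) : (toR f).J = (f.J : ℝ) := by
  simp [toR, BQ.J]

theorem toR_ev (f : BQ ℤ) (x z : ℤ) : (toR f).ev x z = (f.ev x z : ℝ) := by
  simp [toR, BQ.ev]

theorem toR_Hs (f : BQ ℤ) (x z : ℤ) : (toR f).Hs x z = (f.Hs x z : ℝ) := by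
  simp [toR, BQ.Hs]

theorem Bw_mono {K K' ω : ℝ} {f : BQ ℝ} (hω : 0 < ω) (h : K ≤ K') (hf : Bw K ω f) : Bw K' ω f := by
  obtain ⟨h1, h2, h3, h4, h5⟩ := hf
  refine ⟨h1.trans ?_, h2.trans ?_, h3.trans h, h4.trans ?_, h5.trans ?_⟩
  · exact mul_le_mul_of_nonneg_right h (by positivity)
  · exact mul_le_mul_of_nonneg_right h (by positivity)
  · exact div_le_div_of_nonneg_right h (by positivity)
  · exact div_le_div_of_nonneg_right h (by positivity)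

theorem Bd_act {K ω : ℝ} {f : BQ ℝ} (hω : 0 < ω) (hf : Bw K ω f) : Bd K (f.act (1 / ω) 0 0 ω) := by
  obtain ⟨h1, h2, h3, h4, h5⟩ := hf
  have e1 : (f.act (1 / ω) 0 0 ω).a = f.a / ω ^ 4 := by
    simp only [BQ.act]; field_simp; ring
  have e2 : (f.act (1 / ω) 0 0 ω).b = f.b / ω ^ 2 := by
    simp only [BQ.act]; field_simp; ring
  have e3 : (f.act (1 / ω) 0 0 ω).c = f.c := by
    simp only [BQ.act]; field_simp; ring
  have e4 : (f.act (1 / ω) 0 0 ω).d = f.d * ω ^ 2 := by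
    simp only [BQ.act]; field_simp; ring
  have e5 : (f.act (1 / ω) 0 0 ω).e = f.e * ω ^ 4 := by
    simp only [BQ.act]; ring
  unfold Bd
  rw [e1, e2, e3, e4, e5]
  refine ⟨?_, ?_, h3, ?_, ?_⟩
  · rw [abs_div, abs_of_pos (show (0:ℝ) < ω ^ 4 by positivity), div_le_iff₀ (by positivity)]
    exact h1
  · rw [abs_div, abs_of_pos (show (0:ℝ) < ω ^ 2 by positivity), div_le_iff₀ (by positivity)]
    exact h2
  · rw [abs_mul, abs_of_pos (show (0:ℝ) < ω ^ 2 by positivity), ← le_div_iff₀ (by positivity)]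
    exact h4
  · rw [abs_mul, abs_of_pos (show (0:ℝ) < ω ^ 4 by positivity), ← le_div_iff₀ (by positivity)]
    exact h5

theorem F_facts (g : BQ ℤ) (ω : ℝ) (t r : ℤ) (hω : 0 < ω) :
    ((toR g).act (1 / ω) 0 0 ω).I = (g.I : ℝ) ∧ ((toR g).act (1 / ω) 0 0 ω).J = (g.J : ℝ) ∧
    ((toR g).act (1 / ω) 0 0 ω).ev ((t : ℝ) * ω) ((r : ℝ) / ω) = (g.ev t r : ℝ) ∧
    ((toR g).act (1 / ω) 0 0 ω).Hs ((t : ℝ) * ω) ((r : ℝ) / ω) = (g.Hs t r : ℝ) := by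
  have h0 : (1 / ω * ω - 0 * 0 : ℝ) = 1 := by field_simp; ring
  have h1 : (1 / ω * ((t : ℝ) * ω) + 0 * ((r : ℝ) / ω) : ℝ) = t := by field_simp; ring
  have h2 : (0 * ((t : ℝ) * ω) + ω * ((r : ℝ) / ω) : ℝ) = r := by field_simp; ring
  refine ⟨?_, ?_, ?_, ?_⟩
  · rw [BQ.I_act, h0, toR_I]; ring
  · rw [BQ.J_act, h0, toR_J]; ring
  · rw [BQ.ev_act, h1, h2, toR_ev]
  · rw [BQ.Hs_act, h0, h1, h2, toR_Hs]; ring

theorem sign (A B : ℤ) (x y : ℚ) (e : ℕ) (b0 : ℤ) (he : 0 < e) (hxq : x = (x.num : ℚ) / (e : ℚ) ^ 2)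
    (hE : y ^ 2 = x ^ 3 + A * x + B)
    (hb0 : b0 ^ 2 = x.num ^ 3 + A * x.num * (e : ℤ) ^ 4 + B * (e : ℤ) ^ 6) :
    ∃ b : ℤ, b ^ 2 = x.num ^ 3 + A * x.num * (e : ℤ) ^ 4 + B * (e : ℤ) ^ 6 ∧
      y = (b : ℚ) / (e : ℚ) ^ 3 := by
  have heq : (e : ℚ) ≠ 0 := by exact_mod_cast he.ne'
  have hb1 : (b0 : ℚ) ^ 2 = (x.num : ℚ) ^ 3 + A * x.num * (e : ℚ) ^ 4 + B * (e : ℚ) ^ 6 := by
    exact_mod_cast hb0
  have h1 : y ^ 2 = ((b0 : ℚ) / (e : ℚ) ^ 3) ^ 2 := by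
    rw [div_pow, hb1, hE]
    generalize (x.num : ℚ) = n at hxq
    rw [hxq]
    field_simp
  rcases sq_eq_sq_iff_eq_or_eq_neg.mp h1 with h | h
  · exact ⟨b0, hb0, h⟩
  · refine ⟨-b0, by rw [neg_sq]; exact hb0, ?_⟩
    rw [h]; push_cast; ring

theorem omega_low (C X ω : ℝ) (hC : 64000 ≤ C) (hX : 1 ≤ X) (hω : 0 < ω)
    (h : 1 ≤ 64000 * X * ω ^ 4) : X ^ (-(1 / 4) : ℝ) / C ≤ ω := by
  have hXp : 0 < X := by linarith
  have hCp : 0 < C := by linarith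
  by_contra hlt
  push Not at hlt
  have h4 : ω ^ 4 < (X ^ (-(1 / 4) : ℝ) / C) ^ 4 := pow_lt_pow_left₀ hlt hω.le (by norm_num)
  have hX4 : (X ^ (-(1 / 4) : ℝ)) ^ 4 = X⁻¹ := by
    rw [← Real.rpow_natCast, ← Real.rpow_mul hXp.le]
    norm_num
    exact Real.rpow_neg_one X
  rw [div_pow, hX4] at h4
  have h5 : 64000 * X * ω ^ 4 < 64000 * X * (X⁻¹ / C ^ 4) := by
    apply mul_lt_mul_of_pos_left h4
    positivity
  have h6 : 64000 * X * (X⁻¹ / C ^ 4) = 64000 / C ^ 4 := by field_simp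
  have h7 : 64000 / C ^ 4 ≤ 1 := by
    rw [div_le_one (by positivity)]
    have : C ^ 1 ≤ C ^ 4 := pow_le_pow_right₀ (by linarith) (by norm_num)
    linarith
  linarith

theorem final (C₁ C X M θ ω : ℝ) (A B a t r : ℤ) (e : ℕ) (g : BQ ℤ) (hC₁ : 0 < C₁)
    (hC : C₁ * 64000 ^ 4 * 64048 ≤ C) (hX : 1 ≤ X) (hω : 0 < ω)
    (hDG : ∀ (K : ℝ) (f : BQ ℝ), 0 < K → Bd K f → ∀ x z : ℝ,
      |4 * f.I ^ 3 - f.J ^ 2| * (x ^ 2 + z ^ 2) ^ 2 ≤ C₁ * K ^ 4 * (K * |f.ev x z| + |f.Hs x z|))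
    (hD : X ^ (6 - θ) < |4 * (A : ℝ) ^ 3 + 27 * (B : ℝ) ^ 2|)
    (hB : Bw (64000 * X) ω (toR g)) (hI : g.I = -48 * A) (hJ : g.J = -1728 * B)
    (hev : g.ev t r = (e : ℤ) ^ 2) (hHs : g.Hs t r = -48 * a)
    (ha : |(a : ℝ)| ≤ M) (he : (e : ℝ) ^ 2 * X ≤ M) :
    ((t : ℝ) * ω) ^ 2 + ((r : ℝ) / ω) ^ 2 ≤ ((C * M * X ^ (θ - 2)) ^ ((1 : ℝ) / 4)) ^ 2 := by
  have hXp : 0 < X := by linarith
  have hM : 0 ≤ M := (abs_nonneg _).trans ha
  obtain ⟨f1, f2, f3, f4⟩ := F_facts g ω t r hω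
  have h := hDG (64000 * X) _ (by positivity) (Bd_act hω hB) ((t : ℝ) * ω) ((r : ℝ) / ω)
  rw [f1, f2, f3, f4, hI, hJ, hev, hHs] at h
  push_cast at h
  set ρ : ℝ := ((t : ℝ) * ω) ^ 2 + ((r : ℝ) / ω) ^ 2 with hρ
  have hρ0 : 0 ≤ ρ := by positivity
  have e1 : (4 * (-48 * (A : ℝ)) ^ 3 - (-1728 * (B : ℝ)) ^ 2) =
      -110592 * (4 * (A : ℝ) ^ 3 + 27 * (B : ℝ) ^ 2) := by ring
  rw [e1, abs_mul] at h
  have e2 : |(-110592 : ℝ)| = 110592 := by norm_num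
  have e3 : |(-48 * (a : ℝ))| = 48 * |(a : ℝ)| := by rw [abs_mul]; norm_num
  have e4 : |((e : ℝ) ^ 2)| = (e : ℝ) ^ 2 := abs_of_nonneg (by positivity)
  rw [e2, e3, e4] at h
  have hXθ : 0 < X ^ (6 - θ) := Real.rpow_pos_of_pos hXp _
  have h1 : X ^ (6 - θ) * ρ ^ 2 ≤ C₁ * (64000 * X) ^ 4 * (64048 * M) := by
    calc X ^ (6 - θ) * ρ ^ 2 ≤ 110592 * |4 * (A : ℝ) ^ 3 + 27 * (B : ℝ) ^ 2| * ρ ^ 2 := by
          apply mul_le_mul_of_nonneg_right _ (by positivity)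
          nlinarith [abs_nonneg (4 * (A : ℝ) ^ 3 + 27 * (B : ℝ) ^ 2)]
      _ ≤ _ := h
      _ ≤ _ := by
          apply mul_le_mul_of_nonneg_left _ (by positivity)
          nlinarith
  have h2 : ρ ^ 2 ≤ C * M * X ^ (θ - 2) := by
    have e5 : X ^ (θ - 2) * X ^ (6 - θ) = X ^ 4 := by
      rw [← Real.rpow_add hXp, show (θ - 2 + (6 - θ) : ℝ) = (4 : ℕ) by push_cast; ring,
        Real.rpow_natCast]
    have h3 : X ^ (6 - θ) * ρ ^ 2 ≤ X ^ (6 - θ) * (C * M * X ^ (θ - 2)) := by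
      calc X ^ (6 - θ) * ρ ^ 2 ≤ C₁ * (64000 * X) ^ 4 * (64048 * M) := h1
        _ = (C₁ * 64000 ^ 4 * 64048) * (M * X ^ 4) := by ring
        _ ≤ C * (M * X ^ 4) := mul_le_mul_of_nonneg_right hC (by positivity)
        _ = X ^ (6 - θ) * (C * M * X ^ (θ - 2)) := by rw [← e5]; ring
    exact le_of_mul_le_mul_left h3 hXθ
  set Z : ℝ := C * M * X ^ (θ - 2) with hZ
  have hZ0 : 0 ≤ Z := le_trans (by positivity) h2
  have e6 : ((Z ^ ((1 : ℝ) / 4)) ^ 2) ^ 2 = Z := by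
    rw [← pow_mul, ← Real.rpow_natCast, ← Real.rpow_mul hZ0]
    norm_num
  have h4 : ρ ^ 2 ≤ ((Z ^ ((1 : ℝ) / 4)) ^ 2) ^ 2 := by rw [e6]; exact h2
  exact (pow_le_pow_iff_left₀ hρ0 (by positivity) (by norm_num)).mp h4

theorem num_bound (X ω : ℝ) (a t : ℤ) (g : BQ ℤ) (hX : 1 ≤ X) (hω : 0 < ω) (hω2 : ω ≤ 2)
    (hB : Bw (64000 * X) ω (toR g)) (ht : t ^ 4 = 1) (hHs : g.Hs t 0 = -48 * a) (C : ℝ)
    (hC : (64000 : ℝ) ^ 3 ≤ C) : |(a : ℝ)| ≤ C * X ^ 2 := by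
  have hXp : 0 < X := by linarith
  obtain ⟨h1, h2, h3, -, -⟩ := hB
  have e1 : (toR g).a = (g.a : ℝ) := rfl
  have e2 : (toR g).b = (g.b : ℝ) := rfl
  have e3 : (toR g).c = (g.c : ℝ) := rfl
  rw [e1] at h1
  rw [e2] at h2
  rw [e3] at h3
  have hω4 : ω ^ 4 ≤ 2 ^ 4 := pow_le_pow_left₀ hω.le hω2 4
  have hω22 : ω ^ 2 ≤ 2 ^ 2 := pow_le_pow_left₀ hω.le hω2 2
  have h1' : |(g.a : ℝ)| ≤ 1024000 * X := by
    calc |(g.a : ℝ)| ≤ 64000 * X * ω ^ 4 := h1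
      _ ≤ 64000 * X * 2 ^ 4 := mul_le_mul_of_nonneg_left hω4 (by positivity)
      _ = 1024000 * X := by ring
  have h2' : |(g.b : ℝ)| ≤ 256000 * X := by
    calc |(g.b : ℝ)| ≤ 64000 * X * ω ^ 2 := h2
      _ ≤ 64000 * X * 2 ^ 2 := mul_le_mul_of_nonneg_left hω22 (by positivity)
      _ = 256000 * X := by ring
  have h4 : (8 * g.a * g.c - 3 * g.b ^ 2) = -48 * a := by
    have h5 : g.Hs t 0 = (8 * g.a * g.c - 3 * g.b ^ 2) * t ^ 4 := by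
      simp only [BQ.Hs]; ring
    rw [h5, ht, mul_one] at hHs
    exact hHs
  have h5 : (8 * (g.a : ℝ) * g.c - 3 * (g.b : ℝ) ^ 2) = -48 * a := by exact_mod_cast h4
  have h6 : |(g.a : ℝ) * g.c| ≤ 1024000 * X * (64000 * X) := by
    rw [abs_mul]
    exact mul_le_mul h1' h3 (abs_nonneg _) (by positivity)
  have h7 : (g.b : ℝ) ^ 2 ≤ (256000 * X) ^ 2 := by
    rw [← sq_abs]
    exact pow_le_pow_left₀ (abs_nonneg _) h2' 2
  have h8 : |(-48 * (a : ℝ))| ≤ 8 * (1024000 * X * (64000 * X)) + 3 * (256000 * X) ^ 2 := by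
    rw [← h5]
    have h9 : (8 * (g.a : ℝ) * g.c - 3 * (g.b : ℝ) ^ 2) = 8 * ((g.a : ℝ) * g.c) - 3 * (g.b : ℝ) ^ 2 := by ring
    rw [h9]
    rw [abs_le] at h6 ⊢
    have h10 : 0 ≤ (g.b : ℝ) ^ 2 := sq_nonneg _
    constructor
    · linarith [h6.1, h6.2]
    · have h11 : 0 ≤ (256000 * X) ^ 2 := by positivity
      linarith [h6.1, h6.2]
  rw [abs_mul] at h8
  have h12 : |(-48 : ℝ)| = 48 := by norm_num
  rw [h12] at h8
  have hX2 : 0 < X ^ 2 := by positivity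
  calc |(a : ℝ)| ≤ 64000 ^ 3 * X ^ 2 := by nlinarith
    _ ≤ C * X ^ 2 := mul_le_mul_of_nonneg_right hC hX2.le

end IN1

theorem pg_N1 : S_N1 := by
  intro hRT hQF hIJ hHV hNZ hRE hDG
  obtain ⟨C₁, hC₁, hDG⟩ := hDG
  have hC3 : (64000 : ℝ) ^ 3 ≤ 64000 ^ 3 + C₁ * 64000 ^ 4 * 64048 := by
    have : 0 < C₁ * 64000 ^ 4 * 64048 := by positivity
    linarith
  have hC0 : (64000 : ℝ) ≤ 64000 ^ 3 + C₁ * 64000 ^ 4 * 64048 := le_trans (by norm_num) hC3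
  refine ⟨64000 ^ 3 + C₁ * 64000 ^ 4 * 64048, by linarith, ?_⟩
  intro X M θ A B P x y hX hθ hA hB hD hP hPR hx hden
  have hXp : 0 < X := by linarith
  have hE := IN1.eqn A B P x y hP
  obtain ⟨e, b0, he, hxd, hcop, hb0⟩ := hRT A B x y hE
  have hxq : x = (x.num : ℚ) / (e : ℚ) ^ 2 := by
    have h := (Rat.num_div_den x).symm
    rw [hxd] at h
    push_cast at h
    exact h
  obtain ⟨b, hb, hyb⟩ := IN1.sign A B x y e b0 he hxq hE hb0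
  obtain ⟨s, α, β, γ, h1, h2, h3, h4⟩ := hQF A B x.num b e he hcop hb
  obtain ⟨hI, hJ, hH⟩ := hIJ A B x.num e s α β γ h1 h3 h4
  have hdisc : 4 * A ^ 3 + 27 * B ^ 2 ≠ 0 := by
    intro h0
    have h5 : (4 * (A : ℝ) ^ 3 + 27 * (B : ℝ) ^ 2) = 0 := by exact_mod_cast h0
    rw [h5, abs_zero] at hD
    exact absurd hD (not_lt.mpr (Real.rpow_nonneg hXp.le _))
  have hP' : IsXY A B P ((x.num : ℚ) / (e : ℚ) ^ 2) ((b : ℚ) / (e : ℚ) ^ 3) := by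
    rw [← hxq, ← hyb]; exact hP
  have hNZ' := hNZ hHV A B x.num b e s α β γ he hdisc h1 h2 h3 P hP' hPR
  set f : BQ ℤ := BQ.mk ((e : ℤ) ^ 2) (4 * s) (-6 * α) β γ with hf
  have heZ : (0 : ℤ) < (e : ℤ) := by exact_mod_cast he
  have hfa : 0 < f.a := by rw [hf]; positivity
  have hI' : |(f.I : ℝ)| ≤ 48 * X ^ 2 := by
    rw [hI]; push_cast; rw [abs_mul]; norm_num; linarith
  have hJ' : |(f.J : ℝ)| ≤ 1728 * X ^ 3 := by
    rw [hJ]; push_cast; rw [abs_mul]; norm_num; linarith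
  obtain ⟨p, q, r, t, hdet, ω, hω, hω2, hBw⟩ := hRE X f hX hfa hI' hJ'
  have hgI : (f.act p q r t).I = -48 * A := by
    rw [BQ.I_act, hdet, hI]; ring
  have hgJ : (f.act p q r t).J = -1728 * B := by
    rw [BQ.J_act, hdet, hJ]; ring
  have hga : (f.act p q r t).a = f.ev p r := by
    simp only [BQ.act, BQ.ev]
  have k1 : p * t + q * (-r) = 1 := by linear_combination hdet
  have k2 : r * t + t * (-r) = 0 := by ring
  have hev : (f.act p q r t).ev t (-r) = (e : ℤ) ^ 2 := by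
    rw [BQ.ev_act, k1, k2]
    simp [BQ.ev, hf]
  have hHs : (f.act p q r t).Hs t (-r) = -48 * x.num := by
    rw [BQ.Hs_act, k1, k2, hdet, hH]; ring
  have hpr : ¬ (p = 0 ∧ r = 0) := by
    rintro ⟨rfl, rfl⟩
    simp at hdet
  have hne := hNZ' p r hpr
  have hw : 1 ≤ 64000 * X * ω ^ 4 := by
    refine le_trans ?_ hBw.1
    show (1 : ℝ) ≤ |(((f.act p q r t).a : ℤ) : ℝ)|
    rw [hga]
    have h6 : (1 : ℤ) ≤ |f.ev p r| := Int.one_le_abs hne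
    exact_mod_cast h6
  have hlow := IN1.omega_low _ X ω hC0 hX hω hw
  have hden' : (e : ℝ) ^ 2 * X ≤ M := by
    rw [hxd] at hden
    push_cast at hden
    exact hden
  by_cases hr : r = 0
  · left
    subst hr
    have hpt : p * t = 1 := by linear_combination hdet
    have hp4 : p ^ 4 = 1 := by
      rcases Int.eq_one_or_neg_one_of_mul_eq_one hpt with h | h <;> rw [h] <;> norm_num
    have ht4 : t ^ 4 = 1 := by
      have h0 : (p * t) ^ 4 = 1 := by rw [hpt]; norm_num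
      rw [mul_pow, hp4, one_mul] at h0
      exact h0
    have h7 : (f.act p q 0 t).a = (e : ℤ) ^ 2 := by
      rw [hga]; simp [BQ.ev, hf, hp4]
    have h8 : (e : ℝ) ^ 2 ≤ 64000 * X * ω ^ 4 := by
      have h9 := hBw.1
      have h10 : (toR (f.act p q 0 t)).a = (e : ℝ) ^ 2 := by
        show (((f.act p q 0 t).a : ℤ) : ℝ) = _
        rw [h7]; push_cast; ring
      rw [h10] at h9
      exact (le_abs_self _).trans h9
    have h11 : ω ^ 4 ≤ 2 ^ 4 := pow_le_pow_left₀ hω.le hω2 4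
    have h12 : (e : ℝ) ^ 2 ≤ (64000 * √X) ^ 2 := by
      rw [mul_pow, Real.sq_sqrt hXp.le]
      calc (e : ℝ) ^ 2 ≤ 64000 * X * ω ^ 4 := h8
        _ ≤ 64000 * X * 2 ^ 4 := mul_le_mul_of_nonneg_left h11 (by positivity)
        _ ≤ 64000 ^ 2 * X := by nlinarith
    have h13 : (e : ℝ) ≤ 64000 * √X :=
      (pow_le_pow_iff_left₀ (by positivity) (by positivity) (by norm_num)).mp h12
    have hnum : |(x.num : ℝ)| ≤ (64000 ^ 3 + C₁ * 64000 ^ 4 * 64048) * X ^ 2 :=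
      IN1.num_bound X ω x.num t (f.act p q 0 t) hX hω hω2 hBw ht4 (by simpa using hHs) _ hC3
    refine ⟨e, he, ?_, x.num, hcop, hnum, hA, hB, b, hb⟩
    exact h13.trans (mul_le_mul_of_nonneg_right hC0 (Real.sqrt_nonneg X))
  · right
    refine ⟨ω, hlow, hω2, f.act p q r t, t, -r, hgI, hgJ, ?_,
      IN1.Bw_mono hω (mul_le_mul_of_nonneg_right hC0 hXp.le) hBw, neg_ne_zero.mpr hr,
      ⟨p, q, k1⟩, ⟨e, heZ, ?_, hev⟩, ?_⟩
    · rw [hga]; exact hne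
    · apply Real.le_sqrt_of_sq_le
      rw [le_div_iff₀ hXp]
      exact_mod_cast hden'
    · exact IN1.final C₁ _ X M θ ω A B x.num t (-r) e _ hC₁ (by linarith [show (0:ℝ) < 64000 ^ 3 by norm_num]) hX hω hDG hD hBw hgI hgJ hev
        hHs hx hden'

end Pool.Agent.Work.MP_bd3ec3_nt.SG
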