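import Pool.Agent.Work.MP_bd3ec3_nt.SG.Stmts

/-!
# MP_bd3ec3_nt, block SG, item NZ: the quartic of a point outside `2 E(ℚ)` has no rational zero
-/

set_option autoImplicit false

namespace Pool.Agent.Work.MP_bd3ec3_nt.SG

open Pool.Agent.Work.MP_bd3ec3_nt.SP

namespace INZ

/-- the polynomial identity -/
lemma ident (e s α β γ t A a b : ℚ) (he : e ≠ 0) (ha : a = s ^ 2 + α * e ^ 2)
    (hb : b = (8 * s ^ 3 + 12 * s * α * e ^ 2 + β * e ^ 4) / 8)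
    (hA : A = (s * β - 3 * α ^ 2 - e ^ 2 * γ) / 4) :
    (e * t + s / e) ^ 4 - 6 * (a / e ^ 2) * (e * t + s / e) ^ 2 + 8 * (b / e ^ 3) * (e * t + s / e) -
      3 * (a / e ^ 2) ^ 2 - 4 * A =
    e ^ 2 * (e ^ 2 * t ^ 4 + 4 * s * t ^ 3 + (-6 * α) * t ^ 2 + β * t + γ) := by
  subst ha hb hA
  field_simp
  ring

/-- a rational zero of the dehomogenised form -/
lemma dehom (e s α β γ x z : ℚ) (hz : z ≠ 0)
    (h : e ^ 2 * x ^ 4 + 4 * s * x ^ 3 * z + (-6 * α) * x ^ 2 * z ^ 2 + β * x * z ^ 3 + γ * z ^ 4 = 0) :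
    e ^ 2 * (x / z) ^ 4 + 4 * s * (x / z) ^ 3 + (-6 * α) * (x / z) ^ 2 + β * (x / z) + γ = 0 := by
  have h1 : e ^ 2 * (x / z) ^ 4 + 4 * s * (x / z) ^ 3 + (-6 * α) * (x / z) ^ 2 + β * (x / z) + γ =
      (e ^ 2 * x ^ 4 + 4 * s * x ^ 3 * z + (-6 * α) * x ^ 2 * z ^ 2 + β * x * z ^ 3 + γ * z ^ 4) / z ^ 4 := by
    field_simp
  rw [h1, h, zero_div]

end INZ

theorem pg_NZ : S_NZ := by
  intro hHV A B a b e s α β γ he hD ha hb hγ P hP hR x' z' hxz hev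
  have he0 : (e : ℚ) ≠ 0 := by
    exact_mod_cast he.ne'
  have hz : z' ≠ 0 := by
    rintro rfl
    apply hxz
    refine ⟨?_, rfl⟩
    have h1 : ((e : ℤ) ^ 2) * x' ^ 4 = 0 := by
      have h2 := hev
      simp only [BQ.ev] at h2
      linear_combination h2
    have h3 : ((e : ℤ) ^ 2) ≠ 0 := by
      have : (e : ℤ) ≠ 0 := by exact_mod_cast he.ne'
      exact pow_ne_zero 2 this
    have h4 : x' ^ 4 = 0 := by
      rcases mul_eq_zero.mp h1 with h | h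
      · exact absurd h h3
      · exact h
    exact pow_eq_zero_iff (by norm_num) |>.mp h4
  have hzQ : (z' : ℚ) ≠ 0 := by exact_mod_cast hz
  have ha' : (a : ℚ) = (s : ℚ) ^ 2 + (α : ℚ) * (e : ℚ) ^ 2 := by exact_mod_cast ha
  have hb' : 8 * (b : ℚ) = 8 * (s : ℚ) ^ 3 + 12 * s * α * (e : ℚ) ^ 2 + β * (e : ℚ) ^ 4 := by
    exact_mod_cast hb
  have hγ' : (e : ℚ) ^ 2 * (γ : ℚ) = s * β - 3 * (α : ℚ) ^ 2 - 4 * A := by exact_mod_cast hγ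
  have hev' : (e : ℚ) ^ 2 * (x' : ℚ) ^ 4 + 4 * s * (x' : ℚ) ^ 3 * z' + (-6 * (α : ℚ)) * (x' : ℚ) ^ 2 * (z' : ℚ) ^ 2 +
      β * x' * (z' : ℚ) ^ 3 + γ * (z' : ℚ) ^ 4 = 0 := by
    have h2 := hev
    simp only [BQ.ev] at h2
    exact_mod_cast h2
  have hd := INZ.dehom (e : ℚ) s α β γ x' z' hzQ hev'
  obtain ⟨R, hR'⟩ := hHV A B hD P _ _ ((e : ℚ) * ((x' : ℚ) / z') + s / e) hP (by
    have h5 := INZ.ident (e : ℚ) s α β γ ((x' : ℚ) / z') A a b he0 ha' (by linarith) (by linarith)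
    rw [hd, mul_zero] at h5
    exact h5)
  exact hR R hR'

end Pool.Agent.Work.MP_bd3ec3_nt.SG
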