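import Pool.Agent.Work.MP_bd3ec3_nt.SG.Stmts

set_option autoImplicit false

namespace Pool.Agent.Work.MP_bd3ec3_nt.SG

open Pool.Agent.Work.MP_bd3ec3_nt.SP

theorem pg_QF : S_QF := by
  intro A B a b e he hco hb
  generalize hE : (e : ℤ) = E at *
  have hE0 : E ≠ 0 := by omega
  obtain ⟨u, v, huv⟩ := (hco.pow_right (n := 4) : IsCoprime a (E ^ 4))
  obtain ⟨s, hs⟩ : ∃ s : ℤ, s = u * b := ⟨_, rfl⟩
  have h1 : E ^ 4 ∣ a ^ 2 * (s ^ 2 - a) := by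
    refine ⟨A * a + B * E ^ 2 + b ^ 2 * (v ^ 2 * E ^ 4 - 2 * v), ?_⟩
    rw [hs]
    linear_combination b ^ 2 * (u * a + 1 - v * E ^ 4) * huv + hb
  have hco4 : IsCoprime (E ^ 4) (a ^ 2) := (hco.symm.pow_left (m := 4)).pow_right (n := 2)
  obtain ⟨t, ht⟩ := hco4.dvd_of_dvd_mul_left h1
  -- the numbers
  have ha : a = s ^ 2 + (-(E ^ 2 * t)) * E ^ 2 := by linear_combination -ht
  have hbb : b = s ^ 3 + E ^ 4 * (v * b - s * t) := by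
    have h2 : s * a = u * a * b := by rw [hs]; ring
    linear_combination (-b) * huv - h2 + (-s) * ht
  have h8 : 8 * b = 8 * s ^ 3 + 12 * s * (-(E ^ 2 * t)) * E ^ 2 + (4 * (2 * v * b + s * t)) * E ^ 4 := by
    linear_combination 8 * hbb
  obtain ⟨α, hα⟩ : ∃ α : ℤ, α = -(E ^ 2 * t) := ⟨_, rfl⟩
  obtain ⟨β', hβ'⟩ : ∃ β' : ℤ, β' = 2 * v * b + s * t := ⟨_, rfl⟩
  rw [← hα] at ha h8
  rw [← hβ'] at h8
  -- the relation
  have hkey : E ^ 4 * (s ^ 2 * (s * (4 * β') - 3 * α ^ 2 - 4 * A)) =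
      E ^ 4 * (E ^ 2 * (4 * α ^ 3 + 4 * A * α + 4 * B - 6 * s * α * β' - β' ^ 2 * E ^ 2)) := by
    have h3 : (8 * b) ^ 2 = 64 * (a ^ 3 + A * a * E ^ 4 + B * E ^ 6) := by rw [← hb]; ring
    rw [h8, ha] at h3
    have h4 : (16 : ℤ) * (E ^ 4 * (s ^ 2 * (s * (4 * β') - 3 * α ^ 2 - 4 * A))) =
      16 * (E ^ 4 * (E ^ 2 * (4 * α ^ 3 + 4 * A * α + 4 * B - 6 * s * α * β' - β' ^ 2 * E ^ 2))) := by
      linear_combination h3
    exact mul_left_cancel₀ (by norm_num) h4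
  have hkey2 := mul_left_cancel₀ (pow_ne_zero 4 hE0) hkey
  have hsE : IsCoprime (E ^ 2) (s ^ 2) := by
    obtain ⟨x, y, hxy⟩ := hco
    have h5 : IsCoprime (s ^ 2) E := ⟨x, x * α * E + y, by rw [← hxy, ha]; ring⟩
    exact (h5.symm.pow_left (m := 2))
  have h6 : E ^ 2 ∣ s ^ 2 * (s * (4 * β') - 3 * α ^ 2 - 4 * A) := ⟨_, hkey2⟩
  obtain ⟨γ, hγ⟩ := hsE.dvd_of_dvd_mul_left h6
  refine ⟨s, α, 4 * β', γ, ha, h8, hγ.symm, ?_⟩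
  rw [hγ] at hkey2
  have h7 : E ^ 2 * (s ^ 2 * γ) =
      E ^ 2 * (4 * α ^ 3 + 4 * A * α + 4 * B - 6 * s * α * β' - β' ^ 2 * E ^ 2) := by
    rw [← hkey2]; ring
  have h8' := mul_left_cancel₀ (pow_ne_zero 2 hE0) h7
  linear_combination 16 * h8'

end Pool.Agent.Work.MP_bd3ec3_nt.SG
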