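import Pool.Agent.Work.MP_bd3ec3_nt.SG.Stmts

/-!
# MP_bd3ec3_nt, block SG, item RB: the cubic factor
-/

set_option autoImplicit false

namespace Pool.Agent.Work.MP_bd3ec3_nt.SG

open Pool.Agent.Work.MP_bd3ec3_nt.SP

namespace IRB

theorem step {K r x z c c' : ℝ} (hz : |z| = r) (hx : |x| ≤ r) (h : |z * c' - x * c| ≤ K) :
    r * |c'| ≤ K + r * |c| := by
  have h1 : r * |c'| = |z * c'| := by rw [abs_mul, hz]
  have h2 : |z * c'| ≤ |z * c' - x * c| + |x * c| := by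
    have h3 := abs_add_le (z * c' - x * c) (x * c)
    rwa [sub_add_cancel] at h3
  have h4 : |x * c| ≤ r * |c| := by
    rw [abs_mul]
    exact mul_le_mul_of_nonneg_right hx (abs_nonneg c)
  linarith

theorem core {K r x z c₀ c₁ c₂ c₃ : ℝ} (hr : 0 < r) (hz : |z| = r) (hx : |x| ≤ r)
    (h0 : |z * c₀| ≤ K) (h1 : |z * c₁ - x * c₀| ≤ K) (h2 : |z * c₂ - x * c₁| ≤ K)
    (h3 : |z * c₃ - x * c₂| ≤ K) :
    |c₀| ≤ 4 * K / r ∧ |c₁| ≤ 4 * K / r ∧ |c₂| ≤ 4 * K / r ∧ |c₃| ≤ 4 * K / r := by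
  have hK : 0 ≤ K := le_trans (abs_nonneg _) h0
  have e0 : r * |c₀| ≤ K := by
    rw [abs_mul, hz] at h0
    exact h0
  have e1 := step hz hx h1
  have e2 := step hz hx h2
  have e3 := step hz hx h3
  refine ⟨?_, ?_, ?_, ?_⟩ <;> rw [le_div_iff₀ hr, mul_comm] <;> linarith

end IRB

theorem pg_RB : S_RB := by
  intro K r x z c₀ c₁ c₂ c₃ hr hm h0 h1 h2 h3 h4
  have hx : |x| ≤ r := by rw [← hm]; exact le_max_left _ _
  have hz : |z| ≤ r := by rw [← hm]; exact le_max_right _ _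
  rcases le_total |x| |z| with h | h
  · have hzr : |z| = r := by rw [← hm, max_eq_right h]
    exact IRB.core hr hzr hx h0 h1 h2 h3
  · have hxr : |x| = r := by rw [← hm, max_eq_left h]
    rw [abs_sub_comm] at h1 h2 h3
    obtain ⟨g3, g2, g1, g0⟩ := IRB.core hr hxr hz h4 h3 h2 h1
    exact ⟨g0, g1, g2, g3⟩

end Pool.Agent.Work.MP_bd3ec3_nt.SG
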