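import Pool.Agent.Work.MP_bd3ec3_nt.SG.Stmts

/-! Item RE of block SG (helper55). -/

set_option autoImplicit false

namespace Pool.Agent.Work.MP_bd3ec3_nt.SG

open Pool.Agent.Work.MP_bd3ec3_nt.SP

namespace IRE

theorem toR_I (f : BQ ℤ) : (toR f).I = ((f.I : ℤ) : ℝ) := by
  simp only [toR, BQ.I]
  push_cast
  ring

theorem toR_J (f : BQ ℤ) : (toR f).J = ((f.J : ℤ) : ℝ) := by
  simp only [toR, BQ.J]
  push_cast
  ring

theorem toR_act (f : BQ ℤ) (x y z w : ℤ) :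
    toR (f.act x y z w) = (toR f).act (x : ℝ) (y : ℝ) (z : ℝ) (w : ℝ) := by
  ext <;> simp only [toR, BQ.act] <;> push_cast <;> ring

end IRE

theorem pg_RE : S_RE := by
  intro h1 h2 X f hX ha hI hJ
  have hX0 : 0 < X := by linarith
  obtain ⟨p, q, r, s, hdet, hB⟩ := h1 X (toR f) hX0 (by
    change (0 : ℝ) < ((f.a : ℤ) : ℝ)
    exact_mod_cast ha) (by rw [IRE.toR_I]; exact hI) (by rw [IRE.toR_J]; exact hJ)
  obtain ⟨x, y, z, w, hd, ω, hω, hω2, hBw⟩ := h2 (64 * X) (toR f) p q r s (by linarith) hdet hB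
  refine ⟨x, y, z, w, hd, ω, hω, hω2, ?_⟩
  rw [IRE.toR_act]
  have e : 1000 * (64 * X) = 64000 * X := by ring
  rwa [e] at hBw

end Pool.Agent.Work.MP_bd3ec3_nt.SG
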