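import Pool.Agent.Work.MP_bd3ec3_nt.SG.Stmts

/-!
# MP_bd3ec3_nt, block SG, item RR: real reduction of a binary quartic form
-/

set_option autoImplicit false

namespace Pool.Agent.Work.MP_bd3ec3_nt.SG

open Pool.Agent.Work.MP_bd3ec3_nt.SP

namespace IRR

/-- the form is equivalent to a form with small coefficients -/
def Red (X : ℝ) (f : BQ ℝ) : Prop :=
  ∃ p q r s : ℝ, p * s - q * r = 1 ∧ Bd (64 * X) (f.act p q r s)

theorem red_of (X : ℝ) (f : BQ ℝ) (p q r s : ℝ) (h : p * s - q * r = 1)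
    (hR : Red X (f.act p q r s)) : Red X f := by
  obtain ⟨p', q', r', s', h', hB⟩ := hR
  rw [BQ.act_act] at hB
  refine ⟨_, _, _, _, ?_, hB⟩
  have e : (p * p' + q * r') * (r * q' + s * s') - (p * q' + q * s') * (r * p' + s * r') =
      (p * s - q * r) * (p' * s' - q' * r') := by ring
  rw [e, h, h', one_mul]

theorem I_eq (f : BQ ℝ) (p q r s : ℝ) (h : p * s - q * r = 1) : (f.act p q r s).I = f.I := by
  rw [BQ.I_act, h]
  ring

theorem J_eq (f : BQ ℝ) (p q r s : ℝ) (h : p * s - q * r = 1) : (f.act p q r s).J = f.J := by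
  rw [BQ.J_act, h]
  ring

theorem red_diag (X : ℝ) (f : BQ ℝ) (L : ℝ) (hL : 0 < L)
    (h : Bd (64 * X) ⟨f.a * L ^ 2, f.b * L, f.c, f.d / L, f.e / L ^ 2⟩) : Red X f := by
  have hs : 0 < √L := Real.sqrt_pos.2 hL
  have hsq : √L ^ 2 = L := Real.sq_sqrt hL.le
  refine ⟨√L, 0, 0, (√L)⁻¹, ?_, ?_⟩
  · rw [mul_inv_cancel₀ hs.ne']
    ring
  · have e : f.act (√L) 0 0 (√L)⁻¹ = ⟨f.a * L ^ 2, f.b * L, f.c, f.d / L, f.e / L ^ 2⟩ := by
      generalize √L = l at hs hsq
      subst hsq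
      ext <;> simp only [BQ.act] <;> field_simp <;> ring
    rw [e]
    exact h

/-- a form with `a = c = 0`, `b` not zero -/
theorem caseB (X : ℝ) (hX : 0 < X) (f : BQ ℝ) (ha : f.a = 0) (hc : f.c = 0) (hb : f.b ≠ 0)
    (hI : |f.I| ≤ 48 * X ^ 2) (hJ : |f.J| ≤ 1728 * X ^ 3) : Red X f := by
  have hb' : 0 < |f.b| := abs_pos.2 hb
  have h1 : |f.b| * |f.d| ≤ 16 * X ^ 2 := by
    have e : f.I = -3 * (f.b * f.d) := by
      simp only [BQ.I]
      rw [ha, hc]
      ring
    rw [e, abs_mul, abs_mul] at hI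
    have e3 : |(-3 : ℝ)| = 3 := by norm_num
    rw [e3] at hI
    linarith
  have h2 : |f.b| ^ 2 * |f.e| ≤ 64 * X ^ 3 := by
    have e : f.J = -27 * (f.b ^ 2 * f.e) := by
      simp only [BQ.J]
      rw [ha, hc]
      ring
    rw [e, abs_mul, abs_mul, abs_pow] at hJ
    have e3 : |(-27 : ℝ)| = 27 := by norm_num
    rw [e3] at hJ
    linarith
  refine red_diag X f (X / |f.b|) (by positivity) ⟨?_, ?_, ?_, ?_, ?_⟩
  · show |f.a * (X / |f.b|) ^ 2| ≤ 64 * X
    rw [ha, zero_mul, abs_zero]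
    positivity
  · show |f.b * (X / |f.b|)| ≤ 64 * X
    rw [abs_mul, abs_div, abs_abs, abs_of_pos hX]
    have e : |f.b| * (X / |f.b|) = X := by
      field_simp
    rw [e]
    linarith
  · show |f.c| ≤ 64 * X
    rw [hc, abs_zero]
    positivity
  · show |f.d / (X / |f.b|)| ≤ 64 * X
    rw [abs_div, abs_div, abs_abs, abs_of_pos hX]
    have e : |f.d| / (X / |f.b|) = |f.b| * |f.d| / X := by
      field_simp
    rw [e, div_le_iff₀ hX]
    nlinarith
  · show |f.e / (X / |f.b|) ^ 2| ≤ 64 * X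
    rw [abs_div, abs_pow, abs_div, abs_abs, abs_of_pos hX]
    have e : |f.e| / (X / |f.b|) ^ 2 = |f.b| ^ 2 * |f.e| / X ^ 2 := by
      field_simp
    rw [e, div_le_iff₀ (by positivity)]
    nlinarith

/-- a form with `a = b = 0` -/
theorem caseC (X : ℝ) (hX : 0 < X) (f : BQ ℝ) (ha : f.a = 0) (hb : f.b = 0)
    (hI : |f.I| ≤ 48 * X ^ 2) : Red X f := by
  have hc : |f.c| ≤ 7 * X := by
    have e : f.I = f.c ^ 2 := by
      simp only [BQ.I]
      rw [ha, hb]
      ring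
    rw [e, abs_pow] at hI
    refine abs_le_of_sq_le_sq ?_ (by positivity) |>.trans_eq rfl
    have := sq_abs f.c
    nlinarith [sq_nonneg X]
  have hd0 := abs_nonneg f.d
  have he0 := abs_nonneg f.e
  have hS : 0 < X + |f.d| + |f.e| := by linarith
  have hL1 : 1 ≤ (X + |f.d| + |f.e|) / X := by
    rw [le_div_iff₀ hX]
    linarith
  have hL0 : 0 < (X + |f.d| + |f.e|) / X := by positivity
  have hkey : ∀ t : ℝ, 0 ≤ t → t ≤ X + |f.d| + |f.e| → t / ((X + |f.d| + |f.e|) / X) ≤ X := by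
    intro t ht ht2
    rw [div_div_eq_mul_div, div_le_iff₀ hS]
    nlinarith
  refine red_diag X f ((X + |f.d| + |f.e|) / X) hL0 ⟨?_, ?_, ?_, ?_, ?_⟩
  · show |f.a * _| ≤ 64 * X
    rw [ha, zero_mul, abs_zero]
    positivity
  · show |f.b * _| ≤ 64 * X
    rw [hb, zero_mul, abs_zero]
    positivity
  · show |f.c| ≤ 64 * X
    linarith
  · show |f.d / ((X + |f.d| + |f.e|) / X)| ≤ 64 * X
    rw [abs_div, abs_of_pos hL0]
    have := hkey |f.d| hd0 (by linarith)
    linarith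
  · show |f.e / ((X + |f.d| + |f.e|) / X) ^ 2| ≤ 64 * X
    rw [abs_div, abs_of_pos (by positivity : 0 < ((X + |f.d| + |f.e|) / X) ^ 2)]
    have h1 := hkey |f.e| he0 (by linarith)
    have h2 : |f.e| / ((X + |f.d| + |f.e|) / X) ^ 2 ≤ |f.e| / ((X + |f.d| + |f.e|) / X) := by
      refine div_le_div_of_nonneg_left he0 hL0 ?_
      nlinarith
    linarith

/-- a form with a zero -/
theorem caseA (X : ℝ) (hX : 0 < X) (f : BQ ℝ) (hI : |f.I| ≤ 48 * X ^ 2) (hJ : |f.J| ≤ 1728 * X ^ 3)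
    (x z : ℝ) (h0 : ¬ (x = 0 ∧ z = 0)) (hz : f.ev x z = 0) : Red X f := by
  have hn : 0 < x ^ 2 + z ^ 2 := by
    by_contra hcon
    push Not at hcon
    have h1 := sq_nonneg x
    have h2 := sq_nonneg z
    exact h0 ⟨by nlinarith [sq_nonneg x, sq_nonneg z, pow_eq_zero_iff (two_ne_zero) (M₀ := ℝ) (a := x)],
      by nlinarith [sq_nonneg x, sq_nonneg z]⟩
  have hdet : x * (x / (x ^ 2 + z ^ 2)) - (-z / (x ^ 2 + z ^ 2)) * z = 1 := by
    field_simp
    ring
  refine red_of X f x (-z / (x ^ 2 + z ^ 2)) z (x / (x ^ 2 + z ^ 2)) hdet ?_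
  have hI' := I_eq f x (-z / (x ^ 2 + z ^ 2)) z (x / (x ^ 2 + z ^ 2)) hdet
  have hJ' := J_eq f x (-z / (x ^ 2 + z ^ 2)) z (x / (x ^ 2 + z ^ 2)) hdet
  have ha : (f.act x (-z / (x ^ 2 + z ^ 2)) z (x / (x ^ 2 + z ^ 2))).a = 0 := hz
  generalize f.act x (-z / (x ^ 2 + z ^ 2)) z (x / (x ^ 2 + z ^ 2)) = g at hI' hJ' ha
  rw [← hI'] at hI
  rw [← hJ'] at hJ
  by_cases hb : g.b = 0
  · exact caseC X hX g ha hb hI
  · have hdet2 : (1 : ℝ) * 1 - (-g.c / (3 * g.b)) * 0 = 1 := by ring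
    refine red_of X g 1 (-g.c / (3 * g.b)) 0 1 hdet2 ?_
    have hI2 := I_eq g 1 (-g.c / (3 * g.b)) 0 1 hdet2
    have hJ2 := J_eq g 1 (-g.c / (3 * g.b)) 0 1 hdet2
    refine caseB X hX _ ?_ ?_ ?_ (by rw [hI2]; exact hI) (by rw [hJ2]; exact hJ)
    · simp only [BQ.act]
      rw [ha]
      ring
    · simp only [BQ.act]
      rw [ha]
      field_simp
      ring
    · have e : (g.act 1 (-g.c / (3 * g.b)) 0 1).b = g.b := by
        simp only [BQ.act]
        rw [ha]
        ring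
      rw [e]
      exact hb

end IRR

/-- item RR -/
theorem pg_RR : S_RR := by
  intro hFC hSD X f hX hfa hI hJ
  by_cases hzero : ∀ x z : ℝ, ¬ (x = 0 ∧ z = 0) → f.ev x z ≠ 0
  · obtain ⟨k, l, m, k', l', m', hk, hk', hl, hl', hf⟩ := hFC f hfa hzero
    obtain ⟨p, q, r, s, μ, u, v, hdet, hμ, hu, hv, h1, h2⟩ := hSD k l m k' l' m' hk hk' hl hl'
    have a1 := h1 1 0
    have a2 := h1 0 1
    have a3 := h1 1 1
    have b1 := h2 1 0
    have b2 := h2 0 1
    have b3 := h2 1 1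
    have A1 : k * p ^ 2 + l * p * r + m * r ^ 2 = μ := by linear_combination a1
    have A2 : k * q ^ 2 + l * q * s + m * s ^ 2 = μ := by linear_combination a2
    have A3 : 2 * k * p * q + l * (p * s + q * r) + 2 * m * r * s = 0 := by
      linear_combination a3 - a1 - a2
    have B1 : k' * p ^ 2 + l' * p * r + m' * r ^ 2 = u := by linear_combination b1
    have B2 : k' * q ^ 2 + l' * q * s + m' * s ^ 2 = v := by linear_combination b2
    have B3 : 2 * k' * p * q + l' * (p * s + q * r) + 2 * m' * r * s = 0 := by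
      linear_combination b3 - b1 - b2
    have hact : f.act p q r s = ⟨μ * u, 0, μ * (u + v), 0, μ * v⟩ := by
      rw [hf]
      ext
      · simp only [BQ.act]
        rw [← A1, ← B1]
        ring
      · simp only [BQ.act]
        have e : (k * k' * (4 * (p ^ 3 * q)) + 0 : ℝ) = k * k' * (4 * (p ^ 3 * q)) := by ring
        linear_combination (k * p ^ 2 + l * p * r + m * r ^ 2) * B3 + (k' * p ^ 2 + l' * p * r + m' * r ^ 2) * A3
      · simp only [BQ.act]
        linear_combination (k' * q ^ 2 + l' * q * s + m' * s ^ 2) * A1 + μ * B2 +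
          (k' * p ^ 2 + l' * p * r + m' * r ^ 2) * A2 + μ * B1 +
          (2 * k * p * q + l * (p * s + q * r) + 2 * m * r * s) * B3
      · simp only [BQ.act]
        linear_combination (k' * q ^ 2 + l' * q * s + m' * s ^ 2) * A3 +
          (k * q ^ 2 + l * q * s + m * s ^ 2) * B3
      · simp only [BQ.act]
        rw [← A2, ← B2]
        ring
    have hI' := IRR.I_eq f p q r s hdet
    rw [hact] at hI'
    have hIe : (BQ.mk (μ * u) 0 (μ * (u + v)) 0 (μ * v)).I =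
        12 * (μ * u) * (μ * v) + (μ * (u + v)) ^ 2 := by
      simp only [BQ.I]
      ring
    rw [hIe] at hI'
    have hI1 := (le_abs_self _).trans hI
    rw [← hI'] at hI1
    have hmu : 0 < μ * u := mul_pos hμ hu
    have hmv : 0 < μ * v := mul_pos hμ hv
    have hs : μ * (u + v) = μ * u + μ * v := by ring
    have h7 : μ * (u + v) ≤ 7 * X := by
      refine abs_le_of_sq_le_sq' ?_ (by positivity) |>.2
      nlinarith [mul_pos hmu hmv, sq_nonneg X]
    refine ⟨p, q, r, s, hdet, ?_⟩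
    rw [hact]
    refine ⟨?_, ?_, ?_, ?_, ?_⟩
    · show |μ * u| ≤ 64 * X
      rw [abs_of_pos hmu]
      linarith
    · show |(0 : ℝ)| ≤ 64 * X
      rw [abs_zero]
      positivity
    · show |μ * (u + v)| ≤ 64 * X
      rw [abs_of_pos (by linarith)]
      linarith
    · show |(0 : ℝ)| ≤ 64 * X
      rw [abs_zero]
      positivity
    · show |μ * v| ≤ 64 * X
      rw [abs_of_pos hmv]
      linarith
  · push Not at hzero
    obtain ⟨x, z, h0, hz⟩ := hzero
    exact IRR.caseA X hX f hI hJ x z (fun h => h0 h.1 h.2) hz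

end Pool.Agent.Work.MP_bd3ec3_nt.SG
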