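import Pool.Agent.Work.MP_bd3ec3_nt.SG.Stmts

set_option autoImplicit false

namespace Pool.Agent.Work.MP_bd3ec3_nt.SG

open Pool.Agent.Work.MP_bd3ec3_nt.SP

namespace IS2

theorem sum_inv_sqrt (N : ℕ) : ∑ n ∈ Finset.Icc 1 N, 1 / √(n : ℝ) ≤ 2 * √(N : ℝ) := by
  induction N with
  | zero => simp
  | succ N ih =>
    rw [Finset.sum_Icc_succ_top (by omega)]
    have hs : 0 < √((N + 1 : ℕ) : ℝ) := Real.sqrt_pos.2 (by positivity)
    have ht : 0 ≤ √(N : ℝ) := Real.sqrt_nonneg _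
    have hs2 : √((N + 1 : ℕ) : ℝ) ^ 2 = N + 1 := by
      rw [Real.sq_sqrt (by positivity)]
      push_cast
      ring
    have ht2 : √(N : ℝ) ^ 2 = N := Real.sq_sqrt (by positivity)
    have h1 : 1 / √((N + 1 : ℕ) : ℝ) ≤ 2 * √((N + 1 : ℕ) : ℝ) - 2 * √(N : ℝ) := by
      rw [div_le_iff₀ hs]
      nlinarith [sq_nonneg (√((N + 1 : ℕ) : ℝ) - √(N : ℝ))]
    linarith

theorem sum_inv (N : ℕ) : ∑ n ∈ Finset.Icc 1 N, 1 / (n : ℝ) ≤ 1 + Real.log N := by
  have h := harmonic_le_one_add_log N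
  rw [harmonic_eq_sum_Icc] at h
  push_cast at h
  refine le_trans (le_of_eq ?_) h
  exact Finset.sum_congr rfl fun n _ => one_div _

theorem filter_sum (N : ℕ) (g : ℤ → ℝ) :
    ∑ a ∈ (Finset.Icc (-(N : ℤ)) N).filter (fun a => 0 < a), g a
      = ∑ n ∈ Finset.Icc 1 N, g (n : ℤ) := by
  symm
  refine Finset.sum_nbij (fun n : ℕ => (n : ℤ)) ?_ ?_ ?_ (fun _ _ => rfl)
  · intro n hn
    rw [Finset.mem_Icc] at hn
    rw [Finset.mem_filter, Finset.mem_Icc]
    omega
  · intro a _ b _ h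
    exact Int.ofNat.inj h
  · intro a ha
    rw [Finset.mem_coe, Finset.mem_filter, Finset.mem_Icc] at ha
    refine ⟨a.toNat, ?_, ?_⟩
    · rw [Finset.mem_coe, Finset.mem_Icc]
      omega
    · show ((a.toNat : ℕ) : ℤ) = a
      omega

theorem card_small (N : ℕ) (K : ℝ) (hK : 0 ≤ K) :
    (((Finset.Icc (-(N : ℤ)) N).filter (fun a : ℤ => |(a : ℝ)| ≤ K)).card : ℝ) ≤ 2 * K + 1 := by
  have hsub : (Finset.Icc (-(N : ℤ)) N).filter (fun a : ℤ => |(a : ℝ)| ≤ K)
      ⊆ Finset.Icc (-((⌊K⌋₊ : ℕ) : ℤ)) (⌊K⌋₊ : ℕ) := by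
    intro a ha
    rw [Finset.mem_filter] at ha
    have h := ha.2
    rw [abs_le] at h
    rw [Finset.mem_Icc]
    constructor
    · have h1 : ((-a : ℤ) : ℝ) ≤ K := by push_cast; linarith
      have h2 : (-a).toNat ≤ ⌊K⌋₊ := by
        rw [Nat.le_floor_iff hK]
        rcases le_or_gt 0 (-a) with h3 | h3
        · have h4 : (((-a).toNat : ℕ) : ℤ) = -a := Int.toNat_of_nonneg h3
          have h5 : (((-a).toNat : ℕ) : ℝ) = ((-a : ℤ) : ℝ) := by exact_mod_cast h4
          rw [h5]; exact h1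
        · have h4 : (-a).toNat = 0 := Int.toNat_of_nonpos h3.le
          rw [h4]; simpa using hK
      omega
    · have h1 : ((a : ℤ) : ℝ) ≤ K := h.2
      have h2 : a.toNat ≤ ⌊K⌋₊ := by
        rw [Nat.le_floor_iff hK]
        rcases le_or_gt 0 a with h3 | h3
        · have h4 : ((a.toNat : ℕ) : ℤ) = a := Int.toNat_of_nonneg h3
          have h5 : ((a.toNat : ℕ) : ℝ) = (a : ℝ) := by exact_mod_cast h4
          rw [h5]; exact h1
        · have h4 : a.toNat = 0 := Int.toNat_of_nonpos h3.le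
          rw [h4]; simpa using hK
      omega
  have hc := Finset.card_le_card hsub
  rw [Int.card_Icc] at hc
  have h3 : ((((⌊K⌋₊ : ℕ) : ℤ) + 1 - -((⌊K⌋₊ : ℕ) : ℤ)).toNat) = 2 * ⌊K⌋₊ + 1 := by omega
  rw [h3] at hc
  have h4 : (⌊K⌋₊ : ℝ) ≤ K := Nat.floor_le hK
  have h5 : (((Finset.Icc (-(N : ℤ)) N).filter (fun a : ℤ => |(a : ℝ)| ≤ K)).card : ℝ)
      ≤ ((2 * ⌊K⌋₊ + 1 : ℕ) : ℝ) := by exact_mod_cast hc
  push_cast at h5
  linarith

theorem sqle (a b : ℝ) (h : a ^ 2 ≤ b ^ 2) (hb : 0 ≤ b) : a ≤ b := by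
  by_contra hc
  push Not at hc
  nlinarith

end IS2

open IS2 in
theorem pg_S2 : S_S2 := by
  intro h1 h2 X M e hX he heX3 heM hMX
  classical
  have hX0 : 0 < X := by linarith
  have heR : (1 : ℝ) ≤ e := by exact_mod_cast he
  have he0 : (0 : ℝ) < e := by linarith
  obtain ⟨r, hr⟩ : ∃ r : ℝ, r = √X := ⟨_, rfl⟩
  have hr1 : 1 ≤ r := by rw [hr]; exact Real.one_le_sqrt.2 hX
  have hr0 : 0 < r := by linarith
  have hXr : X = r ^ 2 := by rw [hr, Real.sq_sqrt hX0.le]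
  have hpow : ∀ k : ℕ, X ^ ((k : ℝ) / 2) = r ^ k := by
    intro k
    rw [hXr, ← Real.rpow_natCast r 2, ← Real.rpow_mul hr0.le, ← Real.rpow_natCast r k]
    congr 1
    push_cast
    ring
  have h32 : X ^ ((3 : ℝ) / 2) = r ^ 3 := by simpa using hpow 3
  have h92 : X ^ ((9 : ℝ) / 2) = r ^ 9 := by simpa using hpow 9
  have h52 : X ^ ((5 : ℝ) / 2) = r ^ 5 := by simpa using hpow 5
  have hM8 : M ≤ r ^ 8 := by
    refine hMX.trans (le_of_eq ?_)
    rw [hXr]
    ring
  have hM1 : 1 ≤ M := by nlinarith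
  have hM0 : 0 < M := by linarith
  have her : (e : ℝ) ≤ r ^ 3 := by
    rw [← h32]
    exact heX3
  rw [h92, h52]
  obtain ⟨D, hD⟩ : ∃ D : ℝ, D = ((e ^ 4).divisors.card : ℝ) := ⟨_, rfl⟩
  rw [← hD]
  have hD0 : 0 ≤ D := by rw [hD]; exact Nat.cast_nonneg _
  obtain ⟨N, hN⟩ : ∃ N : ℕ, N = ⌊M⌋₊ := ⟨_, rfl⟩
  have hNM : (N : ℝ) ≤ M := by rw [hN]; exact Nat.floor_le hM0.le
  have hN1 : 1 ≤ N := by
    rw [hN]
    exact (Nat.one_le_floor_iff M).2 hM1
  obtain ⟨t, ht⟩ : ∃ t : ℤ → Set (ℤ × ℤ), t = fun a => if IsCoprime a (e : ℤ) then E X e a else ∅ :=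
    ⟨_, rfl⟩
  have hFe : Fe X M e = ⋃ a ∈ Finset.Icc (-(N : ℤ)) N, t a := by
    ext p
    simp only [Set.mem_iUnion, exists_prop, Finset.mem_Icc]
    constructor
    · rintro ⟨a, ha1, ha2, ha3⟩
      refine ⟨a, ?_, ?_⟩
      · have h3 : a.natAbs ≤ N := by
          rw [hN, Nat.le_floor_iff hM0.le, Nat.cast_natAbs, Int.cast_abs]
          exact ha2
        omega
      · rw [ht]
        show p ∈ (if IsCoprime a (e : ℤ) then E X e a else ∅)
        rw [if_pos ha1]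
        exact ha3
    · rintro ⟨a, ha, hp⟩
      rw [ht] at hp
      change p ∈ (if IsCoprime a (e : ℤ) then E X e a else ∅) at hp
      by_cases hc : IsCoprime a (e : ℤ)
      · rw [if_pos hc] at hp
        refine ⟨a, hc, ?_, hp⟩
        have h3 : a.natAbs ≤ N := by omega
        have h4 : ((a.natAbs : ℕ) : ℝ) ≤ N := by exact_mod_cast h3
        rw [Nat.cast_natAbs, Int.cast_abs] at h4
        linarith
      · rw [if_neg hc] at hp
        exact absurd hp (Set.notMem_empty p)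
  obtain ⟨c1, hc1⟩ : ∃ c1 : ℝ, c1 = 37 * r ^ 3 / e * (2 * X ^ 2 / (e : ℝ) ^ 2 + 1) := ⟨_, rfl⟩
  have hc10 : 0 ≤ c1 := by rw [hc1]; positivity
  obtain ⟨g, hg⟩ : ∃ g : ℤ → ℝ, ∀ a : ℤ, g a = 18 * r ^ 9 / e * (1 / (a : ℝ)) +
    18 * X ^ 2 * (1 / √(a : ℝ)) :=
    ⟨fun a => 18 * r ^ 9 / e * (1 / (a : ℝ)) + 18 * X ^ 2 * (1 / √(a : ℝ)), fun _ => rfl⟩
  have hterm : ∀ a ∈ Finset.Icc (-(N : ℤ)) N, ((t a).ncard : ℝ) ≤
      D * (if |(a : ℝ)| ≤ 4 * (e : ℝ) ^ 2 * X then c1 else 0) +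
      D * (if 0 < a then g a else 0) := by
    intro a ha
    rw [Finset.mem_Icc] at ha
    have hg0 : 0 ≤ (if 0 < a then g a else 0 : ℝ) := by
      by_cases h3 : 0 < a
      · rw [if_pos h3, hg]
        have h4 : (0 : ℝ) < a := by exact_mod_cast h3
        positivity
      · rw [if_neg h3]
    have hc0 : 0 ≤ (if |(a : ℝ)| ≤ 4 * (e : ℝ) ^ 2 * X then c1 else 0 : ℝ) := by
      by_cases h3 : |(a : ℝ)| ≤ 4 * (e : ℝ) ^ 2 * X
      · rw [if_pos h3]; exact hc10
      · rw [if_neg h3]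
    have hrhs : 0 ≤ D * (if |(a : ℝ)| ≤ 4 * (e : ℝ) ^ 2 * X then c1 else 0) +
      D * (if 0 < a then g a else 0) := add_nonneg (mul_nonneg hD0 hc0) (mul_nonneg hD0 hg0)
    by_cases hc : IsCoprime a (e : ℤ)
    · have hta : t a = E X e a := by rw [ht]; exact if_pos hc
      rw [hta]
      by_cases hs : |(a : ℝ)| ≤ 4 * (e : ℝ) ^ 2 * X
      · rw [if_pos hs]
        have h3 := h1 X e a hX he hc hs
        rw [h32, ← hD] at h3
        have h4 : 36 * r ^ 3 / e + 1 ≤ 37 * r ^ 3 / e := by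
          have h5 : 1 ≤ r ^ 3 / e := (one_le_div he0).2 her
          have h6 : 37 * r ^ 3 / e = 36 * r ^ 3 / e + r ^ 3 / e := by ring
          linarith
        have h5 : D * (36 * r ^ 3 / e + 1) * (2 * X ^ 2 / (e : ℝ) ^ 2 + 1) ≤ D * c1 := by
          rw [hc1, mul_assoc]
          refine mul_le_mul_of_nonneg_left ?_ hD0
          exact mul_le_mul_of_nonneg_right h4 (by positivity)
        have h6 := mul_nonneg hD0 hg0
        linarith
      · rw [if_neg hs, mul_zero, zero_add]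
        push Not at hs
        obtain ⟨h3, h4⟩ := h2 X e a hX he hc hs
        rcases lt_or_ge a 0 with hneg | hpos
        · rw [h3 hneg, Set.ncard_empty]
          push_cast
          exact mul_nonneg hD0 hg0
        · have ha0 : 0 < a := by
            rcases lt_or_eq_of_le hpos with h5 | h5
            · exact h5
            · exfalso
              rw [← h5] at hs
              simp only [Int.cast_zero, abs_zero] at hs
              have : 0 < 4 * (e : ℝ) ^ 2 * X := by positivity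
              linarith
          rw [if_pos ha0]
          have haR : (0 : ℝ) < a := by exact_mod_cast ha0
          rw [abs_of_pos haR] at h4 hs
          rw [← hD] at h4
          refine h4.trans ?_
          have haM : (a : ℝ) ≤ r ^ 8 := by
            have h5 : (a : ℝ) ≤ N := by exact_mod_cast ha.2
            linarith
          obtain ⟨q, hq⟩ : ∃ q : ℝ, q = √(a : ℝ) := ⟨_, rfl⟩
          have hq0 : 0 < q := by rw [hq]; exact Real.sqrt_pos.2 haR
          have hq2 : q ^ 2 = a := by rw [hq, Real.sq_sqrt haR.le]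
          have hqr : q ≤ r ^ 4 := by
            refine sqle _ _ ?_ (by positivity)
            rw [hq2]
            refine haM.trans (le_of_eq (by ring))
          have hqe : 2 * e * r ≤ q := by
            refine sqle _ _ ?_ hq0.le
            rw [hq2]
            refine le_trans (le_of_eq ?_) hs.le
            rw [hXr]
            ring
          rw [← hq, hg]
          show 2 * D * (8 * X ^ 2 / q + 1) * (2 * X ^ 3 / a + 1) ≤
            D * (18 * r ^ 9 / e * (1 / (a : ℝ)) + 18 * X ^ 2 * (1 / √(a : ℝ)))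
          rw [← hq, ← hq2, hXr]
          have h5 : 8 * (r ^ 2) ^ 2 / q + 1 ≤ 9 * r ^ 4 / q := by
            have h6 : 1 ≤ r ^ 4 / q := (one_le_div hq0).2 hqr
            have h7 : 9 * r ^ 4 / q = 8 * (r ^ 2) ^ 2 / q + r ^ 4 / q := by ring
            linarith
          have h6 : 2 * D * (8 * (r ^ 2) ^ 2 / q + 1) * (2 * (r ^ 2) ^ 3 / q ^ 2 + 1)
              ≤ 2 * D * (9 * r ^ 4 / q) * (2 * (r ^ 2) ^ 3 / q ^ 2 + 1) := by
            refine mul_le_mul_of_nonneg_right ?_ (by positivity)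
            exact mul_le_mul_of_nonneg_left h5 (by positivity)
          refine h6.trans ?_
          have h7 : 2 * D * (9 * r ^ 4 / q) * (2 * (r ^ 2) ^ 3 / q ^ 2 + 1) =
            D * (36 * r ^ 10 / (q ^ 2 * q) + 18 * r ^ 4 / q) := by
            field_simp
            ring
          rw [h7]
          refine mul_le_mul_of_nonneg_left ?_ hD0
          have h8 : 36 * r ^ 10 / (q ^ 2 * q) ≤ 18 * r ^ 9 / e * (1 / q ^ 2) := by
            rw [div_le_iff₀ (by positivity)]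
            have h9 : 18 * r ^ 9 / e * (1 / q ^ 2) * (q ^ 2 * q) = 18 * r ^ 9 * q / e := by
              field_simp
            rw [h9, le_div_iff₀ he0]
            have h10 : 18 * r ^ 9 * (2 * e * r) ≤ 18 * r ^ 9 * q :=
              mul_le_mul_of_nonneg_left hqe (by positivity)
            refine le_trans (le_of_eq (by ring)) h10
          have h9 : 18 * r ^ 4 / q = 18 * (r ^ 2) ^ 2 * (1 / q) := by ring
          rw [← h9]
          exact add_le_add h8 le_rfl
    · have hta : t a = ∅ := by rw [ht]; exact if_neg hc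
      rw [hta, Set.ncard_empty]
      push_cast
      exact hrhs
  have hsum : ((Fe X M e).ncard : ℝ) ≤ ∑ a ∈ Finset.Icc (-(N : ℤ)) N,
      (D * (if |(a : ℝ)| ≤ 4 * (e : ℝ) ^ 2 * X then c1 else 0) +
      D * (if 0 < a then g a else 0)) := by
    rw [hFe]
    have h3 := Finset.set_ncard_biUnion_le (Finset.Icc (-(N : ℤ)) N) t
    have h4 : ((⋃ a ∈ Finset.Icc (-(N : ℤ)) N, t a).ncard : ℝ) ≤
        ((∑ a ∈ Finset.Icc (-(N : ℤ)) N, (t a).ncard : ℕ) : ℝ) := by exact_mod_cast h3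
    refine h4.trans ?_
    push_cast
    exact Finset.sum_le_sum hterm
  refine hsum.trans ?_
  rw [Finset.sum_add_distrib, ← Finset.mul_sum, ← Finset.mul_sum, ← Finset.sum_filter,
    ← Finset.sum_filter, filter_sum, Finset.sum_const, nsmul_eq_mul, ← mul_add]
  refine mul_le_mul_of_nonneg_left ?_ hD0
  have hK : 0 ≤ 4 * (e : ℝ) ^ 2 * X := by positivity
  have hcard := card_small N (4 * (e : ℝ) ^ 2 * X) hK
  have heX : 1 ≤ (e : ℝ) ^ 2 * X := by nlinarith
  have hA : (((Finset.Icc (-(N : ℤ)) N).filter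
      (fun a : ℤ => |(a : ℝ)| ≤ 4 * (e : ℝ) ^ 2 * X)).card : ℝ) * c1 ≤
      333 * (2 * r ^ 9 / e + e * r ^ 5) := by
    have h3 : (((Finset.Icc (-(N : ℤ)) N).filter
      (fun a : ℤ => |(a : ℝ)| ≤ 4 * (e : ℝ) ^ 2 * X)).card : ℝ) ≤ 9 * ((e : ℝ) ^ 2 * X) := by
      linarith
    refine (mul_le_mul_of_nonneg_right h3 hc10).trans (le_of_eq ?_)
    rw [hc1, hXr]
    field_simp
    ring
  have hB : ∑ n ∈ Finset.Icc 1 N, g (n : ℤ) ≤
      18 * r ^ 9 / e * (1 + Real.log M) + 18 * X ^ 2 * (2 * √M) := by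
    have h3 : ∑ n ∈ Finset.Icc 1 N, g (n : ℤ) =
        18 * r ^ 9 / e * (∑ n ∈ Finset.Icc 1 N, 1 / (n : ℝ)) +
        18 * X ^ 2 * (∑ n ∈ Finset.Icc 1 N, 1 / √(n : ℝ)) := by
      rw [Finset.mul_sum, Finset.mul_sum, ← Finset.sum_add_distrib]
      refine Finset.sum_congr rfl fun n _ => ?_
      rw [hg]
      simp only [Int.cast_natCast]
    rw [h3]
    refine add_le_add ?_ ?_
    · refine mul_le_mul_of_nonneg_left ((sum_inv N).trans ?_) (by positivity)
      have h4 : Real.log N ≤ Real.log M := Real.log_le_log (by exact_mod_cast hN1) hNM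
      linarith
    · refine mul_le_mul_of_nonneg_left ((sum_inv_sqrt N).trans ?_) (by positivity)
      exact mul_le_mul_of_nonneg_left (Real.sqrt_le_sqrt hNM) (by norm_num)
  have hlog : 0 ≤ Real.log M := Real.log_nonneg hM1
  have hfin : 333 * (2 * r ^ 9 / e + e * r ^ 5) +
      (18 * r ^ 9 / e * (1 + Real.log M) + 18 * X ^ 2 * (2 * √M)) ≤
      700 * r ^ 9 * (1 + Real.log M) / e + 333 * e * r ^ 5 + 36 * X ^ 2 * √M := by
    have h3 : 0 ≤ r ^ 9 / e := by positivity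
    have h4 : 333 * (2 * r ^ 9 / e + e * r ^ 5) +
      (18 * r ^ 9 / e * (1 + Real.log M) + 18 * X ^ 2 * (2 * √M)) =
      r ^ 9 / e * (666 + 18 * (1 + Real.log M)) + 333 * e * r ^ 5 + 36 * X ^ 2 * √M := by ring
    have h5 : 700 * r ^ 9 * (1 + Real.log M) / e + 333 * e * r ^ 5 + 36 * X ^ 2 * √M =
      r ^ 9 / e * (700 * (1 + Real.log M)) + 333 * e * r ^ 5 + 36 * X ^ 2 * √M := by ring
    rw [h4, h5]
    have h6 : 666 + 18 * (1 + Real.log M) ≤ 700 * (1 + Real.log M) := by linarith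
    have h7 := mul_le_mul_of_nonneg_left h6 h3
    linarith
  linarith

end Pool.Agent.Work.MP_bd3ec3_nt.SG
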