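import Pool.Agent.Work.MP_bd3ec3_nt.SG.Stmts

/-!
# SD: simultaneous diagonalisation of two positive definite binary forms
-/

set_option autoImplicit false

namespace Pool.Agent.Work.MP_bd3ec3_nt.SG

open Pool.Agent.Work.MP_bd3ec3_nt.SP

namespace ISD

/-- a positive definite form is positive off zero -/
theorem pos (k l m x z : ℝ) (hk : 0 < k) (h : l ^ 2 < 4 * k * m) (hx : ¬ (x = 0 ∧ z = 0)) :
    0 < k * x ^ 2 + l * x * z + m * z ^ 2 := by
  have key : 4 * k * (k * x ^ 2 + l * x * z + m * z ^ 2) =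
      (2 * k * x + l * z) ^ 2 + (4 * k * m - l ^ 2) * z ^ 2 := by ring
  have hp : 0 < 4 * k * (k * x ^ 2 + l * x * z + m * z ^ 2) := by
    rw [key]
    by_cases hz : z = 0
    · have hx0 : x ≠ 0 := fun e => hx ⟨e, hz⟩
      have h1 : 0 < (2 * k * x + l * z) ^ 2 := by
        rw [hz]
        have : 2 * k * x + l * 0 ≠ 0 := by
          rw [mul_zero, add_zero]
          exact mul_ne_zero (by positivity) hx0
        positivity
      have h2 : (4 * k * m - l ^ 2) * z ^ 2 = 0 := by rw [hz]; ring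
      rw [h2, add_zero]
      exact h1
    · have h1 : 0 < (4 * k * m - l ^ 2) * z ^ 2 := mul_pos (by linarith) (by positivity)
      have h2 : 0 ≤ (2 * k * x + l * z) ^ 2 := sq_nonneg _
      linarith
  by_contra hn
  push Not at hn
  have : 4 * k * (k * x ^ 2 + l * x * z + m * z ^ 2) ≤ 0 :=
    mul_nonpos_of_nonneg_of_nonpos (by positivity) hn
  linarith

/-- the triangular matrix -/
theorem tri (k l m : ℝ) (hk : 0 < k) (h : l ^ 2 < 4 * k * m) :
    ∃ p q s μ : ℝ, 0 < μ ∧ p * s = 1 ∧ k * p ^ 2 = μ ∧ 2 * k * p * q + l * p * s = 0 ∧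
      k * q ^ 2 + l * q * s + m * s ^ 2 = μ := by
  have hD : 0 < k * m - l ^ 2 / 4 := by linarith
  obtain ⟨μ, hμ, hμ2⟩ : ∃ μ : ℝ, 0 < μ ∧ μ ^ 2 = k * m - l ^ 2 / 4 :=
    ⟨√(k * m - l ^ 2 / 4), Real.sqrt_pos.2 hD, Real.sq_sqrt hD.le⟩
  have hq : 0 < μ / k := div_pos hμ hk
  obtain ⟨p, hp, hp2⟩ : ∃ p : ℝ, 0 < p ∧ p ^ 2 = μ / k :=
    ⟨√(μ / k), Real.sqrt_pos.2 hq, Real.sq_sqrt hq.le⟩
  have h1 : k * p ^ 2 = μ := by
    rw [hp2]
    field_simp
  have hps : p * p⁻¹ = 1 := mul_inv_cancel₀ hp.ne'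
  have hk2 : 2 * k * (-(l * p⁻¹) / (2 * k)) = -(l * p⁻¹) := by
    field_simp
  refine ⟨p, -(l * p⁻¹) / (2 * k), p⁻¹, μ, hμ, hps, h1, ?_, ?_⟩
  · linear_combination p * hk2
  · generalize -(l * p⁻¹) / (2 * k) = q at hk2
    generalize p⁻¹ = s at hps hk2
    have h4 : (4 * k) * (k * q ^ 2 + l * q * s + m * s ^ 2) = (4 * k) * μ := by
      have e1 : (4 * k) * (k * q ^ 2 + l * q * s + m * s ^ 2) =
          (2 * k * q) ^ 2 + 2 * l * (2 * k * q) * s + 4 * k * m * s ^ 2 := by ring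
      have e2 : μ * s ^ 2 = k := by
        have : p ^ 2 * s ^ 2 = 1 := by rw [← mul_pow, hps, one_pow]
        rw [← h1]
        linear_combination k * this
      rw [e1, hk2]
      have e3 : 4 * k * m = 4 * μ ^ 2 + l ^ 2 := by rw [hμ2]; ring
      linear_combination s ^ 2 * e3 + 4 * μ * e2
    exact mul_left_cancel₀ (by positivity) h4

/-- the rotation -/
theorem rot (K L N : ℝ) : ∃ c s : ℝ, c ^ 2 + s ^ 2 = 1 ∧
    L * (c ^ 2 - s ^ 2) + 2 * (N - K) * (c * s) = 0 := by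
  set w : ℂ := ⟨K - N, L⟩ with hw
  have h1 : ‖w‖ * Real.cos (Complex.arg w) = K - N := by
    rw [Complex.norm_mul_cos_arg]
  have h2 : ‖w‖ * Real.sin (Complex.arg w) = L := by
    rw [Complex.norm_mul_sin_arg]
  set φ : ℝ := Complex.arg w / 2 with hφ
  have hd : Complex.arg w = 2 * φ := by rw [hφ]; ring
  rw [hd] at h1 h2
  rw [Real.cos_two_mul'] at h1
  rw [Real.sin_two_mul] at h2
  refine ⟨Real.cos φ, Real.sin φ, Real.cos_sq_add_sin_sq φ, ?_⟩
  rw [← h2]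
  linear_combination (2 * (Real.cos φ * Real.sin φ)) * h1

end ISD

/-- [SD] -/
theorem pg_SD : S_SD := by
  intro k l m k' l' m' hk hk' h h'
  obtain ⟨p, q, s, μ, hμ, hps, h1, h2, h3⟩ := ISD.tri k l m hk h
  obtain ⟨c, d, hcd, hrot⟩ := ISD.rot (k' * p ^ 2) (2 * k' * p * q + l' * p * s)
    (k' * q ^ 2 + l' * q * s + m' * s ^ 2)
  have hdet : (p * c + q * d) * (s * c) - (-(p * d) + q * c) * (s * d) = 1 := by
    linear_combination (c ^ 2 + d ^ 2) * hps + hcd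
  refine ⟨p * c + q * d, -(p * d) + q * c, s * d, s * c, μ,
    k' * (p * c + q * d) ^ 2 + l' * (p * c + q * d) * (s * d) + m' * (s * d) ^ 2,
    k' * (-(p * d) + q * c) ^ 2 + l' * (-(p * d) + q * c) * (s * c) + m' * (s * c) ^ 2,
    hdet, hμ, ?_, ?_, ?_, ?_⟩
  · refine ISD.pos k' l' m' _ _ hk' h' ?_
    rintro ⟨e1, e2⟩
    rw [e1, e2] at hdet
    norm_num at hdet
  · refine ISD.pos k' l' m' _ _ hk' h' ?_
    rintro ⟨e1, e2⟩
    rw [e1, e2] at hdet
    norm_num at hdet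
  · intro x z
    linear_combination (c * x - d * z) ^ 2 * h1 + (c * x - d * z) * (d * x + c * z) * h2 +
      (d * x + c * z) ^ 2 * h3 + μ * (x ^ 2 + z ^ 2) * hcd
  · intro x z
    linear_combination x * z * hrot

end Pool.Agent.Work.MP_bd3ec3_nt.SG
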