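import Pool.Agent.Work.MP_bd3ec3_nt.SG.Stmts

/-!
Block SG of MP_bd3ec3_nt, item Z0: small denominators.
-/

set_option autoImplicit false

namespace Pool.Agent.Work.MP_bd3ec3_nt.SG

open Pool.Agent.Work.MP_bd3ec3_nt.SP Filter Topology

namespace IZ0

theorem ncard_biUnion_le {α : Type*} (t : Finset ℕ) (f : ℕ → Set α) :
    (⋃ i ∈ t, f i).ncard ≤ ∑ i ∈ t, (f i).ncard := by
  classical
  induction t using Finset.induction_on with
  | empty => simp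
  | insert a s ha ih =>
    rw [Finset.set_biUnion_insert, Finset.sum_insert ha]
    exact (Set.ncard_union_le _ _).trans (Nat.add_le_add_left ih _)

theorem box (X : ℝ) (hX : 1 ≤ X) (S : Set (ℤ × ℤ))
    (hS : ∀ p ∈ S, |(p.1 : ℝ)| ≤ X ^ 2 ∧ |(p.2 : ℝ)| ≤ X ^ 3) : (S.ncard : ℝ) ≤ 9 * X ^ 5 := by
  have hint : ∀ (n : ℤ) (r : ℝ), |(n : ℝ)| ≤ r → n ∈ Finset.Icc (-⌊r⌋) ⌊r⌋ := by
    intro n r hr
    rw [abs_le] at hr
    rw [Finset.mem_Icc]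
    refine ⟨?_, Int.le_floor.2 hr.2⟩
    have h1 : -n ≤ ⌊r⌋ := Int.le_floor.2 (by push_cast; linarith [hr.1])
    omega
  have hcard : ∀ r : ℝ, 1 ≤ r → ((Finset.Icc (-⌊r⌋) ⌊r⌋).card : ℝ) ≤ 3 * r := by
    intro r hr
    have h0 : 0 ≤ ⌊r⌋ := Int.floor_nonneg.2 (by linarith)
    have h1 : ((Finset.Icc (-⌊r⌋) ⌊r⌋).card : ℤ) = 2 * ⌊r⌋ + 1 := by
      rw [Int.card_Icc, Int.toNat_of_nonneg (by omega)]
      ring
    have h2 : ((Finset.Icc (-⌊r⌋) ⌊r⌋).card : ℝ) = 2 * (⌊r⌋ : ℝ) + 1 := by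
      exact_mod_cast h1
    rw [h2]
    have h3 : (⌊r⌋ : ℝ) ≤ r := Int.floor_le r
    linarith
  have hsub : S ⊆ ((Finset.Icc (-⌊X ^ 2⌋) ⌊X ^ 2⌋ ×ˢ Finset.Icc (-⌊X ^ 3⌋) ⌊X ^ 3⌋ : Finset (ℤ × ℤ)) :
      Set (ℤ × ℤ)) := by
    intro p hp
    obtain ⟨h1, h2⟩ := hS p hp
    rw [Finset.mem_coe, Finset.mem_product]
    exact ⟨hint _ _ h1, hint _ _ h2⟩
  have h1 := Set.ncard_le_ncard hsub (Finset.finite_toSet _)
  rw [Set.ncard_coe_finset, Finset.card_product] at h1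
  have h2 : (S.ncard : ℝ) ≤ ((Finset.Icc (-⌊X ^ 2⌋) ⌊X ^ 2⌋).card : ℝ) *
      ((Finset.Icc (-⌊X ^ 3⌋) ⌊X ^ 3⌋).card : ℝ) := by exact_mod_cast h1
  have h3 := hcard (X ^ 2) (one_le_pow₀ hX)
  have h4 := hcard (X ^ 3) (one_le_pow₀ hX)
  have hX0 : 0 ≤ X := by linarith
  calc (S.ncard : ℝ) ≤ _ := h2
    _ ≤ (3 * X ^ 2) * (3 * X ^ 3) := mul_le_mul h3 h4 (Nat.cast_nonneg _) (by positivity)
    _ = 9 * X ^ 5 := by ring

end IZ0

theorem pg_Z0 : S_Z0 := by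
  intro h1 hDB C hC
  obtain ⟨C1, hC1, hD⟩ := hDB (1 / 64) (by norm_num)
  have hC0 : 0 < C := by linarith
  refine ⟨C1 * (2795100 + 333 * C ^ 2 + 36 * C) + 9 * C ^ 10, by positivity, ?_⟩
  intro X hX
  have hX0 : 0 < X := by linarith
  have hP1 : 1 ≤ X ^ ((37 : ℝ) / 8) := Real.one_le_rpow hX (by norm_num)
  by_cases hXC : X < C ^ 2
  · have h2 : (({p : ℤ × ℤ | ∃ e : ℕ, 0 < e ∧ (e : ℝ) ≤ C * √X ∧
        p ∈ Fe X (X ^ ((15 : ℝ) / 4)) e}.ncard : ℕ) : ℝ) ≤ 9 * X ^ 5 := by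
      apply IZ0.box X hX
      rintro p ⟨e, _, _, a, _, _, hp⟩
      exact ⟨hp.1, hp.2.1⟩
    have h3 : X ^ 5 ≤ C ^ 10 := by
      have : C ^ 10 = (C ^ 2) ^ 5 := by ring
      rw [this]
      exact pow_le_pow_left₀ hX0.le hXC.le 5
    have h4 : 0 ≤ C1 * (2795100 + 333 * C ^ 2 + 36 * C) := by positivity
    have h5 : 9 * C ^ 10 ≤ (C1 * (2795100 + 333 * C ^ 2 + 36 * C) + 9 * C ^ 10) := by linarith
    have h6 : (C1 * (2795100 + 333 * C ^ 2 + 36 * C) + 9 * C ^ 10) ≤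
        (C1 * (2795100 + 333 * C ^ 2 + 36 * C) + 9 * C ^ 10) * X ^ ((37 : ℝ) / 8) :=
      le_mul_of_one_le_right (by positivity) hP1
    linarith
  · push Not at hXC
    obtain ⟨M, hMdef⟩ : ∃ M : ℝ, M = X ^ ((15 : ℝ) / 4) := ⟨_, rfl⟩
    rw [← hMdef]
    have hMpos : 0 < M := by rw [hMdef]; positivity
    have hM1 : 1 ≤ M := by rw [hMdef]; exact Real.one_le_rpow hX (by norm_num)
    have hM4 : M ≤ X ^ 4 := by
      rw [hMdef, ← Real.rpow_natCast]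
      exact Real.rpow_le_rpow_of_exponent_le hX (by norm_num)
    have hM3 : X ^ 3 ≤ M := by
      rw [hMdef, ← Real.rpow_natCast]
      exact Real.rpow_le_rpow_of_exponent_le hX (by norm_num)
    obtain ⟨Y, hY⟩ : ∃ Y : ℝ, Y = C * √X := ⟨_, rfl⟩
    have hsX : 1 ≤ √X := by rw [Real.one_le_sqrt]; exact hX
    have hY0 : 0 ≤ Y := by rw [hY]; positivity
    have hY1 : 1 ≤ Y := by rw [hY]; nlinarith
    have hCs : C ≤ √X := by
      rw [Real.le_sqrt hC0.le hX0.le]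
      exact hXC
    have hYX : Y ≤ X := by
      rw [hY]
      calc C * √X ≤ √X * √X := mul_le_mul_of_nonneg_right hCs (Real.sqrt_nonneg _)
        _ = X := Real.mul_self_sqrt hX0.le
    have hX32 : X ≤ X ^ ((3 : ℝ) / 2) := by
      conv_lhs => rw [← Real.rpow_one X]
      exact Real.rpow_le_rpow_of_exponent_le hX (by norm_num)
    have hmem : ∀ e : ℕ, e ∈ Finset.Icc 1 ⌊Y⌋₊ ↔ (0 < e ∧ (e : ℝ) ≤ Y) := by
      intro e
      rw [Finset.mem_Icc, Nat.le_floor_iff hY0]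
      exact Iff.rfl
    have hTT : {p : ℤ × ℤ | ∃ e : ℕ, 0 < e ∧ (e : ℝ) ≤ C * √X ∧ p ∈ Fe X M e} =
        ⋃ e ∈ Finset.Icc 1 ⌊Y⌋₊, Fe X M e := by
      ext p
      constructor
      · rintro ⟨e, he, he2, hp⟩
        exact Set.mem_iUnion₂.2 ⟨e, (hmem e).2 ⟨he, by rw [hY]; exact he2⟩, hp⟩
      · intro hp
        obtain ⟨e, he, hp⟩ := Set.mem_iUnion₂.1 hp
        exact ⟨e, ((hmem e).1 he).1, by rw [← hY]; exact ((hmem e).1 he).2, hp⟩
    have hlog0 : 0 ≤ Real.log M := Real.log_nonneg hM1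
    have hterm : ∀ e ∈ Finset.Icc 1 ⌊Y⌋₊, ((Fe X M e).ncard : ℝ) ≤
        C1 * X ^ ((1 : ℝ) / 16) * (700 * X ^ ((9 : ℝ) / 2) * (1 + Real.log M) * ((e : ℝ))⁻¹ +
          (333 * X ^ ((5 : ℝ) / 2) * Y + 36 * X ^ 2 * √M)) := by
      intro e he
      obtain ⟨he0, he1⟩ := (hmem e).1 he
      have heX : (e : ℝ) ≤ X := he1.trans hYX
      have he0' : (0 : ℝ) ≤ (e : ℝ) := Nat.cast_nonneg e
      have he2 : (e : ℝ) ^ 2 * X ≤ M := by
        have e1 : (e : ℝ) ^ 2 ≤ X ^ 2 := pow_le_pow_left₀ he0' heX 2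
        have e2 : (e : ℝ) ^ 2 * X ≤ X ^ 2 * X := mul_le_mul_of_nonneg_right e1 hX0.le
        have e3 : X ^ 2 * X = X ^ 3 := by ring
        linarith
      have h2 := h1 X M e hX he0 (heX.trans hX32) he2 hM4
      have h3 := hD (e ^ 4) (by positivity)
      have h5 : (((e ^ 4 : ℕ)) : ℝ) ^ ((1 : ℝ) / 64) ≤ X ^ ((1 : ℝ) / 16) := by
        have e1 : (((e ^ 4 : ℕ)) : ℝ) ≤ X ^ (4 : ℝ) := by
          push_cast
          have e2 : X ^ (4 : ℝ) = X ^ 4 := by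
            rw [← Real.rpow_natCast]
            norm_num
          rw [e2]
          exact pow_le_pow_left₀ he0' heX 4
        refine (Real.rpow_le_rpow (Nat.cast_nonneg _) e1 (by norm_num)).trans (le_of_eq ?_)
        rw [← Real.rpow_mul hX0.le]
        norm_num
      have h6 : (((e ^ 4).divisors.card : ℕ) : ℝ) ≤ C1 * X ^ ((1 : ℝ) / 16) :=
        h3.trans (mul_le_mul_of_nonneg_left h5 hC1.le)
      have h7 : 700 * X ^ ((9 : ℝ) / 2) * (1 + Real.log M) / e + 333 * e * X ^ ((5 : ℝ) / 2) +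
          36 * X ^ 2 * √M ≤ 700 * X ^ ((9 : ℝ) / 2) * (1 + Real.log M) * ((e : ℝ))⁻¹ +
          (333 * X ^ ((5 : ℝ) / 2) * Y + 36 * X ^ 2 * √M) := by
        have e1 : 333 * (e : ℝ) * X ^ ((5 : ℝ) / 2) ≤ 333 * X ^ ((5 : ℝ) / 2) * Y := by
          have : 333 * (e : ℝ) * X ^ ((5 : ℝ) / 2) = 333 * X ^ ((5 : ℝ) / 2) * e := by ring
          rw [this]
          exact mul_le_mul_of_nonneg_left he1 (by positivity)
        rw [div_eq_mul_inv]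
        linarith
      have h8 : 0 ≤ 700 * X ^ ((9 : ℝ) / 2) * (1 + Real.log M) / e + 333 * e * X ^ ((5 : ℝ) / 2) +
          36 * X ^ 2 * √M := by positivity
      calc ((Fe X M e).ncard : ℝ) ≤ _ := h2
        _ ≤ (C1 * X ^ ((1 : ℝ) / 16)) * (700 * X ^ ((9 : ℝ) / 2) * (1 + Real.log M) / e +
            333 * e * X ^ ((5 : ℝ) / 2) + 36 * X ^ 2 * √M) := mul_le_mul_of_nonneg_right h6 h8
        _ ≤ _ := mul_le_mul_of_nonneg_left h7 (by positivity)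
    have hcard : ((Finset.Icc 1 ⌊Y⌋₊).card : ℝ) ≤ Y := by
      rw [Nat.card_Icc, Nat.add_sub_cancel]
      exact Nat.floor_le hY0
    have hharm : ∑ e ∈ Finset.Icc 1 ⌊Y⌋₊, ((e : ℝ))⁻¹ ≤ 1 + Real.log X := by
      have e1 := harmonic_floor_le_one_add_log Y hY1
      rw [harmonic_eq_sum_Icc] at e1
      push_cast at e1
      have e2 : Real.log Y ≤ Real.log X := Real.log_le_log (by linarith) hYX
      linarith
    have hsum : (({p : ℤ × ℤ | ∃ e : ℕ, 0 < e ∧ (e : ℝ) ≤ C * √X ∧ p ∈ Fe X M e}.ncard : ℕ) : ℝ) ≤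
        C1 * X ^ ((1 : ℝ) / 16) * (700 * X ^ ((9 : ℝ) / 2) *
        (1 + Real.log M) * (1 + Real.log X) + Y * (333 * X ^ ((5 : ℝ) / 2) * Y + 36 * X ^ 2 * √M)) := by
      have e1 : (({p : ℤ × ℤ | ∃ e : ℕ, 0 < e ∧ (e : ℝ) ≤ C * √X ∧ p ∈ Fe X M e}.ncard : ℕ) : ℝ) ≤
          ∑ e ∈ Finset.Icc 1 ⌊Y⌋₊, ((Fe X M e).ncard : ℝ) := by
        rw [hTT]
        exact_mod_cast IZ0.ncard_biUnion_le (Finset.Icc 1 ⌊Y⌋₊) (fun e => Fe X M e)
      refine e1.trans ((Finset.sum_le_sum hterm).trans ?_)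
      rw [← Finset.mul_sum, Finset.sum_add_distrib, ← Finset.mul_sum, Finset.sum_const, nsmul_eq_mul]
      apply mul_le_mul_of_nonneg_left _ (by positivity)
      apply add_le_add
      · exact mul_le_mul_of_nonneg_left hharm (by positivity)
      · exact mul_le_mul_of_nonneg_right hcard (by positivity)
    have hlogX : Real.log X ≤ 32 * X ^ ((1 : ℝ) / 32) := by
      have e1 : Real.log X ≤ X ^ ((1 : ℝ) / 32) / (1 / 32) := Real.log_le_rpow_div hX0.le (by norm_num)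
      have e2 : X ^ ((1 : ℝ) / 32) / (1 / 32) = 32 * X ^ ((1 : ℝ) / 32) := by ring
      linarith
    have hone : 1 ≤ X ^ ((1 : ℝ) / 32) := Real.one_le_rpow hX (by norm_num)
    have hlogX0 : 0 ≤ Real.log X := Real.log_nonneg hX
    have hB1 : 1 + Real.log M ≤ 121 * X ^ ((1 : ℝ) / 32) := by
      have e1 : Real.log M = 15 / 4 * Real.log X := by
        rw [hMdef, Real.log_rpow hX0]
      rw [e1]
      linarith
    have hB2 : 1 + Real.log X ≤ 33 * X ^ ((1 : ℝ) / 32) := by linarith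
    have hB : (1 + Real.log M) * (1 + Real.log X) ≤ 3993 * X ^ ((1 : ℝ) / 16) := by
      have e1 : (1 + Real.log M) * (1 + Real.log X) ≤
          (121 * X ^ ((1 : ℝ) / 32)) * (33 * X ^ ((1 : ℝ) / 32)) :=
        mul_le_mul hB1 hB2 (by linarith) (by positivity)
      have e2 : X ^ ((1 : ℝ) / 16) = X ^ ((1 : ℝ) / 32) * X ^ ((1 : ℝ) / 32) := by
        rw [← Real.rpow_add hX0]
        norm_num
      rw [e2]
      refine e1.trans (le_of_eq ?_)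
      ring
    have hsq : √X = X ^ ((1 : ℝ) / 2) := Real.sqrt_eq_rpow X
    have hsM : √M = X ^ ((15 : ℝ) / 8) := by
      rw [Real.sqrt_eq_rpow, hMdef, ← Real.rpow_mul hX0.le]
      norm_num
    -- the three parts
    have p1 : X ^ ((1 : ℝ) / 16) * (700 * X ^ ((9 : ℝ) / 2) * (1 + Real.log M) * (1 + Real.log X)) ≤
        2795100 * X ^ ((37 : ℝ) / 8) := by
      have e1 : 700 * X ^ ((9 : ℝ) / 2) * (1 + Real.log M) * (1 + Real.log X) ≤
          700 * X ^ ((9 : ℝ) / 2) * (3993 * X ^ ((1 : ℝ) / 16)) := by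
        rw [mul_assoc (700 * X ^ ((9 : ℝ) / 2))]
        exact mul_le_mul_of_nonneg_left hB (by positivity)
      have e2 : X ^ ((37 : ℝ) / 8) = X ^ ((1 : ℝ) / 16) * (X ^ ((9 : ℝ) / 2) * X ^ ((1 : ℝ) / 16)) := by
        rw [← Real.rpow_add hX0, ← Real.rpow_add hX0]
        norm_num
      calc X ^ ((1 : ℝ) / 16) * (700 * X ^ ((9 : ℝ) / 2) * (1 + Real.log M) * (1 + Real.log X))
          ≤ X ^ ((1 : ℝ) / 16) * (700 * X ^ ((9 : ℝ) / 2) * (3993 * X ^ ((1 : ℝ) / 16))) :=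
            mul_le_mul_of_nonneg_left e1 (by positivity)
        _ = 2795100 * X ^ ((37 : ℝ) / 8) := by rw [e2]; ring
    have p2 : X ^ ((1 : ℝ) / 16) * (Y * (333 * X ^ ((5 : ℝ) / 2) * Y)) ≤
        333 * C ^ 2 * X ^ ((37 : ℝ) / 8) := by
      have e1 : X ^ ((1 : ℝ) / 16) * (Y * (333 * X ^ ((5 : ℝ) / 2) * Y)) =
          333 * C ^ 2 * (X ^ ((1 : ℝ) / 16) * (X ^ ((5 : ℝ) / 2) * (X ^ ((1 : ℝ) / 2) * X ^ ((1 : ℝ) / 2)))) := by
        rw [hY, hsq]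
        ring
      have e2 : X ^ ((1 : ℝ) / 16) * (X ^ ((5 : ℝ) / 2) * (X ^ ((1 : ℝ) / 2) * X ^ ((1 : ℝ) / 2))) ≤
          X ^ ((37 : ℝ) / 8) := by
        rw [← Real.rpow_add hX0, ← Real.rpow_add hX0, ← Real.rpow_add hX0]
        exact Real.rpow_le_rpow_of_exponent_le hX (by norm_num)
      rw [e1]
      exact mul_le_mul_of_nonneg_left e2 (by positivity)
    have p3 : X ^ ((1 : ℝ) / 16) * (Y * (36 * X ^ 2 * √M)) ≤ 36 * C * X ^ ((37 : ℝ) / 8) := by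
      have e0 : X ^ 2 = X ^ (2 : ℝ) := by
        rw [← Real.rpow_natCast]
        norm_num
      have e1 : X ^ ((1 : ℝ) / 16) * (Y * (36 * X ^ 2 * √M)) =
          36 * C * (X ^ ((1 : ℝ) / 16) * (X ^ ((1 : ℝ) / 2) * (X ^ (2 : ℝ) * X ^ ((15 : ℝ) / 8)))) := by
        rw [hY, hsq, hsM, e0]
        ring
      have e2 : X ^ ((1 : ℝ) / 16) * (X ^ ((1 : ℝ) / 2) * (X ^ (2 : ℝ) * X ^ ((15 : ℝ) / 8))) ≤
          X ^ ((37 : ℝ) / 8) := by
        rw [← Real.rpow_add hX0, ← Real.rpow_add hX0, ← Real.rpow_add hX0]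
        exact Real.rpow_le_rpow_of_exponent_le hX (by norm_num)
      rw [e1]
      exact mul_le_mul_of_nonneg_left e2 (by positivity)
    have hfin : C1 * X ^ ((1 : ℝ) / 16) * (700 * X ^ ((9 : ℝ) / 2) *
        (1 + Real.log M) * (1 + Real.log X) + Y * (333 * X ^ ((5 : ℝ) / 2) * Y + 36 * X ^ 2 * √M)) ≤
        C1 * (2795100 + 333 * C ^ 2 + 36 * C) * X ^ ((37 : ℝ) / 8) := by
      have e1 : C1 * X ^ ((1 : ℝ) / 16) * (700 * X ^ ((9 : ℝ) / 2) *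
          (1 + Real.log M) * (1 + Real.log X) + Y * (333 * X ^ ((5 : ℝ) / 2) * Y + 36 * X ^ 2 * √M)) =
          C1 * (X ^ ((1 : ℝ) / 16) * (700 * X ^ ((9 : ℝ) / 2) * (1 + Real.log M) * (1 + Real.log X)) +
            X ^ ((1 : ℝ) / 16) * (Y * (333 * X ^ ((5 : ℝ) / 2) * Y)) +
            X ^ ((1 : ℝ) / 16) * (Y * (36 * X ^ 2 * √M))) := by ring
      rw [e1, mul_assoc C1]
      apply mul_le_mul_of_nonneg_left _ hC1.le
      have e2 : (2795100 + 333 * C ^ 2 + 36 * C) * X ^ ((37 : ℝ) / 8) =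
          2795100 * X ^ ((37 : ℝ) / 8) + 333 * C ^ 2 * X ^ ((37 : ℝ) / 8) +
            36 * C * X ^ ((37 : ℝ) / 8) := by ring
      rw [e2]
      linarith
    refine hsum.trans (hfin.trans ?_)
    apply mul_le_mul_of_nonneg_right _ (by positivity)
    have : 0 ≤ 9 * C ^ 10 := by positivity
    linarith

end Pool.Agent.Work.MP_bd3ec3_nt.SG
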