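import Pool.Agent.Work.MP_bd3ec3_nt.SP.Stmts

/-!
# MP_bd3ec3_nt, block SG (captain helper7): small points outside `2 E(ℚ)`, by the binary quartic of the 2-descent
-/

set_option autoImplicit false

namespace Pool.Agent.Work.MP_bd3ec3_nt.SG

open Pool.Agent.Work.MP_bd3ec3_nt.SP

/-- Binary quartic forms `a x⁴ + b x³ z + c x² z² + d x z³ + e z⁴`. -/
@[ext] structure BQ (R : Type) where
  (a b c d e : R)

namespace BQ

variable {R : Type} [CommRing R]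

/-- The value. -/
def ev (f : BQ R) (x z : R) : R :=
  f.a * x ^ 4 + f.b * x ^ 3 * z + f.c * x ^ 2 * z ^ 2 + f.d * x * z ^ 3 + f.e * z ^ 4

/-- The invariant of degree 2. -/
def I (f : BQ R) : R := 12 * f.a * f.e - 3 * f.b * f.d + f.c ^ 2

/-- The invariant of degree 3. -/
def J (f : BQ R) : R :=
  72 * f.a * f.c * f.e + 9 * f.b * f.c * f.d - 27 * f.a * f.d ^ 2 - 27 * f.e * f.b ^ 2 - 2 * f.c ^ 3

/-- The Hessian covariant. -/
def Hs (f : BQ R) (x z : R) : R :=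
  (8 * f.a * f.c - 3 * f.b ^ 2) * x ^ 4 + 4 * (6 * f.a * f.d - f.b * f.c) * x ^ 3 * z +
    2 * (24 * f.a * f.e + 3 * f.b * f.d - 2 * f.c ^ 2) * x ^ 2 * z ^ 2 +
    4 * (6 * f.b * f.e - f.c * f.d) * x * z ^ 3 + (8 * f.c * f.e - 3 * f.d ^ 2) * z ^ 4

/-- The form `f (p x + q z, r x + s z)`. -/
def act (f : BQ R) (p q r s : R) : BQ R where
  a := f.a * p ^ 4 + f.b * p ^ 3 * r + f.c * p ^ 2 * r ^ 2 + f.d * p * r ^ 3 + f.e * r ^ 4
  b := 4 * f.a * p ^ 3 * q + f.b * (3 * p ^ 2 * q * r + p ^ 3 * s) +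
    f.c * (2 * p * q * r ^ 2 + 2 * p ^ 2 * r * s) + f.d * (q * r ^ 3 + 3 * p * r ^ 2 * s) +
    4 * f.e * r ^ 3 * s
  c := 6 * f.a * p ^ 2 * q ^ 2 + f.b * (3 * p * q ^ 2 * r + 3 * p ^ 2 * q * s) +
    f.c * (q ^ 2 * r ^ 2 + 4 * p * q * r * s + p ^ 2 * s ^ 2) +
    f.d * (3 * q * r ^ 2 * s + 3 * p * r * s ^ 2) + 6 * f.e * r ^ 2 * s ^ 2
  d := 4 * f.a * p * q ^ 3 + f.b * (q ^ 3 * r + 3 * p * q ^ 2 * s) +
    f.c * (2 * q ^ 2 * r * s + 2 * p * q * s ^ 2) + f.d * (3 * q * r * s ^ 2 + p * s ^ 3) +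
    4 * f.e * r * s ^ 3
  e := f.a * q ^ 4 + f.b * q ^ 3 * s + f.c * q ^ 2 * s ^ 2 + f.d * q * s ^ 3 + f.e * s ^ 4

theorem ev_act (f : BQ R) (p q r s x z : R) :
    (f.act p q r s).ev x z = f.ev (p * x + q * z) (r * x + s * z) := by
  simp only [ev, act]
  ring

theorem I_act (f : BQ R) (p q r s : R) : (f.act p q r s).I = (p * s - q * r) ^ 4 * f.I := by
  simp only [I, act]
  ring

theorem J_act (f : BQ R) (p q r s : R) : (f.act p q r s).J = (p * s - q * r) ^ 6 * f.J := by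
  simp only [J, act]
  ring

theorem Hs_act (f : BQ R) (p q r s x z : R) : (f.act p q r s).Hs x z =
    (p * s - q * r) ^ 2 * f.Hs (p * x + q * z) (r * x + s * z) := by
  simp only [Hs, act]
  ring

theorem act_act (f : BQ R) (p q r s p' q' r' s' : R) : (f.act p q r s).act p' q' r' s' =
    f.act (p * p' + q * r') (p * q' + q * s') (r * p' + s * r') (r * q' + s * s') := by
  ext <;> simp only [act] <;> ring

end BQ

/-- The real form with the same coefficients. -/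
def toR (f : BQ ℤ) : BQ ℝ := ⟨f.a, f.b, f.c, f.d, f.e⟩

/-- All coefficients are at most `K`. -/
def Bd (K : ℝ) (f : BQ ℝ) : Prop := |f.a| ≤ K ∧ |f.b| ≤ K ∧ |f.c| ≤ K ∧ |f.d| ≤ K ∧ |f.e| ≤ K

/-- The coefficients are at most `K ω⁴`, `K ω²`, `K`, `K / ω²`, `K / ω⁴`. -/
def Bw (K ω : ℝ) (f : BQ ℝ) : Prop :=
  |f.a| ≤ K * ω ^ 4 ∧ |f.b| ≤ K * ω ^ 2 ∧ |f.c| ≤ K ∧ |f.d| ≤ K / ω ^ 2 ∧ |f.e| ≤ K / ω ^ 4

/-- The point `P` is `(x, y)`. -/
def IsXY (A B : ℤ) (P : (W A B).toAffine.Point) (x y : ℚ) : Prop :=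
  match P with
  | .zero => False
  | @WeierstrassCurve.Affine.Point.some _ _ _ x' y' _ => x' = x ∧ y' = y

/-- There is a rational point `(x, y)` outside `2 E(ℚ)` with `max(|num x|, H^(1/6) den x) ≤ H^κ`. -/
def Sg (κ H : ℝ) (A B : ℤ) : Prop :=
  ∃ (P : (W A B).toAffine.Point) (x y : ℚ), IsXY A B P x y ∧ (∀ R : (W A B).toAffine.Point, P ≠ R + R) ∧
    |(x.num : ℝ)| ≤ H ^ κ ∧ (x.den : ℝ) * H ^ ((1 : ℝ) / 6) ≤ H ^ κ

/-- The curves counted by `N(H)` without such points. -/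
def SSg (w : ℤ → ℤ → ℤ) (κ H : ℝ) : Set (ℤ × ℤ) := {p | p ∈ SN w H ∧ ¬ Sg κ H p.1 p.2}

end Pool.Agent.Work.MP_bd3ec3_nt.SG
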