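import Pool.Agent.Work.MP_bd3ec3_nt.SG.Stmts

/-!
# MP_bd3ec3_nt, block SG, item CU: the union over `ω`
-/

set_option autoImplicit false

namespace Pool.Agent.Work.MP_bd3ec3_nt.SG

open Pool.Agent.Work.MP_bd3ec3_nt.SP

namespace ICU

theorem ncard_biUnion {α ι : Type} (K : Finset ι) (S : ι → Set α) (B : ℝ)
    (h : ∀ k ∈ K, (S k).Finite ∧ ((S k).ncard : ℝ) ≤ B) :
    (⋃ k ∈ K, S k).Finite ∧ ((⋃ k ∈ K, S k).ncard : ℝ) ≤ K.card * B := by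
  classical
  induction K using Finset.induction_on with
  | empty => simp
  | insert a K ha ih =>
    obtain ⟨h1, h2⟩ := ih fun k hk => h k (Finset.mem_insert_of_mem hk)
    obtain ⟨h3, h4⟩ := h a (Finset.mem_insert_self a K)
    rw [Finset.set_biUnion_insert]
    refine ⟨h3.union h1, ?_⟩
    have h5 := Set.ncard_union_le (S a) (⋃ k ∈ K, S k)
    have h6 : ((S a ∪ ⋃ k ∈ K, S k).ncard : ℝ) ≤ (S a).ncard + (⋃ k ∈ K, S k).ncard := by
      exact_mod_cast h5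
    rw [Finset.card_insert_of_notMem ha]
    push_cast
    linarith

theorem near (ω : ℝ) (h0 : 0 < ω) (h2 : ω ≤ 2) : ∃ k : ℕ, 2 / 2 ^ k ≤ ω ∧ ω ≤ 2 * (2 / 2 ^ k) := by
  have h1 : 1 ≤ 2 / ω := by
    rw [le_div_iff₀ h0]
    linarith
  obtain ⟨n, hn1, hn2⟩ := exists_nat_pow_near h1 one_lt_two
  refine ⟨n + 1, ?_, ?_⟩
  · rw [div_le_iff₀ (by positivity)]
    rw [div_lt_iff₀ h0] at hn2
    linarith
  · rw [le_div_iff₀ h0] at hn1
    have hp : (0 : ℝ) < 2 ^ n := by positivity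
    have e : 2 * (2 / 2 ^ (n + 1)) = 2 / (2 : ℝ) ^ n := by
      rw [pow_succ]
      field_simp
    rw [e, le_div_iff₀ hp]
    linarith

theorem step (C X ω w R : ℝ) (hCX : 0 ≤ C * X) (hR : 0 ≤ R) (hw : 0 < w) (h1 : w ≤ ω)
    (h2 : ω ≤ 2 * w) : GW C X ω R ⊆ GW (16 * C) X w (2 * R) := by
  have h0 : 0 < ω := lt_of_lt_of_le hw h1
  have hw2 : w ^ 2 ≤ ω ^ 2 := pow_le_pow_left₀ hw.le h1 2
  have hw4 : w ^ 4 ≤ ω ^ 4 := pow_le_pow_left₀ hw.le h1 4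
  have ho2 : ω ^ 2 ≤ 4 * w ^ 2 := by
    have := pow_le_pow_left₀ h0.le h2 2
    linarith [mul_pow 2 w 2]
  have ho4 : ω ^ 4 ≤ 16 * w ^ 4 := by
    have := pow_le_pow_left₀ h0.le h2 4
    linarith [mul_pow 2 w 4]
  rintro f ⟨⟨ha, hb, hc, hd, he⟩, x, z, e, hz, hxz, he0, hev, hsm⟩
  refine ⟨⟨?_, ?_, ?_, ?_, ?_⟩, x, z, e, hz, hxz, he0, hev, ?_⟩
  · have := mul_le_mul_of_nonneg_left ho4 hCX
    linarith
  · have := mul_le_mul_of_nonneg_left ho2 hCX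
    have h3 : 0 ≤ C * X * w ^ 2 := by positivity
    linarith
  · linarith
  · have h3 : C * X / ω ^ 2 ≤ C * X / w ^ 2 := div_le_div_of_nonneg_left hCX (by positivity) hw2
    have h4 : C * X / w ^ 2 ≤ 16 * C * X / w ^ 2 := by
      apply div_le_div_of_nonneg_right _ (by positivity)
      linarith
    linarith
  · have h3 : C * X / ω ^ 4 ≤ C * X / w ^ 4 := div_le_div_of_nonneg_left hCX (by positivity) hw4
    have h4 : C * X / w ^ 4 ≤ 16 * C * X / w ^ 4 := by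
      apply div_le_div_of_nonneg_right _ (by positivity)
      linarith
    linarith
  · have h3 : ((x : ℝ) * w) ^ 2 ≤ ((x : ℝ) * ω) ^ 2 := by
      rw [mul_pow, mul_pow]
      exact mul_le_mul_of_nonneg_left hw2 (sq_nonneg _)
    have h4 : ((z : ℝ) / w) ^ 2 ≤ 4 * ((z : ℝ) / ω) ^ 2 := by
      rw [div_pow, div_pow, div_le_iff₀ (by positivity)]
      have e1 : 4 * ((z : ℝ) ^ 2 / ω ^ 2) * w ^ 2 = (z : ℝ) ^ 2 * (4 * w ^ 2 / ω ^ 2) := by
        ring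
      rw [e1]
      have h5 : 1 ≤ 4 * w ^ 2 / ω ^ 2 := by
        rw [le_div_iff₀ (by positivity)]
        linarith
      have := mul_le_mul_of_nonneg_left h5 (sq_nonneg (z : ℝ))
      linarith
    have h6 : 0 ≤ ((x : ℝ) * ω) ^ 2 := sq_nonneg _
    have h7 : (2 * R) ^ 2 = 4 * R ^ 2 := by ring
    rw [h7]
    linarith

end ICU

open ICU in
theorem pg_CU : S_CU := by
  intro hCW C hC
  obtain ⟨C₁, hC₁, hcw⟩ := hCW (16 * C) (by linarith)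
  have hl4 : 0 ≤ Real.log (4 * C) := Real.log_nonneg (by linarith)
  refine ⟨2 * C₁ * (1 + 2 * Real.log (4 * C)), by positivity, ?_⟩
  intro X R hX hR hRX
  have hX0 : 0 < X := by linarith
  have hlX : 0 ≤ Real.log X := Real.log_nonneg hX
  obtain ⟨N, hN⟩ : ∃ N, N = ⌊2 * Real.log (4 * C) + Real.log X⌋₊ := ⟨_, rfl⟩
  obtain ⟨B, hB⟩ : ∃ B, B = C₁ * (X ^ ((9 : ℝ) / 2) * (1 + Real.log X) ^ 2 +
    X ^ ((17 : ℝ) / 4) * (2 * R)) := ⟨_, rfl⟩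
  have hp : 0 < X ^ (-(1 / 4) : ℝ) := Real.rpow_pos_of_pos hX0 _
  classical
  obtain ⟨h1, h2⟩ := ncard_biUnion
    ((Finset.range (N + 1)).filter fun k => X ^ (-(1 / 4) : ℝ) / (16 * C) ≤ 2 / 2 ^ k)
    (fun k : ℕ => GW (16 * C) X (2 / 2 ^ k) (2 * R)) B (by
      intro k hk
      rw [Finset.mem_filter] at hk
      rw [hB]
      refine hcw X (2 / 2 ^ k) (2 * R) hX hk.2 ?_ (by linarith) hRX
      rw [div_le_iff₀ (by positivity)]
      have : (1 : ℝ) ≤ 2 ^ k := one_le_pow₀ one_le_two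
      linarith)
  have hsub : {f : BQ ℤ | ∃ ω : ℝ, X ^ (-(1 / 4) : ℝ) / C ≤ ω ∧ ω ≤ 2 ∧ f ∈ GW C X ω R} ⊆
      ⋃ k ∈ (Finset.range (N + 1)).filter fun k => X ^ (-(1 / 4) : ℝ) / (16 * C) ≤ 2 / 2 ^ k,
        GW (16 * C) X (2 / 2 ^ k) (2 * R) := by
    rintro f ⟨ω, hω1, hω2, hf⟩
    have hω0 : 0 < ω := lt_of_lt_of_le (by positivity) hω1
    obtain ⟨k, hk1, hk2⟩ := near ω hω0 hω2
    have hw : (0 : ℝ) < 2 / 2 ^ k := by positivity
    have hmem := step C X ω (2 / 2 ^ k) R (by positivity) (by linarith) hw hk1 hk2 hf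
    simp only [Set.mem_iUnion]
    refine ⟨k, ?_, hmem⟩
    rw [Finset.mem_filter, Finset.mem_range]
    constructor
    · rw [Nat.lt_succ_iff, hN]
      apply Nat.le_floor
      have h3 : (2 : ℝ) ^ k ≤ 4 * C * X ^ ((1 : ℝ) / 4) := by
        have h4 : X ^ (-(1 / 4) : ℝ) / C ≤ 4 / 2 ^ k := by
          refine hω1.trans (hk2.trans (le_of_eq ?_))
          ring
        rw [div_le_div_iff₀ (by linarith) (by positivity)] at h4
        have h5 : X ^ ((1 : ℝ) / 4) * X ^ (-(1 / 4) : ℝ) = 1 := by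
          rw [← Real.rpow_add hX0]
          norm_num
        have hq : 0 < X ^ ((1 : ℝ) / 4) := Real.rpow_pos_of_pos hX0 _
        have h6 := mul_le_mul_of_nonneg_left h4 hq.le
        calc (2 : ℝ) ^ k = X ^ ((1 : ℝ) / 4) * X ^ (-(1 / 4) : ℝ) * 2 ^ k := by rw [h5, one_mul]
          _ = X ^ ((1 : ℝ) / 4) * (X ^ (-(1 / 4) : ℝ) * 2 ^ k) := by ring
          _ ≤ X ^ ((1 : ℝ) / 4) * (4 * C) := h6
          _ = 4 * C * X ^ ((1 : ℝ) / 4) := by ring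
      have h7 := Real.log_le_log (by positivity) h3
      rw [Real.log_pow, Real.log_mul (by positivity) (by positivity), Real.log_rpow hX0] at h7
      have h8 := Real.log_two_gt_d9
      have h9 : (k : ℝ) * (1 / 2) ≤ k * Real.log 2 :=
        mul_le_mul_of_nonneg_left (by linarith) (Nat.cast_nonneg _)
      linarith
    · have h3 : X ^ (-(1 / 4) : ℝ) / C ≤ 2 * (2 / 2 ^ k) := hω1.trans hk2
      have h4 : X ^ (-(1 / 4) : ℝ) / (16 * C) = X ^ (-(1 / 4) : ℝ) / C / 16 := by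
        rw [div_div, mul_comm]
      rw [h4]
      linarith
  refine ⟨h1.subset hsub, ?_⟩
  have h3 : (({f : BQ ℤ | ∃ ω : ℝ, X ^ (-(1 / 4) : ℝ) / C ≤ ω ∧ ω ≤ 2 ∧ f ∈ GW C X ω R}.ncard :
      ℕ) : ℝ) ≤ ((⋃ k ∈ (Finset.range (N + 1)).filter fun k =>
        X ^ (-(1 / 4) : ℝ) / (16 * C) ≤ 2 / 2 ^ k, GW (16 * C) X (2 / 2 ^ k) (2 * R)).ncard : ℕ) := by
    exact_mod_cast Set.ncard_le_ncard hsub h1
  have hcard : (((Finset.range (N + 1)).filter fun k =>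
      X ^ (-(1 / 4) : ℝ) / (16 * C) ≤ 2 / 2 ^ k).card : ℝ) ≤
      (1 + 2 * Real.log (4 * C)) * (1 + Real.log X) := by
    have h4 := Finset.card_filter_le (Finset.range (N + 1))
      fun k => X ^ (-(1 / 4) : ℝ) / (16 * C) ≤ 2 / 2 ^ k
    rw [Finset.card_range] at h4
    have h5 : (((Finset.range (N + 1)).filter fun k =>
      X ^ (-(1 / 4) : ℝ) / (16 * C) ≤ 2 / 2 ^ k).card : ℝ) ≤ (N : ℝ) + 1 := by exact_mod_cast h4
    have h6 : (N : ℝ) ≤ 2 * Real.log (4 * C) + Real.log X := by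
      rw [hN]
      exact Nat.floor_le (by linarith)
    nlinarith [mul_nonneg hl4 hlX]
  have hT1 : 0 ≤ X ^ ((9 : ℝ) / 2) * (1 + Real.log X) ^ 2 := by positivity
  have hT2 : 0 ≤ X ^ ((17 : ℝ) / 4) * R := by positivity
  have hB0 : 0 ≤ B := by
    rw [hB]
    positivity
  have hB2 : B ≤ 2 * C₁ * (X ^ ((9 : ℝ) / 2) * (1 + Real.log X) ^ 2 + X ^ ((17 : ℝ) / 4) * R) := by
    rw [hB]
    have := mul_nonneg hC₁.le hT1
    nlinarith
  calc (({f : BQ ℤ | ∃ ω : ℝ, X ^ (-(1 / 4) : ℝ) / C ≤ ω ∧ ω ≤ 2 ∧ f ∈ GW C X ω R}.ncard :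
      ℕ) : ℝ) ≤ _ := h3
    _ ≤ _ := h2
    _ ≤ ((1 + 2 * Real.log (4 * C)) * (1 + Real.log X)) *
        (2 * C₁ * (X ^ ((9 : ℝ) / 2) * (1 + Real.log X) ^ 2 + X ^ ((17 : ℝ) / 4) * R)) :=
        mul_le_mul hcard hB2 hB0 (by positivity)
    _ = 2 * C₁ * (1 + 2 * Real.log (4 * C)) * (1 + Real.log X) *
        (X ^ ((9 : ℝ) / 2) * (1 + Real.log X) ^ 2 + X ^ ((17 : ℝ) / 4) * R) := by ring

end Pool.Agent.Work.MP_bd3ec3_nt.SG
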