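import Pool.Agent.Work.MP_bd3ec3_nt.SG.Stmts

/-!
# MP_bd3ec3_nt, block SG, item CW: counting for fixed `ω`
-/

set_option autoImplicit false

namespace Pool.Agent.Work.MP_bd3ec3_nt.SG

open Pool.Agent.Work.MP_bd3ec3_nt.SP Filter Topology

namespace ICW

theorem sym_sum (f : ℤ → ℝ) (hf : ∀ x, f (-x) = f x) (M : ℕ) :
    ∑ x ∈ Finset.Icc (-(M : ℤ)) M, f x = f 0 + 2 * ∑ m ∈ Finset.range M, f ((m : ℤ) + 1) := by
  induction M with
  | zero => simp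
  | succ M ih =>
    have e : Finset.Icc (-((M + 1 : ℕ) : ℤ)) ((M + 1 : ℕ) : ℤ) =
        insert ((M : ℤ) + 1) (insert (-((M : ℤ) + 1)) (Finset.Icc (-(M : ℤ)) M)) := by
      ext x
      simp only [Finset.mem_Icc, Finset.mem_insert]
      push_cast
      omega
    rw [e, Finset.sum_insert, Finset.sum_insert, ih, hf, Finset.sum_range_succ]
    · ring
    · simp only [Finset.mem_Icc]
      omega
    · simp only [Finset.mem_insert, Finset.mem_Icc]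
      omega

theorem harm (M : ℕ) : ∑ m ∈ Finset.range M, 1 / ((m : ℝ) + 1) ≤ 1 + Real.log M := by
  have h := harmonic_le_one_add_log M
  have e : ((harmonic M : ℚ) : ℝ) = ∑ m ∈ Finset.range M, 1 / ((m : ℝ) + 1) := by
    unfold harmonic
    push_cast
    simp [one_div]
  rw [← e]
  exact h

theorem sq_sum (M : ℕ) : ∑ m ∈ Finset.range M, 1 / √((m : ℝ) + 1) ≤ 2 * √(M : ℝ) := by
  induction M with
  | zero => simp
  | succ M ih =>
    rw [Finset.sum_range_succ]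
    push_cast
    have h0 : 0 < √((M : ℝ) + 1) := Real.sqrt_pos.mpr (by positivity)
    have h1 : √(M : ℝ) ≤ √((M : ℝ) + 1) := Real.sqrt_le_sqrt (by linarith)
    have h2 : √(M : ℝ) ^ 2 = M := Real.sq_sqrt (by positivity)
    have h3 : √((M : ℝ) + 1) ^ 2 = M + 1 := Real.sq_sqrt (by positivity)
    have h4 : 1 / √((M : ℝ) + 1) ≤ 2 * (√((M : ℝ) + 1) - √(M : ℝ)) := by
      rw [div_le_iff₀ h0]
      nlinarith [sq_nonneg (√((M : ℝ) + 1) - √(M : ℝ))]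
    linarith

theorem ev_le (K ω r x z a b c d e : ℝ) (hK : 0 ≤ K) (hω : 0 < ω)
    (h : |a| ≤ K * ω ^ 4 ∧ |b| ≤ K * ω ^ 2 ∧ |c| ≤ K ∧ |d| ≤ K / ω ^ 2 ∧ |e| ≤ K / ω ^ 4)
    (hx : |x| * ω ≤ r) (hz : |z| / ω ≤ r) :
    |a * x ^ 4 + b * x ^ 3 * z + c * x ^ 2 * z ^ 2 + d * x * z ^ 3 + e * z ^ 4| ≤ 5 * K * r ^ 4 := by
  obtain ⟨ha, hb, hc, hd, he⟩ := h
  set u : ℝ := |x| * ω with hu
  set v : ℝ := |z| / ω with hv
  have hu0 : 0 ≤ u := by positivity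
  have hv0 : 0 ≤ v := by positivity
  have hr0 : 0 ≤ r := hu0.trans hx
  have ex : |x| = u / ω := by rw [hu]; field_simp
  have ez : |z| = v * ω := by rw [hv]; field_simp
  have mon : ∀ i j : ℕ, i + j = 4 → u ^ i * v ^ j ≤ r ^ 4 := by
    intro i j hij
    calc u ^ i * v ^ j ≤ r ^ i * r ^ j :=
          mul_le_mul (pow_le_pow_left₀ hu0 hx i) (pow_le_pow_left₀ hv0 hz j) (by positivity)
            (by positivity)
      _ = r ^ 4 := by rw [← pow_add, hij]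
  have t1 : |a * x ^ 4| ≤ K * r ^ 4 := by
    calc |a * x ^ 4| = |a| * |x| ^ 4 := by rw [abs_mul, abs_pow]
      _ ≤ K * ω ^ 4 * |x| ^ 4 := mul_le_mul_of_nonneg_right ha (by positivity)
      _ = K * (u ^ 4 * v ^ 0) := by rw [hu]; ring
      _ ≤ K * r ^ 4 := mul_le_mul_of_nonneg_left (mon 4 0 rfl) hK
  have t2 : |b * x ^ 3 * z| ≤ K * r ^ 4 := by
    calc |b * x ^ 3 * z| = |b| * (|x| ^ 3 * |z|) := by rw [abs_mul, abs_mul, abs_pow, mul_assoc]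
      _ ≤ K * ω ^ 2 * (|x| ^ 3 * |z|) := mul_le_mul_of_nonneg_right hb (by positivity)
      _ = K * (u ^ 3 * v ^ 1) := by rw [ex, ez]; field_simp
      _ ≤ K * r ^ 4 := mul_le_mul_of_nonneg_left (mon 3 1 rfl) hK
  have t3 : |c * x ^ 2 * z ^ 2| ≤ K * r ^ 4 := by
    calc |c * x ^ 2 * z ^ 2| = |c| * (|x| ^ 2 * |z| ^ 2) := by
          rw [abs_mul, abs_mul, abs_pow, abs_pow, mul_assoc]
      _ ≤ K * (|x| ^ 2 * |z| ^ 2) := mul_le_mul_of_nonneg_right hc (by positivity)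
      _ = K * (u ^ 2 * v ^ 2) := by rw [ex, ez]; field_simp
      _ ≤ K * r ^ 4 := mul_le_mul_of_nonneg_left (mon 2 2 rfl) hK
  have t4 : |d * x * z ^ 3| ≤ K * r ^ 4 := by
    calc |d * x * z ^ 3| = |d| * (|x| * |z| ^ 3) := by rw [abs_mul, abs_mul, abs_pow, mul_assoc]
      _ ≤ K / ω ^ 2 * (|x| * |z| ^ 3) := mul_le_mul_of_nonneg_right hd (by positivity)
      _ = K * (u ^ 1 * v ^ 3) := by rw [ex, ez]; field_simp
      _ ≤ K * r ^ 4 := mul_le_mul_of_nonneg_left (mon 1 3 rfl) hK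
  have t5 : |e * z ^ 4| ≤ K * r ^ 4 := by
    calc |e * z ^ 4| = |e| * |z| ^ 4 := by rw [abs_mul, abs_pow]
      _ ≤ K / ω ^ 4 * |z| ^ 4 := mul_le_mul_of_nonneg_right he (by positivity)
      _ = K * (u ^ 0 * v ^ 4) := by rw [ez]; field_simp
      _ ≤ K * r ^ 4 := mul_le_mul_of_nonneg_left (mon 0 4 rfl) hK
  have s1 := abs_add_le (a * x ^ 4 + b * x ^ 3 * z + c * x ^ 2 * z ^ 2 + d * x * z ^ 3) (e * z ^ 4)
  have s2 := abs_add_le (a * x ^ 4 + b * x ^ 3 * z + c * x ^ 2 * z ^ 2) (d * x * z ^ 3)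
  have s3 := abs_add_le (a * x ^ 4 + b * x ^ 3 * z) (c * x ^ 2 * z ^ 2)
  have s4 := abs_add_le (a * x ^ 4) (b * x ^ 3 * z)
  linarith

/-- The forms which represent a nonzero square at `(x, z)`. -/
def DD (K ω : ℝ) (x z : ℤ) : Set (BQ ℤ) :=
  {f | Bw K ω (toR f) ∧ ∃ e : ℤ, e ≠ 0 ∧ f.ev x z = e ^ 2}

theorem prod_le (C s ω r : ℝ) (hC : 1 ≤ C) (hs : 1 ≤ s) (hω : 0 < ω) (hω1 : 1 ≤ C * s * ω)
    (hω2 : ω ≤ 2) (hr1 : 1 / 2 ≤ r) (hr2 : r ≤ s ^ 2) :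
    √(5 * C) * s ^ 2 * r ^ 2 * ((1 + 16 * (C * s ^ 4) * ω ^ 3 / r) *
      (1 + 16 * (C * s ^ 4) * ω / r) * (1 + 16 * (C * s ^ 4) / (ω * r)) *
      (1 + 16 * (C * s ^ 4) / (ω ^ 3 * r))) ≤
    8 * √(5 * C) * (16 * C) ^ 6 * (s ^ 18 / r ^ 2 + s ^ 17 / r) := by
  have hr0 : 0 < r := by linarith
  have hC0 : 0 < C := by linarith
  have hs0 : 0 < s := by linarith
  set T : ℝ := 16 * C * s ^ 4 / r with hT
  have hT0 : 0 < T := by positivity
  have e1 : 16 * (C * s ^ 4) * ω ^ 3 / r = T * ω ^ 3 := by rw [hT]; field_simp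
  have e2 : 16 * (C * s ^ 4) * ω / r = T * ω := by rw [hT]; field_simp
  have e3 : 16 * (C * s ^ 4) / (ω * r) = T / ω := by rw [hT]; field_simp
  have e4 : 16 * (C * s ^ 4) / (ω ^ 3 * r) = T / ω ^ 3 := by rw [hT]; field_simp
  rw [e1, e2, e3, e4]
  have hT1 : 16 * C * s ^ 2 ≤ T := by
    rw [hT, le_div_iff₀ hr0]
    calc 16 * C * s ^ 2 * r ≤ 16 * C * s ^ 2 * s ^ 2 :=
          mul_le_mul_of_nonneg_left hr2 (by positivity)
      _ = 16 * C * s ^ 4 := by ring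
  have hCs : 1 ≤ C * s ^ 2 := by
    calc (1 : ℝ) = 1 * 1 := by norm_num
      _ ≤ C * s ^ 2 := mul_le_mul hC (one_le_pow₀ hs) (by norm_num) (by positivity)
  have g2 : 1 ≤ T * ω := by
    calc (1 : ℝ) ≤ C * s * ω := hω1
      _ ≤ 16 * C * s ^ 2 * ω := by
          have : C * s * ω ≤ C * s * ω * (16 * s) :=
            le_mul_of_one_le_right (by positivity) (by linarith)
          calc C * s * ω ≤ C * s * ω * (16 * s) := this
            _ = 16 * C * s ^ 2 * ω := by ring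
      _ ≤ T * ω := mul_le_mul_of_nonneg_right hT1 hω.le
  have g3 : 1 ≤ T / ω := by
    rw [le_div_iff₀ hω]
    nlinarith
  have hω3 : ω ^ 3 ≤ 8 := by
    calc ω ^ 3 ≤ 2 ^ 3 := pow_le_pow_left₀ hω.le hω2 3
      _ = 8 := by norm_num
  have g4 : 1 ≤ T / ω ^ 3 := by
    rw [le_div_iff₀ (by positivity)]
    nlinarith
  have hP : (1 + T * ω ^ 3) * (1 + T * ω) * (1 + T / ω) * (1 + T / ω ^ 3) ≤
      8 * T ^ 3 * (1 / ω ^ 3 + T) := by
    calc (1 + T * ω ^ 3) * (1 + T * ω) * (1 + T / ω) * (1 + T / ω ^ 3)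
        ≤ (1 + T * ω ^ 3) * (2 * (T * ω)) * (2 * (T / ω)) * (2 * (T / ω ^ 3)) := by
          gcongr <;> linarith
      _ = 8 * T ^ 3 * (1 / ω ^ 3 + T) := by
          field_simp
          ring
  have hinv : 1 / ω ^ 3 ≤ C ^ 3 * s ^ 3 := by
    rw [div_le_iff₀ (by positivity)]
    calc (1 : ℝ) = 1 ^ 3 := by norm_num
      _ ≤ (C * s * ω) ^ 3 := pow_le_pow_left₀ (by norm_num) hω1 3
      _ = C ^ 3 * s ^ 3 * ω ^ 3 := by ring
  calc √(5 * C) * s ^ 2 * r ^ 2 * ((1 + T * ω ^ 3) * (1 + T * ω) * (1 + T / ω) * (1 + T / ω ^ 3))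
      ≤ √(5 * C) * s ^ 2 * r ^ 2 * (8 * T ^ 3 * (1 / ω ^ 3 + T)) :=
        mul_le_mul_of_nonneg_left hP (by positivity)
    _ ≤ √(5 * C) * s ^ 2 * r ^ 2 * (8 * T ^ 3 * (C ^ 3 * s ^ 3 + T)) := by
        gcongr
    _ = 8 * √(5 * C) * ((16 * C) ^ 4 * (s ^ 18 / r ^ 2) + (16 * C) ^ 3 * C ^ 3 * (s ^ 17 / r)) := by
        rw [hT]
        field_simp
        ring
    _ ≤ 8 * √(5 * C) * ((16 * C) ^ 6 * (s ^ 18 / r ^ 2) + (16 * C) ^ 6 * (s ^ 17 / r)) := by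
        have k1 : (16 * C) ^ 4 ≤ (16 * C) ^ 6 := pow_le_pow_right₀ (by linarith) (by norm_num)
        have k2 : (16 * C) ^ 3 * C ^ 3 ≤ (16 * C) ^ 6 := by
          calc (16 * C) ^ 3 * C ^ 3 ≤ (16 * C) ^ 3 * (16 * C) ^ 3 := by
                gcongr
                linarith
            _ = (16 * C) ^ 6 := by ring
        gcongr
    _ = 8 * √(5 * C) * (16 * C) ^ 6 * (s ^ 18 / r ^ 2 + s ^ 17 / r) := by ring

theorem fixed (hH : ∀ (K ω r : ℝ) (x z n : ℤ), 0 < K → 0 < ω → IsCoprime x z →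
      r = max (|(x : ℝ)| * ω) (|(z : ℝ)| / ω) →
    {f : BQ ℤ | Bw K ω (toR f) ∧ f.ev x z = n}.Finite ∧
    (({f : BQ ℤ | Bw K ω (toR f) ∧ f.ev x z = n}.ncard : ℕ) : ℝ) ≤
      (1 + 16 * K * ω ^ 3 / r) * (1 + 16 * K * ω / r) * (1 + 16 * K / (ω * r)) *
        (1 + 16 * K / (ω ^ 3 * r)))
    (C s ω r : ℝ) (x z : ℤ) (hC : 1 ≤ C) (hs : 1 ≤ s) (hω : 0 < ω) (hω1 : 1 ≤ C * s * ω)
    (hω2 : ω ≤ 2) (hr : r = max (|(x : ℝ)| * ω) (|(z : ℝ)| / ω)) (hr1 : 1 / 2 ≤ r)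
    (hr2 : r ≤ s ^ 2) (hxz : IsCoprime x z) :
    (DD (C * s ^ 4) ω x z).Finite ∧ (((DD (C * s ^ 4) ω x z).ncard : ℕ) : ℝ) ≤
      8 * √(5 * C) * (16 * C) ^ 6 * (s ^ 18 / r ^ 2 + s ^ 17 / r) := by
  have hr0 : 0 < r := by linarith
  have hK : 0 < C * s ^ 4 := by positivity
  set q : ℝ := √(5 * C) with hq
  have hq0 : 0 ≤ q := Real.sqrt_nonneg _
  have hq2 : q ^ 2 = 5 * C := Real.sq_sqrt (by positivity)
  set E : ℕ := ⌊q * s ^ 2 * r ^ 2⌋₊ with hE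
  set S : ℕ → Set (BQ ℤ) := fun n => {f : BQ ℤ | Bw (C * s ^ 4) ω (toR f) ∧ f.ev x z = ((n : ℤ) ^ 2)}
    with hS
  have hsub : DD (C * s ^ 4) ω x z ⊆ ⋃ n ∈ Finset.Icc 1 E, S n := by
    rintro f ⟨hf, e, he, hfe⟩
    rw [Set.mem_iUnion₂]
    refine ⟨e.natAbs, ?_, hf, ?_⟩
    · rw [Finset.mem_Icc]
      constructor
      · have := Int.natAbs_pos.mpr he
        omega
      · apply Nat.le_floor
        have h1 : ((f.ev x z : ℤ) : ℝ) = (f.a : ℝ) * (x : ℝ) ^ 4 + f.b * (x : ℝ) ^ 3 * z +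
            f.c * (x : ℝ) ^ 2 * (z : ℝ) ^ 2 + f.d * x * (z : ℝ) ^ 3 + f.e * (z : ℝ) ^ 4 := by
          unfold BQ.ev
          push_cast
          ring
        have h2 := ev_le (C * s ^ 4) ω r (x : ℝ) (z : ℝ) f.a f.b f.c f.d f.e hK.le hω hf
          (by rw [hr]; exact le_max_left _ _) (by rw [hr]; exact le_max_right _ _)
        rw [← h1, hfe] at h2
        have h3 : ((e : ℤ) : ℝ) ^ 2 ≤ (q * s ^ 2 * r ^ 2) ^ 2 := by
          calc ((e : ℤ) : ℝ) ^ 2 = (((e ^ 2 : ℤ)) : ℝ) := by push_cast; ring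
            _ ≤ |(((e ^ 2 : ℤ)) : ℝ)| := le_abs_self _
            _ ≤ 5 * (C * s ^ 4) * r ^ 4 := h2
            _ = q ^ 2 * s ^ 4 * r ^ 4 := by rw [hq2]; ring
            _ = (q * s ^ 2 * r ^ 2) ^ 2 := by ring
        have h4 : |((e : ℤ) : ℝ)| ≤ q * s ^ 2 * r ^ 2 := abs_le_of_sq_le_sq h3 (by positivity)
        rw [Nat.cast_natAbs]
        push_cast
        exact h4
    · rw [hfe, Int.natAbs_sq]
  have hSf : ∀ n : ℕ, (S n).Finite := fun n => (hH (C * s ^ 4) ω r x z ((n : ℤ) ^ 2) hK hω hxz hr).1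
  have hUf : (⋃ n ∈ Finset.Icc 1 E, S n).Finite :=
    Set.Finite.biUnion (Finset.finite_toSet _) fun n _ => hSf n
  refine ⟨hUf.subset hsub, ?_⟩
  set P : ℝ := (1 + 16 * (C * s ^ 4) * ω ^ 3 / r) *
      (1 + 16 * (C * s ^ 4) * ω / r) * (1 + 16 * (C * s ^ 4) / (ω * r)) *
      (1 + 16 * (C * s ^ 4) / (ω ^ 3 * r)) with hP
  have hP0 : 0 ≤ P := by positivity
  have h1 : (DD (C * s ^ 4) ω x z).ncard ≤ ∑ n ∈ Finset.Icc 1 E, (S n).ncard :=
    (Set.ncard_le_ncard hsub hUf).trans (Finset.set_ncard_biUnion_le _ _)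
  have h2 : ((∑ n ∈ Finset.Icc 1 E, (S n).ncard : ℕ) : ℝ) ≤ (E : ℝ) * P := by
    push_cast
    calc ∑ n ∈ Finset.Icc 1 E, ((S n).ncard : ℝ) ≤ ∑ _n ∈ Finset.Icc 1 E, P :=
          Finset.sum_le_sum fun n _ => (hH (C * s ^ 4) ω r x z ((n : ℤ) ^ 2) hK hω hxz hr).2
      _ = (E : ℝ) * P := by
          rw [Finset.sum_const, Nat.card_Icc, nsmul_eq_mul]
          simp
  have h3 : (E : ℝ) ≤ q * s ^ 2 * r ^ 2 := Nat.floor_le (by positivity)
  calc (((DD (C * s ^ 4) ω x z).ncard : ℕ) : ℝ) ≤ ((∑ n ∈ Finset.Icc 1 E, (S n).ncard : ℕ) : ℝ) := by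
        exact_mod_cast h1
    _ ≤ (E : ℝ) * P := h2
    _ ≤ q * s ^ 2 * r ^ 2 * P := mul_le_mul_of_nonneg_right h3 hP0
    _ ≤ 8 * q * (16 * C) ^ 6 * (s ^ 18 / r ^ 2 + s ^ 17 / r) :=
        prod_le C s ω r hC hs hω hω1 hω2 hr1 hr2

/-- `1 / |x|`, and `1` at `0`. -/
noncomputable def fA (x : ℤ) : ℝ := if x = 0 then 1 else 1 / |(x : ℝ)|

/-- `1 / |z|`, and `0` at `0`. -/
noncomputable def fB (z : ℤ) : ℝ := if z = 0 then 0 else 1 / |(z : ℝ)|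

/-- `1 / √|x|`, and `1` at `0`. -/
noncomputable def gA (x : ℤ) : ℝ := if x = 0 then 1 else 1 / √|(x : ℝ)|

/-- `1 / √|z|`, and `0` at `0`. -/
noncomputable def gB (z : ℤ) : ℝ := if z = 0 then 0 else 1 / √|(z : ℝ)|

theorem fA_nonneg (x : ℤ) : 0 ≤ fA x := by
  unfold fA; split_ifs <;> positivity

theorem fB_nonneg (x : ℤ) : 0 ≤ fB x := by
  unfold fB; split_ifs <;> positivity

theorem gA_nonneg (x : ℤ) : 0 ≤ gA x := by
  unfold gA; split_ifs <;> positivity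

theorem gB_nonneg (x : ℤ) : 0 ≤ gB x := by
  unfold gB; split_ifs <;> positivity

theorem abs_succ (m : ℕ) : |(((m : ℤ) + 1 : ℤ) : ℝ)| = (m : ℝ) + 1 := by
  push_cast
  exact abs_of_nonneg (by positivity)

theorem succ_ne (m : ℕ) : (m : ℤ) + 1 ≠ 0 := by omega

theorem sum_fA (M : ℕ) : ∑ x ∈ Finset.Icc (-(M : ℤ)) M, fA x ≤ 3 + 2 * Real.log M := by
  rw [sym_sum fA (fun x => by simp [fA])]
  have e : ∑ m ∈ Finset.range M, fA ((m : ℤ) + 1) = ∑ m ∈ Finset.range M, 1 / ((m : ℝ) + 1) :=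
    Finset.sum_congr rfl fun m _ => by
      unfold fA
      rw [if_neg (succ_ne m), abs_succ]
  have e0 : fA 0 = 1 := by simp [fA]
  rw [e, e0]
  have := harm M
  linarith

theorem sum_fB (M : ℕ) : ∑ x ∈ Finset.Icc (-(M : ℤ)) M, fB x ≤ 2 + 2 * Real.log M := by
  rw [sym_sum fB (fun x => by simp [fB])]
  have e : ∑ m ∈ Finset.range M, fB ((m : ℤ) + 1) = ∑ m ∈ Finset.range M, 1 / ((m : ℝ) + 1) :=
    Finset.sum_congr rfl fun m _ => by
      unfold fB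
      rw [if_neg (succ_ne m), abs_succ]
  have e0 : fB 0 = 0 := by simp [fB]
  rw [e, e0]
  have := harm M
  linarith

theorem sum_gA (M : ℕ) : ∑ x ∈ Finset.Icc (-(M : ℤ)) M, gA x ≤ 1 + 4 * √(M : ℝ) := by
  rw [sym_sum gA (fun x => by simp [gA])]
  have e : ∑ m ∈ Finset.range M, gA ((m : ℤ) + 1) = ∑ m ∈ Finset.range M, 1 / √((m : ℝ) + 1) :=
    Finset.sum_congr rfl fun m _ => by
      unfold gA
      rw [if_neg (succ_ne m), abs_succ]
  have e0 : gA 0 = 1 := by simp [gA]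
  rw [e, e0]
  have := sq_sum M
  linarith

theorem sum_gB (M : ℕ) : ∑ x ∈ Finset.Icc (-(M : ℤ)) M, gB x ≤ 4 * √(M : ℝ) := by
  rw [sym_sum gB (fun x => by simp [gB])]
  have e : ∑ m ∈ Finset.range M, gB ((m : ℤ) + 1) = ∑ m ∈ Finset.range M, 1 / √((m : ℝ) + 1) :=
    Finset.sum_congr rfl fun m _ => by
      unfold gB
      rw [if_neg (succ_ne m), abs_succ]
  have e0 : gB 0 = 0 := by simp [gB]
  rw [e, e0]
  have := sq_sum M
  linarith

theorem pt (ω r : ℝ) (x z : ℤ) (hω : 0 < ω) (hr : r = max (|(x : ℝ)| * ω) (|(z : ℝ)| / ω))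
    (hr1 : 1 / 2 ≤ r) (hz : z ≠ 0) (hxz : IsCoprime x z) :
    1 / r ^ 2 ≤ 4 * (fA x * fB z) ∧ 1 / r ≤ 2 * (gA x * gB z) := by
  have hr0 : 0 < r := by linarith
  by_cases hx : x = 0
  · subst hx
    have hu : IsUnit z := isCoprime_zero_left.mp hxz
    have hz1 : |(z : ℝ)| = 1 := by
      rcases Int.isUnit_iff.mp hu with h | h <;> simp [h]
    unfold fA fB gA gB
    rw [if_pos rfl, if_pos rfl, if_neg hz, if_neg hz, hz1]
    constructor
    · rw [div_le_iff₀ (by positivity)]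
      nlinarith
    · rw [div_le_iff₀ hr0]
      norm_num
      linarith
  · have hx0 : 0 < |(x : ℝ)| := abs_pos.mpr (by exact_mod_cast hx)
    have hz0 : 0 < |(z : ℝ)| := abs_pos.mpr (by exact_mod_cast hz)
    have h1 : |(x : ℝ)| * ω ≤ r := by rw [hr]; exact le_max_left _ _
    have h2 : |(z : ℝ)| / ω ≤ r := by rw [hr]; exact le_max_right _ _
    have h3 : |(x : ℝ)| * |(z : ℝ)| ≤ r ^ 2 := by
      calc |(x : ℝ)| * |(z : ℝ)| = (|(x : ℝ)| * ω) * (|(z : ℝ)| / ω) := by field_simp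
        _ ≤ r * r := mul_le_mul h1 h2 (by positivity) hr0.le
        _ = r ^ 2 := by ring
    unfold fA fB gA gB
    rw [if_neg hx, if_neg hx, if_neg hz, if_neg hz]
    constructor
    · calc 1 / r ^ 2 ≤ 1 / (|(x : ℝ)| * |(z : ℝ)|) := one_div_le_one_div_of_le (by positivity) h3
        _ = 1 * (1 / |(x : ℝ)| * (1 / |(z : ℝ)|)) := by field_simp
        _ ≤ 4 * (1 / |(x : ℝ)| * (1 / |(z : ℝ)|)) :=
            mul_le_mul_of_nonneg_right (by norm_num) (by positivity)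
    · have h4 : √|(x : ℝ)| * √|(z : ℝ)| ≤ r := by
        rw [← Real.sqrt_mul (abs_nonneg _)]
        calc √(|(x : ℝ)| * |(z : ℝ)|) ≤ √(r ^ 2) := Real.sqrt_le_sqrt h3
          _ = r := Real.sqrt_sq hr0.le
      have hsx : 0 < √|(x : ℝ)| := Real.sqrt_pos.mpr hx0
      have hsz : 0 < √|(z : ℝ)| := Real.sqrt_pos.mpr hz0
      calc 1 / r ≤ 1 / (√|(x : ℝ)| * √|(z : ℝ)|) := one_div_le_one_div_of_le (by positivity) h4
        _ = 1 * (1 / √|(x : ℝ)| * (1 / √|(z : ℝ)|)) := by field_simp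
        _ ≤ 2 * (1 / √|(x : ℝ)| * (1 / √|(z : ℝ)|)) :=
            mul_le_mul_of_nonneg_right (by norm_num) (by positivity)

theorem log_cast_le (M : ℕ) (y : ℝ) (h : (M : ℝ) ≤ y) (hy : 1 ≤ y) : Real.log M ≤ Real.log y := by
  rcases Nat.eq_zero_or_pos M with h0 | h0
  · subst h0
    simp
    exact Real.log_nonneg hy
  · exact Real.log_le_log (by exact_mod_cast h0) h

/-- The sums over a box. -/
theorem box_sums (C s ω R : ℝ) (hC : 1 ≤ C) (hs : 1 ≤ s) (hω : 0 < ω) (hω1 : 1 ≤ C * s * ω)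
    (hω2 : ω ≤ 2) (hR1 : 1 ≤ R) (hR : R ≤ s ^ 2) :
    (∑ x ∈ Finset.Icc (-((⌊R / ω⌋₊ : ℕ) : ℤ)) (⌊R / ω⌋₊ : ℕ), fA x) *
      (∑ z ∈ Finset.Icc (-((⌊R * ω⌋₊ : ℕ) : ℤ)) (⌊R * ω⌋₊ : ℕ), fB z) ≤
      4 * (3 + 2 * Real.log C) * (1 + 4 * Real.log s) ^ 2 ∧
    (∑ x ∈ Finset.Icc (-((⌊R / ω⌋₊ : ℕ) : ℤ)) (⌊R / ω⌋₊ : ℕ), gA x) *
      (∑ z ∈ Finset.Icc (-((⌊R * ω⌋₊ : ℕ) : ℤ)) (⌊R * ω⌋₊ : ℕ), gB z) ≤ 24 * R := by
  have hC0 : 0 < C := by linarith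
  have hs0 : 0 < s := by linarith
  have hR0 : 0 < R := by linarith
  have hlC : 0 ≤ Real.log C := Real.log_nonneg hC
  have hls : 0 ≤ Real.log s := Real.log_nonneg hs
  set M : ℕ := ⌊R / ω⌋₊ with hM
  set N : ℕ := ⌊R * ω⌋₊ with hN
  have hM1 : (M : ℝ) ≤ R / ω := Nat.floor_le (by positivity)
  have hN1 : (N : ℝ) ≤ R * ω := Nat.floor_le (by positivity)
  have hM2 : (M : ℝ) ≤ C * s ^ 3 := by
    refine hM1.trans ?_
    rw [div_le_iff₀ hω]
    calc R ≤ s ^ 2 * 1 := by linarith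
      _ ≤ s ^ 2 * (C * s * ω) := mul_le_mul_of_nonneg_left hω1 (by positivity)
      _ = C * s ^ 3 * ω := by ring
  have hN2 : (N : ℝ) ≤ 2 * s ^ 2 := by
    refine hN1.trans ?_
    calc R * ω ≤ s ^ 2 * 2 := mul_le_mul hR hω2 hω.le (by positivity)
      _ = 2 * s ^ 2 := by ring
  constructor
  · have l1 : Real.log M ≤ Real.log C + 3 * Real.log s := by
      refine (log_cast_le M (C * s ^ 3) hM2 ?_).trans ?_
      · calc (1 : ℝ) = 1 * 1 := by norm_num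
          _ ≤ C * s ^ 3 := mul_le_mul hC (one_le_pow₀ hs) (by norm_num) (by positivity)
      · rw [Real.log_mul (by positivity) (by positivity), Real.log_pow]
        push_cast
        linarith
    have l2 : Real.log N ≤ 1 + 2 * Real.log s := by
      refine (log_cast_le N (2 * s ^ 2) hN2 ?_).trans ?_
      · have : (1 : ℝ) ≤ s ^ 2 := one_le_pow₀ hs
        linarith
      · rw [Real.log_mul (by positivity) (by positivity), Real.log_pow]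
        have : Real.log 2 ≤ 1 := by
          have := Real.log_two_lt_d9
          linarith
        push_cast
        linarith
    have a1 : ∑ x ∈ Finset.Icc (-(M : ℤ)) M, fA x ≤
        (3 + 2 * Real.log C) * (1 + 4 * Real.log s) := by
      have := sum_fA M
      nlinarith [mul_nonneg hlC hls]
    have a2 : ∑ x ∈ Finset.Icc (-(N : ℤ)) N, fB x ≤ 4 * (1 + 4 * Real.log s) := by
      have := sum_fB N
      nlinarith
    calc (∑ x ∈ Finset.Icc (-(M : ℤ)) M, fA x) * (∑ x ∈ Finset.Icc (-(N : ℤ)) N, fB x) ≤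
        ((3 + 2 * Real.log C) * (1 + 4 * Real.log s)) * (4 * (1 + 4 * Real.log s)) :=
          mul_le_mul a1 a2 (Finset.sum_nonneg fun i _ => fB_nonneg i) (by positivity)
      _ = 4 * (3 + 2 * Real.log C) * (1 + 4 * Real.log s) ^ 2 := by ring
  · have b1 := sum_gA M
    have b2 := sum_gB N
    have hMN : √(M : ℝ) * √(N : ℝ) ≤ R := by
      rw [← Real.sqrt_mul (by positivity)]
      calc √((M : ℝ) * N) ≤ √((R / ω) * (R * ω)) :=
            Real.sqrt_le_sqrt (mul_le_mul hM1 hN1 (by positivity) (by positivity))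
        _ = √(R ^ 2) := by
            congr 1
            field_simp
        _ = R := Real.sqrt_sq hR0.le
    have hN3 : √(N : ℝ) ≤ 2 * R := by
      rw [Real.sqrt_le_left (by positivity)]
      have : (N : ℝ) ≤ R * 2 := hN1.trans (mul_le_mul_of_nonneg_left hω2 hR0.le)
      nlinarith
    calc (∑ x ∈ Finset.Icc (-(M : ℤ)) M, gA x) * (∑ x ∈ Finset.Icc (-(N : ℤ)) N, gB x) ≤
        (1 + 4 * √(M : ℝ)) * (4 * √(N : ℝ)) :=
          mul_le_mul b1 b2 (Finset.sum_nonneg fun i _ => gB_nonneg i) (by positivity)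
      _ = 4 * √(N : ℝ) + 16 * (√(M : ℝ) * √(N : ℝ)) := by ring
      _ ≤ 24 * R := by linarith

/-- The main count, in terms of `s = X^(1/4)`. -/
theorem main_s (hH : ∀ (K ω r : ℝ) (x z n : ℤ), 0 < K → 0 < ω → IsCoprime x z →
      r = max (|(x : ℝ)| * ω) (|(z : ℝ)| / ω) →
    {f : BQ ℤ | Bw K ω (toR f) ∧ f.ev x z = n}.Finite ∧
    (({f : BQ ℤ | Bw K ω (toR f) ∧ f.ev x z = n}.ncard : ℕ) : ℝ) ≤
      (1 + 16 * K * ω ^ 3 / r) * (1 + 16 * K * ω / r) * (1 + 16 * K / (ω * r)) *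
        (1 + 16 * K / (ω ^ 3 * r)))
    (C s ω R : ℝ) (hC : 1 ≤ C) (hs : 1 ≤ s) (hω : 0 < ω) (hω1 : 1 ≤ C * s * ω)
    (hω2 : ω ≤ 2) (hR1 : 1 ≤ R) (hR : R ≤ s ^ 2) :
    (GW C (s ^ 4) ω R).Finite ∧ ((GW C (s ^ 4) ω R).ncard : ℝ) ≤
      (8 * √(5 * C) * (16 * C) ^ 6) * (16 * (3 + 2 * Real.log C) + 48) *
        (s ^ 18 * (1 + 4 * Real.log s) ^ 2 + s ^ 17 * R) := by
  classical
  have hC0 : 0 < C := by linarith
  have hs0 : 0 < s := by linarith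
  have hR0 : 0 < R := by linarith
  have hlC : 0 ≤ Real.log C := Real.log_nonneg hC
  have hls : 0 ≤ Real.log s := Real.log_nonneg hs
  set M : ℕ := ⌊R / ω⌋₊ with hM
  set N : ℕ := ⌊R * ω⌋₊ with hN
  set F : Finset (ℤ × ℤ) := Finset.Icc (-(M : ℤ)) M ×ˢ Finset.Icc (-(N : ℤ)) N with hF
  set Box : Finset (ℤ × ℤ) := F.filter fun p => p.2 ≠ 0 ∧ IsCoprime p.1 p.2 ∧
    ((p.1 : ℝ) * ω) ^ 2 + ((p.2 : ℝ) / ω) ^ 2 ≤ R ^ 2 with hBox
  set rr : ℤ × ℤ → ℝ := fun p => max (|(p.1 : ℝ)| * ω) (|(p.2 : ℝ)| / ω) with hrr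
  have hr : ∀ p ∈ Box, 1 / 2 ≤ rr p ∧ rr p ≤ s ^ 2 := by
    intro p hp
    rw [hBox, Finset.mem_filter] at hp
    obtain ⟨_, hz, _, hb⟩ := hp
    have hz1 : (1 : ℝ) ≤ |(p.2 : ℝ)| := by
      have : (1 : ℤ) ≤ |p.2| := Int.one_le_abs hz
      exact_mod_cast this
    constructor
    · calc (1 : ℝ) / 2 ≤ |(p.2 : ℝ)| / ω := by
            rw [div_le_div_iff₀ (by norm_num) hω]
            linarith
        _ ≤ rr p := le_max_right _ _
    · have h1 : |(p.1 : ℝ)| * ω ≤ R := by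
        have : |(p.1 : ℝ) * ω| ≤ R := abs_le_of_sq_le_sq (by nlinarith [sq_nonneg ((p.2 : ℝ) / ω)]) hR0.le
        rwa [abs_mul, abs_of_pos hω] at this
      have h2 : |(p.2 : ℝ)| / ω ≤ R := by
        have : |(p.2 : ℝ) / ω| ≤ R := abs_le_of_sq_le_sq (by nlinarith [sq_nonneg ((p.1 : ℝ) * ω)]) hR0.le
        rwa [abs_div, abs_of_pos hω] at this
      exact (max_le h1 h2).trans hR
  have hfix : ∀ p ∈ Box, (DD (C * s ^ 4) ω p.1 p.2).Finite ∧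
      (((DD (C * s ^ 4) ω p.1 p.2).ncard : ℕ) : ℝ) ≤
      8 * √(5 * C) * (16 * C) ^ 6 * (s ^ 18 / rr p ^ 2 + s ^ 17 / rr p) := by
    intro p hp
    have h := hr p hp
    rw [hBox, Finset.mem_filter] at hp
    exact fixed hH C s ω (rr p) p.1 p.2 hC hs hω hω1 hω2 rfl h.1 h.2 hp.2.2.1
  have hsub : GW C (s ^ 4) ω R ⊆ ⋃ p ∈ Box, DD (C * s ^ 4) ω p.1 p.2 := by
    rintro f ⟨hf, x, z, e, hz, hxz, he, hfe, hb⟩
    rw [Set.mem_iUnion₂]
    refine ⟨(x, z), ?_, hf, e, he, hfe⟩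
    rw [hBox, Finset.mem_filter, hF, Finset.mem_product]
    have h1 : |(x : ℝ)| * ω ≤ R := by
      have : |(x : ℝ) * ω| ≤ R := abs_le_of_sq_le_sq (by nlinarith [sq_nonneg ((z : ℝ) / ω)]) hR0.le
      rwa [abs_mul, abs_of_pos hω] at this
    have h2 : |(z : ℝ)| / ω ≤ R := by
      have : |(z : ℝ) / ω| ≤ R := abs_le_of_sq_le_sq (by nlinarith [sq_nonneg ((x : ℝ) * ω)]) hR0.le
      rwa [abs_div, abs_of_pos hω] at this
    have h3 : x.natAbs ≤ M := by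
      apply Nat.le_floor
      rw [le_div_iff₀ hω, Nat.cast_natAbs]
      push_cast
      exact h1
    have h4 : z.natAbs ≤ N := by
      apply Nat.le_floor
      rw [Nat.cast_natAbs]
      push_cast
      rwa [div_le_iff₀ hω] at h2
    refine ⟨⟨?_, ?_⟩, hz, hxz, hb⟩
    · rw [Finset.mem_Icc]
      constructor <;> simp only <;> omega
    · rw [Finset.mem_Icc]
      constructor <;> simp only <;> omega
  have hUf : (⋃ p ∈ Box, DD (C * s ^ 4) ω p.1 p.2).Finite :=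
    Set.Finite.biUnion (Finset.finite_toSet _) fun p hp => (hfix p hp).1
  refine ⟨hUf.subset hsub, ?_⟩
  set c1 : ℝ := 8 * √(5 * C) * (16 * C) ^ 6 with hc1
  have hc10 : 0 ≤ c1 := by positivity
  have k1 : ((GW C (s ^ 4) ω R).ncard : ℝ) ≤ ∑ p ∈ Box, (((DD (C * s ^ 4) ω p.1 p.2).ncard : ℕ) : ℝ) := by
    have := (Set.ncard_le_ncard hsub hUf).trans (Finset.set_ncard_biUnion_le _ _)
    exact_mod_cast this
  have k2 : ∑ p ∈ Box, (((DD (C * s ^ 4) ω p.1 p.2).ncard : ℕ) : ℝ) ≤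
      ∑ p ∈ Box, c1 * (s ^ 18 * (4 * (fA p.1 * fB p.2)) + s ^ 17 * (2 * (gA p.1 * gB p.2))) := by
    refine Finset.sum_le_sum fun p hp => (hfix p hp).2.trans ?_
    have h := hr p hp
    rw [hBox, Finset.mem_filter] at hp
    have h5 := pt ω (rr p) p.1 p.2 hω rfl h.1 hp.2.1 hp.2.2.1
    refine mul_le_mul_of_nonneg_left ?_ hc10
    have e1 : s ^ 18 / rr p ^ 2 = s ^ 18 * (1 / rr p ^ 2) := by ring
    have e2 : s ^ 17 / rr p = s ^ 17 * (1 / rr p) := by ring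
    rw [e1, e2]
    exact add_le_add (mul_le_mul_of_nonneg_left h5.1 (by positivity))
      (mul_le_mul_of_nonneg_left h5.2 (by positivity))
  have k3 : ∑ p ∈ Box, c1 * (s ^ 18 * (4 * (fA p.1 * fB p.2)) + s ^ 17 * (2 * (gA p.1 * gB p.2))) ≤
      ∑ p ∈ F, c1 * (s ^ 18 * (4 * (fA p.1 * fB p.2)) + s ^ 17 * (2 * (gA p.1 * gB p.2))) := by
    refine Finset.sum_le_sum_of_subset_of_nonneg (Finset.filter_subset _ _) fun p _ _ => ?_
    have := fA_nonneg p.1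
    have := fB_nonneg p.2
    have := gA_nonneg p.1
    have := gB_nonneg p.2
    positivity
  have k4 : ∑ p ∈ F, c1 * (s ^ 18 * (4 * (fA p.1 * fB p.2)) + s ^ 17 * (2 * (gA p.1 * gB p.2))) =
      c1 * (s ^ 18 * (4 * ((∑ x ∈ Finset.Icc (-(M : ℤ)) M, fA x) *
        (∑ z ∈ Finset.Icc (-(N : ℤ)) N, fB z))) +
        s ^ 17 * (2 * ((∑ x ∈ Finset.Icc (-(M : ℤ)) M, gA x) *
        (∑ z ∈ Finset.Icc (-(N : ℤ)) N, gB z)))) := by
    rw [← Finset.mul_sum, Finset.sum_add_distrib, ← Finset.mul_sum, ← Finset.mul_sum,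
      ← Finset.mul_sum, ← Finset.mul_sum, hF, Finset.sum_mul_sum, Finset.sum_mul_sum,
      Finset.sum_product, Finset.sum_product]
  obtain ⟨m1, m2⟩ := box_sums C s ω R hC hs hω hω1 hω2 hR1 hR
  rw [← hM, ← hN] at m1 m2
  have hL2 : 0 ≤ s ^ 18 * (1 + 4 * Real.log s) ^ 2 := by positivity
  have hL3 : 0 ≤ s ^ 17 * R := by positivity
  calc ((GW C (s ^ 4) ω R).ncard : ℝ) ≤ c1 * (s ^ 18 * (4 * ((∑ x ∈ Finset.Icc (-(M : ℤ)) M, fA x) *
        (∑ z ∈ Finset.Icc (-(N : ℤ)) N, fB z))) +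
        s ^ 17 * (2 * ((∑ x ∈ Finset.Icc (-(M : ℤ)) M, gA x) *
        (∑ z ∈ Finset.Icc (-(N : ℤ)) N, gB z)))) := by
        rw [← k4]
        exact k1.trans (k2.trans k3)
    _ ≤ c1 * (s ^ 18 * (4 * (4 * (3 + 2 * Real.log C) * (1 + 4 * Real.log s) ^ 2)) +
        s ^ 17 * (2 * (24 * R))) := by
        gcongr
    _ = c1 * (16 * (3 + 2 * Real.log C) * (s ^ 18 * (1 + 4 * Real.log s) ^ 2) +
        48 * (s ^ 17 * R)) := by ring
    _ ≤ c1 * (16 * (3 + 2 * Real.log C) + 48) *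
        (s ^ 18 * (1 + 4 * Real.log s) ^ 2 + s ^ 17 * R) := by
        rw [mul_assoc c1]
        refine mul_le_mul_of_nonneg_left ?_ hc10
        have : 0 ≤ 16 * (3 + 2 * Real.log C) := by positivity
        nlinarith [mul_nonneg this hL3]

end ICW

theorem pg_CW : S_CW := by
  intro hH C hC
  have hC0 : 0 < C := by linarith
  have hlC : 0 ≤ Real.log C := Real.log_nonneg hC
  refine ⟨(8 * √(5 * C) * (16 * C) ^ 6) * (16 * (3 + 2 * Real.log C) + 48), by positivity, ?_⟩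
  intro X ω R hX hω1 hω2 hR1 hR
  have hX0 : 0 < X := by linarith
  set s : ℝ := X ^ ((1 : ℝ) / 4) with hs
  have hs0 : 0 < s := Real.rpow_pos_of_pos hX0 _
  have hs1 : 1 ≤ s := Real.one_le_rpow hX (by norm_num)
  have hpow : ∀ n : ℕ, s ^ n = X ^ ((n : ℝ) / 4) := by
    intro n
    rw [hs, ← Real.rpow_natCast, ← Real.rpow_mul hX0.le]
    congr 1
    ring
  have e4 : s ^ 4 = X := by
    rw [hpow 4]
    norm_num
  have e2 : √X = s ^ 2 := by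
    rw [hpow 2, Real.sqrt_eq_rpow]
    congr 1
    norm_num
  have e18 : X ^ ((9 : ℝ) / 2) = s ^ 18 := by
    rw [hpow 18]
    congr 1
    norm_num
  have e17 : X ^ ((17 : ℝ) / 4) = s ^ 17 := by
    rw [hpow 17]
    congr 1
  have em : X ^ (-(1 / 4) : ℝ) = 1 / s := by
    rw [Real.rpow_neg hX0.le]
    exact (one_div s).symm
  have eL : Real.log X = 4 * Real.log s := by
    rw [← e4, Real.log_pow]
    push_cast
    ring
  have hω : 0 < ω := by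
    refine lt_of_lt_of_le ?_ hω1
    have := Real.rpow_pos_of_pos hX0 (-(1 / 4) : ℝ)
    positivity
  have hω3 : 1 ≤ C * s * ω := by
    rw [em, div_div, div_le_iff₀ (by positivity)] at hω1
    linarith
  have h := ICW.main_s hH C s ω R hC hs1 hω hω3 hω2 hR1 (by rw [← e2]; exact hR)
  rw [e4, ← eL, ← e18, ← e17] at h
  exact h

end Pool.Agent.Work.MP_bd3ec3_nt.SG
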