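import Pool.Agent.Work.MP_bd3ec3_nt.SG.StmtsT

/-!
# MP_bd3ec3_nt, block SG, item DU: duplication and heights
-/

set_option autoImplicit false

namespace Pool.Agent.Work.MP_bd3ec3_nt.SG

open Pool.Agent.Work.MP_bd3ec3_nt.SP

namespace IDU

theorem mon {α β p q : ℝ} (hα : |α| ≤ 1) (hβ : |β| ≤ 1) (hp : |p| ≤ 1) (hq : |q| ≤ 1) (i j k l : ℕ) :
    |α ^ i * β ^ j * p ^ k * q ^ l| ≤ 1 := by
  rw [abs_mul, abs_mul, abs_mul, abs_pow, abs_pow, abs_pow, abs_pow]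
  have h1 := pow_le_one₀ (n := i) (abs_nonneg α) hα
  have h2 := pow_le_one₀ (n := j) (abs_nonneg β) hβ
  have h3 := pow_le_one₀ (n := k) (abs_nonneg p) hp
  have h4 := pow_le_one₀ (n := l) (abs_nonneg q) hq
  exact mul_le_one₀ (mul_le_one₀ (mul_le_one₀ h1 (by positivity) h2) (by positivity) h3) (by positivity) h4

theorem comb {f g N D m a b : ℝ} (hf : |f| ≤ a) (hg : |g| ≤ b) (hN : |N| ≤ m) (hD : |D| ≤ m) :
    |f * N + g * D| ≤ (a + b) * m := by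
  have h1 : |f * N| ≤ a * m := by
    rw [abs_mul]
    exact mul_le_mul hf hN (abs_nonneg _) ((abs_nonneg _).trans hf)
  have h2 : |g * D| ≤ b * m := by
    rw [abs_mul]
    exact mul_le_mul hg hD (abs_nonneg _) ((abs_nonneg _).trans hg)
  calc |f * N + g * D| ≤ |f * N| + |g * D| := abs_add_le _ _
    _ ≤ (a + b) * m := by linarith

theorem key {α β p q m : ℝ} (hα : |α| ≤ 1) (hβ : |β| ≤ 1) (hp : |p| ≤ 1) (hq : |q| ≤ 1)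
    (h : |p| = 1 ∨ |q| = 1) (hN : |p ^ 4 - 2 * α * p ^ 2 * q ^ 2 - 8 * β * p * q ^ 3 + α ^ 2 * q ^ 4| ≤ m)
    (hD : |4 * (p ^ 3 * q + α * p * q ^ 3 + β * q ^ 4)| ≤ m) :
    4 * |4 * α ^ 3 + 27 * β ^ 2| ≤ 619 * m := by
  have hm : 0 ≤ m := (abs_nonneg _).trans hN
  have M := mon hα hβ hp hq
  rcases h with h | h
  · have e : 4 * (4 * α ^ 3 + 27 * β ^ 2) * p ^ 7 =
        (4 * (4 * α ^ 3 + 27 * β ^ 2) * p ^ 3 - 4 * α ^ 2 * β * p ^ 2 * q + 4 * α * (3 * α ^ 3 + 22 * β ^ 2) * p * q ^ 2 +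
          12 * β * (α ^ 3 + 8 * β ^ 2) * q ^ 3) *
          (p ^ 4 - 2 * α * p ^ 2 * q ^ 2 - 8 * β * p * q ^ 3 + α ^ 2 * q ^ 4) +
        (α ^ 2 * β * p ^ 3 + α * (5 * α ^ 3 + 32 * β ^ 2) * p ^ 2 * q + 2 * β * (13 * α ^ 3 + 96 * β ^ 2) * p * q ^ 2 -
          3 * α ^ 2 * (α ^ 3 + 8 * β ^ 2) * q ^ 3) * (4 * (p ^ 3 * q + α * p * q ^ 3 + β * q ^ 4)) := by ring
    have hf : |4 * (4 * α ^ 3 + 27 * β ^ 2) * p ^ 3 - 4 * α ^ 2 * β * p ^ 2 * q + 4 * α * (3 * α ^ 3 + 22 * β ^ 2) * p * q ^ 2 +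
          12 * β * (α ^ 3 + 8 * β ^ 2) * q ^ 3| ≤ 336 := by
      have m1 := abs_le.mp (M 3 0 3 0)
      have m2 := abs_le.mp (M 0 2 3 0)
      have m3 := abs_le.mp (M 2 1 2 1)
      have m4 := abs_le.mp (M 4 0 1 2)
      have m5 := abs_le.mp (M 1 2 1 2)
      have m6 := abs_le.mp (M 3 1 0 3)
      have m7 := abs_le.mp (M 0 3 0 3)
      simp only [pow_zero, pow_one, mul_one, one_mul] at m1 m2 m3 m4 m5 m6 m7
      rw [abs_le]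
      constructor <;> linarith [m1.1, m1.2, m2.1, m2.2, m3.1, m3.2, m4.1, m4.2, m5.1, m5.2, m6.1, m6.2, m7.1, m7.2]
    have hg : |α ^ 2 * β * p ^ 3 + α * (5 * α ^ 3 + 32 * β ^ 2) * p ^ 2 * q + 2 * β * (13 * α ^ 3 + 96 * β ^ 2) * p * q ^ 2 -
          3 * α ^ 2 * (α ^ 3 + 8 * β ^ 2) * q ^ 3| ≤ 283 := by
      have m1 := abs_le.mp (M 2 1 3 0)
      have m2 := abs_le.mp (M 4 0 2 1)
      have m3 := abs_le.mp (M 1 2 2 1)
      have m4 := abs_le.mp (M 3 1 1 2)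
      have m5 := abs_le.mp (M 0 3 1 2)
      have m6 := abs_le.mp (M 5 0 0 3)
      have m7 := abs_le.mp (M 2 2 0 3)
      simp only [pow_zero, pow_one, mul_one, one_mul] at m1 m2 m3 m4 m5 m6 m7
      rw [abs_le]
      constructor <;> linarith [m1.1, m1.2, m2.1, m2.2, m3.1, m3.2, m4.1, m4.2, m5.1, m5.2, m6.1, m6.2, m7.1, m7.2]
    have h1 := comb hf hg hN hD
    rw [← e, abs_mul, abs_mul, abs_pow, h, one_pow, mul_one, abs_of_pos (by norm_num : (0 : ℝ) < 4)] at h1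
    linarith
  · have e : 4 * (4 * α ^ 3 + 27 * β ^ 2) * q ^ 7 =
        (12 * p ^ 2 * q + 16 * α * q ^ 3) * (p ^ 4 - 2 * α * p ^ 2 * q ^ 2 - 8 * β * p * q ^ 3 + α ^ 2 * q ^ 4) +
        (-(3 * p ^ 3 - 5 * α * p * q ^ 2 - 27 * β * q ^ 3)) * (4 * (p ^ 3 * q + α * p * q ^ 3 + β * q ^ 4)) := by ring
    have hf : |12 * p ^ 2 * q + 16 * α * q ^ 3| ≤ 28 := by
      have m1 := abs_le.mp (M 0 0 2 1)
      have m2 := abs_le.mp (M 1 0 0 3)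
      simp only [pow_zero, pow_one, mul_one, one_mul] at m1 m2
      rw [abs_le]
      constructor <;> linarith [m1.1, m1.2, m2.1, m2.2]
    have hg : |-(3 * p ^ 3 - 5 * α * p * q ^ 2 - 27 * β * q ^ 3)| ≤ 35 := by
      have m1 := abs_le.mp (M 0 0 3 0)
      have m2 := abs_le.mp (M 1 0 1 2)
      have m3 := abs_le.mp (M 0 1 0 3)
      simp only [pow_zero, pow_one, mul_one, one_mul] at m1 m2 m3
      rw [abs_le]
      constructor <;> linarith [m1.1, m1.2, m2.1, m2.2, m3.1, m3.2]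
    have h1 := comb hf hg hN hD
    rw [← e, abs_mul, abs_mul, abs_pow, h, one_pow, mul_one, abs_of_pos (by norm_num : (0 : ℝ) < 4)] at h1
    linarith

/-- The scaled form. -/
theorem key2 {X a b U V : ℝ} (hX : 1 ≤ X) (hV : 0 < V) (ha : |a| ≤ X ^ 2) (hb : |b| ≤ X ^ 3) :
    4 * |4 * a ^ 3 + 27 * b ^ 2| * (max |U| (V * X)) ^ 4 ≤
      619 * X ^ 6 * max |U ^ 4 - 2 * a * U ^ 2 * V ^ 2 - 8 * b * U * V ^ 3 + a ^ 2 * V ^ 4|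
        (|4 * (U ^ 3 * V + a * U * V ^ 3 + b * V ^ 4)| * X) := by
  have hX0 : 0 < X := by linarith
  obtain ⟨w, hw⟩ : ∃ w, w = max |U| (V * X) := ⟨_, rfl⟩
  rw [← hw]
  have hVX : 0 < V * X := by positivity
  have hw0 : 0 < w := by rw [hw]; exact lt_of_lt_of_le hVX (le_max_right _ _)
  obtain ⟨α, hα⟩ : ∃ α, α = a / X ^ 2 := ⟨_, rfl⟩
  obtain ⟨β, hβ⟩ : ∃ β, β = b / X ^ 3 := ⟨_, rfl⟩
  obtain ⟨p, hp⟩ : ∃ p, p = U / w := ⟨_, rfl⟩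
  obtain ⟨q, hq⟩ : ∃ q, q = V * X / w := ⟨_, rfl⟩
  have ea : a = α * X ^ 2 := by rw [hα]; field_simp
  have eb : b = β * X ^ 3 := by rw [hβ]; field_simp
  have eU : U = w * p := by rw [hp]; field_simp
  have eV : V = w * q / X := by rw [hq]; field_simp
  have hα1 : |α| ≤ 1 := by
    rw [hα, abs_div, abs_of_pos (by positivity : 0 < X ^ 2), div_le_one (by positivity)]; exact ha
  have hβ1 : |β| ≤ 1 := by
    rw [hβ, abs_div, abs_of_pos (by positivity : 0 < X ^ 3), div_le_one (by positivity)]; exact hb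
  have hp1 : |p| ≤ 1 := by
    rw [hp, abs_div, abs_of_pos hw0, div_le_one hw0, hw]; exact le_max_left _ _
  have hq1 : |q| ≤ 1 := by
    rw [hq, abs_div, abs_of_pos hw0, abs_of_pos hVX, div_le_one hw0, hw]; exact le_max_right _ _
  have hpq : |p| = 1 ∨ |q| = 1 := by
    rcases max_choice |U| (V * X) with h | h
    · left
      rw [hp, abs_div, abs_of_pos hw0, ← h, ← hw, div_self hw0.ne']
    · right
      rw [hq, abs_div, abs_of_pos hw0, abs_of_pos hVX, ← h, ← hw, div_self hw0.ne']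
  obtain ⟨m, hm⟩ : ∃ m, m = max |U ^ 4 - 2 * a * U ^ 2 * V ^ 2 - 8 * b * U * V ^ 3 + a ^ 2 * V ^ 4|
        (|4 * (U ^ 3 * V + a * U * V ^ 3 + b * V ^ 4)| * X) := ⟨_, rfl⟩
  rw [← hm]
  have e1 : U ^ 4 - 2 * a * U ^ 2 * V ^ 2 - 8 * b * U * V ^ 3 + a ^ 2 * V ^ 4 =
      w ^ 4 * (p ^ 4 - 2 * α * p ^ 2 * q ^ 2 - 8 * β * p * q ^ 3 + α ^ 2 * q ^ 4) := by
    rw [ea, eb, eU, eV]; field_simp
  have e2 : 4 * (U ^ 3 * V + a * U * V ^ 3 + b * V ^ 4) * X =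
      w ^ 4 * (4 * (p ^ 3 * q + α * p * q ^ 3 + β * q ^ 4)) := by
    rw [ea, eb, eU, eV]; field_simp
  have e3 : 4 * a ^ 3 + 27 * b ^ 2 = X ^ 6 * (4 * α ^ 3 + 27 * β ^ 2) := by
    rw [ea, eb]; ring
  have hw4 : 0 < w ^ 4 := by positivity
  have k1 : |p ^ 4 - 2 * α * p ^ 2 * q ^ 2 - 8 * β * p * q ^ 3 + α ^ 2 * q ^ 4| ≤ m / w ^ 4 := by
    rw [le_div_iff₀ hw4]
    have h1 : |U ^ 4 - 2 * a * U ^ 2 * V ^ 2 - 8 * b * U * V ^ 3 + a ^ 2 * V ^ 4| ≤ m := by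
      rw [hm]; exact le_max_left _ _
    rw [e1, abs_mul, abs_of_pos hw4] at h1
    linarith
  have k2 : |4 * (p ^ 3 * q + α * p * q ^ 3 + β * q ^ 4)| ≤ m / w ^ 4 := by
    rw [le_div_iff₀ hw4]
    have h1 : |4 * (U ^ 3 * V + a * U * V ^ 3 + b * V ^ 4)| * X ≤ m := by
      rw [hm]; exact le_max_right _ _
    have h2 : |4 * (U ^ 3 * V + a * U * V ^ 3 + b * V ^ 4)| * X =
        |4 * (U ^ 3 * V + a * U * V ^ 3 + b * V ^ 4) * X| := by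
      rw [abs_mul _ X, abs_of_pos hX0]
    rw [h2, e2, abs_mul, abs_of_pos hw4] at h1
    linarith
  have k3 := key hα1 hβ1 hp1 hq1 hpq k1 k2
  rw [e3, abs_mul, abs_of_pos (by positivity : 0 < X ^ 6)]
  have k4 : 4 * |4 * α ^ 3 + 27 * β ^ 2| * w ^ 4 ≤ 619 * m := by
    calc 4 * |4 * α ^ 3 + 27 * β ^ 2| * w ^ 4 ≤ 619 * (m / w ^ 4) * w ^ 4 :=
          mul_le_mul_of_nonneg_right k3 hw4.le
      _ = 619 * m := by field_simp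
  calc 4 * (X ^ 6 * |4 * α ^ 3 + 27 * β ^ 2|) * w ^ 4 = X ^ 6 * (4 * |4 * α ^ 3 + 27 * β ^ 2| * w ^ 4) := by ring
    _ ≤ X ^ 6 * (619 * m) := mul_le_mul_of_nonneg_left k4 (by positivity)
    _ = 619 * X ^ 6 * m := by ring

/-- The common factor of numerator and denominator divides `4 Δ`. -/
theorem gfac (A B u v : ℤ) (x : ℚ) (hc : IsCoprime u v)
    (hx : x * (4 * (u ^ 3 * v + A * u * v ^ 3 + B * v ^ 4) : ℤ) =
      (u ^ 4 - 2 * A * u ^ 2 * v ^ 2 - 8 * B * u * v ^ 3 + A ^ 2 * v ^ 4 : ℤ)) :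
    ∃ g : ℤ, g ∣ 4 * (4 * A ^ 3 + 27 * B ^ 2) ∧
      u ^ 4 - 2 * A * u ^ 2 * v ^ 2 - 8 * B * u * v ^ 3 + A ^ 2 * v ^ 4 = g * x.num ∧
      4 * (u ^ 3 * v + A * u * v ^ 3 + B * v ^ 4) = g * x.den := by
  obtain ⟨N, hN⟩ : ∃ N, N = u ^ 4 - 2 * A * u ^ 2 * v ^ 2 - 8 * B * u * v ^ 3 + A ^ 2 * v ^ 4 := ⟨_, rfl⟩
  obtain ⟨D, hD⟩ : ∃ D, D = 4 * (u ^ 3 * v + A * u * v ^ 3 + B * v ^ 4) := ⟨_, rfl⟩
  rw [← hN, ← hD] at hx
  have hden : (x.den : ℚ) ≠ 0 := by exact_mod_cast x.den_nz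
  have h1 : (x.num : ℚ) * D = N * x.den := by
    rw [← hx]
    have h2 : x * x.den = x.num := Rat.mul_den_eq_num x
    rw [← h2]; ring
  have h2 : x.num * D = N * x.den := by exact_mod_cast h1
  have hcop : IsCoprime (x.den : ℤ) x.num := by
    rw [Int.isCoprime_iff_gcd_eq_one, Int.gcd_comm]
    exact x.reduced
  have h3 : (x.den : ℤ) ∣ D := by
    refine hcop.dvd_of_dvd_mul_left ?_
    rw [h2]
    exact dvd_mul_left _ _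
  obtain ⟨g, hg⟩ := h3
  have hdz : (x.den : ℤ) ≠ 0 := by exact_mod_cast x.den_nz
  have hNg : N = g * x.num := by
    have h4 : N * x.den = (g * x.num) * x.den := by
      rw [← h2, hg]; ring
    exact mul_right_cancel₀ hdz h4
  have hDg : D = g * x.den := by rw [hg]; ring
  refine ⟨g, ?_, by rw [← hN]; exact hNg, by rw [← hD]; exact hDg⟩
  have i1 : 4 * (4 * A ^ 3 + 27 * B ^ 2) * v ^ 7 = (12 * u ^ 2 * v + 16 * A * v ^ 3) * N -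
      (3 * u ^ 3 - 5 * A * u * v ^ 2 - 27 * B * v ^ 3) * D := by rw [hN, hD]; ring
  have i2 : 4 * (4 * A ^ 3 + 27 * B ^ 2) * u ^ 7 =
        (4 * (4 * A ^ 3 + 27 * B ^ 2) * u ^ 3 - 4 * A ^ 2 * B * u ^ 2 * v + 4 * A * (3 * A ^ 3 + 22 * B ^ 2) * u * v ^ 2 +
          12 * B * (A ^ 3 + 8 * B ^ 2) * v ^ 3) * N +
        (A ^ 2 * B * u ^ 3 + A * (5 * A ^ 3 + 32 * B ^ 2) * u ^ 2 * v + 2 * B * (13 * A ^ 3 + 96 * B ^ 2) * u * v ^ 2 -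
          3 * A ^ 2 * (A ^ 3 + 8 * B ^ 2) * v ^ 3) * D := by rw [hN, hD]; ring
  have gN : g ∣ N := ⟨_, hNg⟩
  have gD : g ∣ D := ⟨_, hDg⟩
  have d1 : g ∣ 4 * (4 * A ^ 3 + 27 * B ^ 2) * v ^ 7 := by
    rw [i1]; exact dvd_sub (gN.mul_left _) (gD.mul_left _)
  have d2 : g ∣ 4 * (4 * A ^ 3 + 27 * B ^ 2) * u ^ 7 := by
    rw [i2]; exact dvd_add (gN.mul_left _) (gD.mul_left _)
  obtain ⟨r, s, hrs⟩ := (hc.pow (m := 7) (n := 7))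
  have e : 4 * (4 * A ^ 3 + 27 * B ^ 2) = r * (4 * (4 * A ^ 3 + 27 * B ^ 2) * u ^ 7) +
      s * (4 * (4 * A ^ 3 + 27 * B ^ 2) * v ^ 7) := by
    calc 4 * (4 * A ^ 3 + 27 * B ^ 2) = 4 * (4 * A ^ 3 + 27 * B ^ 2) * (r * u ^ 7 + s * v ^ 7) := by rw [hrs, mul_one]
      _ = _ := by ring
  rw [e]
  exact dvd_add (d2.mul_left _) (d1.mul_left _)

/-- The strong form: no discriminant. -/
theorem strong (X : ℝ) (A B u v : ℤ) (x : ℚ) (hX : 1 ≤ X) (hv : 0 < v) (hc : IsCoprime u v)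
    (hA : |(A : ℝ)| ≤ X ^ 2) (hB : |(B : ℝ)| ≤ X ^ 3) (hΔ : 4 * A ^ 3 + 27 * B ^ 2 ≠ 0)
    (hx : x * (4 * (u ^ 3 * v + A * u * v ^ 3 + B * v ^ 4) : ℤ) =
      (u ^ 4 - 2 * A * u ^ 2 * v ^ 2 - 8 * B * u * v ^ 3 + A ^ 2 * v ^ 4 : ℤ)) :
    (max |(u : ℝ)| (v * X)) ^ 4 ≤ 619 * X ^ 6 * max |(x.num : ℝ)| (x.den * X) := by
  have hX0 : 0 < X := by linarith
  obtain ⟨g, hg, hN, hD⟩ := gfac A B u v x hc hx
  have hvR : (0 : ℝ) < v := by exact_mod_cast hv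
  have h1 := key2 (U := (u : ℝ)) hX hvR hA hB
  have hNR : (u : ℝ) ^ 4 - 2 * A * u ^ 2 * v ^ 2 - 8 * B * u * v ^ 3 + A ^ 2 * v ^ 4 = g * x.num := by exact_mod_cast hN
  have hDR : 4 * ((u : ℝ) ^ 3 * v + A * u * v ^ 3 + B * v ^ 4) = g * x.den := by exact_mod_cast hD
  rw [hNR, hDR, abs_mul, abs_mul, Nat.abs_cast, mul_assoc |(g : ℝ)| (x.den : ℝ) X,
    ← mul_max_of_nonneg _ _ (abs_nonneg (g : ℝ))] at h1
  have hΔR : (0 : ℝ) < |4 * (A : ℝ) ^ 3 + 27 * (B : ℝ) ^ 2| := by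
    rw [abs_pos]; exact_mod_cast hΔ
  have hgR : |(g : ℝ)| ≤ 4 * |4 * (A : ℝ) ^ 3 + 27 * (B : ℝ) ^ 2| := by
    have h2 : |g| ≤ |4 * (4 * A ^ 3 + 27 * B ^ 2)| := by
      refine Int.le_of_dvd (abs_pos.mpr (mul_ne_zero (by norm_num) hΔ)) ?_
      rwa [abs_dvd_abs]
    have h3 : |(g : ℝ)| ≤ |4 * (4 * (A : ℝ) ^ 3 + 27 * (B : ℝ) ^ 2)| := by exact_mod_cast h2
    rwa [abs_mul, abs_of_pos (by norm_num : (0 : ℝ) < 4)] at h3
  obtain ⟨M, hM⟩ : ∃ M, M = max |(x.num : ℝ)| (x.den * X) := ⟨_, rfl⟩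
  rw [← hM] at h1 ⊢
  have hM0 : 0 ≤ M := by rw [hM]; exact (abs_nonneg _).trans (le_max_left _ _)
  obtain ⟨d, hd⟩ : ∃ d, d = |4 * (A : ℝ) ^ 3 + 27 * (B : ℝ) ^ 2| := ⟨_, rfl⟩
  rw [← hd] at h1 hgR hΔR
  have h4 : 619 * X ^ 6 * (|(g : ℝ)| * M) ≤ 619 * X ^ 6 * (4 * d * M) := by
    refine mul_le_mul_of_nonneg_left ?_ (by positivity)
    exact mul_le_mul_of_nonneg_right hgR hM0
  have h5 : (4 * d) * (max |(u : ℝ)| (v * X)) ^ 4 ≤ (4 * d) * (619 * X ^ 6 * M) := by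
    calc (4 * d) * (max |(u : ℝ)| (v * X)) ^ 4 ≤ 619 * X ^ 6 * (|(g : ℝ)| * M) := h1
      _ ≤ 619 * X ^ 6 * (4 * d * M) := h4
      _ = _ := by ring
  exact le_of_mul_le_mul_left h5 (by positivity)

end IDU

open IDU in
/-- [DU] -/
theorem pg_DU : S_DU := by
  intro X A B u v x hX hv hc hA hB hΔ _ hx
  have hX0 : 0 < X := by linarith
  have h1 := strong X A B u v x hX hv hc hA hB hΔ hx
  obtain ⟨M, hM⟩ : ∃ M, M = max |(x.num : ℝ)| (x.den * X) := ⟨_, rfl⟩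
  rw [← hM] at h1 ⊢
  have hM0 : 0 ≤ M := by rw [hM]; exact (abs_nonneg _).trans (le_max_left _ _)
  have h2 : |4 * (A : ℝ) ^ 3 + 27 * (B : ℝ) ^ 2| ≤ 31 * X ^ 6 := by
    have a1 : |(A : ℝ) ^ 3| ≤ X ^ 6 := by
      rw [abs_pow]
      calc |(A : ℝ)| ^ 3 ≤ (X ^ 2) ^ 3 := pow_le_pow_left₀ (abs_nonneg _) hA 3
        _ = X ^ 6 := by ring
    have a2 : |(B : ℝ) ^ 2| ≤ X ^ 6 := by
      rw [abs_pow]
      calc |(B : ℝ)| ^ 2 ≤ (X ^ 3) ^ 2 := pow_le_pow_left₀ (abs_nonneg _) hB 2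
        _ = X ^ 6 := by ring
    rw [abs_le] at a1 a2 ⊢
    constructor <;> linarith [a1.1, a1.2, a2.1, a2.2]
  calc |4 * (A : ℝ) ^ 3 + 27 * (B : ℝ) ^ 2| * (max |(u : ℝ)| (v * X)) ^ 4
      ≤ (31 * X ^ 6) * (619 * X ^ 6 * M) := mul_le_mul h2 h1 (by positivity) (by positivity)
    _ = 19189 * (X ^ 12 * M) := by ring
    _ ≤ 20000 * (X ^ 12 * M) := by
        have : 0 ≤ X ^ 12 * M := by positivity
        linarith
    _ = 20000 * X ^ 12 * M := by ring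

end Pool.Agent.Work.MP_bd3ec3_nt.SG
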