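import Pool.Agent.Work.MP_bd3ec3_nt.SG.StmtsT

/-!
# MP_bd3ec3_nt, block SG: item F3 (the question; the same proof as in SG/I_FG.lean)
-/

set_option autoImplicit false

namespace Pool.Agent.Work.MP_bd3ec3_nt.SG

open Pool.Agent.Work.MP_bd3ec3_nt.SP Filter Topology

namespace IF3

theorem abs_le_sq (B : ℤ) : |(B : ℝ)| ≤ |27 * (B : ℝ) ^ 2| := by
  have h1 : |B| ≤ 27 * B ^ 2 := by
    by_cases h : B = 0
    · rw [h]; simp
    · have h2 : 1 ≤ |B| := Int.one_le_abs h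
      nlinarith [sq_abs B]
  have h2 : ((|B| : ℤ) : ℝ) ≤ ((27 * B ^ 2 : ℤ) : ℝ) := by exact_mod_cast h1
  rw [Int.cast_abs] at h2
  push_cast at h2
  exact h2.trans (le_abs_self _)

theorem abs_le_cube (A : ℤ) : |(A : ℝ)| ≤ |4 * (A : ℝ) ^ 3| := by
  have h1 : |A| ≤ 4 * |A| ^ 3 := by
    by_cases h : A = 0
    · rw [h]; simp
    · have h2 : 1 ≤ |A| := Int.one_le_abs h
      nlinarith [mul_nonneg (sub_nonneg.mpr h2) (abs_nonneg A), mul_nonneg (mul_nonneg (sub_nonneg.mpr h2)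
        (abs_nonneg A)) (abs_nonneg A)]
  have h2 : ((|A| : ℤ) : ℝ) ≤ ((4 * |A| ^ 3 : ℤ) : ℝ) := by exact_mod_cast h1
  rw [abs_mul, abs_pow]
  push_cast at h2
  rw [abs_of_pos (by norm_num : (0 : ℝ) < 4)]
  exact h2

theorem box_finite (H : ℝ) : {p : ℤ × ℤ | ht p.1 p.2 ≤ H}.Finite := by
  apply Set.Finite.subset ((Set.finite_Icc (-⌈H⌉) ⌈H⌉).prod (Set.finite_Icc (-⌈H⌉) ⌈H⌉))
  rintro ⟨A, B⟩ hp
  have h0 : max |4 * (A : ℝ) ^ 3| |27 * (B : ℝ) ^ 2| ≤ H := hp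
  have hA : |(A : ℝ)| ≤ H := (abs_le_cube A).trans ((le_max_left _ _).trans h0)
  have hB : |(B : ℝ)| ≤ H := (abs_le_sq B).trans ((le_max_right _ _).trans h0)
  have key : ∀ z : ℤ, |(z : ℝ)| ≤ H → z ∈ Set.Icc (-⌈H⌉) ⌈H⌉ := by
    intro z hz
    have h1 : ((|z| : ℤ) : ℝ) ≤ ((⌈H⌉ : ℤ) : ℝ) := by
      rw [Int.cast_abs]
      exact hz.trans (Int.le_ceil H)
    have h2 : |z| ≤ ⌈H⌉ := by exact_mod_cast h1
    exact abs_le.mp h2
  exact ⟨key A hA, key B hB⟩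

theorem SN_finite (w : ℤ → ℤ → ℤ) (H : ℝ) : (SN w H).Finite :=
  (box_finite H).subset (fun _ hp => hp.2.1)

theorem SS_subset (w : ℤ → ℤ → ℤ) (κ H : ℝ) : SS w κ H ⊆ SN w H := fun _ hp => hp.1

theorem SS_le (w : ℤ → ℤ → ℤ) (κ H : ℝ) : ((SS w κ H).ncard : ℝ) ≤ ((SN w H).ncard : ℝ) := by
  exact_mod_cast Set.ncard_le_ncard (SS_subset w κ H) (SN_finite w H)

theorem SN_le (w : ℤ → ℤ → ℤ) (κ H : ℝ) : ((SN w H).ncard : ℝ) ≤ ((SS w κ H).ncard : ℝ) +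
    (({p : ℤ × ℤ | 4 * p.1 ^ 3 + 27 * p.2 ^ 2 ≠ 0 ∧ ht p.1 p.2 ≤ H ∧ Sm κ H p.1 p.2}.ncard : ℕ) : ℝ) := by
  have hD : {p : ℤ × ℤ | 4 * p.1 ^ 3 + 27 * p.2 ^ 2 ≠ 0 ∧ ht p.1 p.2 ≤ H ∧ Sm κ H p.1 p.2}.Finite :=
    (box_finite H).subset (fun _ hp => hp.2.1)
  have hS : (SS w κ H).Finite := (SN_finite w H).subset (SS_subset w κ H)
  have h1 : SN w H ⊆ SS w κ H ∪
      {p : ℤ × ℤ | 4 * p.1 ^ 3 + 27 * p.2 ^ 2 ≠ 0 ∧ ht p.1 p.2 ≤ H ∧ Sm κ H p.1 p.2} := by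
    intro p hp
    by_cases hs : Sm κ H p.1 p.2
    · exact Or.inr ⟨hp.1.1, hp.2.1, hs⟩
    · exact Or.inl ⟨hp, hs⟩
  have h2 := Set.ncard_le_ncard h1 (hS.union hD)
  have h3 := Set.ncard_union_le (SS w κ H)
    {p : ℤ × ℤ | 4 * p.1 ^ 3 + 27 * p.2 ^ 2 ≠ 0 ∧ ht p.1 p.2 ≤ H ∧ Sm κ H p.1 p.2}
  exact_mod_cast h2.trans h3

/-- The order is at least `H^(19/24)` for `H ≥ e`. -/
theorem ord_ge (H : ℝ) (hH : Real.exp 1 ≤ H) : H ^ ((19 : ℝ) / 24) ≤ ord H := by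
  have hpos : 0 < H := (Real.exp_pos 1).trans_le hH
  have hlog : 1 ≤ Real.log H := (Real.le_log_iff_exp_le hpos).mpr hH
  have h1 : 1 ≤ Real.log H ^ ((3 : ℝ) / 8) := Real.one_le_rpow hlog (by norm_num)
  unfold ord
  have h2 : 0 ≤ H ^ ((19 : ℝ) / 24) := Real.rpow_nonneg hpos.le _
  nlinarith

theorem tend (N S : ℝ → ℝ) (η C : ℝ) (hη : 0 < η) (hC : 0 < C)
    (h1 : ∀ H : ℝ, 1 ≤ H → S H ≤ N H) (h2 : ∀ H : ℝ, 1 ≤ H → N H ≤ S H + C * H ^ ((19 : ℝ) / 24 - η)) :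
    Tendsto (fun H : ℝ => N H / ord H - S H / ord H) atTop (𝓝 0) := by
  have hlim : Tendsto (fun H : ℝ => C * H ^ (-η)) atTop (𝓝 0) := by
    have := (tendsto_rpow_neg_atTop hη).const_mul C
    simpa using this
  apply squeeze_zero' _ _ hlim
  · filter_upwards [eventually_ge_atTop (Real.exp 1)] with H hH
    have hpos : 0 < H := (Real.exp_pos 1).trans_le hH
    have h1H : 1 ≤ H := by
      have := Real.add_one_le_exp 1
      linarith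
    have hord : 0 < ord H := (Real.rpow_pos_of_pos hpos _).trans_le (ord_ge H hH)
    rw [← sub_div]
    exact div_nonneg (sub_nonneg.mpr (h1 H h1H)) hord.le
  · filter_upwards [eventually_ge_atTop (Real.exp 1)] with H hH
    have hpos : 0 < H := (Real.exp_pos 1).trans_le hH
    have h1H : 1 ≤ H := by
      have := Real.add_one_le_exp 1
      linarith
    have hord : 0 < ord H := (Real.rpow_pos_of_pos hpos _).trans_le (ord_ge H hH)
    rw [← sub_div, div_le_iff₀ hord]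
    have h3 : N H - S H ≤ C * H ^ ((19 : ℝ) / 24 - η) := by
      have := h2 H h1H
      linarith
    have h4 : H ^ ((19 : ℝ) / 24 - η) = H ^ (-η) * H ^ ((19 : ℝ) / 24) := by
      rw [← Real.rpow_add hpos]
      congr 1
      ring
    have h5 : 0 ≤ C * H ^ (-η) := mul_nonneg hC.le (Real.rpow_nonneg hpos.le _)
    calc N H - S H ≤ C * H ^ ((19 : ℝ) / 24 - η) := h3
      _ = C * H ^ (-η) * H ^ ((19 : ℝ) / 24) := by rw [h4]; ring
      _ ≤ C * H ^ (-η) * ord H := mul_le_mul_of_nonneg_left (ord_ge H hH) h5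

end IF3

/-- Item F3. -/
theorem pg_F3 : S_F3 := by
  intro h w κ hκ c
  obtain ⟨η, hη, C, hC, hb⟩ := h κ hκ
  have hlow : ∀ H : ℝ, 1 ≤ H → ((SS w κ H).ncard : ℝ) ≤ ((SN w H).ncard : ℝ) := fun H _ => IF3.SS_le w κ H
  have hup : ∀ H : ℝ, 1 ≤ H →
      ((SN w H).ncard : ℝ) ≤ ((SS w κ H).ncard : ℝ) + C * H ^ ((19 : ℝ) / 24 - η) := by
    intro H hH
    have h1 := IF3.SN_le w κ H
    have h2 := hb H hH
    linarith
  have ht := IF3.tend (fun H => ((SN w H).ncard : ℝ)) (fun H => ((SS w κ H).ncard : ℝ)) η C hη hC hlow hup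
  constructor
  · intro hN
    have := hN.sub ht
    rw [sub_zero] at this
    refine this.congr (fun H => ?_)
    ring
  · intro hS
    have := hS.add ht
    rw [add_zero] at this
    refine this.congr (fun H => ?_)
    ring

end Pool.Agent.Work.MP_bd3ec3_nt.SG
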