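import Pool.Agent.Work.MP_bd3ec3_nt.SG.Stmts

/-!
# MP_bd3ec3_nt, block SG, item HV: halving (helper97)
-/

set_option autoImplicit false

namespace Pool.Agent.Work.MP_bd3ec3_nt.SG

open Pool.Agent.Work.MP_bd3ec3_nt.SP

namespace IHV

open WeierstrassCurve

theorem eqn_iff (A B : ℤ) (x y : ℚ) :
    (W A B).toAffine.Equation x y ↔ y ^ 2 = x ^ 3 + A * x + B := by
  rw [Affine.equation_iff]
  simp [W]

theorem nonsing (A B : ℤ) (x y : ℚ) (h : y ^ 2 = x ^ 3 + A * x + B) (hy : y ≠ 0) :
    (W A B).toAffine.Nonsingular x y := by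
  rw [Affine.nonsingular_iff]
  refine ⟨(eqn_iff A B x y).2 h, Or.inr ?_⟩
  intro h1
  apply hy
  have h2 : y = -y := by simpa [W] using h1
  linarith

end IHV

open WeierstrassCurve in
theorem pg_HV : S_HV := by
  intro A B hAB P x y m hP hm
  match P, hP with
  | @Affine.Point.some _ _ _ x' y' h', hP =>
    obtain ⟨rfl, rfl⟩ : x' = x ∧ y' = y := hP
    have he : y' ^ 2 = x' ^ 3 + A * x' + B := (IHV.eqn_iff A B x' y').1 h'.1
    obtain ⟨n, hn⟩ : ∃ n : ℚ, n = -m := ⟨_, rfl⟩
    have hn4 : n ^ 4 - 6 * x' * n ^ 2 - 8 * y' * n - 3 * x' ^ 2 - 4 * A = 0 := by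
      rw [hn]
      linear_combination hm
    obtain ⟨u, hu⟩ : ∃ u : ℚ, u = (n ^ 2 - x') / 2 := ⟨_, rfl⟩
    obtain ⟨v, hv⟩ : ∃ v : ℚ, v = n * (u - x') - y' := ⟨_, rfl⟩
    have hR : v ^ 2 = u ^ 3 + A * u + B := by
      rw [hv, hu]
      linear_combination he + ((n ^ 2 - 3 * x') / 8) * hn4
    have hT : 3 * u ^ 2 + A = 2 * n * v := by
      rw [hv, hu]
      linear_combination (-1 / 4) * hn4
    have hv0 : v ≠ 0 := by
      intro h0
      rw [h0] at hR hT
      have h1 : (A : ℚ) = -3 * u ^ 2 := by linear_combination hT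
      have h2 : (B : ℚ) = 2 * u ^ 3 := by
        rw [h1] at hR
        linear_combination -hR
      have h3 : (4 : ℚ) * (A : ℚ) ^ 3 + 27 * (B : ℚ) ^ 2 = 0 := by
        rw [h1, h2]
        ring
      exact hAB (by exact_mod_cast h3)
    have hns := IHV.nonsing A B u v hR hv0
    have hneg : v ≠ (W A B).toAffine.negY u v := by
      intro h1
      apply hv0
      have h2 : v = -v := by simpa [W, Affine.negY] using h1
      linarith
    have hsl : (W A B).toAffine.slope u u v v = n := by
      rw [Affine.slope_of_Y_ne rfl hneg]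
      have h1 : (3 * u ^ 2 + 2 * (W A B).a₂ * u + (W A B).a₄ - (W A B).a₁ * v) /
          (v - (W A B).toAffine.negY u v) = (3 * u ^ 2 + A) / (2 * v) := by
        simp only [W, Affine.negY]
        congr 1 <;> ring
      rw [h1, hT]
      field_simp
    refine ⟨Affine.Point.some _ _ hns, ?_⟩
    rw [Affine.Point.add_self_of_Y_ne hneg]
    have hx : (W A B).toAffine.addX u u ((W A B).toAffine.slope u u v v) = x' := by
      rw [hsl]
      simp only [Affine.addX, W]
      rw [hu]
      ring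
    have hy : (W A B).toAffine.addY u u v ((W A B).toAffine.slope u u v v) = y' := by
      rw [Affine.addY, Affine.negAddY, hx, hsl]
      simp only [Affine.negY, W]
      rw [hv]
      ring
    simp only [Affine.Point.some.injEq]
    exact ⟨hx.symm, hy.symm⟩

end Pool.Agent.Work.MP_bd3ec3_nt.SG
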