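import Pool.Agent.Work.MP_bd3ec3_nt.SG.StmtsK
import Pool.Agent.Work.MP_bd3ec3_nt.SG.I_CX

/-!
# MP_bd3ec3_nt, block SG, item KX: counting pairs (form, vector) for fixed `ω`, all `R ≤ X²`
-/

set_option autoImplicit false

namespace Pool.Agent.Work.MP_bd3ec3_nt.SG

open Pool.Agent.Work.MP_bd3ec3_nt.SP Filter Topology

namespace IKX

open ICW

theorem prodk (C s ω r E N : ℝ) (hC : 1 ≤ C) (hs : 1 ≤ s) (hω : 0 < ω)
    (hω2 : ω ≤ 2) (hr1 : 1 / 2 ≤ r) (hE : 1 ≤ E) (hN0 : 0 ≤ N) (hN1 : N ≤ E)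
    (hN2 : N ≤ √(5 * C) * s ^ 2 * r ^ 2) :
    N * ((1 + 16 * (C * s ^ 4) * ω ^ 3 / r) *
      (1 + 16 * (C * s ^ 4) * ω / r) * (1 + 16 * (C * s ^ 4) / (ω * r)) *
      (1 + 16 * (C * s ^ 4) / (ω ^ 3 * r))) ≤
    357 * (1 + √(5 * C)) * (16 * C) ^ 4 *
      (E + E * s ^ 4 / ω ^ 3 * (1 / r) + E * s ^ 8 / ω ^ 4 * (1 / r ^ 2) +
        s ^ 14 / ω ^ 3 * (1 / r) + s ^ 18 * (1 / r ^ 2)) := by
  have hr0 : 0 < r := by linarith
  have hC0 : 0 < C := by linarith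
  have hs0 : 0 < s := by linarith
  have hE0 : 0 < E := by linarith
  set q : ℝ := √(5 * C) with hq
  have hq0 : 0 ≤ q := Real.sqrt_nonneg _
  set T : ℝ := 16 * C * s ^ 4 / r with hT
  have hT0 : 0 < T := by positivity
  have e1 : 16 * (C * s ^ 4) * ω ^ 3 / r = T * ω ^ 3 := by rw [hT]; field_simp
  have e2 : 16 * (C * s ^ 4) * ω / r = T * ω := by rw [hT]; field_simp
  have e3 : 16 * (C * s ^ 4) / (ω * r) = T / ω := by rw [hT]; field_simp
  have e4 : 16 * (C * s ^ 4) / (ω ^ 3 * r) = T / ω ^ 3 := by rw [hT]; field_simp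
  rw [e1, e2, e3, e4]
  have hω4 : ω ^ 2 ≤ 4 := by
    calc ω ^ 2 ≤ 2 ^ 2 := pow_le_pow_left₀ hω.le hω2 2
      _ = 4 := by norm_num
  have hω16 : ω ^ 4 ≤ 16 := by
    calc ω ^ 4 ≤ 2 ^ 4 := pow_le_pow_left₀ hω.le hω2 4
      _ = 16 := by norm_num
  have hω256 : ω ^ 8 ≤ 256 := by
    calc ω ^ 8 ≤ 2 ^ 8 := pow_le_pow_left₀ hω.le hω2 8
      _ = 256 := by norm_num
  set a : ℝ := T / ω ^ 3 with ha
  set b : ℝ := T ^ 2 / ω ^ 4 with hb
  set d : ℝ := T ^ 3 / ω ^ 3 with hd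
  have ha0 : 0 < a := by positivity
  have hb0 : 0 < b := by positivity
  have hd0 : 0 < d := by positivity
  have hP : (1 + T * ω ^ 3) * (1 + T * ω) * (1 + T / ω) * (1 + T / ω ^ 3) ≤
      (1 + 85 * a + 357 * b) + (85 * d + T ^ 4) := by
    have h1 : (1 + T * ω ^ 3) * (1 + T * ω) ≤ 1 + (5 * T * ω + T ^ 2 * ω ^ 4) := by
      have : T * ω ^ 3 ≤ 4 * (T * ω) := by
        calc T * ω ^ 3 = T * ω * ω ^ 2 := by ring
          _ ≤ T * ω * 4 := mul_le_mul_of_nonneg_left hω4 (by positivity)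
          _ = 4 * (T * ω) := by ring
      calc (1 + T * ω ^ 3) * (1 + T * ω) = 1 + T * ω + T * ω ^ 3 + T ^ 2 * ω ^ 4 := by ring
        _ ≤ 1 + (5 * T * ω + T ^ 2 * ω ^ 4) := by linarith
    have h2 : (1 + T / ω) * (1 + T / ω ^ 3) ≤ 1 + (5 * a + b) := by
      have h3 : T / ω ≤ 4 * a := by
        calc T / ω = a * ω ^ 2 := by
              rw [ha]
              field_simp
          _ ≤ a * 4 := mul_le_mul_of_nonneg_left hω4 ha0.le
          _ = 4 * a := by ring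
      calc (1 + T / ω) * (1 + T / ω ^ 3) = 1 + T / ω + a + b := by
            rw [ha, hb]
            field_simp
            ring
        _ ≤ 1 + (5 * a + b) := by linarith
    have f1 : 5 * T * ω ≤ 80 * a := by
      calc 5 * T * ω = 5 * a * ω ^ 4 := by
            rw [ha]
            field_simp
        _ ≤ 5 * a * 16 := mul_le_mul_of_nonneg_left hω16 (by positivity)
        _ = 80 * a := by ring
    have f2 : 5 * T * ω * (5 * a) ≤ 100 * b := by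
      calc 5 * T * ω * (5 * a) = 25 * b * ω ^ 2 := by
            rw [ha, hb]
            field_simp
            try ring
        _ ≤ 25 * b * 4 := mul_le_mul_of_nonneg_left hω4 (by positivity)
        _ = 100 * b := by ring
    have f3 : 5 * T * ω * b = 5 * d := by
      rw [hb, hd]
      field_simp
    have f4 : T ^ 2 * ω ^ 4 ≤ 256 * b := by
      calc T ^ 2 * ω ^ 4 = b * ω ^ 8 := by
            rw [hb]
            field_simp
        _ ≤ b * 256 := mul_le_mul_of_nonneg_left hω256 hb0.le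
        _ = 256 * b := by ring
    have f5 : T ^ 2 * ω ^ 4 * (5 * a) ≤ 80 * d := by
      calc T ^ 2 * ω ^ 4 * (5 * a) = 5 * d * ω ^ 4 := by
            rw [ha, hd]
            field_simp
            try ring
        _ ≤ 5 * d * 16 := mul_le_mul_of_nonneg_left hω16 (by positivity)
        _ = 80 * d := by ring
    have f6 : T ^ 2 * ω ^ 4 * b = T ^ 4 := by
      rw [hb]
      field_simp
    calc (1 + T * ω ^ 3) * (1 + T * ω) * (1 + T / ω) * (1 + T / ω ^ 3)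
        = ((1 + T * ω ^ 3) * (1 + T * ω)) * ((1 + T / ω) * (1 + T / ω ^ 3)) := by ring
      _ ≤ (1 + (5 * T * ω + T ^ 2 * ω ^ 4)) * (1 + (5 * a + b)) :=
          mul_le_mul h1 h2 (by positivity) (by positivity)
      _ = 1 + 5 * a + b + 5 * T * ω + 5 * T * ω * (5 * a) + 5 * T * ω * b + T ^ 2 * ω ^ 4 +
          T ^ 2 * ω ^ 4 * (5 * a) + T ^ 2 * ω ^ 4 * b := by ring
      _ ≤ (1 + 85 * a + 357 * b) + (85 * d + T ^ 4) := by
          rw [f3, f6]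
          linarith
  have h16 : 1 ≤ 16 * C := by linarith
  have hc0 : 0 ≤ 357 * (1 + q) * (16 * C) ^ 4 := by positivity
  have p1 : 1 ≤ (16 * C) ^ 4 := one_le_pow₀ h16
  have p2 : 16 * C ≤ (16 * C) ^ 4 := by
    calc 16 * C = (16 * C) ^ 1 := by ring
      _ ≤ (16 * C) ^ 4 := pow_le_pow_right₀ h16 (by norm_num)
  have p3 : (16 * C) ^ 2 ≤ (16 * C) ^ 4 := pow_le_pow_right₀ h16 (by norm_num)
  have p4 : (16 * C) ^ 3 ≤ (16 * C) ^ 4 := pow_le_pow_right₀ h16 (by norm_num)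
  have q1 : (1 : ℝ) ≤ 1 + q := by linarith
  have q2 : q ≤ 1 + q := by linarith
  have c1 : (1 : ℝ) ≤ 357 * (1 + q) * (16 * C) ^ 4 := by
    calc (1 : ℝ) = 1 * 1 * 1 := by norm_num
      _ ≤ 357 * (1 + q) * (16 * C) ^ 4 := by gcongr; norm_num
  have c2 : 85 * (16 * C) ≤ 357 * (1 + q) * (16 * C) ^ 4 := by
    calc 85 * (16 * C) = 85 * 1 * (16 * C) := by ring
      _ ≤ 357 * (1 + q) * (16 * C) ^ 4 := by gcongr; norm_num
  have c3 : 357 * (16 * C) ^ 2 ≤ 357 * (1 + q) * (16 * C) ^ 4 := by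
    calc 357 * (16 * C) ^ 2 = 357 * 1 * (16 * C) ^ 2 := by ring
      _ ≤ 357 * (1 + q) * (16 * C) ^ 4 := by gcongr
  have c4 : 85 * q * (16 * C) ^ 3 ≤ 357 * (1 + q) * (16 * C) ^ 4 := by
    gcongr
    norm_num
  have c5 : q * (16 * C) ^ 4 ≤ 357 * (1 + q) * (16 * C) ^ 4 := by
    calc q * (16 * C) ^ 4 = 1 * q * (16 * C) ^ 4 := by ring
      _ ≤ 357 * (1 + q) * (16 * C) ^ 4 := by gcongr; norm_num
  calc N * ((1 + T * ω ^ 3) * (1 + T * ω) * (1 + T / ω) * (1 + T / ω ^ 3))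
      ≤ N * ((1 + 85 * a + 357 * b) + (85 * d + T ^ 4)) :=
        mul_le_mul_of_nonneg_left hP hN0
    _ = N * (1 + 85 * a + 357 * b) + N * (85 * d + T ^ 4) := by ring
    _ ≤ E * (1 + 85 * a + 357 * b) + q * s ^ 2 * r ^ 2 * (85 * d + T ^ 4) := by
        gcongr
    _ = 1 * E + 85 * (16 * C) * (E * s ^ 4 / ω ^ 3 * (1 / r)) +
        357 * (16 * C) ^ 2 * (E * s ^ 8 / ω ^ 4 * (1 / r ^ 2)) +
        85 * q * (16 * C) ^ 3 * (s ^ 14 / ω ^ 3 * (1 / r)) +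
        q * (16 * C) ^ 4 * (s ^ 18 * (1 / r ^ 2)) := by
        rw [ha, hb, hd, hT]
        field_simp
        try ring
    _ ≤ 357 * (1 + q) * (16 * C) ^ 4 * E +
        357 * (1 + q) * (16 * C) ^ 4 * (E * s ^ 4 / ω ^ 3 * (1 / r)) +
        357 * (1 + q) * (16 * C) ^ 4 * (E * s ^ 8 / ω ^ 4 * (1 / r ^ 2)) +
        357 * (1 + q) * (16 * C) ^ 4 * (s ^ 14 / ω ^ 3 * (1 / r)) +
        357 * (1 + q) * (16 * C) ^ 4 * (s ^ 18 * (1 / r ^ 2)) := by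
        gcongr
    _ = 357 * (1 + q) * (16 * C) ^ 4 *
      (E + E * s ^ 4 / ω ^ 3 * (1 / r) + E * s ^ 8 / ω ^ 4 * (1 / r ^ 2) +
        s ^ 14 / ω ^ 3 * (1 / r) + s ^ 18 * (1 / r ^ 2)) := by ring

theorem fixedk (hH : ∀ (K ω r : ℝ) (x z n : ℤ), 0 < K → 0 < ω → IsCoprime x z →
      r = max (|(x : ℝ)| * ω) (|(z : ℝ)| / ω) →
    {f : BQ ℤ | Bw K ω (toR f) ∧ f.ev x z = n}.Finite ∧
    (({f : BQ ℤ | Bw K ω (toR f) ∧ f.ev x z = n}.ncard : ℕ) : ℝ) ≤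
      (1 + 16 * K * ω ^ 3 / r) * (1 + 16 * K * ω / r) * (1 + 16 * K / (ω * r)) *
        (1 + 16 * K / (ω ^ 3 * r)))
    (C s ω r E : ℝ) (x z : ℤ) (hC : 1 ≤ C) (hs : 1 ≤ s) (hω : 0 < ω)
    (hω2 : ω ≤ 2) (hr : r = max (|(x : ℝ)| * ω) (|(z : ℝ)| / ω)) (hr1 : 1 / 2 ≤ r)
    (hE : 1 ≤ E) (hxz : IsCoprime x z) :
    (ICX.DE (C * s ^ 4) ω x z E).Finite ∧ (((ICX.DE (C * s ^ 4) ω x z E).ncard : ℕ) : ℝ) ≤
      357 * (1 + √(5 * C)) * (16 * C) ^ 4 *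
      (E + E * s ^ 4 / ω ^ 3 * (1 / r) + E * s ^ 8 / ω ^ 4 * (1 / r ^ 2) +
        s ^ 14 / ω ^ 3 * (1 / r) + s ^ 18 * (1 / r ^ 2)) := by
  have hr0 : 0 < r := by linarith
  have hK : 0 < C * s ^ 4 := by positivity
  set q : ℝ := √(5 * C) with hq
  have hq0 : 0 ≤ q := Real.sqrt_nonneg _
  have hq2 : q ^ 2 = 5 * C := Real.sq_sqrt (by positivity)
  have hmin0 : 0 ≤ min E (q * s ^ 2 * r ^ 2) := le_min (by linarith) (by positivity)
  set E' : ℕ := ⌊min E (q * s ^ 2 * r ^ 2)⌋₊ with hE'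
  set S : ℕ → Set (BQ ℤ) := fun n => {f : BQ ℤ | Bw (C * s ^ 4) ω (toR f) ∧ f.ev x z = ((n : ℤ) ^ 2)}
    with hS
  have hsub : ICX.DE (C * s ^ 4) ω x z E ⊆ ⋃ n ∈ Finset.Icc 1 E', S n := by
    rintro f ⟨hf, e, he, heE, hfe⟩
    rw [Set.mem_iUnion₂]
    refine ⟨e.natAbs, ?_, hf, ?_⟩
    · rw [Finset.mem_Icc]
      constructor
      · have := Int.natAbs_pos.mpr he.ne'
        omega
      · apply Nat.le_floor
        have h1 : ((f.ev x z : ℤ) : ℝ) = (f.a : ℝ) * (x : ℝ) ^ 4 + f.b * (x : ℝ) ^ 3 * z +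
            f.c * (x : ℝ) ^ 2 * (z : ℝ) ^ 2 + f.d * x * (z : ℝ) ^ 3 + f.e * (z : ℝ) ^ 4 := by
          unfold BQ.ev
          push_cast
          ring
        have h2 := ev_le (C * s ^ 4) ω r (x : ℝ) (z : ℝ) f.a f.b f.c f.d f.e hK.le hω hf
          (by rw [hr]; exact le_max_left _ _) (by rw [hr]; exact le_max_right _ _)
        rw [← h1, hfe] at h2
        have h3 : ((e : ℤ) : ℝ) ^ 2 ≤ (q * s ^ 2 * r ^ 2) ^ 2 := by
          calc ((e : ℤ) : ℝ) ^ 2 = (((e ^ 2 : ℤ)) : ℝ) := by push_cast; ring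
            _ ≤ |(((e ^ 2 : ℤ)) : ℝ)| := le_abs_self _
            _ ≤ 5 * (C * s ^ 4) * r ^ 4 := h2
            _ = q ^ 2 * s ^ 4 * r ^ 4 := by rw [hq2]; ring
            _ = (q * s ^ 2 * r ^ 2) ^ 2 := by ring
        have h4 : |((e : ℤ) : ℝ)| ≤ q * s ^ 2 * r ^ 2 := abs_le_of_sq_le_sq h3 (by positivity)
        have he0 : (0 : ℝ) < (e : ℝ) := by exact_mod_cast he
        have h5 : |((e : ℤ) : ℝ)| ≤ E := by rw [abs_of_pos he0]; exact heE
        rw [Nat.cast_natAbs]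
        push_cast
        exact le_min h5 h4
    · rw [hfe, Int.natAbs_sq]
  have hSf : ∀ n : ℕ, (S n).Finite := fun n => (hH (C * s ^ 4) ω r x z ((n : ℤ) ^ 2) hK hω hxz hr).1
  have hUf : (⋃ n ∈ Finset.Icc 1 E', S n).Finite :=
    Set.Finite.biUnion (Finset.finite_toSet _) fun n _ => hSf n
  refine ⟨hUf.subset hsub, ?_⟩
  set P : ℝ := (1 + 16 * (C * s ^ 4) * ω ^ 3 / r) *
      (1 + 16 * (C * s ^ 4) * ω / r) * (1 + 16 * (C * s ^ 4) / (ω * r)) *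
      (1 + 16 * (C * s ^ 4) / (ω ^ 3 * r)) with hP
  have hP0 : 0 ≤ P := by positivity
  have h1 : (ICX.DE (C * s ^ 4) ω x z E).ncard ≤ ∑ n ∈ Finset.Icc 1 E', (S n).ncard :=
    (Set.ncard_le_ncard hsub hUf).trans (Finset.set_ncard_biUnion_le _ _)
  have h2 : ((∑ n ∈ Finset.Icc 1 E', (S n).ncard : ℕ) : ℝ) ≤ (E' : ℝ) * P := by
    push_cast
    calc ∑ n ∈ Finset.Icc 1 E', ((S n).ncard : ℝ) ≤ ∑ _n ∈ Finset.Icc 1 E', P :=
          Finset.sum_le_sum fun n _ => (hH (C * s ^ 4) ω r x z ((n : ℤ) ^ 2) hK hω hxz hr).2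
      _ = (E' : ℝ) * P := by
          rw [Finset.sum_const, Nat.card_Icc, nsmul_eq_mul]
          simp
  have h3 : (E' : ℝ) ≤ min E (q * s ^ 2 * r ^ 2) := Nat.floor_le hmin0
  calc (((ICX.DE (C * s ^ 4) ω x z E).ncard : ℕ) : ℝ) ≤ ((∑ n ∈ Finset.Icc 1 E', (S n).ncard : ℕ) : ℝ) := by
        exact_mod_cast h1
    _ ≤ (E' : ℝ) * P := h2
    _ ≤ 357 * (1 + q) * (16 * C) ^ 4 *
      (E + E * s ^ 4 / ω ^ 3 * (1 / r) + E * s ^ 8 / ω ^ 4 * (1 / r ^ 2) +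
        s ^ 14 / ω ^ 3 * (1 / r) + s ^ 18 * (1 / r ^ 2)) :=
        prodk C s ω r E E' hC hs hω hω2 hr1 hE (by positivity)
          (h3.trans (min_le_left _ _)) (h3.trans (min_le_right _ _))

/-- The sums over a box. -/
theorem boxk (C s ω R : ℝ) (hC : 1 ≤ C) (hs : 1 ≤ s) (hω : 0 < ω) (hω1 : 1 ≤ C * s * ω)
    (hω2 : ω ≤ 2) (hR1 : 1 ≤ R) (hR : R ≤ s ^ 8) :
    (∑ x ∈ Finset.Icc (-((⌊R / ω⌋₊ : ℕ) : ℤ)) (⌊R / ω⌋₊ : ℕ), fA x) *
      (∑ z ∈ Finset.Icc (-((⌊R * ω⌋₊ : ℕ) : ℤ)) (⌊R * ω⌋₊ : ℕ), fB z) ≤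
      16 * (3 + 2 * Real.log C) * (1 + 4 * Real.log s) ^ 2 ∧
    (∑ x ∈ Finset.Icc (-((⌊R / ω⌋₊ : ℕ) : ℤ)) (⌊R / ω⌋₊ : ℕ), gA x) *
      (∑ z ∈ Finset.Icc (-((⌊R * ω⌋₊ : ℕ) : ℤ)) (⌊R * ω⌋₊ : ℕ), gB z) ≤ 24 * R := by
  have hC0 : 0 < C := by linarith
  have hs0 : 0 < s := by linarith
  have hR0 : 0 < R := by linarith
  have hlC : 0 ≤ Real.log C := Real.log_nonneg hC
  have hls : 0 ≤ Real.log s := Real.log_nonneg hs
  set M : ℕ := ⌊R / ω⌋₊ with hM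
  set N : ℕ := ⌊R * ω⌋₊ with hN
  have hM1 : (M : ℝ) ≤ R / ω := Nat.floor_le (by positivity)
  have hN1 : (N : ℝ) ≤ R * ω := Nat.floor_le (by positivity)
  have hM2 : (M : ℝ) ≤ C * s ^ 9 := by
    refine hM1.trans ?_
    rw [div_le_iff₀ hω]
    calc R ≤ s ^ 8 * 1 := by linarith
      _ ≤ s ^ 8 * (C * s * ω) := mul_le_mul_of_nonneg_left hω1 (by positivity)
      _ = C * s ^ 9 * ω := by ring
  have hN2 : (N : ℝ) ≤ 2 * s ^ 8 := by
    refine hN1.trans ?_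
    calc R * ω ≤ s ^ 8 * 2 := mul_le_mul hR hω2 hω.le (by positivity)
      _ = 2 * s ^ 8 := by ring
  constructor
  · have l1 : Real.log M ≤ Real.log C + 9 * Real.log s := by
      refine (log_cast_le M (C * s ^ 9) hM2 ?_).trans ?_
      · calc (1 : ℝ) = 1 * 1 := by norm_num
          _ ≤ C * s ^ 9 := mul_le_mul hC (one_le_pow₀ hs) (by norm_num) (by positivity)
      · rw [Real.log_mul (by positivity) (by positivity), Real.log_pow]
        push_cast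
        linarith
    have l2 : Real.log N ≤ 1 + 8 * Real.log s := by
      refine (log_cast_le N (2 * s ^ 8) hN2 ?_).trans ?_
      · have : (1 : ℝ) ≤ s ^ 8 := one_le_pow₀ hs
        linarith
      · rw [Real.log_mul (by positivity) (by positivity), Real.log_pow]
        have : Real.log 2 ≤ 1 := by
          have := Real.log_two_lt_d9
          linarith
        push_cast
        linarith
    have a1 : ∑ x ∈ Finset.Icc (-(M : ℤ)) M, fA x ≤
        2 * (3 + 2 * Real.log C) * (1 + 4 * Real.log s) := by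
      have := sum_fA M
      nlinarith [mul_nonneg hlC hls]
    have a2 : ∑ x ∈ Finset.Icc (-(N : ℤ)) N, fB x ≤ 8 * (1 + 4 * Real.log s) := by
      have := sum_fB N
      nlinarith
    calc (∑ x ∈ Finset.Icc (-(M : ℤ)) M, fA x) * (∑ x ∈ Finset.Icc (-(N : ℤ)) N, fB x) ≤
        (2 * (3 + 2 * Real.log C) * (1 + 4 * Real.log s)) * (8 * (1 + 4 * Real.log s)) :=
          mul_le_mul a1 a2 (Finset.sum_nonneg fun i _ => fB_nonneg i) (by positivity)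
      _ = 16 * (3 + 2 * Real.log C) * (1 + 4 * Real.log s) ^ 2 := by ring
  · have b1 := sum_gA M
    have b2 := sum_gB N
    have hMN : √(M : ℝ) * √(N : ℝ) ≤ R := by
      rw [← Real.sqrt_mul (by positivity)]
      calc √((M : ℝ) * N) ≤ √((R / ω) * (R * ω)) :=
            Real.sqrt_le_sqrt (mul_le_mul hM1 hN1 (by positivity) (by positivity))
        _ = √(R ^ 2) := by
            congr 1
            field_simp
        _ = R := Real.sqrt_sq hR0.le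
    have hN3 : √(N : ℝ) ≤ 2 * R := by
      rw [Real.sqrt_le_left (by positivity)]
      have : (N : ℝ) ≤ R * 2 := hN1.trans (mul_le_mul_of_nonneg_left hω2 hR0.le)
      nlinarith
    calc (∑ x ∈ Finset.Icc (-(M : ℤ)) M, gA x) * (∑ x ∈ Finset.Icc (-(N : ℤ)) N, gB x) ≤
        (1 + 4 * √(M : ℝ)) * (4 * √(N : ℝ)) :=
          mul_le_mul b1 b2 (Finset.sum_nonneg fun i _ => gB_nonneg i) (by positivity)
      _ = 4 * √(N : ℝ) + 16 * (√(M : ℝ) * √(N : ℝ)) := by ring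
      _ ≤ 24 * R := by linarith

/-- The main count, in terms of `s = X^(1/4)`. -/
theorem maink (hH : ∀ (K ω r : ℝ) (x z n : ℤ), 0 < K → 0 < ω → IsCoprime x z →
      r = max (|(x : ℝ)| * ω) (|(z : ℝ)| / ω) →
    {f : BQ ℤ | Bw K ω (toR f) ∧ f.ev x z = n}.Finite ∧
    (({f : BQ ℤ | Bw K ω (toR f) ∧ f.ev x z = n}.ncard : ℕ) : ℝ) ≤
      (1 + 16 * K * ω ^ 3 / r) * (1 + 16 * K * ω / r) * (1 + 16 * K / (ω * r)) *
        (1 + 16 * K / (ω ^ 3 * r)))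
    (C s ω R E : ℝ) (hC : 1 ≤ C) (hs : 1 ≤ s) (hω : 0 < ω) (hω1 : 1 ≤ C * s * ω)
    (hω2 : ω ≤ 2) (hR1 : 1 ≤ R) (hR : R ≤ s ^ 8) (hE : 1 ≤ E) :
    (GX C (s ^ 4) ω R E).Finite ∧ ((GX C (s ^ 4) ω R E).ncard : ℝ) ≤
      (357 * (1 + √(5 * C)) * (16 * C) ^ 4) * (64 * (3 + 2 * Real.log C) + 56) *
        (E * R ^ 2 + E * s ^ 4 * R / ω ^ 3 + E * s ^ 8 / ω ^ 4 * (1 + 4 * Real.log s) ^ 2 +
          s ^ 14 * R / ω ^ 3 + s ^ 18 * (1 + 4 * Real.log s) ^ 2) := by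
  classical
  have hC0 : 0 < C := by linarith
  have hs0 : 0 < s := by linarith
  have hR0 : 0 < R := by linarith
  have hE0 : 0 < E := by linarith
  have hlC : 0 ≤ Real.log C := Real.log_nonneg hC
  have hls : 0 ≤ Real.log s := Real.log_nonneg hs
  set M : ℕ := ⌊R / ω⌋₊ with hM
  set N : ℕ := ⌊R * ω⌋₊ with hN
  set F : Finset (ℤ × ℤ) := Finset.Icc (-(M : ℤ)) M ×ˢ Finset.Icc (-(N : ℤ)) N with hF
  set Box : Finset (ℤ × ℤ) := F.filter fun p => p.2 ≠ 0 ∧ IsCoprime p.1 p.2 ∧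
    ((p.1 : ℝ) * ω) ^ 2 + ((p.2 : ℝ) / ω) ^ 2 ≤ R ^ 2 with hBox
  set rr : ℤ × ℤ → ℝ := fun p => max (|(p.1 : ℝ)| * ω) (|(p.2 : ℝ)| / ω) with hrr
  have hr : ∀ p ∈ Box, 1 / 2 ≤ rr p ∧ rr p ≤ s ^ 8 := by
    intro p hp
    rw [hBox, Finset.mem_filter] at hp
    obtain ⟨_, hz, _, hb⟩ := hp
    have hz1 : (1 : ℝ) ≤ |(p.2 : ℝ)| := by
      have : (1 : ℤ) ≤ |p.2| := Int.one_le_abs hz
      exact_mod_cast this
    constructor
    · calc (1 : ℝ) / 2 ≤ |(p.2 : ℝ)| / ω := by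
            rw [div_le_div_iff₀ (by norm_num) hω]
            linarith
        _ ≤ rr p := le_max_right _ _
    · have h1 : |(p.1 : ℝ)| * ω ≤ R := by
        have : |(p.1 : ℝ) * ω| ≤ R := abs_le_of_sq_le_sq (by nlinarith [sq_nonneg ((p.2 : ℝ) / ω)]) hR0.le
        rwa [abs_mul, abs_of_pos hω] at this
      have h2 : |(p.2 : ℝ)| / ω ≤ R := by
        have : |(p.2 : ℝ) / ω| ≤ R := abs_le_of_sq_le_sq (by nlinarith [sq_nonneg ((p.1 : ℝ) * ω)]) hR0.le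
        rwa [abs_div, abs_of_pos hω] at this
      exact (max_le h1 h2).trans hR
  set G : ℤ × ℤ → Set (BQ ℤ × ℤ × ℤ) := fun p =>
    (fun f : BQ ℤ => (f, p.1, p.2)) '' ICX.DE (C * s ^ 4) ω p.1 p.2 E with hG
  have hfix : ∀ p ∈ Box, (G p).Finite ∧ (((G p).ncard : ℕ) : ℝ) ≤
      357 * (1 + √(5 * C)) * (16 * C) ^ 4 *
      (E + E * s ^ 4 / ω ^ 3 * (1 / rr p) + E * s ^ 8 / ω ^ 4 * (1 / rr p ^ 2) +
        s ^ 14 / ω ^ 3 * (1 / rr p) + s ^ 18 * (1 / rr p ^ 2)) := by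
    intro p hp
    have h := hr p hp
    rw [hBox, Finset.mem_filter] at hp
    have h6 := fixedk hH C s ω (rr p) E p.1 p.2 hC hs hω hω2 rfl h.1 hE hp.2.2.1
    refine ⟨h6.1.image _, ?_⟩
    have h7 : (G p).ncard ≤ (ICX.DE (C * s ^ 4) ω p.1 p.2 E).ncard := Set.ncard_image_le h6.1
    exact le_trans (by exact_mod_cast h7) h6.2
  have hsub : GX C (s ^ 4) ω R E ⊆ ⋃ p ∈ Box, G p := by
    rintro ⟨f, x, z⟩ ⟨hf, hz, hxz, ⟨e, he, heE, hfe⟩, hb⟩
    simp only at hf hz hxz hfe hb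
    rw [Set.mem_iUnion₂]
    refine ⟨(x, z), ?_, f, ⟨hf, e, he, heE, hfe⟩, rfl⟩
    rw [hBox, Finset.mem_filter, hF, Finset.mem_product]
    have h1 : |(x : ℝ)| * ω ≤ R := by
      have : |(x : ℝ) * ω| ≤ R := abs_le_of_sq_le_sq (by nlinarith [sq_nonneg ((z : ℝ) / ω)]) hR0.le
      rwa [abs_mul, abs_of_pos hω] at this
    have h2 : |(z : ℝ)| / ω ≤ R := by
      have : |(z : ℝ) / ω| ≤ R := abs_le_of_sq_le_sq (by nlinarith [sq_nonneg ((x : ℝ) * ω)]) hR0.le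
      rwa [abs_div, abs_of_pos hω] at this
    have h3 : x.natAbs ≤ M := by
      apply Nat.le_floor
      rw [le_div_iff₀ hω, Nat.cast_natAbs]
      push_cast
      exact h1
    have h4 : z.natAbs ≤ N := by
      apply Nat.le_floor
      rw [Nat.cast_natAbs]
      push_cast
      rwa [div_le_iff₀ hω] at h2
    refine ⟨⟨?_, ?_⟩, hz, hxz, hb⟩
    · rw [Finset.mem_Icc]
      constructor <;> simp only <;> omega
    · rw [Finset.mem_Icc]
      constructor <;> simp only <;> omega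
  have hUf : (⋃ p ∈ Box, G p).Finite :=
    Set.Finite.biUnion (Finset.finite_toSet _) fun p hp => (hfix p hp).1
  refine ⟨hUf.subset hsub, ?_⟩
  set c1 : ℝ := 357 * (1 + √(5 * C)) * (16 * C) ^ 4 with hc1
  have hc10 : 0 ≤ c1 := by positivity
  set α : ℝ := E * s ^ 8 / ω ^ 4 + s ^ 18 with hα
  set β : ℝ := E * s ^ 4 / ω ^ 3 + s ^ 14 / ω ^ 3 with hβ
  have hα0 : 0 ≤ α := by positivity
  have hβ0 : 0 ≤ β := by positivity
  have k1 : ((GX C (s ^ 4) ω R E).ncard : ℝ) ≤ ∑ p ∈ Box, (((G p).ncard : ℕ) : ℝ) := by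
    have := (Set.ncard_le_ncard hsub hUf).trans (Finset.set_ncard_biUnion_le _ _)
    exact_mod_cast this
  set hB : ℤ → ℝ := fun z => if z = 0 then 0 else 1 with hhB
  have hhB0 : ∀ z, 0 ≤ hB z := by
    intro z
    rw [hhB]
    simp only
    split_ifs <;> norm_num
  have k2 : ∑ p ∈ Box, (((G p).ncard : ℕ) : ℝ) ≤
      ∑ p ∈ Box, c1 * (E * (1 * hB p.2) + α * (4 * (fA p.1 * fB p.2)) +
        β * (2 * (gA p.1 * gB p.2))) := by
    refine Finset.sum_le_sum fun p hp => (hfix p hp).2.trans ?_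
    have h := hr p hp
    rw [hBox, Finset.mem_filter] at hp
    have h5 := pt ω (rr p) p.1 p.2 hω rfl h.1 hp.2.1 hp.2.2.1
    have h6 : hB p.2 = 1 := by
      rw [hhB]
      simp only
      rw [if_neg hp.2.1]
    rw [h6]
    refine mul_le_mul_of_nonneg_left ?_ hc10
    calc E + E * s ^ 4 / ω ^ 3 * (1 / rr p) + E * s ^ 8 / ω ^ 4 * (1 / rr p ^ 2) +
        s ^ 14 / ω ^ 3 * (1 / rr p) +
        s ^ 18 * (1 / rr p ^ 2) = E * (1 * 1) + α * (1 / rr p ^ 2) + β * (1 / rr p) := by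
          rw [hα, hβ]
          ring
      _ ≤ E * (1 * 1) + α * (4 * (fA p.1 * fB p.2)) + β * (2 * (gA p.1 * gB p.2)) :=
        add_le_add (add_le_add le_rfl (mul_le_mul_of_nonneg_left h5.1 hα0))
          (mul_le_mul_of_nonneg_left h5.2 hβ0)
  have k3 : ∑ p ∈ Box, c1 * (E * (1 * hB p.2) + α * (4 * (fA p.1 * fB p.2)) +
        β * (2 * (gA p.1 * gB p.2))) ≤
      ∑ p ∈ F, c1 * (E * (1 * hB p.2) + α * (4 * (fA p.1 * fB p.2)) +
        β * (2 * (gA p.1 * gB p.2))) := by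
    refine Finset.sum_le_sum_of_subset_of_nonneg (Finset.filter_subset _ _) fun p _ _ => ?_
    have := fA_nonneg p.1
    have := fB_nonneg p.2
    have := gA_nonneg p.1
    have := gB_nonneg p.2
    have := hhB0 p.2
    positivity
  have k4 : ∑ p ∈ F, c1 * (E * (1 * hB p.2) + α * (4 * (fA p.1 * fB p.2)) +
        β * (2 * (gA p.1 * gB p.2))) =
      c1 * (E * ((∑ _x ∈ Finset.Icc (-(M : ℤ)) M, (1 : ℝ)) *
        (∑ z ∈ Finset.Icc (-(N : ℤ)) N, hB z)) +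
        α * (4 * ((∑ x ∈ Finset.Icc (-(M : ℤ)) M, fA x) *
        (∑ z ∈ Finset.Icc (-(N : ℤ)) N, fB z))) +
        β * (2 * ((∑ x ∈ Finset.Icc (-(M : ℤ)) M, gA x) *
        (∑ z ∈ Finset.Icc (-(N : ℤ)) N, gB z)))) := by
    have s1 : (∑ _x ∈ Finset.Icc (-(M : ℤ)) M, (1 : ℝ)) *
        (∑ z ∈ Finset.Icc (-(N : ℤ)) N, hB z) = ∑ p ∈ F, 1 * hB p.2 := by
      rw [hF, Finset.sum_mul_sum, Finset.sum_product]
    have s2 : (∑ x ∈ Finset.Icc (-(M : ℤ)) M, fA x) *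
        (∑ z ∈ Finset.Icc (-(N : ℤ)) N, fB z) = ∑ p ∈ F, fA p.1 * fB p.2 := by
      rw [hF, Finset.sum_mul_sum, Finset.sum_product]
    have s3 : (∑ x ∈ Finset.Icc (-(M : ℤ)) M, gA x) *
        (∑ z ∈ Finset.Icc (-(N : ℤ)) N, gB z) = ∑ p ∈ F, gA p.1 * gB p.2 := by
      rw [hF, Finset.sum_mul_sum, Finset.sum_product]
    rw [s1, s2, s3]
    simp only [Finset.mul_sum, ← Finset.sum_add_distrib]
  obtain ⟨m1, m2⟩ := boxk C s ω R hC hs hω hω1 hω2 hR1 hR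
  rw [← hM, ← hN] at m1 m2
  have m3 : (∑ _x ∈ Finset.Icc (-(M : ℤ)) M, (1 : ℝ)) *
        (∑ z ∈ Finset.Icc (-(N : ℤ)) N, hB z) ≤ 8 * R ^ 2 := by
    have n1 : (∑ _x ∈ Finset.Icc (-(M : ℤ)) M, (1 : ℝ)) ≤ 1 + 2 * (R / ω) := by
      rw [sym_sum (fun _ => (1 : ℝ)) (fun _ => rfl)]
      have : (∑ _m ∈ Finset.range M, (1 : ℝ)) = (M : ℝ) := by simp
      rw [this]
      have hM1 : (M : ℝ) ≤ R / ω := Nat.floor_le (by positivity)
      linarith
    have n2 : (∑ z ∈ Finset.Icc (-(N : ℤ)) N, hB z) ≤ 2 * (R * ω) := by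
      rw [sym_sum hB (fun x => by rw [hhB]; simp)]
      have h0 : hB 0 = 0 := by rw [hhB]; simp
      have : (∑ m ∈ Finset.range N, hB ((m : ℤ) + 1)) = (N : ℝ) := by
        have h1 : ∀ m ∈ Finset.range N, hB ((m : ℤ) + 1) = 1 := by
          intro m _
          rw [hhB]
          simp only
          rw [if_neg (succ_ne m)]
        rw [Finset.sum_congr rfl h1]
        simp
      rw [this, h0]
      have hN1 : (N : ℝ) ≤ R * ω := Nat.floor_le (by positivity)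
      linarith
    calc (∑ _x ∈ Finset.Icc (-(M : ℤ)) M, (1 : ℝ)) *
        (∑ z ∈ Finset.Icc (-(N : ℤ)) N, hB z) ≤ (1 + 2 * (R / ω)) * (2 * (R * ω)) :=
          mul_le_mul n1 n2 (Finset.sum_nonneg fun i _ => hhB0 i) (by positivity)
      _ = 2 * R * ω + 4 * R ^ 2 := by
          field_simp
          try ring
      _ ≤ 8 * R ^ 2 := by nlinarith
  have hL1 : 0 ≤ E * R ^ 2 := by positivity
  have hL2 : 0 ≤ α * (1 + 4 * Real.log s) ^ 2 := by positivity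
  have hL3 : 0 ≤ β * R := by positivity
  calc ((GX C (s ^ 4) ω R E).ncard : ℝ) ≤ c1 * (E * ((∑ _x ∈ Finset.Icc (-(M : ℤ)) M, (1 : ℝ)) *
        (∑ z ∈ Finset.Icc (-(N : ℤ)) N, hB z)) +
        α * (4 * ((∑ x ∈ Finset.Icc (-(M : ℤ)) M, fA x) *
        (∑ z ∈ Finset.Icc (-(N : ℤ)) N, fB z))) +
        β * (2 * ((∑ x ∈ Finset.Icc (-(M : ℤ)) M, gA x) *
        (∑ z ∈ Finset.Icc (-(N : ℤ)) N, gB z)))) := by
        rw [← k4]
        exact k1.trans (k2.trans k3)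
    _ ≤ c1 * (E * (8 * R ^ 2) + α * (4 * (16 * (3 + 2 * Real.log C) * (1 + 4 * Real.log s) ^ 2)) +
        β * (2 * (24 * R))) := by
        gcongr
    _ = c1 * (8 * (E * R ^ 2) + 64 * (3 + 2 * Real.log C) * (α * (1 + 4 * Real.log s) ^ 2) +
        48 * (β * R)) := by ring
    _ ≤ c1 * ((64 * (3 + 2 * Real.log C) + 56) *
        (E * R ^ 2 + α * (1 + 4 * Real.log s) ^ 2 + β * R)) := by
        refine mul_le_mul_of_nonneg_left ?_ hc10
        have hg : 0 ≤ 64 * (3 + 2 * Real.log C) := by positivity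
        have g1 := mul_nonneg hg hL1
        have g3 := mul_nonneg hg hL3
        have e5 : (64 * (3 + 2 * Real.log C) + 56) *
            (E * R ^ 2 + α * (1 + 4 * Real.log s) ^ 2 + β * R) =
            64 * (3 + 2 * Real.log C) * (E * R ^ 2) +
            64 * (3 + 2 * Real.log C) * (α * (1 + 4 * Real.log s) ^ 2) +
            64 * (3 + 2 * Real.log C) * (β * R) +
            56 * (E * R ^ 2) + 56 * (α * (1 + 4 * Real.log s) ^ 2) + 56 * (β * R) := by ring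
        rw [e5]
        linarith
    _ = c1 * (64 * (3 + 2 * Real.log C) + 56) *
        (E * R ^ 2 + E * s ^ 4 * R / ω ^ 3 + E * s ^ 8 / ω ^ 4 * (1 + 4 * Real.log s) ^ 2 +
          s ^ 14 * R / ω ^ 3 + s ^ 18 * (1 + 4 * Real.log s) ^ 2) := by
        rw [hα, hβ]
        ring

end IKX

theorem pg_KX : S_KX := by
  intro hH C hC
  have hC0 : 0 < C := by linarith
  have hlC : 0 ≤ Real.log C := Real.log_nonneg hC
  refine ⟨(357 * (1 + √(5 * C)) * (16 * C) ^ 4) * (64 * (3 + 2 * Real.log C) + 56), by positivity, ?_⟩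
  intro X ω R E hX hω1 hω2 hR1 hR hE
  have hX0 : 0 < X := by linarith
  set s : ℝ := X ^ ((1 : ℝ) / 4) with hs
  have hs0 : 0 < s := Real.rpow_pos_of_pos hX0 _
  have hs1 : 1 ≤ s := Real.one_le_rpow hX (by norm_num)
  have hpow : ∀ n : ℕ, s ^ n = X ^ ((n : ℝ) / 4) := by
    intro n
    rw [hs, ← Real.rpow_natCast, ← Real.rpow_mul hX0.le]
    congr 1
    ring
  have e4 : s ^ 4 = X := by
    rw [hpow 4]
    norm_num
  have e8 : X ^ 2 = s ^ 8 := by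
    rw [← e4]
    ring
  have e14 : X ^ ((7 : ℝ) / 2) = s ^ 14 := by
    rw [hpow 14]
    congr 1
    norm_num
  have e18 : X ^ ((9 : ℝ) / 2) = s ^ 18 := by
    rw [hpow 18]
    congr 1
    norm_num
  have em : X ^ (-(1 / 4) : ℝ) = 1 / s := by
    rw [Real.rpow_neg hX0.le]
    exact (one_div s).symm
  have eL : Real.log X = 4 * Real.log s := by
    rw [← e4, Real.log_pow]
    push_cast
    ring
  have hω : 0 < ω := by
    refine lt_of_lt_of_le ?_ hω1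
    have := Real.rpow_pos_of_pos hX0 (-(1 / 4) : ℝ)
    positivity
  have hω3 : 1 ≤ C * s * ω := by
    rw [em, div_div, div_le_iff₀ (by positivity)] at hω1
    linarith
  have h := IKX.maink hH C s ω R E hC hs1 hω hω3 hω2 hR1 (by rw [← e8]; exact hR) hE
  rw [e4, ← eL, ← e18, ← e14, ← e8] at h
  exact h

end Pool.Agent.Work.MP_bd3ec3_nt.SG
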