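import Pool.Agent.Work.MP_bd3ec3_nt.SG.Stmts

/-!
# MP_bd3ec3_nt, block SG, item LC: binary quartic forms with a zero
-/

set_option autoImplicit false

namespace Pool.Agent.Work.MP_bd3ec3_nt.SG

open Pool.Agent.Work.MP_bd3ec3_nt.SP

namespace ILC

theorem dvd_step (x z u v : ℤ) (k : ℕ) (hc : IsCoprime x z) (h : x ^ k * u + z * v = 0) : z ∣ u := by
  have h1 : z ∣ x ^ k * u := ⟨-v, by linear_combination h⟩
  exact (hc.symm.pow_right).dvd_of_dvd_mul_left h1

end ILC

theorem pg_LC : S_LC := by
  intro h x z hc h0
  obtain ⟨a, b, c, d, e⟩ := h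
  simp only [BQ.ev] at h0
  by_cases hz : z = 0
  · subst hz
    have hx : IsUnit x := by
      have := hc
      rw [isCoprime_zero_right] at this
      exact this
    have hx2 : x ^ 2 = 1 := by
      rcases Int.isUnit_iff.1 hx with h1 | h1 <;> rw [h1] <;> norm_num
    have ha : a = 0 := by
      have h4 : x ^ 4 = 1 := by
        have : x ^ 4 = (x ^ 2) ^ 2 := by ring
        rw [this, hx2]; norm_num
      rw [h4] at h0
      linarith
    refine ⟨-x * b, -x * c, -x * d, -x * e, ?_⟩
    subst ha
    ext
    · simp
    · show b = 0 * (-x * c) - x * (-x * b)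
      linear_combination (-b) * hx2
    · show c = 0 * (-x * d) - x * (-x * c)
      linear_combination (-c) * hx2
    · show d = 0 * (-x * e) - x * (-x * d)
      linear_combination (-d) * hx2
    · show e = -(x * (-x * e))
      linear_combination (-e) * hx2
  · obtain ⟨c0, hc0⟩ := ILC.dvd_step x z a (b * x ^ 3 + c * x ^ 2 * z + d * x * z ^ 2 + e * z ^ 3) 4 hc
      (by linear_combination h0)
    have e1 : x ^ 3 * (b + x * c0) + z * (c * x ^ 2 + d * x * z + e * z ^ 2) = 0 := by
      apply mul_left_cancel₀ hz
      rw [mul_zero]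
      rw [hc0] at h0
      linear_combination h0
    obtain ⟨c1, hc1⟩ := ILC.dvd_step x z _ _ 3 hc e1
    have e2 : x ^ 2 * (c + x * c1) + z * (d * x + e * z) = 0 := by
      apply mul_left_cancel₀ hz
      rw [mul_zero]
      rw [hc1] at e1
      linear_combination e1
    obtain ⟨c2, hc2⟩ := ILC.dvd_step x z _ _ 2 hc e2
    have e3 : x ^ 1 * (d + x * c2) + z * e = 0 := by
      apply mul_left_cancel₀ hz
      rw [mul_zero]
      rw [hc2] at e2
      linear_combination e2
    obtain ⟨c3, hc3⟩ := ILC.dvd_step x z _ _ 1 hc e3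
    have e4 : x * c3 + e = 0 := by
      apply mul_left_cancel₀ hz
      rw [mul_zero]
      rw [hc3] at e3
      linear_combination e3
    refine ⟨c0, c1, c2, c3, ?_⟩
    ext
    · exact hc0
    · show b = z * c1 - x * c0
      linear_combination hc1
    · show c = z * c2 - x * c1
      linear_combination hc2
    · show d = z * c3 - x * c2
      linear_combination hc3
    · show e = -(x * c3)
      linear_combination e4

end Pool.Agent.Work.MP_bd3ec3_nt.SG
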