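import Pool.Agent.Work.MP_bd3ec3_nt.SG.Stmts

/-!
# MP_bd3ec3_nt, block SG, item M2: the number of the curves with a small point outside `2 E(ℚ)`
-/

set_option autoImplicit false

namespace Pool.Agent.Work.MP_bd3ec3_nt.SG

open Pool.Agent.Work.MP_bd3ec3_nt.SP Filter Topology

namespace IM2

/-- The box of the coefficients. -/
def Box (X : ℝ) : Set (ℤ × ℤ) := {p | |(p.1 : ℝ)| ≤ X ^ 2 ∧ |(p.2 : ℝ)| ≤ X ^ 3}

theorem box_finite (X : ℝ) : (Box X).Finite := by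
  apply Set.Finite.subset ((Set.finite_Icc (-⌊X ^ 2⌋) ⌊X ^ 2⌋).prod (Set.finite_Icc (-⌊X ^ 3⌋) ⌊X ^ 3⌋))
  rintro ⟨a, b⟩ ⟨h1, h2⟩
  simp only at h1 h2
  rw [abs_le] at h1 h2
  simp only [Set.mem_prod, Set.mem_Icc]
  refine ⟨⟨?_, Int.le_floor.2 h1.2⟩, ⟨?_, Int.le_floor.2 h2.2⟩⟩
  · have h : (-a : ℤ) ≤ ⌊X ^ 2⌋ := Int.le_floor.2 (by push_cast; linarith [h1.1])
    omega
  · have h : (-b : ℤ) ≤ ⌊X ^ 3⌋ := Int.le_floor.2 (by push_cast; linarith [h2.1])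
    omega

theorem box_mono (X Y : ℝ) (h0 : 0 ≤ X) (h : X ≤ Y) : Box X ⊆ Box Y := by
  rintro p ⟨h1, h2⟩
  exact ⟨h1.trans (pow_le_pow_left₀ h0 h 2), h2.trans (pow_le_pow_left₀ h0 h 3)⟩

theorem log_bd (ε X : ℝ) (hε : 0 < ε) (hX : 1 ≤ X) : 1 + Real.log X ≤ (1 + 1 / ε) * X ^ ε := by
  have h1 : Real.log X ≤ X ^ ε / ε := Real.log_le_rpow_div (by linarith) hε
  have h2 : 1 ≤ X ^ ε := Real.one_le_rpow hX hε.le
  have h3 : (1 + 1 / ε) * X ^ ε = X ^ ε + X ^ ε / ε := by ring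
  linarith

/-- The forms give pairs. -/
def phi (f : BQ ℤ) : ℤ × ℤ := ((-f.I) / 48, (-f.J) / 1728)

theorem phi_eq (f : BQ ℤ) (A B : ℤ) (h1 : f.I = -48 * A) (h2 : f.J = -1728 * B) : phi f = (A, B) := by
  unfold phi
  rw [h1, h2]
  have e1 : (-(-48 * A)) / 48 = A := by omega
  have e2 : (-(-1728 * B)) / 1728 = B := by omega
  rw [e1, e2]

theorem ht_box (X H : ℝ) (hX : 0 ≤ X) (hXH : X ^ 6 = H) (A B : ℤ) (h : ht A B ≤ H) :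
    |(A : ℝ)| ≤ X ^ 2 ∧ |(B : ℝ)| ≤ X ^ 3 := by
  unfold ht at h
  have h1 := (le_max_left _ _).trans h
  have h2 := (le_max_right _ _).trans h
  have hA3 : |(A : ℝ)| ^ 3 ≤ (X ^ 2) ^ 3 := by
    have e : |4 * (A : ℝ) ^ 3| = 4 * |(A : ℝ)| ^ 3 := by
      rw [abs_mul, abs_pow]; norm_num
    have e' : (X ^ 2) ^ 3 = X ^ 6 := by ring
    have p : 0 ≤ |(A : ℝ)| ^ 3 := by positivity
    rw [e', hXH]
    linarith
  have hB2 : |(B : ℝ)| ^ 2 ≤ (X ^ 3) ^ 2 := by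
    have e : |27 * (B : ℝ) ^ 2| = 27 * |(B : ℝ)| ^ 2 := by
      rw [abs_mul, abs_pow]; norm_num
    have e' : (X ^ 3) ^ 2 = X ^ 6 := by ring
    have p : 0 ≤ |(B : ℝ)| ^ 2 := by positivity
    rw [e', hXH]
    linarith
  exact ⟨le_of_pow_le_pow_left₀ (by norm_num) (by positivity) hA3,
    le_of_pow_le_pow_left₀ (by norm_num) (by positivity) hB2⟩

theorem Fe_sub_box (X M : ℝ) (e : ℕ) : Fe X M e ⊆ Box X := by
  rintro p ⟨a, -, -, h1, h2, -⟩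
  exact ⟨h1, h2⟩

theorem Fe_mono (X M M' : ℝ) (e : ℕ) (h : M ≤ M') : Fe X M e ⊆ Fe X M' e := by
  rintro p ⟨a, h0, h1, h2⟩
  exact ⟨a, h0, h1.trans h, h2⟩

theorem ncard_union3 (S D Z : Set (ℤ × ℤ)) (G : Set (BQ ℤ)) (hD : D.Finite) (hZ : Z.Finite) (hG : G.Finite)
    (h : S ⊆ D ∪ Z ∪ phi '' G) : (S.ncard : ℝ) ≤ D.ncard + Z.ncard + G.ncard := by
  have h1 : S.ncard ≤ (D ∪ Z ∪ phi '' G).ncard :=
    Set.ncard_le_ncard h ((hD.union hZ).union (hG.image _))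
  have h2 : (D ∪ Z ∪ phi '' G).ncard ≤ (D ∪ Z).ncard + (phi '' G).ncard := Set.ncard_union_le _ _
  have h3 : (D ∪ Z).ncard ≤ D.ncard + Z.ncard := Set.ncard_union_le _ _
  have h4 : (phi '' G).ncard ≤ G.ncard := Set.ncard_image_le hG
  have h5 : S.ncard ≤ D.ncard + Z.ncard + G.ncard := by omega
  exact_mod_cast h5

theorem numeric (X δ C C₁ C₂ C₃ n₁ n₂ n₃ : ℝ) (hX : 1 ≤ X) (hδ : 0 < δ) (hδ1 : δ ≤ 1 / 10) (hC : 1 ≤ C)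
    (hC₁ : 0 < C₁) (hC₂ : 0 < C₂) (hC₃ : 0 < C₃)
    (h₁ : n₁ ≤ C₁ * X ^ (5 - 5 * (3 / 10 + δ / 2) / 6))
    (h₂ : n₂ ≤ C₂ * X ^ ((37 : ℝ) / 8))
    (h₃ : n₃ ≤ C₃ * (1 + Real.log X) * (X ^ ((9 : ℝ) / 2) * (1 + Real.log X) ^ 2 +
      X ^ ((17 : ℝ) / 4) * (C ^ ((1 : ℝ) / 4) * X ^ (1 / 2 - δ / 8)))) :
    n₁ + n₂ + n₃ ≤ (C₁ + C₂ + C₃ * ((1 + 1 / (δ / 72)) ^ 3 + (1 + 1 / (δ / 72)) * C ^ ((1 : ℝ) / 4))) *
      X ^ (19 / 4 - δ / 9) := by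
  have hX0 : 0 < X := by linarith
  set L : ℝ := 1 + 1 / (δ / 72) with hL
  have hL0 : 0 < L := by positivity
  set W := X ^ (19 / 4 - δ / 9) with hW
  have hW0 : 0 < W := by positivity
  have hlog := log_bd (δ / 72) X (by positivity) hX
  rw [← hL] at hlog
  have hlog0 : 0 ≤ Real.log X := Real.log_nonneg hX
  have a₁ : X ^ (5 - 5 * (3 / 10 + δ / 2) / 6) ≤ W :=
    Real.rpow_le_rpow_of_exponent_le hX (by linarith)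
  have a₂ : X ^ ((37 : ℝ) / 8) ≤ W := Real.rpow_le_rpow_of_exponent_le hX (by linarith)
  set v := X ^ (δ / 72) with hv
  have hv0 : 0 < v := by positivity
  have e1 : (1 + Real.log X) ^ 3 ≤ (L * v) ^ 3 := pow_le_pow_left₀ (by linarith) hlog 3
  have e2 : v ^ 3 * X ^ ((9 : ℝ) / 2) ≤ W := by
    have : v ^ 3 = X ^ (δ / 72 * 3) := by
      rw [hv, Real.rpow_mul hX0.le]; norm_cast
    rw [this, ← Real.rpow_add hX0]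
    exact Real.rpow_le_rpow_of_exponent_le hX (by linarith)
  have e3 : v * (X ^ ((17 : ℝ) / 4) * X ^ (1 / 2 - δ / 8)) = W := by
    rw [hv, ← Real.rpow_add hX0, ← Real.rpow_add hX0, hW]
    congr 1
    ring
  have b₁ : (1 + Real.log X) * (X ^ ((9 : ℝ) / 2) * (1 + Real.log X) ^ 2) ≤ L ^ 3 * W := by
    calc (1 + Real.log X) * (X ^ ((9 : ℝ) / 2) * (1 + Real.log X) ^ 2)
        = (1 + Real.log X) ^ 3 * X ^ ((9 : ℝ) / 2) := by ring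
      _ ≤ (L * v) ^ 3 * X ^ ((9 : ℝ) / 2) := by gcongr
      _ = L ^ 3 * (v ^ 3 * X ^ ((9 : ℝ) / 2)) := by ring
      _ ≤ L ^ 3 * W := by gcongr
  have hC4 : 0 < C ^ ((1 : ℝ) / 4) := by positivity
  have b₂ : (1 + Real.log X) * (X ^ ((17 : ℝ) / 4) * (C ^ ((1 : ℝ) / 4) * X ^ (1 / 2 - δ / 8))) ≤
      L * C ^ ((1 : ℝ) / 4) * W := by
    calc (1 + Real.log X) * (X ^ ((17 : ℝ) / 4) * (C ^ ((1 : ℝ) / 4) * X ^ (1 / 2 - δ / 8)))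
        ≤ (L * v) * (X ^ ((17 : ℝ) / 4) * (C ^ ((1 : ℝ) / 4) * X ^ (1 / 2 - δ / 8))) := by gcongr
      _ = L * C ^ ((1 : ℝ) / 4) * (v * (X ^ ((17 : ℝ) / 4) * X ^ (1 / 2 - δ / 8))) := by ring
      _ = L * C ^ ((1 : ℝ) / 4) * W := by rw [e3]
  have c₃ : n₃ ≤ C₃ * (L ^ 3 * W + L * C ^ ((1 : ℝ) / 4) * W) := by
    refine h₃.trans ?_
    rw [mul_assoc, mul_add]
    exact mul_le_mul_of_nonneg_left (add_le_add b₁ b₂) hC₃.le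
  have c₁ : n₁ ≤ C₁ * W := h₁.trans (mul_le_mul_of_nonneg_left a₁ hC₁.le)
  have c₂ : n₂ ≤ C₂ * W := h₂.trans (mul_le_mul_of_nonneg_left a₂ hC₂.le)
  have e : (C₁ + C₂ + C₃ * (L ^ 3 + L * C ^ ((1 : ℝ) / 4))) * W =
      C₁ * W + C₂ * W + C₃ * (L ^ 3 * W + L * C ^ ((1 : ℝ) / 4) * W) := by ring
  rw [e]
  linarith

end IM2

open IM2 in
theorem pg_M2 : S_M2 := by
  rintro ⟨C, hC1, hAlt⟩ hCU hDC hZ0 κ hκ
  obtain ⟨κ₀, hk1, hk2, hk3⟩ : ∃ κ₀ : ℝ, κ ≤ κ₀ ∧ 3 / 5 ≤ κ₀ ∧ κ₀ < 37 / 60 :=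
    ⟨max κ (3 / 5), le_max_left _ _, le_max_right _ _, max_lt hκ (by norm_num)⟩
  obtain ⟨δ, hδ⟩ : ∃ δ : ℝ, δ = 37 / 10 - 6 * κ₀ := ⟨_, rfl⟩
  have hδ0 : 0 < δ := by linarith
  have hδ1 : δ ≤ 1 / 10 := by linarith
  obtain ⟨C₁, hC₁, hD⟩ := hDC (3 / 10 + δ / 2) (by linarith) (by linarith)
  obtain ⟨C₂, hC₂, hZ⟩ := hZ0 C hC1
  obtain ⟨C₃, hC₃, hG⟩ := hCU C hC1
  have hCp : 0 < C := by linarith
  have hC4 : 1 ≤ C ^ ((1 : ℝ) / 4) := Real.one_le_rpow hC1 (by norm_num)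
  obtain ⟨X₀, hX₀⟩ : ∃ X₀ : ℝ, X₀ = (2 * C ^ ((1 : ℝ) / 4)) ^ (8 / δ) := ⟨_, rfl⟩
  have hX₀0 : 0 < X₀ := by rw [hX₀]; positivity
  refine ⟨δ / 54, by positivity,
    (C₁ + C₂ + C₃ * ((1 + 1 / (δ / 72)) ^ 3 + (1 + 1 / (δ / 72)) * C ^ ((1 : ℝ) / 4))) +
      ((Box X₀).ncard : ℝ), by positivity, ?_⟩
  intro H hH
  have hH0 : 0 < H := by linarith
  obtain ⟨X, hX⟩ : ∃ X : ℝ, X = H ^ ((1 : ℝ) / 6) := ⟨_, rfl⟩
  have hX1 : 1 ≤ X := by rw [hX]; exact Real.one_le_rpow hH (by norm_num)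
  have hX0 : 0 < X := by linarith
  have hXH : X ^ 6 = H := by
    rw [hX, ← Real.rpow_natCast, ← Real.rpow_mul hH0.le]; norm_num
  have hpow : ∀ t : ℝ, H ^ t = X ^ (6 * t) := by
    intro t
    rw [hX, ← Real.rpow_mul hH0.le]
    congr 1
    ring
  have hfin : H ^ ((19 : ℝ) / 24 - δ / 54) = X ^ (19 / 4 - δ / 9) := by
    rw [hpow]
    congr 1
    ring
  rw [hfin]
  set S : Set (ℤ × ℤ) := {p : ℤ × ℤ | 4 * p.1 ^ 3 + 27 * p.2 ^ 2 ≠ 0 ∧ ht p.1 p.2 ≤ H ∧ Sg κ H p.1 p.2} with hS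
  have hSbox : S ⊆ Box X := by
    rintro p ⟨-, h, -⟩
    exact ht_box X H hX0.le hXH p.1 p.2 h
  have hW1 : 1 ≤ X ^ (19 / 4 - δ / 9) := Real.one_le_rpow hX1 (by linarith)
  have hbig0 : 0 ≤ C₁ + C₂ + C₃ * ((1 + 1 / (δ / 72)) ^ 3 + (1 + 1 / (δ / 72)) * C ^ ((1 : ℝ) / 4)) := by
    positivity
  rcases le_total X X₀ with hc | hc
  · -- small X
    have h1 : S.ncard ≤ (Box X₀).ncard :=
      Set.ncard_le_ncard (hSbox.trans (box_mono X X₀ hX0.le hc)) (box_finite X₀)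
    have h2 : (S.ncard : ℝ) ≤ ((Box X₀).ncard : ℝ) := by exact_mod_cast h1
    have h3 : (0 : ℝ) ≤ ((Box X₀).ncard : ℝ) := Nat.cast_nonneg _
    calc (S.ncard : ℝ) ≤ ((Box X₀).ncard : ℝ) * 1 := by linarith
      _ ≤ ((C₁ + C₂ + C₃ * ((1 + 1 / (δ / 72)) ^ 3 + (1 + 1 / (δ / 72)) * C ^ ((1 : ℝ) / 4))) +
            ((Box X₀).ncard : ℝ)) * X ^ (19 / 4 - δ / 9) := by
          apply mul_le_mul _ hW1 (by norm_num) (by positivity)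
          linarith
  · -- large X
    have hR : (C * H ^ κ₀ * X ^ ((3 / 10 + δ / 2) - 2)) ^ ((1 : ℝ) / 4) =
        C ^ ((1 : ℝ) / 4) * X ^ (1 / 2 - δ / 8) := by
      have e : C * H ^ κ₀ * X ^ ((3 / 10 + δ / 2) - 2) = C * X ^ (2 - δ / 2) := by
        rw [mul_assoc, hpow, ← Real.rpow_add hX0]
        congr 2
        rw [hδ]
        ring
      rw [e, Real.mul_rpow hCp.le (by positivity), ← Real.rpow_mul hX0.le]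
      congr 2
      ring
    have hR1 : 1 ≤ C ^ ((1 : ℝ) / 4) * X ^ (1 / 2 - δ / 8) := by
      have : 1 ≤ X ^ (1 / 2 - δ / 8) := Real.one_le_rpow hX1 (by linarith)
      nlinarith
    have hR2 : 2 * (C ^ ((1 : ℝ) / 4) * X ^ (1 / 2 - δ / 8)) ≤ √X := by
      have h1 : 2 * C ^ ((1 : ℝ) / 4) ≤ X ^ (δ / 8) := by
        have h2 : X₀ ^ (δ / 8) = 2 * C ^ ((1 : ℝ) / 4) := by
          rw [hX₀, ← Real.rpow_mul (by positivity)]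
          have : 8 / δ * (δ / 8) = 1 := by field_simp
          rw [this, Real.rpow_one]
        rw [← h2]
        exact Real.rpow_le_rpow hX₀0.le hc (by positivity)
      have h3 : √X = X ^ (δ / 8) * X ^ (1 / 2 - δ / 8) := by
        rw [← Real.rpow_add hX0, Real.sqrt_eq_rpow]
        congr 1
        ring
      rw [h3, ← mul_assoc]
      exact mul_le_mul_of_nonneg_right h1 (by positivity)
    obtain ⟨hGf, hGn⟩ := hG X (C ^ ((1 : ℝ) / 4) * X ^ (1 / 2 - δ / 8)) hX1 hR1 hR2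
    have hDf : {p : ℤ × ℤ | |(p.1 : ℝ)| ≤ X ^ 2 ∧ |(p.2 : ℝ)| ≤ X ^ 3 ∧
        |4 * (p.1 : ℝ) ^ 3 + 27 * (p.2 : ℝ) ^ 2| ≤ X ^ (6 - (3 / 10 + δ / 2))}.Finite :=
      (box_finite X).subset (fun p h => ⟨h.1, h.2.1⟩)
    have hZf : {p : ℤ × ℤ | ∃ e : ℕ, 0 < e ∧ (e : ℝ) ≤ C * √X ∧ p ∈ Fe X (X ^ ((15 : ℝ) / 4)) e}.Finite :=
      (box_finite X).subset (fun p ⟨e, _, _, h⟩ => Fe_sub_box _ _ _ h)
    have hsub : S ⊆ {p : ℤ × ℤ | |(p.1 : ℝ)| ≤ X ^ 2 ∧ |(p.2 : ℝ)| ≤ X ^ 3 ∧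
        |4 * (p.1 : ℝ) ^ 3 + 27 * (p.2 : ℝ) ^ 2| ≤ X ^ (6 - (3 / 10 + δ / 2))} ∪
        {p : ℤ × ℤ | ∃ e : ℕ, 0 < e ∧ (e : ℝ) ≤ C * √X ∧ p ∈ Fe X (X ^ ((15 : ℝ) / 4)) e} ∪
        phi '' {f : BQ ℤ | ∃ ω : ℝ, X ^ (-(1 / 4) : ℝ) / C ≤ ω ∧ ω ≤ 2 ∧
          f ∈ GW C X ω (C ^ ((1 : ℝ) / 4) * X ^ (1 / 2 - δ / 8))} := by
      rintro ⟨A, B⟩ hp
      obtain ⟨hA, hB⟩ := hSbox hp
      obtain ⟨-, -, P, x, y, hPxy, hP2, hnum, hden⟩ := hp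
      simp only at hA hB hPxy hP2
      by_cases hdisc : |4 * (A : ℝ) ^ 3 + 27 * (B : ℝ) ^ 2| ≤ X ^ (6 - (3 / 10 + δ / 2))
      · exact Or.inl (Or.inl ⟨hA, hB, hdisc⟩)
      · push Not at hdisc
        have hHκ : H ^ κ ≤ H ^ κ₀ := Real.rpow_le_rpow_of_exponent_le hH hk1
        have hden' : (x.den : ℝ) * X ≤ H ^ κ₀ := by
          rw [hX]
          exact hden.trans hHκ
        rcases hAlt X (H ^ κ₀) (3 / 10 + δ / 2) A B P x y hX1 (by linarith) hA hB hdisc hPxy hP2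
          (hnum.trans hHκ) hden' with ⟨e, he0, he1, he2⟩ | ⟨f, hI, hJ, ω, hω1, hω2, hf⟩
        · refine Or.inl (Or.inr ⟨e, he0, he1, Fe_mono X _ _ e ?_ he2⟩)
          rw [hpow]
          exact Real.rpow_le_rpow_of_exponent_le hX1 (by linarith)
        · refine Or.inr ⟨f, ⟨ω, hω1, hω2, ?_⟩, phi_eq f A B hI hJ⟩
          rw [hR] at hf
          exact hf
    have hn := ncard_union3 S _ _ _ hDf hZf hGf hsub
    have hnum := numeric X δ C C₁ C₂ C₃ _ _ _ hX1 hδ0 hδ1 hC1 hC₁ hC₂ hC₃ (hD X hX1) (hZ X hX1) hGn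
    have h3 : (0 : ℝ) ≤ ((Box X₀).ncard : ℝ) * X ^ (19 / 4 - δ / 9) := by positivity
    rw [add_mul]
    linarith

end Pool.Agent.Work.MP_bd3ec3_nt.SG
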