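import Pool.Agent.Work.MP_bd3ec3_nt.SG.StmtsV

/-!
# MP_bd3ec3_nt, block SG, item N2: the number of the curves with a small point outside `2 E(ℚ)`, strong form
-/

set_option autoImplicit false

namespace Pool.Agent.Work.MP_bd3ec3_nt.SG

open Pool.Agent.Work.MP_bd3ec3_nt.SP Filter Topology

namespace IN2

/-- The box of the coefficients. -/
def Box (X : ℝ) : Set (ℤ × ℤ) := {p | |(p.1 : ℝ)| ≤ X ^ 2 ∧ |(p.2 : ℝ)| ≤ X ^ 3}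

theorem box_finite (X : ℝ) : (Box X).Finite := by
  apply Set.Finite.subset ((Set.finite_Icc (-⌊X ^ 2⌋) ⌊X ^ 2⌋).prod (Set.finite_Icc (-⌊X ^ 3⌋) ⌊X ^ 3⌋))
  rintro ⟨a, b⟩ ⟨h1, h2⟩
  simp only at h1 h2
  rw [abs_le] at h1 h2
  simp only [Set.mem_prod, Set.mem_Icc]
  refine ⟨⟨?_, Int.le_floor.2 h1.2⟩, ⟨?_, Int.le_floor.2 h2.2⟩⟩
  · have h : (-a : ℤ) ≤ ⌊X ^ 2⌋ := Int.le_floor.2 (by push_cast; linarith [h1.1])
    omega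
  · have h : (-b : ℤ) ≤ ⌊X ^ 3⌋ := Int.le_floor.2 (by push_cast; linarith [h2.1])
    omega

theorem box_mono (X Y : ℝ) (h0 : 0 ≤ X) (h : X ≤ Y) : Box X ⊆ Box Y := by
  rintro p ⟨h1, h2⟩
  exact ⟨h1.trans (pow_le_pow_left₀ h0 h 2), h2.trans (pow_le_pow_left₀ h0 h 3)⟩

theorem log_bd (ε X : ℝ) (hε : 0 < ε) (hX : 1 ≤ X) : 1 + Real.log X ≤ (1 + 1 / ε) * X ^ ε := by
  have h1 : Real.log X ≤ X ^ ε / ε := Real.log_le_rpow_div (by linarith) hε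
  have h2 : 1 ≤ X ^ ε := Real.one_le_rpow hX hε.le
  have h3 : (1 + 1 / ε) * X ^ ε = X ^ ε + X ^ ε / ε := by ring
  linarith

theorem ht_box (X H : ℝ) (hX : 0 ≤ X) (hXH : X ^ 6 = H) (A B : ℤ) (h : ht A B ≤ H) :
    |(A : ℝ)| ≤ X ^ 2 ∧ |(B : ℝ)| ≤ X ^ 3 := by
  unfold ht at h
  have h1 := (le_max_left _ _).trans h
  have h2 := (le_max_right _ _).trans h
  have hA3 : |(A : ℝ)| ^ 3 ≤ (X ^ 2) ^ 3 := by
    have e : |4 * (A : ℝ) ^ 3| = 4 * |(A : ℝ)| ^ 3 := by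
      rw [abs_mul, abs_pow]; norm_num
    have e' : (X ^ 2) ^ 3 = X ^ 6 := by ring
    have p : 0 ≤ |(A : ℝ)| ^ 3 := by positivity
    rw [e', hXH]
    linarith
  have hB2 : |(B : ℝ)| ^ 2 ≤ (X ^ 3) ^ 2 := by
    have e : |27 * (B : ℝ) ^ 2| = 27 * |(B : ℝ)| ^ 2 := by
      rw [abs_mul, abs_pow]; norm_num
    have e' : (X ^ 3) ^ 2 = X ^ 6 := by ring
    have p : 0 ≤ |(B : ℝ)| ^ 2 := by positivity
    rw [e', hXH]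
    linarith
  exact ⟨le_of_pow_le_pow_left₀ (by norm_num) (by positivity) hA3,
    le_of_pow_le_pow_left₀ (by norm_num) (by positivity) hB2⟩

theorem Fe_sub_box (X M : ℝ) (e : ℕ) : Fe X M e ⊆ Box X := by
  rintro p ⟨a, -, -, h1, h2, -⟩
  exact ⟨h1, h2⟩

theorem Fe_mono (X M M' : ℝ) (e : ℕ) (h : M ≤ M') : Fe X M e ⊆ Fe X M' e := by
  rintro p ⟨a, h0, h1, h2⟩
  exact ⟨a, h0, h1.trans h, h2⟩

theorem ncard_union3 (S D Z G : Set (ℤ × ℤ)) (hD : D.Finite) (hZ : Z.Finite) (hG : G.Finite)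
    (h : S ⊆ D ∪ Z ∪ G) : (S.ncard : ℝ) ≤ D.ncard + Z.ncard + G.ncard := by
  have h1 : S.ncard ≤ (D ∪ Z ∪ G).ncard := Set.ncard_le_ncard h ((hD.union hZ).union hG)
  have h2 : (D ∪ Z ∪ G).ncard ≤ (D ∪ Z).ncard + G.ncard := Set.ncard_union_le _ _
  have h3 : (D ∪ Z).ncard ≤ D.ncard + Z.ncard := Set.ncard_union_le _ _
  have h5 : S.ncard ≤ D.ncard + Z.ncard + G.ncard := by omega
  exact_mod_cast h5

theorem numeric (X δ C C₁ C₂ C₃ n₁ n₂ n₃ : ℝ) (hX : 1 ≤ X) (hδ : 0 < δ) (hδ1 : δ ≤ 7 / 10) (hC : 1 ≤ C)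
    (hC₁ : 0 < C₁) (hC₂ : 0 < C₂) (hC₃ : 0 < C₃)
    (h₁ : n₁ ≤ C₁ * X ^ (5 - 5 * ((2 : ℝ) / 5) / 6))
    (h₂ : n₂ ≤ C₂ * X ^ ((37 : ℝ) / 8))
    (h₃ : n₃ ≤ C₃ * (1 + Real.log X) * (X ^ (9 / 4 - δ / 2) * X ^ ((5 : ℝ) / 2) * (1 + Real.log X) ^ 2 +
      X ^ ((15 : ℝ) / 4) * (C ^ ((1 : ℝ) / 4) * X ^ (39 / 40 - δ / 4)) +
      X ^ ((9 : ℝ) / 2) * (1 + Real.log X) ^ 2)) :
    n₁ + n₂ + n₃ ≤ (C₁ + C₂ + C₃ * (2 * (1 + 1 / (δ / 100)) ^ 3 + (1 + 1 / (δ / 100)) * C ^ ((1 : ℝ) / 4))) *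
      X ^ (19 / 4 - δ / 100) := by
  have hX0 : 0 < X := by linarith
  set L : ℝ := 1 + 1 / (δ / 100) with hL
  have hL0 : 0 < L := by positivity
  set W := X ^ (19 / 4 - δ / 100) with hW
  have hW0 : 0 < W := by positivity
  have hlog := log_bd (δ / 100) X (by positivity) hX
  rw [← hL] at hlog
  have hlog0 : 0 ≤ Real.log X := Real.log_nonneg hX
  have a₁ : X ^ (5 - 5 * ((2 : ℝ) / 5) / 6) ≤ W :=
    Real.rpow_le_rpow_of_exponent_le hX (by linarith)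
  have a₂ : X ^ ((37 : ℝ) / 8) ≤ W := Real.rpow_le_rpow_of_exponent_le hX (by linarith)
  set v := X ^ (δ / 100) with hv
  have hv0 : 0 < v := by positivity
  have e1 : (1 + Real.log X) ^ 3 ≤ (L * v) ^ 3 := pow_le_pow_left₀ (by linarith) hlog 3
  have hv3 : v ^ 3 = X ^ (δ / 100 * 3) := by
    rw [hv, Real.rpow_mul hX0.le]; norm_cast
  have e2 : v ^ 3 * X ^ ((9 : ℝ) / 2) ≤ W := by
    rw [hv3, ← Real.rpow_add hX0]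
    exact Real.rpow_le_rpow_of_exponent_le hX (by linarith)
  have e2' : v ^ 3 * (X ^ (9 / 4 - δ / 2) * X ^ ((5 : ℝ) / 2)) ≤ W := by
    rw [hv3, ← Real.rpow_add hX0, ← Real.rpow_add hX0]
    exact Real.rpow_le_rpow_of_exponent_le hX (by linarith)
  have e3 : v * (X ^ ((15 : ℝ) / 4) * X ^ (39 / 40 - δ / 4)) ≤ W := by
    rw [hv, ← Real.rpow_add hX0, ← Real.rpow_add hX0, hW]
    exact Real.rpow_le_rpow_of_exponent_le hX (by linarith)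
  have hC4 : 0 < C ^ ((1 : ℝ) / 4) := by positivity
  have b₀ : (1 + Real.log X) * (X ^ (9 / 4 - δ / 2) * X ^ ((5 : ℝ) / 2) * (1 + Real.log X) ^ 2) ≤ L ^ 3 * W := by
    calc (1 + Real.log X) * (X ^ (9 / 4 - δ / 2) * X ^ ((5 : ℝ) / 2) * (1 + Real.log X) ^ 2)
        = (1 + Real.log X) ^ 3 * (X ^ (9 / 4 - δ / 2) * X ^ ((5 : ℝ) / 2)) := by ring
      _ ≤ (L * v) ^ 3 * (X ^ (9 / 4 - δ / 2) * X ^ ((5 : ℝ) / 2)) := by gcongr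
      _ = L ^ 3 * (v ^ 3 * (X ^ (9 / 4 - δ / 2) * X ^ ((5 : ℝ) / 2))) := by ring
      _ ≤ L ^ 3 * W := by gcongr
  have b₁ : (1 + Real.log X) * (X ^ ((9 : ℝ) / 2) * (1 + Real.log X) ^ 2) ≤ L ^ 3 * W := by
    calc (1 + Real.log X) * (X ^ ((9 : ℝ) / 2) * (1 + Real.log X) ^ 2)
        = (1 + Real.log X) ^ 3 * X ^ ((9 : ℝ) / 2) := by ring
      _ ≤ (L * v) ^ 3 * X ^ ((9 : ℝ) / 2) := by gcongr
      _ = L ^ 3 * (v ^ 3 * X ^ ((9 : ℝ) / 2)) := by ring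
      _ ≤ L ^ 3 * W := by gcongr
  have b₂ : (1 + Real.log X) * (X ^ ((15 : ℝ) / 4) * (C ^ ((1 : ℝ) / 4) * X ^ (39 / 40 - δ / 4))) ≤
      L * C ^ ((1 : ℝ) / 4) * W := by
    calc (1 + Real.log X) * (X ^ ((15 : ℝ) / 4) * (C ^ ((1 : ℝ) / 4) * X ^ (39 / 40 - δ / 4)))
        ≤ (L * v) * (X ^ ((15 : ℝ) / 4) * (C ^ ((1 : ℝ) / 4) * X ^ (39 / 40 - δ / 4))) := by gcongr
      _ = L * C ^ ((1 : ℝ) / 4) * (v * (X ^ ((15 : ℝ) / 4) * X ^ (39 / 40 - δ / 4))) := by ring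
      _ ≤ L * C ^ ((1 : ℝ) / 4) * W := by gcongr
  have c₃ : n₃ ≤ C₃ * (L ^ 3 * W + L * C ^ ((1 : ℝ) / 4) * W + L ^ 3 * W) := by
    refine h₃.trans ?_
    have h4 := mul_le_mul_of_nonneg_left (add_le_add (add_le_add b₀ b₂) b₁) hC₃.le
    rw [← mul_add, ← mul_add, ← mul_assoc] at h4
    exact h4
  have c₁ : n₁ ≤ C₁ * W := h₁.trans (mul_le_mul_of_nonneg_left a₁ hC₁.le)
  have c₂ : n₂ ≤ C₂ * W := h₂.trans (mul_le_mul_of_nonneg_left a₂ hC₂.le)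
  have e : (C₁ + C₂ + C₃ * (2 * L ^ 3 + L * C ^ ((1 : ℝ) / 4))) * W =
      C₁ * W + C₂ * W + C₃ * (L ^ 3 * W + L * C ^ ((1 : ℝ) / 4) * W + L ^ 3 * W) := by ring
  rw [e]
  linarith

end IN2

open IN2 in
theorem pg_N2 : S_N2 := by
  rintro ⟨C, hC1, hAlt⟩ hCV hDC hZ0 κ hκ
  obtain ⟨κ₀, hk1, hk2, hk3⟩ : ∃ κ₀ : ℝ, κ ≤ κ₀ ∧ 4 / 5 ≤ κ₀ ∧ κ₀ < 11 / 12 :=
    ⟨max κ (4 / 5), le_max_left _ _, le_max_right _ _, max_lt hκ (by norm_num)⟩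
  obtain ⟨δ, hδ⟩ : ∃ δ : ℝ, δ = 11 / 2 - 6 * κ₀ := ⟨_, rfl⟩
  have hδ0 : 0 < δ := by linarith
  have hδ1 : δ ≤ 7 / 10 := by linarith
  obtain ⟨C₁, hC₁, hD⟩ := hDC (2 / 5) (by norm_num) (by norm_num)
  obtain ⟨C₂, hC₂, hZ⟩ := hZ0 C hC1
  obtain ⟨C₃, hC₃, hG⟩ := hCV C hC1
  have hCp : 0 < C := by linarith
  have hC4 : 1 ≤ C ^ ((1 : ℝ) / 4) := Real.one_le_rpow hC1 (by norm_num)
  obtain ⟨X₀, hX₀⟩ : ∃ X₀ : ℝ, X₀ = (4 * C ^ ((1 : ℝ) / 4)) ^ (40 : ℝ) := ⟨_, rfl⟩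
  have hX₀0 : 0 < X₀ := by rw [hX₀]; positivity
  have hX₀C : C ≤ X₀ := by
    have h1 : (C ^ ((1 : ℝ) / 4)) ^ (4 : ℝ) = C := by
      rw [← Real.rpow_mul hCp.le]; norm_num
    calc C = (C ^ ((1 : ℝ) / 4)) ^ (4 : ℝ) := h1.symm
      _ ≤ (4 * C ^ ((1 : ℝ) / 4)) ^ (4 : ℝ) := Real.rpow_le_rpow (by positivity) (by linarith) (by norm_num)
      _ ≤ (4 * C ^ ((1 : ℝ) / 4)) ^ (40 : ℝ) :=
          Real.rpow_le_rpow_of_exponent_le (by linarith) (by norm_num)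
      _ = X₀ := hX₀.symm
  refine ⟨δ / 600, by positivity,
    (C₁ + C₂ + C₃ * (2 * (1 + 1 / (δ / 100)) ^ 3 + (1 + 1 / (δ / 100)) * C ^ ((1 : ℝ) / 4))) +
      ((Box X₀).ncard : ℝ), by positivity, ?_⟩
  intro H hH
  have hH0 : 0 < H := by linarith
  obtain ⟨X, hX⟩ : ∃ X : ℝ, X = H ^ ((1 : ℝ) / 6) := ⟨_, rfl⟩
  have hX1 : 1 ≤ X := by rw [hX]; exact Real.one_le_rpow hH (by norm_num)
  have hX0 : 0 < X := by linarith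
  have hXH : X ^ 6 = H := by
    rw [hX, ← Real.rpow_natCast, ← Real.rpow_mul hH0.le]; norm_num
  have hpow : ∀ t : ℝ, H ^ t = X ^ (6 * t) := by
    intro t
    rw [hX, ← Real.rpow_mul hH0.le]
    congr 1
    ring
  have hfin : H ^ ((19 : ℝ) / 24 - δ / 600) = X ^ (19 / 4 - δ / 100) := by
    rw [hpow]
    congr 1
    ring
  rw [hfin]
  set S : Set (ℤ × ℤ) := {p : ℤ × ℤ | 4 * p.1 ^ 3 + 27 * p.2 ^ 2 ≠ 0 ∧ ht p.1 p.2 ≤ H ∧ Sg κ H p.1 p.2} with hS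
  have hSbox : S ⊆ Box X := by
    rintro p ⟨-, h, -⟩
    exact ht_box X H hX0.le hXH p.1 p.2 h
  have hW1 : 1 ≤ X ^ (19 / 4 - δ / 100) := Real.one_le_rpow hX1 (by linarith)
  have hbig0 : 0 ≤ C₁ + C₂ + C₃ * (2 * (1 + 1 / (δ / 100)) ^ 3 + (1 + 1 / (δ / 100)) * C ^ ((1 : ℝ) / 4)) := by
    positivity
  rcases le_total X X₀ with hc | hc
  · -- small X
    have h1 : S.ncard ≤ (Box X₀).ncard :=
      Set.ncard_le_ncard (hSbox.trans (box_mono X X₀ hX0.le hc)) (box_finite X₀)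
    have h2 : (S.ncard : ℝ) ≤ ((Box X₀).ncard : ℝ) := by exact_mod_cast h1
    have h3 : (0 : ℝ) ≤ ((Box X₀).ncard : ℝ) := Nat.cast_nonneg _
    calc (S.ncard : ℝ) ≤ ((Box X₀).ncard : ℝ) * 1 := by linarith
      _ ≤ ((C₁ + C₂ + C₃ * (2 * (1 + 1 / (δ / 100)) ^ 3 + (1 + 1 / (δ / 100)) * C ^ ((1 : ℝ) / 4))) +
            ((Box X₀).ncard : ℝ)) * X ^ (19 / 4 - δ / 100) := by
          apply mul_le_mul _ hW1 (by norm_num) (by positivity)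
          linarith
  · -- large X
    have hR : (C * H ^ κ₀ * X ^ ((2 : ℝ) / 5 - 2)) ^ ((1 : ℝ) / 4) =
        C ^ ((1 : ℝ) / 4) * X ^ (39 / 40 - δ / 4) := by
      have e : C * H ^ κ₀ * X ^ ((2 : ℝ) / 5 - 2) = C * X ^ (39 / 10 - δ) := by
        rw [mul_assoc, hpow, ← Real.rpow_add hX0]
        congr 2
        rw [hδ]
        ring
      rw [e, Real.mul_rpow hCp.le (by positivity), ← Real.rpow_mul hX0.le]
      congr 2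
      ring
    have hE : √(H ^ κ₀ / X) = X ^ (9 / 4 - δ / 2) := by
      have e : H ^ κ₀ / X = X ^ (9 / 2 - δ) := by
        rw [hpow, div_eq_iff hX0.ne', ← Real.rpow_add_one hX0.ne']
        congr 1
        rw [hδ]
        ring
      rw [e, Real.sqrt_eq_rpow, ← Real.rpow_mul hX0.le]
      congr 1
      ring
    have hR1 : 1 ≤ C ^ ((1 : ℝ) / 4) * X ^ (39 / 40 - δ / 4) := by
      have : 1 ≤ X ^ (39 / 40 - δ / 4) := Real.one_le_rpow hX1 (by linarith)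
      nlinarith
    have hE1 : 1 ≤ X ^ (9 / 4 - δ / 2) := Real.one_le_rpow hX1 (by linarith)
    have hR2 : 4 * (C ^ ((1 : ℝ) / 4) * X ^ (39 / 40 - δ / 4)) ≤ X := by
      have h1 : 4 * C ^ ((1 : ℝ) / 4) ≤ X ^ ((1 : ℝ) / 40) := by
        have h2 : X₀ ^ ((1 : ℝ) / 40) = 4 * C ^ ((1 : ℝ) / 4) := by
          rw [hX₀, ← Real.rpow_mul (by positivity)]
          norm_num
        rw [← h2]
        exact Real.rpow_le_rpow hX₀0.le hc (by norm_num)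
      calc 4 * (C ^ ((1 : ℝ) / 4) * X ^ (39 / 40 - δ / 4))
          = (4 * C ^ ((1 : ℝ) / 4)) * X ^ (39 / 40 - δ / 4) := by ring
        _ ≤ X ^ ((1 : ℝ) / 40) * X ^ (39 / 40 - δ / 4) := mul_le_mul_of_nonneg_right h1 (by positivity)
        _ = X ^ ((1 : ℝ) / 40 + (39 / 40 - δ / 4)) := (Real.rpow_add hX0 _ _).symm
        _ ≤ X ^ (1 : ℝ) := Real.rpow_le_rpow_of_exponent_le hX1 (by linarith)
        _ = X := Real.rpow_one X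
    obtain ⟨hGf, hGn⟩ := hG X (C ^ ((1 : ℝ) / 4) * X ^ (39 / 40 - δ / 4)) (X ^ (9 / 4 - δ / 2)) hX1 hR1 hR2 hE1
    have hDf : {p : ℤ × ℤ | |(p.1 : ℝ)| ≤ X ^ 2 ∧ |(p.2 : ℝ)| ≤ X ^ 3 ∧
        |4 * (p.1 : ℝ) ^ 3 + 27 * (p.2 : ℝ) ^ 2| ≤ X ^ (6 - (2 : ℝ) / 5)}.Finite :=
      (box_finite X).subset (fun p h => ⟨h.1, h.2.1⟩)
    have hZf : {p : ℤ × ℤ | ∃ e : ℕ, 0 < e ∧ (e : ℝ) ≤ C * √X ∧ p ∈ Fe X (X ^ ((15 : ℝ) / 4)) e}.Finite :=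
      (box_finite X).subset (fun p ⟨e, _, _, h⟩ => Fe_sub_box _ _ _ h)
    have hCX : C * X ^ 2 ≤ X ^ ((15 : ℝ) / 4) := by
      calc C * X ^ 2 ≤ X * X ^ 2 := by
            apply mul_le_mul_of_nonneg_right (hX₀C.trans hc) (by positivity)
        _ = X ^ (3 : ℝ) := by
            rw [show (3 : ℝ) = ((3 : ℕ) : ℝ) by norm_num, Real.rpow_natCast]; ring
        _ ≤ X ^ ((15 : ℝ) / 4) := Real.rpow_le_rpow_of_exponent_le hX1 (by norm_num)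
    have hsub : S ⊆ {p : ℤ × ℤ | |(p.1 : ℝ)| ≤ X ^ 2 ∧ |(p.2 : ℝ)| ≤ X ^ 3 ∧
        |4 * (p.1 : ℝ) ^ 3 + 27 * (p.2 : ℝ) ^ 2| ≤ X ^ (6 - (2 : ℝ) / 5)} ∪
        {p : ℤ × ℤ | ∃ e : ℕ, 0 < e ∧ (e : ℝ) ≤ C * √X ∧ p ∈ Fe X (X ^ ((15 : ℝ) / 4)) e} ∪
        {p : ℤ × ℤ | ∃ ω : ℝ, X ^ (-(1 / 4) : ℝ) / C ≤ ω ∧ ω ≤ 2 ∧
          p ∈ PX C X ω (C ^ ((1 : ℝ) / 4) * X ^ (39 / 40 - δ / 4)) (X ^ (9 / 4 - δ / 2))} := by
      rintro ⟨A, B⟩ hp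
      obtain ⟨hA, hB⟩ := hSbox hp
      obtain ⟨-, -, P, x, y, hPxy, hP2, hnum, hden⟩ := hp
      simp only at hA hB hPxy hP2
      by_cases hdisc : |4 * (A : ℝ) ^ 3 + 27 * (B : ℝ) ^ 2| ≤ X ^ (6 - (2 : ℝ) / 5)
      · exact Or.inl (Or.inl ⟨hA, hB, hdisc⟩)
      · push Not at hdisc
        have hHκ : H ^ κ ≤ H ^ κ₀ := Real.rpow_le_rpow_of_exponent_le hH hk1
        have hden' : (x.den : ℝ) * X ≤ H ^ κ₀ := by
          rw [hX]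
          exact hden.trans hHκ
        rcases hAlt X (H ^ κ₀) (2 / 5) A B P x y hX1 (by norm_num) hA hB hdisc hPxy hP2
          (hnum.trans hHκ) hden' with ⟨e, he0, he1, he2⟩ | ⟨ω, hω1, hω2, hf⟩
        · exact Or.inl (Or.inr ⟨e, he0, he1, Fe_mono X _ _ e hCX he2⟩)
        · refine Or.inr ⟨ω, hω1, hω2, ?_⟩
          rw [hR, hE] at hf
          exact hf
    have hn := ncard_union3 S _ _ _ hDf hZf hGf hsub
    have hnum := numeric X δ C C₁ C₂ C₃ _ _ _ hX1 hδ0 hδ1 hC1 hC₁ hC₂ hC₃ (hD X hX1) (hZ X hX1) hGn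
    have h3 : (0 : ℝ) ≤ ((Box X₀).ncard : ℝ) * X ^ (19 / 4 - δ / 100) := by positivity
    rw [add_mul]
    linarith

end Pool.Agent.Work.MP_bd3ec3_nt.SG
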