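import Pool.Agent.Work.MP_bd3ec3_nt.SG.StmtsV

/-!
# MP_bd3ec3_nt, block SG, item NL: all rational points, exponent 11/12
-/

set_option autoImplicit false

namespace Pool.Agent.Work.MP_bd3ec3_nt.SG

open Pool.Agent.Work.MP_bd3ec3_nt.SP Filter Topology

namespace INL

theorem exists_point (A B : ℤ) (hΔ : 4 * A ^ 3 + 27 * B ^ 2 ≠ 0) (x y : ℚ)
    (h : y ^ 2 = x ^ 3 + A * x + B) : ∃ P : (W A B).toAffine.Point, IsXY A B P x y := by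
  have hd : (W A B).toAffine.Δ ≠ 0 := by
    have h1 : (W A B).toAffine.Δ = -16 * ((4 * A ^ 3 + 27 * B ^ 2 : ℤ) : ℚ) := by
      simp only [W, WeierstrassCurve.Δ, WeierstrassCurve.b₂, WeierstrassCurve.b₄,
        WeierstrassCurve.b₆, WeierstrassCurve.b₈]
      push_cast
      ring
    rw [h1]
    have h2 : ((4 * A ^ 3 + 27 * B ^ 2 : ℤ) : ℚ) ≠ 0 := by exact_mod_cast hΔ
    exact mul_ne_zero (by norm_num) h2
  have he : (W A B).toAffine.Equation x y := by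
    rw [WeierstrassCurve.Affine.equation_iff]
    simp only [W]
    linear_combination h
  have hn := (WeierstrassCurve.Affine.equation_iff_nonsingular_of_Δ_ne_zero hd).mp he
  exact ⟨WeierstrassCurve.Affine.Point.some _ _ hn, rfl, rfl⟩

theorem rpow_six (H : ℝ) (hH : 0 ≤ H) : (H ^ ((1 : ℝ) / 6)) ^ 6 = H := by
  rw [← Real.rpow_natCast, ← Real.rpow_mul hH]
  norm_num

theorem box (H : ℝ) (hH : 1 ≤ H) (A B : ℤ) (h : ht A B ≤ H) :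
    |(A : ℝ)| ≤ (H ^ ((1 : ℝ) / 6)) ^ 2 ∧ |(B : ℝ)| ≤ (H ^ ((1 : ℝ) / 6)) ^ 3 := by
  have h0 : 0 ≤ H := by linarith
  have hX : 0 ≤ H ^ ((1 : ℝ) / 6) := Real.rpow_nonneg h0 _
  have h6 := rpow_six H h0
  set X := H ^ ((1 : ℝ) / 6) with hXd
  have hm : max |4 * (A : ℝ) ^ 3| |27 * (B : ℝ) ^ 2| ≤ H := h
  have hA : |4 * (A : ℝ) ^ 3| ≤ H := (le_max_left _ _).trans hm
  have hB : |27 * (B : ℝ) ^ 2| ≤ H := (le_max_right _ _).trans hm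
  rw [abs_mul, abs_pow, abs_of_pos (by norm_num : (0 : ℝ) < 4)] at hA
  rw [abs_mul, abs_pow, abs_of_pos (by norm_num : (0 : ℝ) < 27)] at hB
  constructor
  · apply le_of_pow_le_pow_left₀ (n := 3) (by norm_num) (by positivity)
    have : (X ^ 2) ^ 3 = H := by rw [← h6]; ring
    rw [this]
    have := pow_nonneg (abs_nonneg (A : ℝ)) 3
    linarith
  · apply le_of_pow_le_pow_left₀ (n := 2) (by norm_num) (by positivity)
    have : (X ^ 3) ^ 2 = H := by rw [← h6]; ring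
    rw [this]
    have := pow_nonneg (abs_nonneg (B : ℝ)) 2
    linarith

theorem box_fin (a b : ℝ) : {p : ℤ × ℤ | |(p.1 : ℝ)| ≤ a ∧ |(p.2 : ℝ)| ≤ b}.Finite := by
  apply Set.Finite.subset ((Set.finite_Icc (-⌈a⌉) ⌈a⌉).prod (Set.finite_Icc (-⌈b⌉) ⌈b⌉))
  rintro ⟨A, B⟩ ⟨hA, hB⟩
  have key : ∀ (z : ℤ) (c : ℝ), |(z : ℝ)| ≤ c → z ∈ Set.Icc (-⌈c⌉) ⌈c⌉ := by
    intro z c hz
    have h1 : ((|z| : ℤ) : ℝ) ≤ ((⌈c⌉ : ℤ) : ℝ) := by
      rw [Int.cast_abs]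
      exact hz.trans (Int.le_ceil c)
    have h2 : |z| ≤ ⌈c⌉ := by exact_mod_cast h1
    exact abs_le.mp h2
  exact ⟨key A a hA, key B b hB⟩

theorem ht_fin (H : ℝ) (hH : 1 ≤ H) : {p : ℤ × ℤ | ht p.1 p.2 ≤ H}.Finite :=
  (box_fin _ _).subset (fun p hp => box H hH p.1 p.2 hp)

/-- The main alternative. -/
theorem alt (hDV : S_DV) (hDQ : S_DQ) (κ : ℝ) (hκ : κ < 11 / 12) (H : ℝ) (hH : 1000000 ^ 6 ≤ H)
    (A B : ℤ) (hΔ : 4 * A ^ 3 + 27 * B ^ 2 ≠ 0) (hht : ht A B ≤ H) (hS : Sm κ H A B)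
    (hG : ¬ Sg κ H A B) : Sm (1 / 2) H A B := by
  have hH1 : 1 ≤ H := le_trans (by norm_num) hH
  have h0 : 0 < H := by linarith
  obtain ⟨hA, hB⟩ := box H hH1 A B hht
  obtain ⟨x, y, hxy, hx1, hx2⟩ := hS
  obtain ⟨P, hP⟩ := exists_point A B hΔ x y hxy
  have hQ : ∃ Q : (W A B).toAffine.Point, P = Q + Q := by
    by_contra hne
    apply hG
    exact ⟨P, x, y, hP, fun R hR => hne ⟨R, hR⟩, hx1, hx2⟩
  obtain ⟨Q, hQ⟩ := hQ
  obtain ⟨x', y', -, hy', hne, hdup⟩ := hDQ A B P Q x y hQ hP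
  have hXpos : 0 < H ^ ((1 : ℝ) / 6) := Real.rpow_pos_of_pos h0 _
  have h6 := rpow_six H h0.le
  have hXbig : 1000000 ≤ H ^ ((1 : ℝ) / 6) := by
    apply le_of_pow_le_pow_left₀ (n := 6) (by norm_num) hXpos.le
    rw [h6]
    exact hH
  have hX1 : 1 ≤ H ^ ((1 : ℝ) / 6) := le_trans (by norm_num) hXbig
  -- the powers of X
  have e1 : H ^ κ ≤ (H ^ ((1 : ℝ) / 6)) ^ ((11 : ℝ) / 2) := by
    rw [← Real.rpow_mul h0.le]
    apply Real.rpow_le_rpow_of_exponent_le hH1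
    linarith
  have e2 : H ^ ((1 : ℝ) / 2) = (H ^ ((1 : ℝ) / 6)) ^ 3 := by
    rw [← Real.rpow_natCast, ← Real.rpow_mul h0.le]
    norm_num
  set X := H ^ ((1 : ℝ) / 6) with hXd
  have hv : (0 : ℤ) < (x'.den : ℤ) := by exact_mod_cast x'.den_pos
  have hc : IsCoprime x'.num (x'.den : ℤ) := x'.isCoprime_num_den
  have hvq : (x'.den : ℚ) ≠ 0 := by exact_mod_cast x'.den_nz
  have hxe : x' = (x'.num : ℚ) / (x'.den : ℚ) := (Rat.num_div_den x').symm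
  have e3 : ((4 * (x'.num ^ 3 * (x'.den : ℤ) + A * x'.num * (x'.den : ℤ) ^ 3 + B * (x'.den : ℤ) ^ 4) : ℤ) : ℚ) =
      4 * (x' ^ 3 + A * x' + B) * (x'.den : ℚ) ^ 4 := by
    push_cast
    have : (x'.num : ℚ) = x' * x'.den := by
      rw [← div_eq_iff hvq]
      exact Rat.num_div_den x'
    rw [this]
    ring
  have e4 : ((x'.num ^ 4 - 2 * A * x'.num ^ 2 * (x'.den : ℤ) ^ 2 - 8 * B * x'.num * (x'.den : ℤ) ^ 3 +
      A ^ 2 * (x'.den : ℤ) ^ 4 : ℤ) : ℚ) =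
      (x' ^ 4 - 2 * A * x' ^ 2 - 8 * B * x' + A ^ 2) * (x'.den : ℚ) ^ 4 := by
    push_cast
    have : (x'.num : ℚ) = x' * x'.den := by
      rw [← div_eq_iff hvq]
      exact Rat.num_div_den x'
    rw [this]
    ring
  have hn4 : 4 * (x'.num ^ 3 * (x'.den : ℤ) + A * x'.num * (x'.den : ℤ) ^ 3 + B * (x'.den : ℤ) ^ 4) ≠ 0 := by
    intro h
    have h' : ((4 * (x'.num ^ 3 * (x'.den : ℤ) + A * x'.num * (x'.den : ℤ) ^ 3 + B * (x'.den : ℤ) ^ 4) : ℤ) : ℚ) = 0 := by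
      rw [h]; norm_num
    rw [e3] at h'
    exact (mul_ne_zero (mul_ne_zero (by norm_num) hne) (pow_ne_zero 4 hvq)) h'
  have hmain := hDV X A B x'.num (x'.den : ℤ) x hX1 hv hc hA hB hΔ hn4 (by
    rw [e3, e4, ← hdup]
    ring)
  have hcast : (((x'.den : ℤ) : ℝ)) = (x'.den : ℝ) := by norm_num
  rw [hcast] at hmain
  have hM : max |(x.num : ℝ)| (x.den * X) ≤ X ^ ((11 : ℝ) / 2) := by
    apply max_le
    · exact hx1.trans e1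
    · exact hx2.trans e1
  set ω := max |(x'.num : ℝ)| ((x'.den : ℝ) * X) with hω
  have hω0 : 0 ≤ ω := (abs_nonneg _).trans (le_max_left _ _)
  have hkey : ω ^ 4 ≤ (X ^ 3) ^ 4 := by
    have h1 : ω ^ 4 ≤ 619 * X ^ 6 * X ^ ((11 : ℝ) / 2) :=
      hmain.trans (mul_le_mul_of_nonneg_left hM (by positivity))
    have h3 : (619 : ℝ) ≤ X ^ ((1 : ℝ) / 2) := by
      have h4 : (1000 : ℝ) ≤ X ^ ((1 : ℝ) / 2) := by
        rw [← Real.sqrt_eq_rpow]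
        apply Real.le_sqrt_of_sq_le
        norm_num
        exact hXbig
      linarith
    have h4 : (X ^ 3) ^ 4 = X ^ 6 * (X ^ ((1 : ℝ) / 2) * X ^ ((11 : ℝ) / 2)) := by
      rw [← Real.rpow_add hXpos]
      have : ((1 : ℝ) / 2 + 11 / 2) = ((6 : ℕ) : ℝ) := by norm_num
      rw [this, Real.rpow_natCast]
      ring
    rw [h4]
    refine h1.trans ?_
    have h5 : 0 ≤ X ^ ((11 : ℝ) / 2) := Real.rpow_nonneg hXpos.le _
    calc 619 * X ^ 6 * X ^ ((11 : ℝ) / 2) = X ^ 6 * (619 * X ^ ((11 : ℝ) / 2)) := by ring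
      _ ≤ X ^ 6 * (X ^ ((1 : ℝ) / 2) * X ^ ((11 : ℝ) / 2)) := by
        apply mul_le_mul_of_nonneg_left _ (by positivity)
        exact mul_le_mul_of_nonneg_right h3 h5
  have hfin : ω ≤ X ^ 3 := le_of_pow_le_pow_left₀ (by norm_num) (by positivity) hkey
  refine ⟨x', y', hy', ?_, ?_⟩
  · rw [e2]
    exact (le_max_left _ _).trans hfin
  · rw [e2]
    exact (le_max_right _ _).trans hfin

end INL

/-- Item NL. -/
theorem pg_NL : S_NL := by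
  intro hDV hDQ hMN hM2 κ hκ
  obtain ⟨η₁, hη₁, C₁, hC₁, h₁⟩ := hMN (1 / 2) (by norm_num)
  obtain ⟨η₂, hη₂, C₂, hC₂, h₂⟩ := hM2 κ hκ
  set K : ℝ := (({p : ℤ × ℤ | ht p.1 p.2 ≤ 1000000 ^ 6}.ncard : ℕ) : ℝ) with hK
  have hK0 : 0 ≤ K := by positivity
  set η := min (min η₁ η₂) (1 / 36) with hη
  have hη0 : 0 < η := by
    rw [hη]
    exact lt_min (lt_min hη₁ hη₂) (by norm_num)
  have le1 : η ≤ η₁ := (min_le_left _ _).trans (min_le_left _ _)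
  have le2 : η ≤ η₂ := (min_le_left _ _).trans (min_le_right _ _)
  have le3 : η ≤ 1 / 36 := min_le_right _ _
  refine ⟨η, hη0, C₁ + C₂ + K, by positivity, ?_⟩
  intro H hH
  have h0 : 0 < H := by linarith
  have hfinH := INL.ht_fin H hH
  have hpow1 : (1 : ℝ) ≤ H ^ ((19 : ℝ) / 24 - η) := Real.one_le_rpow hH (by linarith)
  by_cases hbig : 1000000 ^ 6 ≤ H
  · -- the union bound
    set S1 := {p : ℤ × ℤ | ht p.1 p.2 ≤ H ∧ Sm (1 / 2) H p.1 p.2} with hS1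
    set S2 := {p : ℤ × ℤ | 4 * p.1 ^ 3 + 27 * p.2 ^ 2 ≠ 0 ∧ ht p.1 p.2 ≤ H ∧ Sg κ H p.1 p.2} with hS2
    have f1 : S1.Finite := hfinH.subset (fun p hp => hp.1)
    have f2 : S2.Finite := hfinH.subset (fun p hp => hp.2.1)
    have hsub : {p : ℤ × ℤ | 4 * p.1 ^ 3 + 27 * p.2 ^ 2 ≠ 0 ∧ ht p.1 p.2 ≤ H ∧ Sm κ H p.1 p.2} ⊆
        S1 ∪ S2 := by
      rintro ⟨A, B⟩ ⟨hΔ, hht, hS⟩
      by_cases hG : Sg κ H A B
      · exact Or.inr ⟨hΔ, hht, hG⟩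
      · exact Or.inl ⟨hht, INL.alt hDV hDQ κ hκ H hbig A B hΔ hht hS hG⟩
    have hn := Set.ncard_le_ncard hsub (f1.union f2)
    have hu2 := Set.ncard_union_le S1 S2
    have hn' : (({p : ℤ × ℤ | 4 * p.1 ^ 3 + 27 * p.2 ^ 2 ≠ 0 ∧ ht p.1 p.2 ≤ H ∧ Sm κ H p.1 p.2}.ncard : ℕ) : ℝ) ≤
        (S1.ncard : ℝ) + (S2.ncard : ℝ) := by
      have : {p : ℤ × ℤ | 4 * p.1 ^ 3 + 27 * p.2 ^ 2 ≠ 0 ∧ ht p.1 p.2 ≤ H ∧ Sm κ H p.1 p.2}.ncard ≤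
        S1.ncard + S2.ncard := by omega
      exact_mod_cast this
    have b1 : (S1.ncard : ℝ) ≤ C₁ * H ^ ((19 : ℝ) / 24 - η) :=
      (h₁ H hH).trans (mul_le_mul_of_nonneg_left
        (Real.rpow_le_rpow_of_exponent_le hH (by linarith)) hC₁.le)
    have b2 : (S2.ncard : ℝ) ≤ C₂ * H ^ ((19 : ℝ) / 24 - η) :=
      (h₂ H hH).trans (mul_le_mul_of_nonneg_left
        (Real.rpow_le_rpow_of_exponent_le hH (by linarith)) hC₂.le)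
    have hKm : 0 ≤ K * H ^ ((19 : ℝ) / 24 - η) := by positivity
    calc (({p : ℤ × ℤ | 4 * p.1 ^ 3 + 27 * p.2 ^ 2 ≠ 0 ∧ ht p.1 p.2 ≤ H ∧ Sm κ H p.1 p.2}.ncard : ℕ) : ℝ)
        ≤ _ := hn'
      _ ≤ (C₁ + C₂ + K) * H ^ ((19 : ℝ) / 24 - η) := by
          have : (C₁ + C₂ + K) * H ^ ((19 : ℝ) / 24 - η) = C₁ * H ^ ((19 : ℝ) / 24 - η) +
            C₂ * H ^ ((19 : ℝ) / 24 - η) + K * H ^ ((19 : ℝ) / 24 - η) := by ring
          rw [this]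
          linarith
  · have hlt : H ≤ 1000000 ^ 6 := (not_le.mp hbig).le
    have hsub : {p : ℤ × ℤ | 4 * p.1 ^ 3 + 27 * p.2 ^ 2 ≠ 0 ∧ ht p.1 p.2 ≤ H ∧ Sm κ H p.1 p.2} ⊆
        {p : ℤ × ℤ | ht p.1 p.2 ≤ 1000000 ^ 6} := fun p hp => hp.2.1.trans hlt
    have hn := Set.ncard_le_ncard hsub (INL.ht_fin _ (by norm_num))
    have hn' : (({p : ℤ × ℤ | 4 * p.1 ^ 3 + 27 * p.2 ^ 2 ≠ 0 ∧ ht p.1 p.2 ≤ H ∧ Sm κ H p.1 p.2}.ncard : ℕ) : ℝ) ≤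
        K := by
      rw [hK]
      exact_mod_cast hn
    calc (({p : ℤ × ℤ | 4 * p.1 ^ 3 + 27 * p.2 ^ 2 ≠ 0 ∧ ht p.1 p.2 ≤ H ∧ Sm κ H p.1 p.2}.ncard : ℕ) : ℝ)
        ≤ K := hn'
      _ = K * 1 := (mul_one K).symm
      _ ≤ (C₁ + C₂ + K) * H ^ ((19 : ℝ) / 24 - η) := by
          apply mul_le_mul _ hpow1 (by norm_num) (by positivity)
          linarith

end Pool.Agent.Work.MP_bd3ec3_nt.SG
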