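import Pool.Agent.Work.MP_bd3ec3_nt.SG.Defs

/-!
# MP_bd3ec3_nt, block SG (captain helper7): statements with complete proofs

For `κ < 37/60` the curves of height at most `H` which have a rational point `(x, y)` outside `2 E(ℚ)` with
`max(|num x|, H^(1/6) den x) ≤ H^κ` are `O(H^(19/24 - η))`. `X = H^(1/6)`. Item `XX`: file `SG/I_XX.lean`, theorem `pg_XX`.
A matrix `(p, q; r, s)` acts by `f.act p q r s = f (p x + q z, r x + s z)` (`BQ.ev_act`, `BQ.I_act`, `BQ.J_act`, `BQ.Hs_act`, `BQ.act_act`).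
-/

set_option autoImplicit false

namespace Pool.Agent.Work.MP_bd3ec3_nt.SG

open Pool.Agent.Work.MP_bd3ec3_nt.SP Filter Topology

/-! ## The quartic of a point -/

/-- [QF] (MEDIUM) PROOF. `a` is invertible modulo `e⁴`: choose `s` with `s a ≡ b mod e⁴`. `b² ≡ a³`, so `s² a² ≡ a³`, `s² ≡ a`, and
`s³ ≡ s a ≡ b mod e⁴`. `α = (a - s²) / e²` (divisible by `e²`, `α = e² α'`), `β = (8 (b - s³) - 12 s α e²) / e⁴ = 4 β'`. Square `8 b = 8 s³ + 12 s α e² + β e⁴` and compare with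
`64 (a³ + A a e⁴ + B e⁶)`, `a = s² + α e²`: `16 s² (s β - 3 α² - 4 A) e⁴ = e⁶ (64 α³ + 64 A α + 64 B - 24 s α β - β² e²)`; with `β = 4 β'` and division by `16 e⁴`:
`s² (s β - 3 α² - 4 A) = e² (4 α³ + 4 A α + 4 B - 6 s α β' - β'² e²)`. `s` is coprime to `e`, so `e² ∣ s β - 3 α² - 4 A`: `γ`. -/
def S_QF : Prop := ∀ (A B a b : ℤ) (e : ℕ), 0 < e → IsCoprime a (e : ℤ) →
  b ^ 2 = a ^ 3 + A * a * (e : ℤ) ^ 4 + B * (e : ℤ) ^ 6 →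
  ∃ s α β γ : ℤ, a = s ^ 2 + α * (e : ℤ) ^ 2 ∧ 8 * b = 8 * s ^ 3 + 12 * s * α * (e : ℤ) ^ 2 + β * (e : ℤ) ^ 4 ∧
    (e : ℤ) ^ 2 * γ = s * β - 3 * α ^ 2 - 4 * A ∧
    16 * s ^ 2 * γ = 64 * α ^ 3 + 64 * A * α + 64 * B - 24 * s * α * β - β ^ 2 * (e : ℤ) ^ 2

/-- [IJ] (EASY) PROOF. `ring` after the relations: `I = 12 e² γ - 12 s β + 36 α²`; `J` uses `e² γ` and `16 s² γ`; `Hs 1 0 = 8 e² (-6 α) - 48 s² = -48 a`. -/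
def S_IJ : Prop := ∀ (A B a e s α β γ : ℤ), a = s ^ 2 + α * e ^ 2 → e ^ 2 * γ = s * β - 3 * α ^ 2 - 4 * A →
  16 * s ^ 2 * γ = 64 * α ^ 3 + 64 * A * α + 64 * B - 24 * s * α * β - β ^ 2 * e ^ 2 →
  (BQ.mk (e ^ 2) (4 * s) (-6 * α) β γ).I = -48 * A ∧ (BQ.mk (e ^ 2) (4 * s) (-6 * α) β γ).J = -1728 * B ∧
    (BQ.mk (e ^ 2) (4 * s) (-6 * α) β γ).Hs 1 0 = -48 * a

/-- [HV] (MEDIUM) Halving. PROOF. `n = -m`, `R = (x_R, y_R)`, `x_R = (n² - x) / 2`, `y_R = n (x_R - x) - y`. The quartic equation says that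
`X³ + A X + B - (n (X - x) - y)² = (X - x) (X - x_R)²` (for all `X`), so `R` is on the curve and `3 x_R² + A = 2 n y_R`. If `y_R = 0` then `x_R` is a double zero of the cubic, against
`4 A³ + 27 B² ≠ 0`. So `R` is nonsingular, the slope of the tangent is `n`, `x(2R) = n² - 2 x_R = x`, `y(2R) = -(y_R + n (x - x_R)) = y`
(`add_self_of_Y_ne`, `slope_of_Y_ne`; compare the files of block LB). -/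
def S_HV : Prop := ∀ A B : ℤ, 4 * A ^ 3 + 27 * B ^ 2 ≠ 0 → ∀ (P : (W A B).toAffine.Point) (x y m : ℚ), IsXY A B P x y →
  m ^ 4 - 6 * x * m ^ 2 + 8 * y * m - 3 * x ^ 2 - 4 * A = 0 → ∃ R : (W A B).toAffine.Point, P = R + R

/-- [NZ] (EASY-MEDIUM, use S_HV) PROOF. Let `f(x', z') = 0`. `z' ≠ 0` as `f(x', 0) = e² x'⁴`. `t = x' / z'`, `m = e t + s / e`, `x = a / e²`, `y = b / e³`:
`m⁴ - 6 x m² + 8 y m - 3 x² - 4 A = e² (e² t⁴ + 4 s t³ - 6 α t² + β t + γ) = 0` (the relations), so `P = R + R` by S_HV. -/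
def S_NZ : Prop := S_HV → ∀ (A B a b : ℤ) (e : ℕ) (s α β γ : ℤ), 0 < e → 4 * A ^ 3 + 27 * B ^ 2 ≠ 0 →
  a = s ^ 2 + α * (e : ℤ) ^ 2 → 8 * b = 8 * s ^ 3 + 12 * s * α * (e : ℤ) ^ 2 + β * (e : ℤ) ^ 4 →
  (e : ℤ) ^ 2 * γ = s * β - 3 * α ^ 2 - 4 * A →
  ∀ P : (W A B).toAffine.Point, IsXY A B P ((a : ℚ) / (e : ℚ) ^ 2) ((b : ℚ) / (e : ℚ) ^ 3) → (∀ R : (W A B).toAffine.Point, P ≠ R + R) →
  ∀ x' z' : ℤ, ¬ (x' = 0 ∧ z' = 0) → (BQ.mk ((e : ℤ) ^ 2) (4 * s) (-6 * α) β γ).ev x' z' ≠ 0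

/-! ## Reduction -/

/-- [FC] (MEDIUM) A quartic without real zeros is a product of two positive definite quadratic forms. PROOF. The real polynomial `f(t, 1)` has degree `4` and no real root; irreducible real polynomials
have degree at most `2` (`Irreducible.degree_le_two`), so it is a product of two real quadratics, without real roots; their leading coefficients have the same sign, change both signs if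
necessary. (Or: a complex zero `w`, the factor `(t - w)(t - w̄)`.) -/
def S_FC : Prop := ∀ f : BQ ℝ, 0 < f.a → (∀ x z : ℝ, ¬ (x = 0 ∧ z = 0) → f.ev x z ≠ 0) →
  ∃ k l m k' l' m' : ℝ, 0 < k ∧ 0 < k' ∧ l ^ 2 < 4 * k * m ∧ l' ^ 2 < 4 * k' * m' ∧
    f = ⟨k * k', k * l' + l * k', k * m' + l * l' + m * k', l * m' + m * l', m * m'⟩

/-- [SD] (MEDIUM) Simultaneous diagonalisation. PROOF. With a triangular matrix of determinant 1 the first form becomes `μ (x² + z²)`, `μ = √(k m - l²/4)`; a rotation does not change it and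
makes the second one diagonal (the coefficient of `x z` is `L cos 2φ + (N - K) sin 2φ`, zero for some `φ`); `u, v > 0` because the form is positive definite. -/
def S_SD : Prop := ∀ k l m k' l' m' : ℝ, 0 < k → 0 < k' → l ^ 2 < 4 * k * m → l' ^ 2 < 4 * k' * m' →
  ∃ p q r s μ u v : ℝ, p * s - q * r = 1 ∧ 0 < μ ∧ 0 < u ∧ 0 < v ∧
    (∀ x z : ℝ, k * (p * x + q * z) ^ 2 + l * (p * x + q * z) * (r * x + s * z) + m * (r * x + s * z) ^ 2 = μ * (x ^ 2 + z ^ 2)) ∧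
    ∀ x z : ℝ, k' * (p * x + q * z) ^ 2 + l' * (p * x + q * z) * (r * x + s * z) + m' * (r * x + s * z) ^ 2 = u * x ^ 2 + v * z ^ 2

/-- [RR] (MEDIUM, use S_FC, S_SD) Real reduction. PROOF. First case: `f(x₁, z₁) = 0`, `(x₁, z₁) ≠ 0`. A matrix of determinant 1 with first column `(x₁, z₁)` gives `a = 0`. If then `b ≠ 0`, the matrix
`(1, t; 0, 1)`, `t = -c / (3 b)`, gives `c = 0` (and `a = 0`, `b` as before), so `I = -3 b d`, `J = -27 e b²`; the matrix `(λ, 0; 0, 1/λ)` with `λ² = X / |b|` gives `|b| = X`,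
`|d| = |I| / (3 X) ≤ 16 X`, `|e| = |J| / (27 X²) ≤ 64 X`. If `b = 0`: `I = c²`, `|c| ≤ 7 X`, and `(λ, 0; 0, 1/λ)` with a large `λ` makes `|d|, |e| ≤ X`. Second case: no zeros: S_FC and S_SD
give `f.act p q r s = ⟨μ u, 0, μ (u + v), 0, μ v⟩` (compare coefficients: two forms with the same values are equal), `I = 12 μ² u v + μ² (u + v)² ≤ 48 X²`, so `μ (u + v) ≤ 7 X`. -/
def S_RR : Prop := S_FC → S_SD → ∀ (X : ℝ) (f : BQ ℝ), 0 < X → 0 < f.a → |f.I| ≤ 48 * X ^ 2 → |f.J| ≤ 1728 * X ^ 3 →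
  ∃ p q r s : ℝ, p * s - q * r = 1 ∧ Bd (64 * X) (f.act p q r s)

/-- [LR] (MEDIUM) Reduction of the lattice. PROOF. `F = f.act p q r s`, `f.act x y z w = F.act` of the matrix with the columns `w₁ = (s x - q z, -r x + p z)`, `w₂ = (s y - q w, -r y + p w)`
(`BQ.act_act`), a basis of the lattice `g⁻¹ ℤ²` of determinant 1. Choose the basis reduced: `|w₁| ≤ |w₂|`, `2 |w₁ · w₂| ≤ |w₁|²` (`w₁` a shortest nonzero vector, it is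
primitive; or `ModularGroup.exists_smul_mem_fd`). Then `|w₁|² |w₂|² = 1 + (w₁ · w₂)² ≤ 1 + |w₁|² |w₂|² / 4`, so `|w₁| |w₂| ≤ 2 / √3 < 2`; `ω = |w₁| ≤ 2`, `|w₂| ≤ 2 / ω`. The coefficients of
`F (w₁ x + w₂ z)` are at most `5 K |w₁|⁴`, `20 K |w₁|³ |w₂|`, `30 K |w₁|² |w₂|²`, `20 K |w₁| |w₂|³`, `5 K |w₂|⁴`. -/
def S_LR : Prop := ∀ (K : ℝ) (f : BQ ℝ) (p q r s : ℝ), 0 < K → p * s - q * r = 1 → Bd K (f.act p q r s) →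
  ∃ x y z w : ℤ, x * w - y * z = 1 ∧ ∃ ω : ℝ, 0 < ω ∧ ω ≤ 2 ∧ Bw (1000 * K) ω (f.act x y z w)

/-- [RE] (EASY, use S_RR and S_LR in the form of the hypotheses) PROOF. `C = 64000`, `K = 64 X`; `toR (f.act x y z w) = (toR f).act x y z w`. -/
def S_RE : Prop :=
  (∀ (X : ℝ) (f : BQ ℝ), 0 < X → 0 < f.a → |f.I| ≤ 48 * X ^ 2 → |f.J| ≤ 1728 * X ^ 3 →
    ∃ p q r s : ℝ, p * s - q * r = 1 ∧ Bd (64 * X) (f.act p q r s)) → S_LR →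
  ∀ (X : ℝ) (f : BQ ℤ), 1 ≤ X → 0 < f.a → |(f.I : ℝ)| ≤ 48 * X ^ 2 → |(f.J : ℝ)| ≤ 1728 * X ^ 3 →
  ∃ x y z w : ℤ, x * w - y * z = 1 ∧ ∃ ω : ℝ, 0 < ω ∧ ω ≤ 2 ∧ Bw (64000 * X) ω (toR (f.act x y z w))

/-- [DG] (MEDIUM) Small values of `f` and of its Hessian. PROOF. For `(x, z) ≠ 0`, `ρ² = x² + z²`, rotate: `F = f.act (x/ρ) (-z/ρ) (z/ρ) (x/ρ)` has `Bd (30 K)`, `F.I = f.I`, `F.J = f.J`,
`f.ev x z = ρ⁴ F.a` and `f.Hs x z = ρ⁴ (8 F.a F.c - 3 F.b²)` (`ev_act`, `Hs_act` at `(ρ, 0)`). For a form `(a, b, c, d, e)` and `h = 8 a c - 3 b²`: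
`4 I³ - J² = 27 (256 a³e³ - 192 a²bde² - 128 a²c²e² + 144 a²cd²e - 27 a²d⁴ + 144 ab²ce² - 6 ab²d²e - 80 abc²de + 18 abcd³ + 16 ac⁴e - 4 ac³d² + b² Q)`,
`Q = -27 b²e² + 18 bcde - 4 bd³ - 4 c³e + c²d²`, `b² = (8 a c - h) / 3`: so `4 I³ - J² = a P₁ + h P₂` with polynomials `P₁`, `P₂` of degrees 5 and 4, hence
`|4 I³ - J²| ≤ C' (30 K)⁴ (30 K |a| + |h|)`. Multiply by `ρ⁴`. -/
def S_DG : Prop := ∃ C : ℝ, 0 < C ∧ ∀ (K : ℝ) (f : BQ ℝ), 0 < K → Bd K f → ∀ x z : ℝ,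
  |4 * f.I ^ 3 - f.J ^ 2| * (x ^ 2 + z ^ 2) ^ 2 ≤ C * K ^ 4 * (K * |f.ev x z| + |f.Hs x z|)

/-! ## Counting forms with a square value -/

/-- [LC] (EASY-MEDIUM) Forms with a zero. PROOF. `z = 0`: `x = ±1`, `a = 0`, and `c_i` from the other coefficients. `z ≠ 0`: `z ∣ a x⁴`, so `a = z c₀`; divide `ev = 0` by `z`:
`x³ (x c₀ + b) + z (..) = 0`, so `b + x c₀ = z c₁`; and so on; the last equation is `x (..)` `= 0`, `e z³ + x (x²..)`: finally `z³ (e + x c₃) = 0`. -/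
def S_LC : Prop := ∀ (h : BQ ℤ) (x z : ℤ), IsCoprime x z → h.ev x z = 0 → ∃ c₀ c₁ c₂ c₃ : ℤ,
  h = ⟨z * c₀, z * c₁ - x * c₀, z * c₂ - x * c₁, z * c₃ - x * c₂, -(x * c₃)⟩

/-- [RB] (EASY) The cubic factor. PROOF. If `|z| = r`: `|c₀| ≤ K / r`, `|c₁| ≤ (K + |x c₀|) / r ≤ 2 K / r`, and so on. If `|x| = r` start with `c₃`. -/
def S_RB : Prop := ∀ (K r x z c₀ c₁ c₂ c₃ : ℝ), 0 < r → max |x| |z| = r → |z * c₀| ≤ K → |z * c₁ - x * c₀| ≤ K →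
  |z * c₂ - x * c₁| ≤ K → |z * c₃ - x * c₂| ≤ K → |x * c₃| ≤ K →
  |c₀| ≤ 4 * K / r ∧ |c₁| ≤ 4 * K / r ∧ |c₂| ≤ 4 * K / r ∧ |c₃| ≤ 4 * K / r

/-- [HC] (MEDIUM, use S_LC, S_RB) Forms with a given value at a point. PROOF. Fix one form `f₀` of the set (if there is none, the left side is `0`). For `f` in the set `h = f - f₀` has `h.ev x z = 0` and
`Bw (2 K) ω`. S_LC gives `c_j`, and `f` is determined by them. With `x̃ = x ω`, `z̃ = z / ω`, `c̃_j = c_j ω^(2 j - 3)` the scaled coefficients `h_i ω^(2 i - 4)` (at most `2 K`) are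
`z̃ c̃₀, z̃ c̃₁ - x̃ c̃₀, ..`, so `|c̃_j| ≤ 8 K / r` (S_RB), `|c_j| ≤ 8 K ω^(3 - 2 j) / r`: at most `1 + 16 K ω^(3 - 2 j) / r` integers. -/
def S_HC : Prop := S_LC → S_RB → ∀ (K ω r : ℝ) (x z n : ℤ), 0 < K → 0 < ω → IsCoprime x z → r = max (|(x : ℝ)| * ω) (|(z : ℝ)| / ω) →
  {f : BQ ℤ | Bw K ω (toR f) ∧ f.ev x z = n}.Finite ∧
  (({f : BQ ℤ | Bw K ω (toR f) ∧ f.ev x z = n}.ncard : ℕ) : ℝ) ≤
    (1 + 16 * K * ω ^ 3 / r) * (1 + 16 * K * ω / r) * (1 + 16 * K / (ω * r)) * (1 + 16 * K / (ω ^ 3 * r))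

/-- The forms with bounds which represent a square at a small vector, not `(±1, 0)`. -/
def GW (C X ω R : ℝ) : Set (BQ ℤ) := {f | Bw (C * X) ω (toR f) ∧ ∃ x z e : ℤ, z ≠ 0 ∧ IsCoprime x z ∧ e ≠ 0 ∧
  f.ev x z = e ^ 2 ∧ ((x : ℝ) * ω) ^ 2 + ((z : ℝ) / ω) ^ 2 ≤ R ^ 2}

/-- [CW] (MEDIUM-HARD, use S_HC in the form of the hypothesis) Counting for fixed `ω`. PROOF. `r = max(|x| ω, |z| / ω)`: `1/2 ≤ r ≤ R ≤ √X`. `e² = f.ev x z ≤ 5 C X r⁴`: at most `√(5 C X) r²`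
values of `e > 0`. `T = 16 C X / r ≥ 16 C √X`: `T ω ≥ 16 X^(1/4) ≥ 1`, `T / ω ≥ 1`, `T / ω³ ≥ 1`, so the product in S_HC is at most `8 T³ ω⁻³ (1 + T ω³) = 8 (T⁴ + T³ ω⁻³)`, and
`ω⁻³ ≤ C³ X^(3/4)`. For fixed `(x, z)` together at most `C'' (X^(9/2) / r² + X^(17/4) / r)` forms. Sum over `|x| ≤ R / ω`, `1 ≤ |z| ≤ R ω`: if `x = 0` then `z = ±1`, `r ≥ 1/2`. If `x ≠ 0` then
`r² ≥ |x| |z|`: `∑ 1 / (|x| |z|) ≤ 4 (1 + log (R / ω)) (1 + log (R ω)) ≤ C (1 + log X)²`, `∑ 1 / √(|x| |z|) ≤ 16 √(R / ω) √(R ω) = 16 R`. -/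
def S_CW : Prop :=
  (∀ (K ω r : ℝ) (x z n : ℤ), 0 < K → 0 < ω → IsCoprime x z → r = max (|(x : ℝ)| * ω) (|(z : ℝ)| / ω) →
    {f : BQ ℤ | Bw K ω (toR f) ∧ f.ev x z = n}.Finite ∧
    (({f : BQ ℤ | Bw K ω (toR f) ∧ f.ev x z = n}.ncard : ℕ) : ℝ) ≤
      (1 + 16 * K * ω ^ 3 / r) * (1 + 16 * K * ω / r) * (1 + 16 * K / (ω * r)) * (1 + 16 * K / (ω ^ 3 * r))) →
  ∀ C : ℝ, 1 ≤ C → ∃ C' : ℝ, 0 < C' ∧ ∀ X ω R : ℝ, 1 ≤ X → X ^ (-(1 / 4) : ℝ) / C ≤ ω → ω ≤ 2 → 1 ≤ R →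
    R ≤ √X → (GW C X ω R).Finite ∧
    ((GW C X ω R).ncard : ℝ) ≤ C' * (X ^ ((9 : ℝ) / 2) * (1 + Real.log X) ^ 2 + X ^ ((17 : ℝ) / 4) * R)

/-- [CU] (MEDIUM, use S_CW in the form of the hypothesis) The union over `ω`. PROOF. Let `ω_k = 2 / 2^k`, `ω_k ≤ ω < 2 ω_k`, `k ≥ 0`. `Bw (C X) ω f` gives `Bw (16 C X) ω_k f`, and
`(x ω_k)² + (z / ω_k)² ≤ (x ω)² + 4 (z / ω)² ≤ (2 R)²`; `ω_k ≥ ω / 2 ≥ X^(-1/4) / (16 C)`. So `f ∈ GW (16 C) X ω_k (2 R)`, and `2^k ≤ 4 C X^(1/4)`: at most `C'' (1 + log X)` values of `k`. -/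
def S_CU : Prop :=
  (∀ C : ℝ, 1 ≤ C → ∃ C' : ℝ, 0 < C' ∧ ∀ X ω R : ℝ, 1 ≤ X → X ^ (-(1 / 4) : ℝ) / C ≤ ω → ω ≤ 2 → 1 ≤ R →
    R ≤ √X → (GW C X ω R).Finite ∧
    ((GW C X ω R).ncard : ℝ) ≤ C' * (X ^ ((9 : ℝ) / 2) * (1 + Real.log X) ^ 2 + X ^ ((17 : ℝ) / 4) * R)) →
  ∀ C : ℝ, 1 ≤ C → ∃ C' : ℝ, 0 < C' ∧ ∀ X R : ℝ, 1 ≤ X → 1 ≤ R → 2 * R ≤ √X →
    {f : BQ ℤ | ∃ ω : ℝ, X ^ (-(1 / 4) : ℝ) / C ≤ ω ∧ ω ≤ 2 ∧ f ∈ GW C X ω R}.Finite ∧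
    (({f : BQ ℤ | ∃ ω : ℝ, X ^ (-(1 / 4) : ℝ) / C ≤ ω ∧ ω ≤ 2 ∧ f ∈ GW C X ω R}.ncard : ℕ) : ℝ) ≤
      C' * (1 + Real.log X) * (X ^ ((9 : ℝ) / 2) * (1 + Real.log X) ^ 2 + X ^ ((17 : ℝ) / 4) * R)

/-! ## The exceptional curves -/

/-- [DC] (MEDIUM) Small discriminant. PROOF. For `|A| ≤ X^(2 - θ/3)` (at most `3 X^(2 - θ/3)` values): `27 B² ≤ 5 X^(6 - θ)`, at most `3 X^(3 - θ/2)` values of `B`. For `|A| > X^(2 - θ/3)`: `A < 0`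
(otherwise `4 A³ > X^(6 - θ)`), `27 B² ≥ 4 |A|³ - X^(6 - θ) ≥ 3 |A|³`, `|B| ≥ |A|^(3/2) / 3`; two values of the same sign satisfy `27 |B² - B'²| ≤ 2 X^(6 - θ)`, so
`|B - B'| ≤ X^(6 - θ) / (9 |A|^(3/2))`: at most `2 (1 + X^(6 - θ) / (9 |A|^(3/2)))` values. `∑_(|A| > A₀) |A|^(-3/2) ≤ 6 A₀^(-1/2)` with `A₀ = X^(2 - θ/3) ≥ 1`. Total at most `C X^(5 - 5 θ / 6)`. -/
def S_DC : Prop := ∀ θ : ℝ, 0 ≤ θ → θ ≤ 1 → ∃ C : ℝ, 0 < C ∧ ∀ X : ℝ, 1 ≤ X →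
  (({p : ℤ × ℤ | |(p.1 : ℝ)| ≤ X ^ 2 ∧ |(p.2 : ℝ)| ≤ X ^ 3 ∧ |4 * (p.1 : ℝ) ^ 3 + 27 * (p.2 : ℝ) ^ 2| ≤ X ^ (6 - θ)}.ncard : ℕ) : ℝ) ≤
    C * X ^ (5 - 5 * θ / 6)

/-- [S2] (EASY if you know `SP/I_SA.lean`: the same proof; there `e ≤ X^(3/2)` and `M ≤ X⁴` are derived, here they are hypotheses.) -/
def S_S2 : Prop :=
  (∀ (X : ℝ) (e : ℕ) (a : ℤ), 1 ≤ X → 0 < e → IsCoprime a (e : ℤ) → |(a : ℝ)| ≤ 4 * (e : ℝ) ^ 2 * X →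
    ((E X e a).ncard : ℝ) ≤ ((e ^ 4).divisors.card : ℝ) * (36 * X ^ ((3 : ℝ) / 2) / e + 1) *
      (2 * X ^ 2 / (e : ℝ) ^ 2 + 1)) →
  (∀ (X : ℝ) (e : ℕ) (a : ℤ), 1 ≤ X → 0 < e → IsCoprime a (e : ℤ) → 4 * (e : ℝ) ^ 2 * X < |(a : ℝ)| →
    (a < 0 → E X e a = ∅) ∧
    ((E X e a).ncard : ℝ) ≤ 2 * ((e ^ 4).divisors.card : ℝ) * (8 * X ^ 2 / √|(a : ℝ)| + 1) *
      (2 * X ^ 3 / |(a : ℝ)| + 1)) →
  ∀ (X M : ℝ) (e : ℕ), 1 ≤ X → 0 < e → (e : ℝ) ≤ X ^ ((3 : ℝ) / 2) → (e : ℝ) ^ 2 * X ≤ M → M ≤ X ^ 4 →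
  ((Fe X M e).ncard : ℝ) ≤ ((e ^ 4).divisors.card : ℝ) *
    (700 * X ^ ((9 : ℝ) / 2) * (1 + Real.log M) / e + 333 * e * X ^ ((5 : ℝ) / 2) + 36 * X ^ 2 * √M)

/-- [Z0] (MEDIUM, use S_S2 in the form of the hypothesis, and the divisor bound) Small denominators. PROOF. If `X < C²` the set lies in a box with at most `9 X⁵ ≤ 9 C^10` elements. Let `X ≥ C²`:
`e ≤ C √X ≤ X ≤ X^(3/2)`, `e² X ≤ C² X² ≤ X³ ≤ M = X^(15/4)`. `d(e⁴) ≤ C'' X^(1/16)` (exponent `1/64` for the divisor bound, `e⁴ ≤ X⁴`). The sum over `e ≤ C √X` is at most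
`C'' X^(1/16) (700 X^(9/2) (1 + log M) (1 + log X) + 333 C² X^(7/2) + 36 C X^(5/2) X^(15/8)) ≤ C' X^(37/8)`. -/
def S_Z0 : Prop :=
  (∀ (X M : ℝ) (e : ℕ), 1 ≤ X → 0 < e → (e : ℝ) ≤ X ^ ((3 : ℝ) / 2) → (e : ℝ) ^ 2 * X ≤ M → M ≤ X ^ 4 →
    ((Fe X M e).ncard : ℝ) ≤ ((e ^ 4).divisors.card : ℝ) *
      (700 * X ^ ((9 : ℝ) / 2) * (1 + Real.log M) / e + 333 * e * X ^ ((5 : ℝ) / 2) + 36 * X ^ 2 * √M)) →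
  S_DB → ∀ C : ℝ, 1 ≤ C → ∃ C' : ℝ, 0 < C' ∧ ∀ X : ℝ, 1 ≤ X →
    (({p : ℤ × ℤ | ∃ e : ℕ, 0 < e ∧ (e : ℝ) ≤ C * √X ∧ p ∈ Fe X (X ^ ((15 : ℝ) / 4)) e}.ncard : ℕ) : ℝ) ≤
      C' * X ^ ((37 : ℝ) / 8)

/-! ## Assembly -/

/-- What a small point outside `2 E(ℚ)` gives: a small denominator, or a form of `GW`. -/
def Alt (C : ℝ) : Prop := ∀ (X M θ : ℝ) (A B : ℤ) (P : (W A B).toAffine.Point) (x y : ℚ), 1 ≤ X → 0 ≤ θ →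
  |(A : ℝ)| ≤ X ^ 2 → |(B : ℝ)| ≤ X ^ 3 → X ^ (6 - θ) < |4 * (A : ℝ) ^ 3 + 27 * (B : ℝ) ^ 2| → IsXY A B P x y →
  (∀ R : (W A B).toAffine.Point, P ≠ R + R) → |(x.num : ℝ)| ≤ M → (x.den : ℝ) * X ≤ M →
  (∃ e : ℕ, 0 < e ∧ (e : ℝ) ≤ C * √X ∧ (A, B) ∈ Fe X M e) ∨
  ∃ f : BQ ℤ, f.I = -48 * A ∧ f.J = -1728 * B ∧ ∃ ω : ℝ, X ^ (-(1 / 4) : ℝ) / C ≤ ω ∧ ω ≤ 2 ∧
    f ∈ GW C X ω ((C * M * X ^ (θ - 2)) ^ ((1 : ℝ) / 4))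

/-- [M1] (MEDIUM, use the hypotheses) PROOF. `x = a / e²`, `y = b / e³` with S_RT (`y = ± b / e³`; change the sign of `b`). `f = BQ.mk (e²) (4 s) (-6 α) β γ` from S_QF, S_IJ. S_RE gives `(x', y'; z', w')` and
`ω`, `f' = f.act x' y' z' w'`, `Bw (64000 X) ω f'`, `f'.I = -48 A`, `f'.J = -1728 B`. `f'.a = f.ev x' z' ≠ 0` (S_NZ), so `1 ≤ 64000 X ω⁴` and `ω ≥ X^(-1/4) / 64000`. `v = (w', -z')`: `f'.ev w' (-z') = f.ev 1 0 = e²`,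
`f'.Hs w' (-z') = -48 a`, coprime. If `z' = 0`: `w' = ±1`, `e² = f'.a ≤ 64000 X ω⁴ ≤ 1024000 X`: the first alternative. If `z' ≠ 0`: S_DG with `K = 64000 X` for
`F = (toR f').act (1/ω) 0 0 ω` (`Bd (64000 X)`) at `(w' ω, -z' / ω)`: `|4 I³ - J²| = 110592 |4 A³ + 27 B²| > 110592 X^(6 - θ)`, so with `ρ² = (w' ω)² + (z' / ω)²`:
`110592 X^(6 - θ) ρ⁴ ≤ C₁ (64000 X)⁴ (64000 X e² + 48 |a|) ≤ C₂ X⁴ M` and `ρ ≤ (C M X^(θ - 2))^(1/4)`. `C = max(64000, 1024, C₂)`; all conditions are monotone in `C`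
(`Bw`, `X^(-1/4) / C ≤ ω`). -/
def S_M1 : Prop := S_RT → S_QF → S_IJ → S_HV → S_NZ →
  (∀ (X : ℝ) (f : BQ ℤ), 1 ≤ X → 0 < f.a → |(f.I : ℝ)| ≤ 48 * X ^ 2 → |(f.J : ℝ)| ≤ 1728 * X ^ 3 →
    ∃ x y z w : ℤ, x * w - y * z = 1 ∧ ∃ ω : ℝ, 0 < ω ∧ ω ≤ 2 ∧ Bw (64000 * X) ω (toR (f.act x y z w))) →
  S_DG → ∃ C : ℝ, 1 ≤ C ∧ Alt C

/-- [M2] (MEDIUM, use the hypotheses) PROOF. `Sg κ H` is monotone in `κ` for `H ≥ 1`, so let `3/5 ≤ κ < 37/60`. `X = H^(1/6)`, `M = H^κ = X^(6 κ)`, `δ = 37/10 - 6 κ ∈ (0, 1/10]`, `θ = 3/10 + δ/2`; `M ≤ X^(15/4)`.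
`|A| ≤ X²`, `|B| ≤ X³` from `ht ≤ H`. The pairs with `|4 A³ + 27 B²| ≤ X^(6 - θ)` are at most `C X^(5 - 5 θ/6) = C X^(19/4 - 5 δ / 12)` (S_DC); by `Alt C` the others lie in the set of S_Z0 (`Fe` is monotone in `M`), or come from a form
of the set of S_CU with `R = (C M X^(θ - 2))^(1/4) = C^(1/4) X^(1/2 - δ/8) ≥ 1`, and `2 R ≤ √X` for `X ≥ X₀`; the pair is determined by the form (`A = -I / 48`, `B = -J / 1728`). So for `X ≥ X₀` at most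
`C X^(19/4 - 5 δ/12) + C X^(37/8) + C (1 + log X) (X^(9/2) (1 + log X)² + X^(19/4 - δ/8)) ≤ C' X^(19/4 - δ/9)`; for `X < X₀` the box is finite with at most `9 X₀⁵` pairs. `η = δ / 54`. -/
def S_M2 : Prop := (∃ C : ℝ, 1 ≤ C ∧ Alt C) →
  (∀ C : ℝ, 1 ≤ C → ∃ C' : ℝ, 0 < C' ∧ ∀ X R : ℝ, 1 ≤ X → 1 ≤ R → 2 * R ≤ √X →
    {f : BQ ℤ | ∃ ω : ℝ, X ^ (-(1 / 4) : ℝ) / C ≤ ω ∧ ω ≤ 2 ∧ f ∈ GW C X ω R}.Finite ∧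
    (({f : BQ ℤ | ∃ ω : ℝ, X ^ (-(1 / 4) : ℝ) / C ≤ ω ∧ ω ≤ 2 ∧ f ∈ GW C X ω R}.ncard : ℕ) : ℝ) ≤
      C' * (1 + Real.log X) * (X ^ ((9 : ℝ) / 2) * (1 + Real.log X) ^ 2 + X ^ ((17 : ℝ) / 4) * R)) →
  S_DC →
  (∀ C : ℝ, 1 ≤ C → ∃ C' : ℝ, 0 < C' ∧ ∀ X : ℝ, 1 ≤ X →
    (({p : ℤ × ℤ | ∃ e : ℕ, 0 < e ∧ (e : ℝ) ≤ C * √X ∧ p ∈ Fe X (X ^ ((15 : ℝ) / 4)) e}.ncard : ℕ) : ℝ) ≤
      C' * X ^ ((37 : ℝ) / 8)) →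
  ∀ κ : ℝ, κ < 37 / 60 → ∃ η > (0 : ℝ), ∃ C > (0 : ℝ), ∀ H : ℝ, 1 ≤ H →
    (({p : ℤ × ℤ | 4 * p.1 ^ 3 + 27 * p.2 ^ 2 ≠ 0 ∧ ht p.1 p.2 ≤ H ∧ Sg κ H p.1 p.2}.ncard : ℕ) : ℝ) ≤
      C * H ^ ((19 : ℝ) / 24 - η)

/-- [FG] (EASY if you know `SP/I_FN.lean`: the same proof, `Sg` instead of `Sm`; `Cur` contains `4 A³ + 27 B² ≠ 0`.) -/
def S_FG : Prop :=
  (∀ κ : ℝ, κ < 37 / 60 → ∃ η > (0 : ℝ), ∃ C > (0 : ℝ), ∀ H : ℝ, 1 ≤ H →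
    (({p : ℤ × ℤ | 4 * p.1 ^ 3 + 27 * p.2 ^ 2 ≠ 0 ∧ ht p.1 p.2 ≤ H ∧ Sg κ H p.1 p.2}.ncard : ℕ) : ℝ) ≤
      C * H ^ ((19 : ℝ) / 24 - η)) →
  ∀ (w : ℤ → ℤ → ℤ) (κ : ℝ), κ < 37 / 60 → ∀ c : ℝ,
    Tendsto (fun H : ℝ => ((SN w H).ncard : ℝ) / ord H) atTop (𝓝 c) ↔
      Tendsto (fun H : ℝ => ((SSg w κ H).ncard : ℝ) / ord H) atTop (𝓝 c)

end Pool.Agent.Work.MP_bd3ec3_nt.SG
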