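import Pool.Agent.Work.MP_bd3ec3_nt.SG.StmtsV

/-!
# MP_bd3ec3_nt, block SG, final form: every exponent `κ < 1`

New: the classes with `ω ≤ X^(-ν)` are at most `X^(5 - 2 ν)` (no square value needed), and `R` may be larger than `X`.
-/

set_option autoImplicit false

namespace Pool.Agent.Work.MP_bd3ec3_nt.SG

open Pool.Agent.Work.MP_bd3ec3_nt.SP Filter Topology

/-- [KX] (MEDIUM; adapt `I_CX.lean`) PROOF. As S_CX, without `R ≤ X`: `T = 16 C X / r > 0` is arbitrary. For `ω ≤ 2`: `(1 + T ω)(1 + T ω³) ≤ 1 + 5 T ω + T² ω⁴`,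
`(1 + T / ω)(1 + T / ω³) ≤ 1 + 5 T / ω³ + T² / ω⁴`, and the product of both is at most `1 + 85 T / ω³ + 357 T² / ω⁴ + 85 T³ / ω³ + T⁴`. Take the bound `E` for the number of the `e` for the first three summands
and `√(5 C X) r²` for the last two: for fixed `(x, z)` at most `C'' (E + E X r⁻¹ ω⁻³ + E X² r⁻² ω⁻⁴ + X^(7/2) r⁻¹ ω⁻³ + X^(9/2) r⁻²)`. Sum over `(x, z)`: `∑ 1 ≤ (2 R/ω + 1) 2 R ω ≤ 8 R²` (only if `R ω ≥ 1`, otherwise there is no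
`z`), `∑ r⁻¹ ≤ 16 R + 4`, `∑ r⁻² ≤ C (1 + log X)²` (`log (R / ω) ≤ C (1 + log X)` as `R ≤ X²`). -/
def S_KX : Prop :=
  (∀ (K ω r : ℝ) (x z n : ℤ), 0 < K → 0 < ω → IsCoprime x z → r = max (|(x : ℝ)| * ω) (|(z : ℝ)| / ω) →
    {f : BQ ℤ | Bw K ω (toR f) ∧ f.ev x z = n}.Finite ∧
    (({f : BQ ℤ | Bw K ω (toR f) ∧ f.ev x z = n}.ncard : ℕ) : ℝ) ≤
      (1 + 16 * K * ω ^ 3 / r) * (1 + 16 * K * ω / r) * (1 + 16 * K / (ω * r)) * (1 + 16 * K / (ω ^ 3 * r))) →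
  ∀ C : ℝ, 1 ≤ C → ∃ C' : ℝ, 0 < C' ∧ ∀ X ω R E : ℝ, 1 ≤ X → X ^ (-(1 / 4) : ℝ) / C ≤ ω → ω ≤ 2 → 1 ≤ R →
    R ≤ X ^ 2 → 1 ≤ E → (GX C X ω R E).Finite ∧
    ((GX C X ω R E).ncard : ℝ) ≤ C' * (E * R ^ 2 + E * X * R / ω ^ 3 + E * X ^ 2 / ω ^ 4 * (1 + Real.log X) ^ 2 +
      X ^ ((7 : ℝ) / 2) * R / ω ^ 3 + X ^ ((9 : ℝ) / 2) * (1 + Real.log X) ^ 2)

/-- [KY] (MEDIUM; copy of `I_CY.lean`) The translates. PROOF. As S_CY: `PX.ncard * ω⁻² / 4 ≤ (GX (10 C) X ω (2 R) E).ncard`; keep the powers of `ω`. -/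
def S_KY : Prop :=
  (∀ C : ℝ, 1 ≤ C → ∃ C' : ℝ, 0 < C' ∧ ∀ X ω R E : ℝ, 1 ≤ X → X ^ (-(1 / 4) : ℝ) / C ≤ ω → ω ≤ 2 → 1 ≤ R →
    R ≤ X ^ 2 → 1 ≤ E → (GX C X ω R E).Finite ∧
    ((GX C X ω R E).ncard : ℝ) ≤ C' * (E * R ^ 2 + E * X * R / ω ^ 3 + E * X ^ 2 / ω ^ 4 * (1 + Real.log X) ^ 2 +
      X ^ ((7 : ℝ) / 2) * R / ω ^ 3 + X ^ ((9 : ℝ) / 2) * (1 + Real.log X) ^ 2)) →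
  ∀ C : ℝ, 1 ≤ C → ∃ C' : ℝ, 0 < C' ∧ ∀ X ω R E : ℝ, 1 ≤ X → X ^ (-(1 / 4) : ℝ) / C ≤ ω → ω ≤ 2 → 1 ≤ R →
    2 * R ≤ X ^ 2 → 1 ≤ E → (PX C X ω R E).Finite ∧
    ((PX C X ω R E).ncard : ℝ) ≤ C' * (E * R ^ 2 + E * X * R / ω + E * X ^ 2 / ω ^ 2 * (1 + Real.log X) ^ 2 +
      X ^ ((7 : ℝ) / 2) * R / ω + X ^ ((9 : ℝ) / 2) * (1 + Real.log X) ^ 2)

/-- [KC] (MEDIUM; the translates of `I_CY.lean`) The cusp. PROOF. `f.a ≠ 0` gives `1 ≤ C X ω⁴`. The number of the forms with `Bw (10 C X) ω` is at most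
`∏ (20 C X ω^(4 - 2 i) + 1) ≤ C'' X⁵` (`i = 0..4`; every factor is at most `21 C X ω^(4 - 2 i) · const`, since `C X ω⁴ ≥ 1`, `ω ≤ 2`). Every `p` of the set has at least `ω⁻² / 4` translates
`f.act 1 k 0 1`, `|k| ≤ ω⁻²`, in this box (see S_CY), all these forms are different, also for different `p`. So the set has at most `4 ω² C'' X⁵` elements. -/
def S_KC : Prop := ∀ C : ℝ, 1 ≤ C → ∃ C' : ℝ, 0 < C' ∧ ∀ X ω : ℝ, 1 ≤ X → 0 < ω → ω ≤ 2 →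
  {p : ℤ × ℤ | ∃ f : BQ ℤ, f.I = -48 * p.1 ∧ f.J = -1728 * p.2 ∧ f.a ≠ 0 ∧ Bw (C * X) ω (toR f)}.Finite ∧
  (({p : ℤ × ℤ | ∃ f : BQ ℤ, f.I = -48 * p.1 ∧ f.J = -1728 * p.2 ∧ f.a ≠ 0 ∧ Bw (C * X) ω (toR f)}.ncard : ℕ) : ℝ) ≤
    C' * X ^ 5 * ω ^ 2

/-- [KU] (MEDIUM; copy of `I_CV.lean`) The union over `ω`. PROOF. As S_CV: `ω_k = 2 / 2^k ≤ ω < 2 ω_k`, `PX C X ω R E ⊆ PX (16 C) X ω_k (2 R) E`, at most `C'' (1 + log X)` values of `k`. For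
`ω_k ≤ X^(-ν)` use S_KC (`PX (16 C) .. ⊆` the set of S_KC with `16 C`): at most `C' X^(5 - 2 ν)`. For `ω_k > X^(-ν)` use S_KY with `1 / ω_k < X^ν`. -/
def S_KU : Prop :=
  (∀ C : ℝ, 1 ≤ C → ∃ C' : ℝ, 0 < C' ∧ ∀ X ω R E : ℝ, 1 ≤ X → X ^ (-(1 / 4) : ℝ) / C ≤ ω → ω ≤ 2 → 1 ≤ R →
    2 * R ≤ X ^ 2 → 1 ≤ E → (PX C X ω R E).Finite ∧
    ((PX C X ω R E).ncard : ℝ) ≤ C' * (E * R ^ 2 + E * X * R / ω + E * X ^ 2 / ω ^ 2 * (1 + Real.log X) ^ 2 +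
      X ^ ((7 : ℝ) / 2) * R / ω + X ^ ((9 : ℝ) / 2) * (1 + Real.log X) ^ 2)) → S_KC →
  ∀ C : ℝ, 1 ≤ C → ∃ C' : ℝ, 0 < C' ∧ ∀ X R E ν : ℝ, 1 ≤ X → 1 ≤ R → 4 * R ≤ X ^ 2 → 1 ≤ E → 0 ≤ ν →
    {p : ℤ × ℤ | ∃ ω : ℝ, X ^ (-(1 / 4) : ℝ) / C ≤ ω ∧ ω ≤ 2 ∧ p ∈ PX C X ω R E}.Finite ∧
    (({p : ℤ × ℤ | ∃ ω : ℝ, X ^ (-(1 / 4) : ℝ) / C ≤ ω ∧ ω ≤ 2 ∧ p ∈ PX C X ω R E}.ncard : ℕ) : ℝ) ≤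
      C' * (1 + Real.log X) * (X ^ (5 - 2 * ν) + E * R ^ 2 + E * X * R * X ^ ν +
        E * X ^ 2 * X ^ (2 * ν) * (1 + Real.log X) ^ 2 + X ^ ((7 : ℝ) / 2) * R * X ^ ν +
        X ^ ((9 : ℝ) / 2) * (1 + Real.log X) ^ 2)

/-- [K2] (MEDIUM; adapt `I_N2.lean`) PROOF. `Sg κ H` is monotone in `κ` for `H ≥ 1`, so let `4/5 ≤ κ < 1`. `X = H^(1/6)`, `M = H^κ = X^(6 κ)`, `δ = 6 - 6 κ ∈ (0, 6/5]`, `θ = 2/5`, `ν = 1/8 + μ`,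
`μ = δ / 200`. The pairs with `|4 A³ + 27 B²| ≤ X^(28/5)` are at most `C X^(14/3)` (S_DC). By `Alt2 C` the others are in the set of S_Z0 (for `C X² ≤ X^(15/4)`), at most `C X^(37/8)`, or in the set of S_KU with
`R = (C M X^(-8/5))^(1/4) = C^(1/4) X^(11/10 - δ/4) ≥ 1`, `4 R ≤ X²` for `X ≥ X₀`, and `E = √(M / X) = X^(5/2 - δ/2) ≥ 1`. The exponents of the terms of S_KU: `5 - 2 ν = 19/4 - 2 μ`;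
`E R²`: `47/10 - δ`; `E X R X^ν`: `5/2 - δ/2 + 1 + 11/10 - δ/4 + 1/8 + μ = 189/40 - 3 δ/4 + μ`; `E X² X^(2 ν)`: `19/4 - δ/2 + 2 μ`; `X^(7/2) R X^ν`: `189/40 - δ/4 + μ`; `9/2`. All are at most `19/4 - 2 μ` or
smaller by a constant (`μ ≤ 3/500`), and the powers of `1 + log X` cost `X^μ`: everything is at most `C X^(19/4 - μ)`; `η = μ / 6`. For `X < X₀` the box is finite. -/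
def S_K2 : Prop := (∃ C : ℝ, 1 ≤ C ∧ Alt2 C) →
  (∀ C : ℝ, 1 ≤ C → ∃ C' : ℝ, 0 < C' ∧ ∀ X R E ν : ℝ, 1 ≤ X → 1 ≤ R → 4 * R ≤ X ^ 2 → 1 ≤ E → 0 ≤ ν →
    {p : ℤ × ℤ | ∃ ω : ℝ, X ^ (-(1 / 4) : ℝ) / C ≤ ω ∧ ω ≤ 2 ∧ p ∈ PX C X ω R E}.Finite ∧
    (({p : ℤ × ℤ | ∃ ω : ℝ, X ^ (-(1 / 4) : ℝ) / C ≤ ω ∧ ω ≤ 2 ∧ p ∈ PX C X ω R E}.ncard : ℕ) : ℝ) ≤
      C' * (1 + Real.log X) * (X ^ (5 - 2 * ν) + E * R ^ 2 + E * X * R * X ^ ν +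
        E * X ^ 2 * X ^ (2 * ν) * (1 + Real.log X) ^ 2 + X ^ ((7 : ℝ) / 2) * R * X ^ ν +
        X ^ ((9 : ℝ) / 2) * (1 + Real.log X) ^ 2)) →
  S_DC →
  (∀ C : ℝ, 1 ≤ C → ∃ C' : ℝ, 0 < C' ∧ ∀ X : ℝ, 1 ≤ X →
    (({p : ℤ × ℤ | ∃ e : ℕ, 0 < e ∧ (e : ℝ) ≤ C * √X ∧ p ∈ Fe X (X ^ ((15 : ℝ) / 4)) e}.ncard : ℕ) : ℝ) ≤
      C' * X ^ ((37 : ℝ) / 8)) →
  ∀ κ : ℝ, κ < 1 → ∃ η > (0 : ℝ), ∃ C > (0 : ℝ), ∀ H : ℝ, 1 ≤ H →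
    (({p : ℤ × ℤ | 4 * p.1 ^ 3 + 27 * p.2 ^ 2 ≠ 0 ∧ ht p.1 p.2 ≤ H ∧ Sg κ H p.1 p.2}.ncard : ℕ) : ℝ) ≤
      C * H ^ ((19 : ℝ) / 24 - η)

/-- [KL] (EASY-MEDIUM; copy of `I_NL.lean`) All points. PROOF. As S_NL: if `P = Q + Q` then `ω⁴ ≤ 619 X⁶ X^(6 κ) ≤ 619 X^12`, so
`ω ≤ 5 X³ ≤ X^(78/25) = H^(13/25)` for `X ≥ X₀`: `Sm (13/25) H A B`, and `13/25 < 13/24`. -/
def S_KL : Prop := S_DV → S_DQ →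
  (∀ κ : ℝ, κ < 13 / 24 → ∃ η > (0 : ℝ), ∃ C > (0 : ℝ), ∀ H : ℝ, 1 ≤ H →
    (({p : ℤ × ℤ | ht p.1 p.2 ≤ H ∧ Sm κ H p.1 p.2}.ncard : ℕ) : ℝ) ≤ C * H ^ ((19 : ℝ) / 24 - η)) →
  (∀ κ : ℝ, κ < 1 → ∃ η > (0 : ℝ), ∃ C > (0 : ℝ), ∀ H : ℝ, 1 ≤ H →
    (({p : ℤ × ℤ | 4 * p.1 ^ 3 + 27 * p.2 ^ 2 ≠ 0 ∧ ht p.1 p.2 ≤ H ∧ Sg κ H p.1 p.2}.ncard : ℕ) : ℝ) ≤
      C * H ^ ((19 : ℝ) / 24 - η)) →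
  ∀ κ : ℝ, κ < 1 → ∃ η > (0 : ℝ), ∃ C > (0 : ℝ), ∀ H : ℝ, 1 ≤ H →
    (({p : ℤ × ℤ | 4 * p.1 ^ 3 + 27 * p.2 ^ 2 ≠ 0 ∧ ht p.1 p.2 ≤ H ∧ Sm κ H p.1 p.2}.ncard : ℕ) : ℝ) ≤
      C * H ^ ((19 : ℝ) / 24 - η)

/-- [KF] (EASY, copy of `I_NF.lean`.) -/
def S_KF : Prop :=
  (∀ κ : ℝ, κ < 1 → ∃ η > (0 : ℝ), ∃ C > (0 : ℝ), ∀ H : ℝ, 1 ≤ H →
    (({p : ℤ × ℤ | 4 * p.1 ^ 3 + 27 * p.2 ^ 2 ≠ 0 ∧ ht p.1 p.2 ≤ H ∧ Sm κ H p.1 p.2}.ncard : ℕ) : ℝ) ≤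
      C * H ^ ((19 : ℝ) / 24 - η)) →
  ∀ (w : ℤ → ℤ → ℤ) (κ : ℝ), κ < 1 → ∀ c : ℝ,
    Tendsto (fun H : ℝ => ((SN w H).ncard : ℝ) / ord H) atTop (𝓝 c) ↔
      Tendsto (fun H : ℝ => ((SS w κ H).ncard : ℝ) / ord H) atTop (𝓝 c)

end Pool.Agent.Work.MP_bd3ec3_nt.SG
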