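import Pool.Agent.Work.MP_bd3ec3_nt.SG.Stmts

/-!
# MP_bd3ec3_nt, block SG, last part: ALL rational points, exponent `37/60`

If `P = 2 Q` is small then `Q` is very small (duplication formula), and S_MN of block SP applies to `Q`.
-/

set_option autoImplicit false

namespace Pool.Agent.Work.MP_bd3ec3_nt.SG

open Pool.Agent.Work.MP_bd3ec3_nt.SP Filter Topology

/-- [DU] (MEDIUM) Duplication and heights. PROOF. `Δ = 4 A³ + 27 B²`, `N = u⁴ - 2 A u² v² - 8 B u v³ + A² v⁴`, `D = 4 (u³ v + A u v³ + B v⁴)`. Identities (`ring`):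
`(12 u² v + 16 A v³) N - (3 u³ - 5 A u v² - 27 B v³) D = 4 Δ v⁷` and
`(4 Δ u³ - 4 A² B u² v + 4 A (3 A³ + 22 B²) u v² + 12 B (A³ + 8 B²) v³) N + (A² B u³ + A (5 A³ + 32 B²) u² v + 2 B (13 A³ + 96 B²) u v² - 3 A² (A³ + 8 B²) v³) D = 4 Δ u⁷`.
So `g = gcd(N, D)` divides `4 Δ v⁷` and `4 Δ u⁷`, hence `4 Δ` (`u`, `v` coprime), `g ≤ 4 · 31 X⁶`. With `ω = max(|u|, v X)`: `|A| ≤ X²`, `|B| ≤ X³`, `v ≤ ω / X`, so the first identity gives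
`4 |Δ| v⁷ ≤ 28 (ω³ / X) |N| + 35 ω³ |D| ≤ 63 (ω³ / X) m`, `m = max(|N|, X |D|)`, and the second `4 |Δ| |u|⁷ ≤ 336 X⁶ ω³ |N| + 283 X⁷ ω³ |D| ≤ 619 X⁶ ω³ m`. According to `ω = v X` or `ω = |u|`:
`4 |Δ| ω⁴ ≤ 619 X⁶ m`. Finally `m = g max(|num x|, X den x)` for `x = N / D`. (`619 · 124 / 4 = 19189`.) -/
def S_DU : Prop := ∀ (X : ℝ) (A B u v : ℤ) (x : ℚ), 1 ≤ X → 0 < v → IsCoprime u v → |(A : ℝ)| ≤ X ^ 2 → |(B : ℝ)| ≤ X ^ 3 →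
  4 * A ^ 3 + 27 * B ^ 2 ≠ 0 → 4 * (u ^ 3 * v + A * u * v ^ 3 + B * v ^ 4) ≠ 0 →
  x * (4 * (u ^ 3 * v + A * u * v ^ 3 + B * v ^ 4) : ℤ) = (u ^ 4 - 2 * A * u ^ 2 * v ^ 2 - 8 * B * u * v ^ 3 + A ^ 2 * v ^ 4 : ℤ) →
  |4 * (A : ℝ) ^ 3 + 27 * (B : ℝ) ^ 2| * (max |(u : ℝ)| (v * X)) ^ 4 ≤ 20000 * X ^ 12 * max |(x.num : ℝ)| (x.den * X)

/-- [DQ] (MEDIUM, group law) PROOF. `Q` is not zero (`P` is not), `Q = (x', y')`, `y' ≠ 0` (otherwise `Q + Q = 0`), the slope is `(3 x'² + A) / (2 y')`, `x = slope² - 2 x'`, `y'² = x'³ + A x' + B`.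
(Compare `LB/I_DB.lean`.) -/
def S_DQ : Prop := ∀ (A B : ℤ) (P Q : (W A B).toAffine.Point) (x y : ℚ), P = Q + Q → IsXY A B P x y →
  ∃ x' y' : ℚ, IsXY A B Q x' y' ∧ y' ^ 2 = x' ^ 3 + A * x' + B ∧ x' ^ 3 + A * x' + B ≠ 0 ∧
    x * (4 * (x' ^ 3 + A * x' + B)) = x' ^ 4 - 2 * A * x' ^ 2 - 8 * B * x' + A ^ 2

/-- [AL] (MEDIUM, use the hypotheses; the last two are the conclusions of S_MN and S_M2) All points. PROOF. `Sm κ H` is monotone in `κ` (`H ≥ 1`), so let `3/5 ≤ κ < 37/60`; `X = H^(1/6)`. Let `p = (A, B)` be in the set, with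
the point `(x, y)`; `P = (x, y)` is nonsingular (`4 A³ + 27 B² ≠ 0`: `WeierstrassCurve.Affine.equation_iff_nonsingular_of_Δ_ne_zero`). If `P ≠ R + R` for all `R` then `Sg κ H A B`. Otherwise `P = Q + Q`, S_DQ,
`u = num x'`, `v = den x'`: S_DU (multiply the last equation of S_DQ by `v⁴`) gives `|4 A³ + 27 B²| ω⁴ ≤ 20000 X^12 X^(6 κ)`, `ω = max(|u|, v X)`. If `|4 A³ + 27 B²| > X^(11/2)` then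
`ω⁴ ≤ 20000 X^(12 - 11/2 + 37/10) = 20000 X^(51/5)`, so `ω ≤ 12 X^(51/20) ≤ X³ = H^(1/2)` for `X ≥ X₀`: `Sm (1/2) H A B`, and `1/2 < 13/24`. So for `X ≥ X₀` the set is contained in the union of the sets of
`Sg κ`, of `Sm (1/2)` and of S_DC with `θ = 1/2` (at most `C X^(55/12) = C H^(55/72)`, `55/72 < 19/24`). For `X < X₀`: a finite box. Take the smallest of the three `η`. -/
def S_AL : Prop := S_DU → S_DQ → S_DC →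
  (∀ κ : ℝ, κ < 13 / 24 → ∃ η > (0 : ℝ), ∃ C > (0 : ℝ), ∀ H : ℝ, 1 ≤ H →
    (({p : ℤ × ℤ | ht p.1 p.2 ≤ H ∧ Sm κ H p.1 p.2}.ncard : ℕ) : ℝ) ≤ C * H ^ ((19 : ℝ) / 24 - η)) →
  (∀ κ : ℝ, κ < 37 / 60 → ∃ η > (0 : ℝ), ∃ C > (0 : ℝ), ∀ H : ℝ, 1 ≤ H →
    (({p : ℤ × ℤ | 4 * p.1 ^ 3 + 27 * p.2 ^ 2 ≠ 0 ∧ ht p.1 p.2 ≤ H ∧ Sg κ H p.1 p.2}.ncard : ℕ) : ℝ) ≤
      C * H ^ ((19 : ℝ) / 24 - η)) →
  ∀ κ : ℝ, κ < 37 / 60 → ∃ η > (0 : ℝ), ∃ C > (0 : ℝ), ∀ H : ℝ, 1 ≤ H →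
    (({p : ℤ × ℤ | 4 * p.1 ^ 3 + 27 * p.2 ^ 2 ≠ 0 ∧ ht p.1 p.2 ≤ H ∧ Sm κ H p.1 p.2}.ncard : ℕ) : ℝ) ≤
      C * H ^ ((19 : ℝ) / 24 - η)

/-- [F3] (EASY, copy of `SP/I_FN.lean` or `SG/I_FG.lean`; `Cur` contains `4 A³ + 27 B² ≠ 0`.) -/
def S_F3 : Prop :=
  (∀ κ : ℝ, κ < 37 / 60 → ∃ η > (0 : ℝ), ∃ C > (0 : ℝ), ∀ H : ℝ, 1 ≤ H →
    (({p : ℤ × ℤ | 4 * p.1 ^ 3 + 27 * p.2 ^ 2 ≠ 0 ∧ ht p.1 p.2 ≤ H ∧ Sm κ H p.1 p.2}.ncard : ℕ) : ℝ) ≤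
      C * H ^ ((19 : ℝ) / 24 - η)) →
  ∀ (w : ℤ → ℤ → ℤ) (κ : ℝ), κ < 37 / 60 → ∀ c : ℝ,
    Tendsto (fun H : ℝ => ((SN w H).ncard : ℝ) / ord H) atTop (𝓝 c) ↔
      Tendsto (fun H : ℝ => ((SS w κ H).ncard : ℝ) / ord H) atTop (𝓝 c)

end Pool.Agent.Work.MP_bd3ec3_nt.SG
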