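import Pool.Agent.Work.MP_bd3ec3_nt.SG.StmtsT

/-!
# MP_bd3ec3_nt, block SG, strong form: exponent `11/12` for all rational points

Two new ideas: every class has `ω⁻²` translates `f(x + k z, z)` in the same box (so the number of classes is `ω²` times the number of pairs
(form, vector)), and the number of the `e` is at most `√(M / X)`.
-/

set_option autoImplicit false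

namespace Pool.Agent.Work.MP_bd3ec3_nt.SG

open Pool.Agent.Work.MP_bd3ec3_nt.SP Filter Topology

/-- Pairs (form, vector) with a square value `e²`, `e ≤ E`. -/
def GX (C X ω R E : ℝ) : Set (BQ ℤ × ℤ × ℤ) := {t | Bw (C * X) ω (toR t.1) ∧ t.2.2 ≠ 0 ∧ IsCoprime t.2.1 t.2.2 ∧
  (∃ e : ℤ, 0 < e ∧ (e : ℝ) ≤ E ∧ t.1.ev t.2.1 t.2.2 = e ^ 2) ∧
  ((t.2.1 : ℝ) * ω) ^ 2 + ((t.2.2 : ℝ) / ω) ^ 2 ≤ R ^ 2}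

/-- [CX] (MEDIUM-HARD; compare `I_CW.lean`) Counting pairs for fixed `ω`. PROOF. `r = max(|x| ω, |z| / ω)`, `1/2 ≤ r ≤ R ≤ X`. The number of the `e` is at most `E` and at most `√(5 C X) r²`. `T = 16 C X / r ≥ 16`:
`1 + T / ω ≤ 2 T / ω`, `1 + T / ω³ ≤ 2 T / ω³` (as `T / ω³ ≥ 2`), so the product in S_HC is at most `4 T² ω⁻⁴ (1 + T ω) (1 + T ω³) ≤ 4 T² ω⁻⁴ (1 + 5 T ω + T² ω⁴)` (`ω ≤ 2`).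
Take `E` for the first summand and `√(5 C X) r²` for the two others: for fixed `(x, z)` at most `C'' (E X² r⁻² ω⁻⁴ + X^(7/2) r⁻¹ ω⁻³ + X^(9/2) r⁻²)` forms. Sum over `|x| ≤ R / ω`, `1 ≤ |z| ≤ R ω`
as in `I_CW.lean`: `∑ r⁻² ≤ C (1 + log X)²` (`r² ≥ |x| |z|`; `log (R / ω) ≤ C (1 + log X)`; `x = 0` only with `z = ±1`), `∑ r⁻¹ ≤ 16 R + 4`. -/
def S_CX : Prop :=
  (∀ (K ω r : ℝ) (x z n : ℤ), 0 < K → 0 < ω → IsCoprime x z → r = max (|(x : ℝ)| * ω) (|(z : ℝ)| / ω) →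
    {f : BQ ℤ | Bw K ω (toR f) ∧ f.ev x z = n}.Finite ∧
    (({f : BQ ℤ | Bw K ω (toR f) ∧ f.ev x z = n}.ncard : ℕ) : ℝ) ≤
      (1 + 16 * K * ω ^ 3 / r) * (1 + 16 * K * ω / r) * (1 + 16 * K / (ω * r)) * (1 + 16 * K / (ω ^ 3 * r))) →
  ∀ C : ℝ, 1 ≤ C → ∃ C' : ℝ, 0 < C' ∧ ∀ X ω R E : ℝ, 1 ≤ X → X ^ (-(1 / 4) : ℝ) / C ≤ ω → ω ≤ 2 → 1 ≤ R →
    R ≤ X → 1 ≤ E → (GX C X ω R E).Finite ∧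
    ((GX C X ω R E).ncard : ℝ) ≤ C' * (E * X ^ 2 / ω ^ 4 * (1 + Real.log X) ^ 2 + X ^ ((7 : ℝ) / 2) * R / ω ^ 3 +
      X ^ ((9 : ℝ) / 2) * (1 + Real.log X) ^ 2)

/-- The pairs `(A, B)` with a form at `ω`. -/
def PX (C X ω R E : ℝ) : Set (ℤ × ℤ) := {p | ∃ (f : BQ ℤ) (x z : ℤ), f.I = -48 * p.1 ∧ f.J = -1728 * p.2 ∧
  f.a ≠ 0 ∧ (f, x, z) ∈ GX C X ω R E}

/-- [CY] (MEDIUM) The translates. PROOF. Let `p ∈ PX C X ω R E` with `(f, x, z)`. For the integers `k`, `|k| ≤ ω⁻²` (at least `ω⁻² / 4` of them, also for `1 ≤ ω ≤ 2`), let `f_k = f.act 1 k 0 1` (`f(x + k z, z)`) and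
`v_k = (x - k z, z)`: `f_k.ev v_k = f.ev x z`, `f_k.I = f.I`, `f_k.J = f.J`, `f_k.a = f.a`, `Bw (10 C X) ω f_k` (`b + 4 k a`, `c + 3 k b + 6 k² a`, `d + 2 k c + 3 k² b + 4 k³ a`,
`e + k d + k² c + k³ b + k⁴ a`, and `|k| ω² ≤ 1`), `((x - k z) ω)² + (z / ω)² ≤ (|x ω| + |z / ω|)² + (z / ω)² ≤ 4 R²`. So `(f_k, v_k) ∈ GX (10 C) X ω (2 R) E`. The map `(p, k) ↦ (f_k, v_k)` is injective: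
`p` is determined by the invariants, and for given `p` (one chosen `f` with `f.a ≠ 0`) `k` by `b + 4 k a`. So `PX.ncard * ω⁻² / 4 ≤ (GX (10 C) X ω (2 R) E).ncard`, and
`ω² (E X² ω⁻⁴ L² + 2 X^(7/2) R ω⁻³ + X^(9/2) L²) ≤ C'' (E X^(5/2) L² + X^(15/4) R + X^(9/2) L²)`, `L = 1 + log X`, by `ω⁻¹ ≤ C X^(1/4)`, `ω ≤ 2`. -/
def S_CY : Prop :=
  (∀ C : ℝ, 1 ≤ C → ∃ C' : ℝ, 0 < C' ∧ ∀ X ω R E : ℝ, 1 ≤ X → X ^ (-(1 / 4) : ℝ) / C ≤ ω → ω ≤ 2 → 1 ≤ R →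
    R ≤ X → 1 ≤ E → (GX C X ω R E).Finite ∧
    ((GX C X ω R E).ncard : ℝ) ≤ C' * (E * X ^ 2 / ω ^ 4 * (1 + Real.log X) ^ 2 + X ^ ((7 : ℝ) / 2) * R / ω ^ 3 +
      X ^ ((9 : ℝ) / 2) * (1 + Real.log X) ^ 2)) →
  ∀ C : ℝ, 1 ≤ C → ∃ C' : ℝ, 0 < C' ∧ ∀ X ω R E : ℝ, 1 ≤ X → X ^ (-(1 / 4) : ℝ) / C ≤ ω → ω ≤ 2 → 1 ≤ R →
    2 * R ≤ X → 1 ≤ E → (PX C X ω R E).Finite ∧
    ((PX C X ω R E).ncard : ℝ) ≤ C' * (E * X ^ ((5 : ℝ) / 2) * (1 + Real.log X) ^ 2 + X ^ ((15 : ℝ) / 4) * R +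
      X ^ ((9 : ℝ) / 2) * (1 + Real.log X) ^ 2)

/-- [CV] (MEDIUM; copy of `I_CU.lean`) The union over `ω`. PROOF. As S_CU: `ω_k = 2 / 2^k ≤ ω < 2 ω_k`, `PX C X ω R E ⊆ PX (16 C) X ω_k (2 R) E`, at most `C'' (1 + log X)` values of `k`. -/
def S_CV : Prop :=
  (∀ C : ℝ, 1 ≤ C → ∃ C' : ℝ, 0 < C' ∧ ∀ X ω R E : ℝ, 1 ≤ X → X ^ (-(1 / 4) : ℝ) / C ≤ ω → ω ≤ 2 → 1 ≤ R →
    2 * R ≤ X → 1 ≤ E → (PX C X ω R E).Finite ∧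
    ((PX C X ω R E).ncard : ℝ) ≤ C' * (E * X ^ ((5 : ℝ) / 2) * (1 + Real.log X) ^ 2 + X ^ ((15 : ℝ) / 4) * R +
      X ^ ((9 : ℝ) / 2) * (1 + Real.log X) ^ 2)) →
  ∀ C : ℝ, 1 ≤ C → ∃ C' : ℝ, 0 < C' ∧ ∀ X R E : ℝ, 1 ≤ X → 1 ≤ R → 4 * R ≤ X → 1 ≤ E →
    {p : ℤ × ℤ | ∃ ω : ℝ, X ^ (-(1 / 4) : ℝ) / C ≤ ω ∧ ω ≤ 2 ∧ p ∈ PX C X ω R E}.Finite ∧
    (({p : ℤ × ℤ | ∃ ω : ℝ, X ^ (-(1 / 4) : ℝ) / C ≤ ω ∧ ω ≤ 2 ∧ p ∈ PX C X ω R E}.ncard : ℕ) : ℝ) ≤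
      C' * (1 + Real.log X) * (E * X ^ ((5 : ℝ) / 2) * (1 + Real.log X) ^ 2 + X ^ ((15 : ℝ) / 4) * R +
        X ^ ((9 : ℝ) / 2) * (1 + Real.log X) ^ 2)

/-- What a small point outside `2 E(ℚ)` gives. -/
def Alt2 (C : ℝ) : Prop := ∀ (X M θ : ℝ) (A B : ℤ) (P : (W A B).toAffine.Point) (x y : ℚ), 1 ≤ X → 0 ≤ θ →
  |(A : ℝ)| ≤ X ^ 2 → |(B : ℝ)| ≤ X ^ 3 → X ^ (6 - θ) < |4 * (A : ℝ) ^ 3 + 27 * (B : ℝ) ^ 2| → IsXY A B P x y →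
  (∀ R : (W A B).toAffine.Point, P ≠ R + R) → |(x.num : ℝ)| ≤ M → (x.den : ℝ) * X ≤ M →
  (∃ e : ℕ, 0 < e ∧ (e : ℝ) ≤ C * √X ∧ (A, B) ∈ Fe X (C * X ^ 2) e) ∨
  ∃ ω : ℝ, X ^ (-(1 / 4) : ℝ) / C ≤ ω ∧ ω ≤ 2 ∧ (A, B) ∈ PX C X ω ((C * M * X ^ (θ - 2)) ^ ((1 : ℝ) / 4)) (√(M / X))

/-- [N1] (MEDIUM; copy of `I_M1.lean`) PROOF. As S_M1, with two additions. If `z' = 0` then also `-48 a = f'.Hs (±1) 0 = 8 f'.a f'.c - 3 f'.b²`, which is at most `200 (64000 X)²` in absolute value, so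
`|a| ≤ C X²`. If `z' ≠ 0`: the pair `(f', (w', -z'))` is in `GX`: `f'.ev = e²` with `e > 0`, `e ≤ √(M / X)` as `e² X ≤ M`; `f'.a ≠ 0`. -/
def S_N1 : Prop := S_RT → S_QF → S_IJ → S_HV → S_NZ →
  (∀ (X : ℝ) (f : BQ ℤ), 1 ≤ X → 0 < f.a → |(f.I : ℝ)| ≤ 48 * X ^ 2 → |(f.J : ℝ)| ≤ 1728 * X ^ 3 →
    ∃ x y z w : ℤ, x * w - y * z = 1 ∧ ∃ ω : ℝ, 0 < ω ∧ ω ≤ 2 ∧ Bw (64000 * X) ω (toR (f.act x y z w))) →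
  S_DG → ∃ C : ℝ, 1 ≤ C ∧ Alt2 C

/-- [N2] (MEDIUM; compare `I_M2.lean`) PROOF. `Sg κ H` is monotone in `κ` for `H ≥ 1`, so let `4/5 ≤ κ < 11/12`. `X = H^(1/6)`, `M = H^κ = X^(6 κ)`, `δ = 11/2 - 6 κ ∈ (0, 7/10]`, `θ = 2/5`. The pairs with
`|4 A³ + 27 B²| ≤ X^(28/5)` are at most `C X^(14/3)` (S_DC). By `Alt2 C` the others are in the set of S_Z0 (for `C X² ≤ X^(15/4)`), at most `C X^(37/8)`, or in the set of S_CV with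
`R = (C M X^(-8/5))^(1/4) = C^(1/4) X^((39/10 - δ)/4) ≥ 1`, `4 R ≤ X` for `X ≥ X₀`, and `E = √(M / X) = X^(9/4 - δ/2) ≥ 1`: at most
`C (1 + log X) (X^(19/4 - δ/2) (1 + log X)² + X^(189/40 - δ/4) + X^(9/2) (1 + log X)²)`. With `η' = min(δ/4, 1/50)` everything is at most `C X^(19/4 - η')`; `η = η' / 6`. For `X < X₀` the box is finite. -/
def S_N2 : Prop := (∃ C : ℝ, 1 ≤ C ∧ Alt2 C) →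
  (∀ C : ℝ, 1 ≤ C → ∃ C' : ℝ, 0 < C' ∧ ∀ X R E : ℝ, 1 ≤ X → 1 ≤ R → 4 * R ≤ X → 1 ≤ E →
    {p : ℤ × ℤ | ∃ ω : ℝ, X ^ (-(1 / 4) : ℝ) / C ≤ ω ∧ ω ≤ 2 ∧ p ∈ PX C X ω R E}.Finite ∧
    (({p : ℤ × ℤ | ∃ ω : ℝ, X ^ (-(1 / 4) : ℝ) / C ≤ ω ∧ ω ≤ 2 ∧ p ∈ PX C X ω R E}.ncard : ℕ) : ℝ) ≤
      C' * (1 + Real.log X) * (E * X ^ ((5 : ℝ) / 2) * (1 + Real.log X) ^ 2 + X ^ ((15 : ℝ) / 4) * R +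
        X ^ ((9 : ℝ) / 2) * (1 + Real.log X) ^ 2)) →
  S_DC →
  (∀ C : ℝ, 1 ≤ C → ∃ C' : ℝ, 0 < C' ∧ ∀ X : ℝ, 1 ≤ X →
    (({p : ℤ × ℤ | ∃ e : ℕ, 0 < e ∧ (e : ℝ) ≤ C * √X ∧ p ∈ Fe X (X ^ ((15 : ℝ) / 4)) e}.ncard : ℕ) : ℝ) ≤
      C' * X ^ ((37 : ℝ) / 8)) →
  ∀ κ : ℝ, κ < 11 / 12 → ∃ η > (0 : ℝ), ∃ C > (0 : ℝ), ∀ H : ℝ, 1 ≤ H →
    (({p : ℤ × ℤ | 4 * p.1 ^ 3 + 27 * p.2 ^ 2 ≠ 0 ∧ ht p.1 p.2 ≤ H ∧ Sg κ H p.1 p.2}.ncard : ℕ) : ℝ) ≤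
      C * H ^ ((19 : ℝ) / 24 - η)

/-- [DV] (EASY: `IDU.strong` in `I_DU.lean`) -/
def S_DV : Prop := ∀ (X : ℝ) (A B u v : ℤ) (x : ℚ), 1 ≤ X → 0 < v → IsCoprime u v → |(A : ℝ)| ≤ X ^ 2 → |(B : ℝ)| ≤ X ^ 3 →
  4 * A ^ 3 + 27 * B ^ 2 ≠ 0 → 4 * (u ^ 3 * v + A * u * v ^ 3 + B * v ^ 4) ≠ 0 →
  x * (4 * (u ^ 3 * v + A * u * v ^ 3 + B * v ^ 4) : ℤ) = (u ^ 4 - 2 * A * u ^ 2 * v ^ 2 - 8 * B * u * v ^ 3 + A ^ 2 * v ^ 4 : ℤ) →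
  (max |(u : ℝ)| (v * X)) ^ 4 ≤ 619 * X ^ 6 * max |(x.num : ℝ)| (x.den * X)

/-- [NL] (EASY-MEDIUM; copy of `I_AL.lean`, simpler) All points. PROOF. As S_AL with S_DV instead of S_DU and S_DC: if `P = Q + Q` then `ω⁴ ≤ 619 X⁶ X^(6 κ) ≤ 619 X^(23/2)`, so
`ω ≤ 5 X^(23/8) ≤ X³ = H^(1/2)` for `X ≥ X₀`: `Sm (1/2) H A B`. (Let `κ ≥ 4/5` without loss of generality or not at all.) -/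
def S_NL : Prop := S_DV → S_DQ →
  (∀ κ : ℝ, κ < 13 / 24 → ∃ η > (0 : ℝ), ∃ C > (0 : ℝ), ∀ H : ℝ, 1 ≤ H →
    (({p : ℤ × ℤ | ht p.1 p.2 ≤ H ∧ Sm κ H p.1 p.2}.ncard : ℕ) : ℝ) ≤ C * H ^ ((19 : ℝ) / 24 - η)) →
  (∀ κ : ℝ, κ < 11 / 12 → ∃ η > (0 : ℝ), ∃ C > (0 : ℝ), ∀ H : ℝ, 1 ≤ H →
    (({p : ℤ × ℤ | 4 * p.1 ^ 3 + 27 * p.2 ^ 2 ≠ 0 ∧ ht p.1 p.2 ≤ H ∧ Sg κ H p.1 p.2}.ncard : ℕ) : ℝ) ≤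
      C * H ^ ((19 : ℝ) / 24 - η)) →
  ∀ κ : ℝ, κ < 11 / 12 → ∃ η > (0 : ℝ), ∃ C > (0 : ℝ), ∀ H : ℝ, 1 ≤ H →
    (({p : ℤ × ℤ | 4 * p.1 ^ 3 + 27 * p.2 ^ 2 ≠ 0 ∧ ht p.1 p.2 ≤ H ∧ Sm κ H p.1 p.2}.ncard : ℕ) : ℝ) ≤
      C * H ^ ((19 : ℝ) / 24 - η)

/-- [NF] (EASY, copy of `I_F3.lean`.) -/
def S_NF : Prop :=
  (∀ κ : ℝ, κ < 11 / 12 → ∃ η > (0 : ℝ), ∃ C > (0 : ℝ), ∀ H : ℝ, 1 ≤ H →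
    (({p : ℤ × ℤ | 4 * p.1 ^ 3 + 27 * p.2 ^ 2 ≠ 0 ∧ ht p.1 p.2 ≤ H ∧ Sm κ H p.1 p.2}.ncard : ℕ) : ℝ) ≤
      C * H ^ ((19 : ℝ) / 24 - η)) →
  ∀ (w : ℤ → ℤ → ℤ) (κ : ℝ), κ < 11 / 12 → ∀ c : ℝ,
    Tendsto (fun H : ℝ => ((SN w H).ncard : ℝ) / ord H) atTop (𝓝 c) ↔
      Tendsto (fun H : ℝ => ((SS w κ H).ncard : ℝ) / ord H) atTop (𝓝 c)

end Pool.Agent.Work.MP_bd3ec3_nt.SG
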